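import Pool.Agent.Y714.MA.LimF3

set_option autoImplicit false
set_option linter.unusedSectionVars false
set_option linter.unusedSimpArgs false
set_option linter.unusedVariables false

/-! Continuous functions on the spaces of stable configurations over the completions. -/

namespace Pool.Agent.Y714.MA

open Finset Filter Topology Pool.Agent.Y714.ML

section

variable {I : Type} [Fintype I] [DecidableEq I] {X : Type} (dd : Dat I X)

/-- a continuous twist -/
def IsTws (F : X → ℝ) : Prop := ∃ a b : ℝ, 0 < a ∧ (∀ t ∈ dd.U, a ≤ F t ∧ F t ≤ b) ∧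
  ∀ η : ℝ, 0 < η → ∀ r : ℝ, 0 < r → ∃ P1 H1 : ℕ, ∀ P H : ℕ, P1 ≤ P → H1 ≤ H →
    ∀ (i : I) (w w' : I → ℤ × ℤ) (z z' : I → ℝ), RP i z w → RP i z' w' → Sep r i z → Sep r i z' →
    (∀ l, l ≠ i → |z l - z' l| ≤ 2 / H) → Good (tht dd.o) w → Good (tht dd.o) w' →
    Cg P.factorial w w' → F (dd.g w) ≤ (1 + η) * F (dd.g w')

variable {dd}

/-- elements in real position have nonvanishing determinants -/
theorem RP.ne {i : I} {z : I → ℝ} {w : I → ℤ × ℤ} {r : ℝ} (hr : 0 < r) (h : RP i z w)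
    (hs : Sep r i z) (a b : I) (hab : a ≠ b) : dt (w a) (w b) ≠ 0 := by
  obtain ⟨h0, x, Λ, hΛ, h1⟩ := h
  by_cases ha : a = i
  · have hb : b ≠ i := fun hb => hab (ha.trans hb.symm)
    rw [ha, h0]
    unfold dt
    have := (h1 b hb).1
    simp
    omega
  · by_cases hb : b = i
    · rw [hb, h0]
      unfold dt
      have := (h1 a ha).1
      simp
      omega
    · obtain ⟨p1, e1⟩ := h1 a ha
      obtain ⟨p2, e2⟩ := h1 b hb
      intro hcon
      have h3 : ((dt (w a) (w b) : ℤ) : ℝ) = 0 := by rw [hcon]; simp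
      unfold dt at h3
      push_cast at h3
      rw [e1, e2] at h3
      have h4 : ((w a).2 : ℝ) * (w b).2 * Λ * (z a - z b) = 0 := by linarith
      have p1' : (0 : ℝ) < (w a).2 := by exact_mod_cast p1
      have p2' : (0 : ℝ) < (w b).2 := by exact_mod_cast p2
      have h5 : z a - z b = 0 := by
        rcases mul_eq_zero.1 h4 with h | h
        · exact absurd h (by positivity)
        · exact h
      have := hs.2 a b ha hb hab
      rw [h5, abs_zero] at this
      linarith

theorem IsTws.pos_b {a b : ℝ} {F : X → ℝ} {t : X} (ha : 0 < a) (h : a ≤ F t ∧ F t ≤ b) : 0 < b := by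
  linarith [h.1, h.2]

theorem isTws_one : IsTws dd (fun _ => 1) := by
  refine ⟨1, 1, one_pos, fun t _ => ⟨le_rfl, le_rfl⟩, fun η hη r hr => ⟨0, 0, ?_⟩⟩
  intro P H _ _ i w w' z z' _ _ _ _ _ _ _ _
  linarith

theorem IsTws.mul {F G : X → ℝ} (hF : IsTws dd F) (hG : IsTws dd G) :
    IsTws dd (fun t => F t * G t) := by
  obtain ⟨a, b, ha, h1, h2⟩ := hF
  obtain ⟨a', b', ha', h1', h2'⟩ := hG
  refine ⟨a * a', b * b', mul_pos ha ha', fun t ht => ?_, fun η hη r hr => ?_⟩
  · obtain ⟨g1, g2⟩ := h1 t ht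
    obtain ⟨g1', g2'⟩ := h1' t ht
    exact ⟨mul_le_mul g1 g1' ha'.le (by linarith), mul_le_mul g2 g2' (by linarith) (by linarith)⟩
  · obtain ⟨η', hη', hη2⟩ : ∃ η' : ℝ, 0 < η' ∧ (1 + η') * (1 + η') ≤ 1 + η := by
      refine ⟨min 1 (η / 3), lt_min one_pos (by linarith), ?_⟩
      have e1 : min 1 (η / 3) ≤ 1 := min_le_left _ _
      have e2 : min 1 (η / 3) ≤ η / 3 := min_le_right _ _
      have e3 : 0 < min 1 (η / 3) := lt_min one_pos (by linarith)
      nlinarith
    obtain ⟨P1, H1, h3⟩ := h2 η' hη' r hr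
    obtain ⟨P1', H1', h3'⟩ := h2' η' hη' r hr
    refine ⟨max P1 P1', max H1 H1', ?_⟩
    intro P H hP hH i w w' z z' g1 g2 g3 g4 g5 g6 g7 g8
    have k1 := h3 P H ((le_max_left _ _).trans hP) ((le_max_left _ _).trans hH) i w w' z z'
      g1 g2 g3 g4 g5 g6 g7 g8
    have k2 := h3' P H ((le_max_right _ _).trans hP) ((le_max_right _ _).trans hH) i w w' z z'
      g1 g2 g3 g4 g5 g6 g7 g8
    have m1 := h1 _ (dd.hg' w (g1.ne hr g3)).1
    have m2 := h1 _ (dd.hg' w' (g2.ne hr g4)).1
    have m1' := h1' _ (dd.hg' w (g1.ne hr g3)).1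
    have m2' := h1' _ (dd.hg' w' (g2.ne hr g4)).1
    calc F (dd.g w) * G (dd.g w) ≤ ((1 + η') * F (dd.g w')) * ((1 + η') * G (dd.g w')) :=
          mul_le_mul k1 k2 (by linarith) (mul_nonneg (by linarith) (by linarith))
      _ = ((1 + η') * (1 + η')) * (F (dd.g w') * G (dd.g w')) := by ring
      _ ≤ (1 + η) * (F (dd.g w') * G (dd.g w')) :=
          mul_le_mul_of_nonneg_right hη2 (mul_nonneg (by linarith) (by linarith))

theorem isTws_prod {ι : Type} (S : Finset ι) (F : ι → X → ℝ) (h : ∀ p ∈ S, IsTws dd (F p)) :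
    IsTws dd (fun t => ∏ p ∈ S, F p t) := by
  classical
  induction S using Finset.induction_on with
  | empty => simpa using isTws_one
  | insert p S hp ih =>
    have h1 := (h p (mem_insert_self _ _)).mul (ih fun q hq => h q (mem_insert_of_mem hq))
    simpa [prod_insert hp] using h1

/-- the twist from the predicate -/
noncomputable def IsTws.tws {F : X → ℝ} (h : IsTws dd F) : Tws dd where
  F := F
  a := h.choose
  b := h.choose_spec.choose
  ha := h.choose_spec.choose_spec.1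
  hF := h.choose_spec.choose_spec.2.1
  cont := h.choose_spec.choose_spec.2.2

/-! ### stable configurations over a field -/

section field

variable {K : Type}

/-- the determinant -/
def dK [Field K] (x y : K × K) : K := x.1 * y.2 - x.2 * y.1

/-- stable configurations -/
def StK [Field K] (θ : I → ℕ) (x : I → K × K) : Prop :=
  ∀ j, x j ≠ 0 ∧ ∀ N : Finset I, (∀ l ∈ N, dK (x j) (x l) = 0) → 2 * ∑ l ∈ N, θ l < ∑ l, θ l

/-- bounded continuous functions on the space of stable configurations modulo `GL_2` and scalars -/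
structure IsMet [NormedField K] (θ : I → ℕ) (φ : (I → K × K) → ℝ) : Prop where
  cont : ContinuousOn φ {x | StK θ x}
  inv : ∀ x, StK θ x → ∀ a b c d : K, a * d - b * c ≠ 0 → ∀ s : I → K, (∀ l, s l ≠ 0) →
    φ (fun l => (s l * (a * (x l).1 + b * (x l).2), s l * (c * (x l).1 + d * (x l).2))) = φ x
  bdd : ∃ m M : ℝ, 0 < m ∧ ∀ x, StK θ x → m ≤ φ x ∧ φ x ≤ M

/-- configurations of distinct points are stable -/
theorem stK_of_ne [Field K] (hn : 5 ≤ Fintype.card I) (o : I) {x : I → K × K}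
    (h : ∀ i j, i ≠ j → dK (x i) (x j) ≠ 0) : StK (tht o) x := by
  intro j
  have hnt : Nontrivial I := Fintype.one_lt_card_iff_nontrivial.1 (by omega)
  obtain ⟨l, hl⟩ := exists_ne j
  refine ⟨fun h0 => h j l hl.symm ?_, fun N hN => ?_⟩
  · rw [h0]
    simp [dK]
  · have h1 : N ⊆ {j} := by
      intro m hm
      rw [mem_singleton]
      by_contra hne
      exact h j m (fun h' => hne h'.symm) (hN m hm)
    have h2 : ∑ l ∈ N, tht o l ≤ ∑ l ∈ {j}, tht o l := sum_le_sum_of_subset h1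
    rw [sum_singleton] at h2
    have h3 : tht o j ≤ 3 := by unfold tht; split_ifs <;> norm_num
    rw [tht_sum]
    omega

/-- extension of scalars -/
def cQ [Field K] (x : I → ℚ × ℚ) : I → K × K := fun l => (((x l).1 : K), ((x l).2 : K))
def cZ [Field K] (w : I → ℤ × ℤ) : I → K × K := fun l => (((w l).1 : K), ((w l).2 : K))

theorem dK_cQ [Field K] [CharZero K] (x : I → ℚ × ℚ) (i j : I) :
    dK (cQ (K := K) x i) (cQ x j) = ((detQ (x i) (x j) : ℚ) : K) := by
  unfold dK cQ detQ
  push_cast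
  rfl

theorem dK_cZ [Field K] (w : I → ℤ × ℤ) (i j : I) :
    dK (cZ (K := K) w i) (cZ w j) = ((dt (w i) (w j) : ℤ) : K) := by
  unfold dK cZ dt
  push_cast
  rfl

theorem stK_cQ [Field K] [CharZero K] (dd : Dat I X) {t : X} (ht : t ∈ dd.U) :
    StK (tht dd.o) (cQ (K := K) (dd.x t)) := by
  refine stK_of_ne dd.hn dd.o fun i j hij => ?_
  rw [dK_cQ]
  exact_mod_cast dd.hx t ht i j hij

theorem IsMet.rep [NormedField K] [CharZero K] {dd : Dat I X} {φ : (I → K × K) → ℝ}
    (h : IsMet (tht dd.o) φ) {t : X} (ht : t ∈ dd.U) {w : I → ℤ × ℤ} (hw : Rep (dd.x t) w) :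
    φ (cQ (dd.x t)) = φ (cZ w) := by
  obtain ⟨a, b, c, d, hD, κ, hκ, h1⟩ := hw
  rw [← h.inv _ (stK_cQ dd ht) (a : K) b c d (by exact_mod_cast hD) (fun l => (κ l : K))
    (fun l => by exact_mod_cast hκ l)]
  congr 1
  funext l
  unfold cQ cZ
  obtain ⟨e1, e2⟩ := h1 l
  refine Prod.ext ?_ ?_
  · have := congrArg (fun q : ℚ => (q : K)) e1
    push_cast at this
    exact this.symm
  · have := congrArg (fun q : ℚ => (q : K)) e2
    push_cast at this
    exact this.symm

end field

end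

end Pool.Agent.Y714.MA
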