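import Pool.Agent.Y714.MA.Adl

set_option autoImplicit false
set_option linter.unusedSectionVars false
set_option linter.unusedSimpArgs false
set_option linter.unusedVariables false

/-! Continuous functions at the real place and at the finite places are twists. -/

namespace Pool.Agent.Y714.MA

open Finset Filter Topology Pool.Agent.Y714.ML

section

variable {I : Type} [Fintype I] [DecidableEq I] {X : Type} {dd : Dat I X}

/-- the real configuration in normal form -/
def Zc (i : I) (z : I → ℝ) : I → ℝ × ℝ := fun l => if l = i then (1, 0) else (z l, 1)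

theorem Zc_ne {i : I} {z : I → ℝ} {r : ℝ} (hr : 0 < r)
    (hs : ∀ l m, l ≠ i → m ≠ i → l ≠ m → r ≤ |z l - z m|) (a b : I) (hab : a ≠ b) :
    dK (Zc i z a) (Zc i z b) ≠ 0 := by
  unfold dK Zc
  by_cases ha : a = i
  · have hb : b ≠ i := fun hb => hab (ha.trans hb.symm)
    simp [ha, hb]
  · by_cases hb : b = i
    · simp [ha, hb]
    · simp only [if_neg ha, if_neg hb, mul_one, one_mul]
      intro h
      have := hs a b ha hb hab
      rw [h, abs_zero] at this
      linarith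

theorem Zc_stable (hn : 5 ≤ Fintype.card I) (o : I) {i : I} {z : I → ℝ} {r : ℝ} (hr : 0 < r)
    (hs : ∀ l m, l ≠ i → m ≠ i → l ≠ m → r ≤ |z l - z m|) : StK (tht o) (Zc i z) :=
  stK_of_ne hn o (Zc_ne hr hs)

theorem Zc_continuous (i : I) : Continuous (Zc i) := by
  refine continuous_pi fun l => ?_
  unfold Zc
  by_cases h : l = i
  · simp only [if_pos h]
    exact continuous_const
  · simp only [if_neg h]
    exact (continuous_apply l).prodMk continuous_const

/-- the compact set of positions -/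
def Kr (r : ℝ) (i : I) : Set (I → ℝ) := {z | (∀ l, |z l| ≤ 2) ∧
  ∀ l m, l ≠ i → m ≠ i → l ≠ m → r ≤ |z l - z m|}

theorem Kr_compact (r : ℝ) (i : I) : IsCompact (Kr r i) := by
  have h1 : IsCompact (Set.pi Set.univ fun _ : I => Set.Icc (-2 : ℝ) 2) :=
    isCompact_univ_pi fun _ => isCompact_Icc
  refine h1.of_isClosed_subset ?_ ?_
  · have h2 : Kr r i = (⋂ l, {z : I → ℝ | |z l| ≤ 2}) ∩
        ⋂ l, ⋂ m, ⋂ (_ : l ≠ i), ⋂ (_ : m ≠ i), ⋂ (_ : l ≠ m), {z : I → ℝ | r ≤ |z l - z m|} := by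
      ext z
      simp only [Kr, Set.mem_ofPred_eq, Set.mem_inter_iff, Set.mem_iInter]
    rw [h2]
    refine IsClosed.inter (isClosed_iInter fun l => ?_) ?_
    · exact isClosed_le (continuous_apply l).abs continuous_const
    · refine isClosed_iInter fun l => isClosed_iInter fun m => isClosed_iInter fun _ =>
        isClosed_iInter fun _ => isClosed_iInter fun _ => ?_
      exact isClosed_le continuous_const ((continuous_apply l).sub (continuous_apply m)).abs
  · intro z hz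
    rw [Set.mem_univ_pi]
    intro l
    exact abs_le.1 (hz.1 l)

theorem RP.phi (hn : 5 ≤ Fintype.card I) {o : I} {φ : (I → ℝ × ℝ) → ℝ} (h : IsMet (tht o) φ)
    {i : I} {z : I → ℝ} {w : I → ℤ × ℤ} {r : ℝ} (hr : 0 < r) (hw : RP i z w)
    (hs : ∀ l m, l ≠ i → m ≠ i → l ≠ m → r ≤ |z l - z m|) : φ (cZ w) = φ (Zc i z) := by
  obtain ⟨h0, x, Λ, hΛ, h1⟩ := hw
  rw [← h.inv _ (Zc_stable hn o hr hs) Λ x 0 1 (by simpa using hΛ.ne')
    (fun l => if l = i then Λ⁻¹ else ((w l).2 : ℝ)) (fun l => by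
      split_ifs with hl
      · exact inv_ne_zero hΛ.ne'
      · have := (h1 l hl).1
        exact_mod_cast this.ne')]
  congr 1
  funext l
  unfold cZ Zc
  by_cases hl : l = i
  · simp only [if_pos hl]
    rw [hl, h0]
    refine Prod.ext ?_ ?_
    · simp [hΛ.ne']
    · simp
  · simp only [if_neg hl]
    obtain ⟨p1, e1⟩ := h1 l hl
    refine Prod.ext ?_ ?_
    · simp only
      rw [e1]
      ring
    · simp

/-- the real place -/
theorem isTws_real {φ : (I → ℝ × ℝ) → ℝ} (h : IsMet (tht dd.o) φ) :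
    IsTws dd (fun t => φ (cQ (dd.x t))) := by
  obtain ⟨m, M, hm, hbd⟩ := h.bdd
  refine ⟨m, M, hm, fun t ht => hbd _ (stK_cQ dd ht), fun η hη r hr => ?_⟩
  have hn := dd.hn
  have key : ∀ i : I, ∃ H1 : ℕ, ∀ H : ℕ, H1 ≤ H → ∀ z ∈ Kr r i, ∀ z' ∈ Kr r i,
      (∀ l, |z l - z' l| ≤ 2 / H) → φ (Zc i z) ≤ (1 + η) * φ (Zc i z') := by
    intro i
    have hcont : ContinuousOn (fun z => φ (Zc i z)) (Kr r i) := by
      refine h.cont.comp (Zc_continuous i).continuousOn fun z hz => ?_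
      exact Zc_stable hn dd.o hr hz.2
    have huc := (Kr_compact r i).uniformContinuousOn_of_continuous hcont
    rw [Metric.uniformContinuousOn_iff] at huc
    obtain ⟨δ, hδ, h1⟩ := huc (η * m) (mul_pos hη hm)
    obtain ⟨H1, hH1⟩ := exists_nat_gt (2 / δ)
    refine ⟨H1, fun H hH z hz z' hz' hd => ?_⟩
    have hH0 : (0 : ℝ) < H := lt_of_lt_of_le ((div_pos two_pos hδ).trans hH1) (by exact_mod_cast hH)
    have h2 : 2 / (H : ℝ) < δ := by
      rw [div_lt_iff₀ hH0]
      have h3 : 2 / δ < H := hH1.trans_le (by exact_mod_cast hH)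
      rw [div_lt_iff₀ hδ] at h3
      linarith
    have h3 := h1 z hz z' hz' (by
      rw [dist_pi_lt_iff hδ]
      intro l
      rw [Real.dist_eq]
      exact lt_of_le_of_lt (hd l) h2)
    rw [Real.dist_eq, abs_lt] at h3
    have h4 := (hbd _ (Zc_stable hn dd.o hr hz'.2)).1
    nlinarith
  choose H1 hH1 using key
  refine ⟨0, univ.sup H1, ?_⟩
  intro P H _ hH i w w' z z' g1 g2 g3 g4 g5 g6 g7 g8
  have hU := dd.hg' w (g1.ne hr g3)
  have hU' := dd.hg' w' (g2.ne hr g4)
  show φ (cQ (dd.x (dd.g w))) ≤ (1 + η) * φ (cQ (dd.x (dd.g w')))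
  rw [h.rep hU.1 hU.2, h.rep hU'.1 hU'.2, RP.phi hn h hr g1 g3.2, RP.phi hn h hr g2 g4.2]
  -- replace the coordinate at `i` by zero
  have hz : ∀ z : I → ℝ, Zc i z = Zc i (Function.update z i 0) := by
    intro z
    funext l
    unfold Zc
    by_cases hl : l = i
    · simp [hl]
    · simp [hl, Function.update_of_ne hl]
  have hk : ∀ z : I → ℝ, Sep r i z → Function.update z i 0 ∈ Kr r i := by
    intro z hz
    constructor
    · intro l
      by_cases hl : l = i
      · rw [hl, Function.update_self]; norm_num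
      · rw [Function.update_of_ne hl]
        exact hz.1 l hl
    · intro l m hl hm hlm
      rw [Function.update_of_ne hl, Function.update_of_ne hm]
      exact hz.2 l m hl hm hlm
  rw [hz z, hz z']
  refine hH1 i H ((le_sup (mem_univ i)).trans hH) _ (hk z g3) _ (hk z' g4) fun l => ?_
  by_cases hl : l = i
  · rw [hl, Function.update_self, Function.update_self, sub_self, abs_zero]
    positivity
  · rw [Function.update_of_ne hl, Function.update_of_ne hl]
    exact g5 l hl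

/-! ### finite places -/

section padic

variable {p : ℕ} [hp : Fact p.Prime]

/-- the compact set of good models -/
def Kp (p : ℕ) [Fact p.Prime] (θ : I → ℕ) : Set (I → ℚ_[p] × ℚ_[p]) := {x | (∀ l, ‖x l‖ = 1) ∧
  ∀ j, ∀ N : Finset I, ¬ (2 * ∑ l ∈ N, θ l < ∑ l, θ l) → ∃ l ∈ N, 1 ≤ ‖dK (x j) (x l)‖}

theorem dK_continuous (j l : I) : Continuous fun x : I → ℚ_[p] × ℚ_[p] => dK (x j) (x l) := by
  unfold dK
  fun_prop

theorem Kp_compact (θ : I → ℕ) : IsCompact (Kp p θ) := by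
  have h1 : IsCompact (Metric.closedBall (0 : I → ℚ_[p] × ℚ_[p]) 1) := isCompact_closedBall _ _
  refine h1.of_isClosed_subset ?_ ?_
  · have h2 : Kp p θ = (⋂ l, {x : I → ℚ_[p] × ℚ_[p] | ‖x l‖ = 1}) ∩
        ⋂ j, ⋂ N : Finset I, ⋂ (_ : ¬ (2 * ∑ l ∈ N, θ l < ∑ l, θ l)),
          ⋃ l ∈ N, {x : I → ℚ_[p] × ℚ_[p] | 1 ≤ ‖dK (x j) (x l)‖} := by
      ext z
      simp only [Kp, Set.mem_ofPred_eq, Set.mem_inter_iff, Set.mem_iInter, Set.mem_iUnion,
        exists_prop]
    rw [h2]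
    refine IsClosed.inter (isClosed_iInter fun l => ?_) ?_
    · exact isClosed_eq (continuous_apply l).norm continuous_const
    · refine isClosed_iInter fun j => isClosed_iInter fun N => isClosed_iInter fun _ => ?_
      refine isClosed_biUnion_finset fun l _ => ?_
      exact isClosed_le continuous_const (dK_continuous j l).norm
  · intro x hx
    rw [Metric.mem_closedBall, dist_zero_right, pi_norm_le_iff_of_nonneg zero_le_one]
    exact fun l => (hx.1 l).le

theorem Kp_stable {θ : I → ℕ} {x : I → ℚ_[p] × ℚ_[p]} (hx : x ∈ Kp p θ) : StK θ x := by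
  intro j
  refine ⟨fun h0 => ?_, fun N hN => ?_⟩
  · have := hx.1 j
    rw [h0, norm_zero] at this
    exact zero_ne_one this
  · by_contra hcon
    obtain ⟨l, hl, h1⟩ := hx.2 j N hcon
    rw [hN l hl, norm_zero] at h1
    linarith

theorem good_Kp {θ : I → ℕ} {w : I → ℤ × ℤ} (hw : Good θ w) : cZ w ∈ Kp p θ := by
  obtain ⟨h1, h2⟩ := hw
  constructor
  · intro l
    have e : ‖cZ (K := ℚ_[p]) w l‖ = max ‖(((w l).1 : ℤ) : ℚ_[p])‖ ‖(((w l).2 : ℤ) : ℚ_[p])‖ := rfl
    rw [e]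
    have b1 := Padic.norm_int_le_one (p := p) (w l).1
    have b2 := Padic.norm_int_le_one (p := p) (w l).2
    refine le_antisymm (max_le b1 b2) ?_
    by_contra hcon
    push Not at hcon
    rw [max_lt_iff, Padic.norm_intCast_lt_one_iff, Padic.norm_intCast_lt_one_iff] at hcon
    have h3 := (h1 l).isUnit_of_dvd' hcon.1 hcon.2
    exact (Nat.prime_iff_prime_int.1 hp.out).not_isUnit h3
  · intro j N hN
    by_contra hcon
    push Not at hcon
    apply hN
    refine lt_of_le_of_lt (Nat.mul_le_mul_left 2 (sum_le_sum_of_subset fun l hl => ?_)) (h2 p hp.out j)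
    rw [mem_filter]
    refine ⟨mem_univ _, ?_⟩
    have h3 := hcon l hl
    rw [dK_cZ, Padic.norm_intCast_lt_one_iff] at h3
    exact h3

/-- the finite places -/
theorem isTws_padic {φ : (I → ℚ_[p] × ℚ_[p]) → ℝ} (h : IsMet (tht dd.o) φ) :
    IsTws dd (fun t => φ (cQ (dd.x t))) := by
  obtain ⟨m, M, hm, hbd⟩ := h.bdd
  refine ⟨m, M, hm, fun t ht => hbd _ (stK_cQ dd ht), fun η hη r hr => ?_⟩
  have hcont : ContinuousOn φ (Kp p (tht dd.o)) := h.cont.mono fun x hx => Kp_stable hx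
  have huc := (Kp_compact (tht dd.o)).uniformContinuousOn_of_continuous hcont
  rw [Metric.uniformContinuousOn_iff] at huc
  obtain ⟨δ, hδ, h1⟩ := huc (η * m) (mul_pos hη hm)
  have hp1 : (1 : ℝ) < p := by exact_mod_cast hp.out.one_lt
  obtain ⟨a, ha⟩ := pow_unbounded_of_one_lt (1 / δ) hp1
  refine ⟨p ^ a, 0, ?_⟩
  intro P H hP _ i w w' z z' g1 g2 g3 g4 g5 g6 g7 g8
  have hU := dd.hg' w (g1.ne hr g3)
  have hU' := dd.hg' w' (g2.ne hr g4)
  show φ (cQ (dd.x (dd.g w))) ≤ (1 + η) * φ (cQ (dd.x (dd.g w')))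
  rw [h.rep hU.1 hU.2, h.rep hU'.1 hU'.2]
  have hpa : (p ^ a : ℕ) ∣ P.factorial := Nat.dvd_factorial (pow_pos hp.out.pos _) hP
  have hpa' : ((p : ℤ) ^ a) ∣ ((P.factorial : ℕ) : ℤ) := by exact_mod_cast hpa
  have hlt : (p : ℝ) ^ (-a : ℤ) < δ := by
    rw [zpow_neg, zpow_natCast, inv_lt_comm₀ (by positivity) hδ, ← one_div]
    exact ha
  have h3 := h1 _ (good_Kp g6) _ (good_Kp g7) (by
    rw [dist_pi_lt_iff hδ]
    intro l
    have e1 : ‖(((w l).1 : ℤ) : ℚ_[p]) - (((w' l).1 : ℤ) : ℚ_[p])‖ ≤ (p : ℝ) ^ (-a : ℤ) := by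
      rw [← Int.cast_sub, Padic.norm_int_le_pow_iff_dvd]
      exact_mod_cast hpa'.trans (g8 l).1
    have e2 : ‖(((w l).2 : ℤ) : ℚ_[p]) - (((w' l).2 : ℤ) : ℚ_[p])‖ ≤ (p : ℝ) ^ (-a : ℤ) := by
      rw [← Int.cast_sub, Padic.norm_int_le_pow_iff_dvd]
      exact_mod_cast hpa'.trans (g8 l).2
    have e3 : dist (cZ (K := ℚ_[p]) w l) (cZ w' l) =
        max ‖(((w l).1 : ℤ) : ℚ_[p]) - (((w' l).1 : ℤ) : ℚ_[p])‖
          ‖(((w l).2 : ℤ) : ℚ_[p]) - (((w' l).2 : ℤ) : ℚ_[p])‖ := by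
      rw [dist_eq_norm]
      rfl
    rw [e3]
    exact lt_of_le_of_lt (max_le e1 e2) hlt)
  rw [Real.dist_eq, abs_lt] at h3
  have h4 := (hbd _ (Kp_stable (good_Kp g7))).1
  nlinarith

end padic

end

end Pool.Agent.Y714.MA
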