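import Mathlib

set_option autoImplicit false
set_option linter.unusedSectionVars false
set_option linter.unusedSimpArgs false
set_option linter.unusedVariables false

/-! Asymptotics of sums over arithmetic progressions and of geometric sums. -/

namespace Pool.Agent.Y714.MA

open Finset Filter Topology

theorem bern1 (x y : ℝ) (hx : 0 ≤ x) (hy : 0 ≤ y) (d : ℕ) :
    x ^ (d + 1) + (d + 1) * y * x ^ d ≤ (x + y) ^ (d + 1) := by
  induction d with
  | zero => simp
  | succ d ih =>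
    have h1 : (x + y) * (x ^ (d + 1) + (d + 1) * y * x ^ d) ≤ (x + y) * (x + y) ^ (d + 1) :=
      mul_le_mul_of_nonneg_left ih (by linarith)
    have h2 : (x + y) ^ (d + 1 + 1) = (x + y) * (x + y) ^ (d + 1) := by ring
    rw [h2]
    refine le_trans ?_ h1
    push_cast
    have h3 : 0 ≤ (d + 1) * y ^ 2 * x ^ d := by positivity
    have h4 : (x + y) * (x ^ (d + 1) + (d + 1) * y * x ^ d) =
        x ^ (d + 1 + 1) + (d + 1 + 1) * y * x ^ (d + 1) + (d + 1) * y ^ 2 * x ^ d := by ring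
    rw [h4]
    linarith

theorem bern2 (z y : ℝ) (hz : 0 ≤ z) (hy : 0 ≤ y) (d : ℕ) :
    (z + y) ^ (d + 1) ≤ z ^ (d + 1) + (d + 1) * y * (z + y) ^ d := by
  induction d with
  | zero => simp
  | succ d ih =>
    have h1 : (z + y) * (z + y) ^ (d + 1) ≤ (z + y) * (z ^ (d + 1) + (d + 1) * y * (z + y) ^ d) :=
      mul_le_mul_of_nonneg_left ih (by linarith)
    have h2 : (z + y) ^ (d + 1 + 1) = (z + y) * (z + y) ^ (d + 1) := by ring
    rw [h2]
    refine h1.trans ?_
    push_cast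
    have h3 : z ^ (d + 1) ≤ (z + y) ^ (d + 1) := pow_le_pow_left₀ hz (by linarith) _
    have h4 : y * z ^ (d + 1) ≤ y * (z + y) ^ (d + 1) := mul_le_mul_of_nonneg_left h3 hy
    have h5 : (z + y) * (z ^ (d + 1) + (d + 1) * y * (z + y) ^ d) =
        z ^ (d + 1 + 1) + y * z ^ (d + 1) + (d + 1) * y * (z + y) ^ (d + 1) := by ring
    rw [h5]
    linarith

/-- sum along a progression -/
noncomputable def Fc (a : ℕ → ℝ) (A w : ℕ) : ℝ :=
  ∑ σ ∈ range (w + 1), if A * σ ≤ w then a (w - A * σ) else 0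

theorem Fc_lt (a : ℕ → ℝ) (A w : ℕ) (h : w < A) : Fc a A w = a w := by
  unfold Fc
  rw [sum_eq_single 0]
  · simp
  · intro σ _ hσ
    have : A ≤ A * σ := Nat.le_mul_of_pos_right A (Nat.pos_of_ne_zero hσ)
    rw [if_neg (by omega)]
  · intro h; simp at h

theorem Fc_ge (a : ℕ → ℝ) (A w : ℕ) (hA : 0 < A) (h : A ≤ w) :
    Fc a A w = a w + Fc a A (w - A) := by
  unfold Fc
  rw [sum_range_succ']
  simp only [mul_zero, Nat.zero_le, if_true, Nat.sub_zero]
  rw [add_comm]
  congr 1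
  have h1 : range (w - A + 1) ⊆ range w := by
    intro x hx
    rw [mem_range] at hx ⊢
    omega
  rw [← sum_subset h1]
  · refine sum_congr rfl fun σ _ => ?_
    have e1 : A * (σ + 1) = A * σ + A := by ring
    rw [e1]
    by_cases h2 : A * σ ≤ w - A
    · rw [if_pos (by omega), if_pos h2]
      congr 1
      omega
    · rw [if_neg (by omega), if_neg h2]
  · intro σ _ hσ
    rw [mem_range] at hσ
    have : σ ≤ A * σ := Nat.le_mul_of_pos_left σ hA
    have e1 : A * (σ + 1) = A * σ + A := by ring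
    rw [e1, if_neg (by omega)]

theorem Fc_pow_le (d A : ℕ) (hA : 0 < A) (w : ℕ) :
    (A : ℝ) * (d + 1) * Fc (fun u => (u : ℝ) ^ d) A w ≤ ((w : ℝ) + A) ^ (d + 1) := by
  induction w using Nat.strong_induction_on with
  | _ w ih =>
    by_cases h : w < A
    · rw [Fc_lt _ _ _ h]
      have := bern1 w A (Nat.cast_nonneg _) (Nat.cast_nonneg _) d
      have h2 : (0 : ℝ) ≤ (w : ℝ) ^ (d + 1) := by positivity
      linarith
    · push Not at h
      rw [Fc_ge _ _ _ hA h]
      have h1 := ih (w - A) (by omega)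
      have h2 := bern1 w A (Nat.cast_nonneg _) (Nat.cast_nonneg _) d
      have h3 : (((w - A : ℕ) : ℝ) + A) = w := by
        rw [Nat.cast_sub h]; ring
      rw [h3] at h1
      linarith

theorem Fc_pow_ge (d A : ℕ) (hA : 0 < A) (w : ℕ) :
    (w : ℝ) ^ (d + 1) - (A : ℝ) ^ (d + 1) ≤ (A : ℝ) * (d + 1) * Fc (fun u => (u : ℝ) ^ d) A w := by
  induction w using Nat.strong_induction_on with
  | _ w ih =>
    by_cases h : w < A
    · rw [Fc_lt _ _ _ h]
      have h1 : (w : ℝ) ^ (d + 1) ≤ (A : ℝ) ^ (d + 1) :=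
        pow_le_pow_left₀ (Nat.cast_nonneg _) (by exact_mod_cast h.le) _
      have h2 : (0 : ℝ) ≤ (A : ℝ) * (d + 1) * (w : ℝ) ^ d := by positivity
      linarith
    · push Not at h
      rw [Fc_ge _ _ _ hA h]
      have h1 := ih (w - A) (by omega)
      have h2 := bern2 ((w - A : ℕ) : ℝ) A (Nat.cast_nonneg _) (Nat.cast_nonneg _) d
      have h3 : (((w - A : ℕ) : ℝ) + A) = w := by
        rw [Nat.cast_sub h]; ring
      rw [h3] at h2
      linarith

theorem Fc_err (a : ℕ → ℝ) (c δ : ℝ) (d A U : ℕ) (hA : 0 < A)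
    (h : ∀ u, U ≤ u → |a u - c * (u : ℝ) ^ d| ≤ δ * (u : ℝ) ^ d) (hδ : 0 ≤ δ) (w : ℕ) :
    |Fc a A w - c * Fc (fun u => (u : ℝ) ^ d) A w| ≤ δ * Fc (fun u => (u : ℝ) ^ d) A w +
      ∑ u ∈ range (min (w + 1) U), |a u - c * (u : ℝ) ^ d| := by
  induction w using Nat.strong_induction_on with
  | _ w ih =>
    have hst : |a w - c * (w : ℝ) ^ d| + ∑ u ∈ range (min w U), |a u - c * (u : ℝ) ^ d| ≤
        δ * (w : ℝ) ^ d + ∑ u ∈ range (min (w + 1) U), |a u - c * (u : ℝ) ^ d| := by
      by_cases hwU : U ≤ w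
      · have e1 : min w U = U := by omega
        have e2 : min (w + 1) U = U := by omega
        rw [e1, e2]
        have := h w hwU
        linarith
      · have e1 : min w U = w := by omega
        have e2 : min (w + 1) U = w + 1 := by omega
        rw [e1, e2, sum_range_succ]
        have : 0 ≤ δ * (w : ℝ) ^ d := by positivity
        linarith
    by_cases hw : w < A
    · rw [Fc_lt _ _ _ hw, Fc_lt _ _ _ hw]
      have h1 : 0 ≤ ∑ u ∈ range (min w U), |a u - c * (u : ℝ) ^ d| :=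
        sum_nonneg fun _ _ => abs_nonneg _
      linarith
    · push Not at hw
      rw [Fc_ge _ _ _ hA hw, Fc_ge _ _ _ hA hw]
      have h1 := ih (w - A) (by omega)
      have h2 : ∑ u ∈ range (min (w - A + 1) U), |a u - c * (u : ℝ) ^ d| ≤
          ∑ u ∈ range (min w U), |a u - c * (u : ℝ) ^ d| := by
        refine sum_le_sum_of_subset_of_nonneg ?_ fun _ _ _ => abs_nonneg _
        intro u hu
        rw [mem_range] at hu ⊢
        omega
      have e1 : a w + Fc a A (w - A) - c * ((w : ℝ) ^ d + Fc (fun u => (u : ℝ) ^ d) A (w - A)) =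
          (a w - c * (w : ℝ) ^ d) +
          (Fc a A (w - A) - c * Fc (fun u => (u : ℝ) ^ d) A (w - A)) := by ring
      rw [e1]
      refine (abs_add_le _ _).trans ?_
      linarith

theorem Fc_pow_tendsto (d A : ℕ) (hA : 0 < A) :
    Tendsto (fun w : ℕ => Fc (fun u => (u : ℝ) ^ d) A w / (w : ℝ) ^ (d + 1)) atTop
      (𝓝 (1 / (A * (d + 1)))) := by
  have hA' : (0 : ℝ) < A := by exact_mod_cast hA
  have hAd : (0 : ℝ) < A * (d + 1) := by positivity
  have hlim1 : Tendsto (fun w : ℕ => 1 / ((A : ℝ) * (d + 1)) * (1 + A / (w : ℝ)) ^ (d + 1)) atTop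
      (𝓝 (1 / (A * (d + 1)))) := by
    have h1 : Tendsto (fun w : ℕ => (A : ℝ) / (w : ℝ)) atTop (𝓝 0) :=
      tendsto_const_div_atTop_nhds_zero_nat _
    have h2 := ((h1.const_add 1).pow (d + 1)).const_mul (1 / ((A : ℝ) * (d + 1)))
    simpa using h2
  have hlim2 : Tendsto (fun w : ℕ => 1 / ((A : ℝ) * (d + 1)) * (1 - (A / (w : ℝ)) ^ (d + 1))) atTop
      (𝓝 (1 / (A * (d + 1)))) := by
    have h1 : Tendsto (fun w : ℕ => (A : ℝ) / (w : ℝ)) atTop (𝓝 0) :=
      tendsto_const_div_atTop_nhds_zero_nat _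
    have h2 := ((h1.pow (d + 1)).const_sub 1).const_mul (1 / ((A : ℝ) * (d + 1)))
    simpa using h2
  refine tendsto_of_tendsto_of_tendsto_of_le_of_le' hlim2 hlim1 ?_ ?_
  · filter_upwards [eventually_ge_atTop 1] with w hw
    have hw' : (0 : ℝ) < w := by exact_mod_cast hw
    rw [le_div_iff₀ (by positivity)]
    have h1 := Fc_pow_ge d A hA w
    have h2 : 1 / ((A : ℝ) * (d + 1)) * (1 - (A / (w : ℝ)) ^ (d + 1)) * (w : ℝ) ^ (d + 1) =
        1 / ((A : ℝ) * (d + 1)) * ((w : ℝ) ^ (d + 1) - (A : ℝ) ^ (d + 1)) := by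
      rw [div_pow]
      field_simp
    rw [h2, one_div, inv_mul_le_iff₀ hAd]
    exact h1
  · filter_upwards [eventually_ge_atTop 1] with w hw
    have hw' : (0 : ℝ) < w := by exact_mod_cast hw
    rw [div_le_iff₀ (by positivity)]
    have h1 := Fc_pow_le d A hA w
    have h2 : 1 / ((A : ℝ) * (d + 1)) * (1 + A / (w : ℝ)) ^ (d + 1) * (w : ℝ) ^ (d + 1) =
        1 / ((A : ℝ) * (d + 1)) * ((w : ℝ) + A) ^ (d + 1) := by
      rw [mul_assoc, ← mul_pow]
      congr 2
      field_simp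
    rw [h2, one_div, le_inv_mul_iff₀ hAd]
    exact h1

/-- sums along progressions -/
theorem Fc_tendsto (a : ℕ → ℝ) (c : ℝ) (d A : ℕ) (hA : 0 < A)
    (h : Tendsto (fun u : ℕ => a u / (u : ℝ) ^ d) atTop (𝓝 c)) :
    Tendsto (fun w : ℕ => Fc a A w / (w : ℝ) ^ (d + 1)) atTop (𝓝 (c / (A * (d + 1)))) := by
  have hA' : (0 : ℝ) < A := by exact_mod_cast hA
  have hS := Fc_pow_tendsto d A hA
  have h1 : Tendsto (fun w : ℕ => c * (Fc (fun u => (u : ℝ) ^ d) A w / (w : ℝ) ^ (d + 1))) atTop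
      (𝓝 (c / (A * (d + 1)))) := by
    have := hS.const_mul c
    rwa [mul_one_div] at this
  have h2 : Tendsto (fun w : ℕ => (Fc a A w - c * Fc (fun u => (u : ℝ) ^ d) A w) /
      (w : ℝ) ^ (d + 1)) atTop (𝓝 0) := by
    rw [Metric.tendsto_atTop]
    intro η hη
    obtain ⟨w1, hw1⟩ := Metric.tendsto_atTop.1 hS 1 one_pos
    set δ : ℝ := η / (4 * (1 / (A * (d + 1)) + 1)) with hδ
    have hq : (0 : ℝ) < 1 / (A * (d + 1)) + 1 := by positivity
    have hδ0 : 0 < δ := by positivity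
    obtain ⟨U0, hU0⟩ := Metric.tendsto_atTop.1 h δ hδ0
    set U := max U0 1 with hU
    have hUb : ∀ u, U ≤ u → |a u - c * (u : ℝ) ^ d| ≤ δ * (u : ℝ) ^ d := by
      intro u hu
      have hu1 : 1 ≤ u := le_trans (le_max_right _ _) hu
      have hu' : (0 : ℝ) < u := by exact_mod_cast hu1
      have h3 := hU0 u (le_trans (le_max_left _ _) hu)
      rw [Real.dist_eq] at h3
      have h4 : a u - c * (u : ℝ) ^ d = (a u / (u : ℝ) ^ d - c) * (u : ℝ) ^ d := by
        field_simp
      rw [h4, abs_mul, abs_of_pos (pow_pos hu' d)]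
      exact mul_le_mul_of_nonneg_right h3.le (by positivity)
    set C := ∑ u ∈ range U, |a u - c * (u : ℝ) ^ d| with hC
    have hC0 : 0 ≤ C := sum_nonneg fun _ _ => abs_nonneg _
    obtain ⟨w2, hw2⟩ := exists_nat_gt (4 * C / η)
    refine ⟨max (max w1 w2) 1, fun w hw => ?_⟩
    have g1 : w1 ≤ w := le_trans (le_max_left _ _) (le_trans (le_max_left _ _) hw)
    have g2 : w2 ≤ w := le_trans (le_max_right _ _) (le_trans (le_max_left _ _) hw)
    have g3 : 1 ≤ w := le_trans (le_max_right _ _) hw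
    have hw' : (0 : ℝ) < w := by exact_mod_cast g3
    have hw1' : (1 : ℝ) ≤ w := by exact_mod_cast g3
    rw [Real.dist_eq, sub_zero, abs_div, abs_of_pos (pow_pos hw' (d + 1)), div_lt_iff₀ (by positivity)]
    have h5 := Fc_err a c δ d A U hA hUb hδ0.le w
    have h6 : ∑ u ∈ range (min (w + 1) U), |a u - c * (u : ℝ) ^ d| ≤ C := by
      refine sum_le_sum_of_subset_of_nonneg ?_ fun _ _ _ => abs_nonneg _
      intro u hu
      rw [mem_range] at hu ⊢
      omega
    have h7 := hw1 w g1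
    rw [Real.dist_eq] at h7
    have h8 : Fc (fun u => (u : ℝ) ^ d) A w ≤ (1 / (A * (d + 1)) + 1) * (w : ℝ) ^ (d + 1) := by
      rw [← div_le_iff₀ (by positivity)]
      have := (abs_lt.1 h7).2
      linarith
    have h9 : δ * Fc (fun u => (u : ℝ) ^ d) A w ≤ η / 4 * (w : ℝ) ^ (d + 1) := by
      calc δ * Fc (fun u => (u : ℝ) ^ d) A w ≤ δ * ((1 / (A * (d + 1)) + 1) * (w : ℝ) ^ (d + 1)) :=
            mul_le_mul_of_nonneg_left h8 hδ0.le
        _ = _ := by rw [hδ]; field_simp
    have h10 : C ≤ η / 4 * (w : ℝ) ^ (d + 1) := by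
      have e1 : 4 * C / η < w := lt_of_lt_of_le hw2 (by exact_mod_cast g2)
      rw [div_lt_iff₀ hη] at e1
      have e2 : (w : ℝ) ≤ (w : ℝ) ^ (d + 1) := by
        calc (w : ℝ) = (w : ℝ) ^ 1 := (pow_one _).symm
          _ ≤ (w : ℝ) ^ (d + 1) := pow_le_pow_right₀ hw1' (by omega)
      nlinarith
    have h11 : 0 < η * (w : ℝ) ^ (d + 1) := by positivity
    linarith
  have h3 := h1.add h2
  rw [add_zero] at h3
  refine h3.congr fun w => ?_
  ring

/-- geometric sums -/
theorem geo_tendsto (N : ℕ → ℝ) (c0 q : ℝ) (m : ℕ) (hq : 1 < q)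
    (h : Tendsto (fun w : ℕ => N w / (w : ℝ) ^ m) atTop (𝓝 c0)) :
    Tendsto (fun T : ℕ => (∑ w ∈ range (T + 1), N w * q ^ w) / (q ^ T * (T : ℝ) ^ m)) atTop
      (𝓝 (c0 * (1 - q⁻¹)⁻¹)) := by
  have hq0 : 0 < q := by linarith
  have hqi : q⁻¹ < 1 := inv_lt_one_of_one_lt₀ hq
  have hqi0 : 0 ≤ q⁻¹ := (inv_pos.2 hq0).le
  -- a uniform bound
  obtain ⟨C, hC⟩ : ∃ C, ∀ w : ℕ, |N w| ≤ C * (max w 1 : ℕ) ^ m := by
    have h1 := h.bddAbove_range
    have h2 := h.bddBelow_range
    obtain ⟨C1, hC1⟩ := h1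
    obtain ⟨C2, hC2⟩ := h2
    refine ⟨|C1| + |C2| + |N 0|, fun w => ?_⟩
    by_cases hw : w = 0
    · subst hw
      simp
      positivity
    · have hw1 : max w 1 = w := by omega
      have hw' : (0 : ℝ) < w := by exact_mod_cast Nat.pos_of_ne_zero hw
      have e1 := hC1 ⟨w, rfl⟩
      have e2 := hC2 ⟨w, rfl⟩
      simp only at e1 e2
      have e3 : |N w / (w : ℝ) ^ m| ≤ |C1| + |C2| := by
        rw [abs_le]
        have := le_abs_self C1
        have := neg_abs_le C2
        have := abs_nonneg C1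
        have := abs_nonneg C2
        constructor <;> linarith
      rw [abs_div, abs_of_pos (pow_pos hw' m), div_le_iff₀ (by positivity)] at e3
      rw [hw1]
      have : 0 ≤ |N 0| * (w : ℝ) ^ m := by positivity
      nlinarith
  set f : ℕ → ℕ → ℝ := fun T u => if u ≤ T then N (T - u) * (q⁻¹) ^ u / (T : ℝ) ^ m else 0 with hf
  have hC0 : 0 ≤ C := by
    have := hC 0
    simp at this
    exact (abs_nonneg _).trans this
  have hlim : Tendsto (fun T => ∑' u, f T u) atTop (𝓝 (∑' u, c0 * (q⁻¹) ^ u)) := by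
    refine tendsto_tsum_of_dominated_convergence (bound := fun u => C * (q⁻¹) ^ u) ?_ ?_ ?_
    · exact (summable_geometric_of_lt_one hqi0 hqi).mul_left C
    · intro u
      have h1 : Tendsto (fun T : ℕ => N (T - u) / ((T - u : ℕ) : ℝ) ^ m) atTop (𝓝 c0) :=
        h.comp (tendsto_sub_atTop_nat u)
      have h2 : Tendsto (fun T : ℕ => (((T - u : ℕ) : ℝ) / (T : ℝ)) ^ m) atTop (𝓝 1) := by
        have h3 : Tendsto (fun T : ℕ => (1 : ℝ) - (u : ℝ) / (T : ℝ)) atTop (𝓝 (1 - 0)) :=
          (tendsto_const_div_atTop_nhds_zero_nat (u : ℝ)).const_sub 1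
        rw [sub_zero] at h3
        have h4 : Tendsto (fun T : ℕ => ((T - u : ℕ) : ℝ) / (T : ℝ)) atTop (𝓝 1) := by
          refine h3.congr' ?_
          filter_upwards [eventually_ge_atTop (u + 1)] with T hT
          have hT' : (0 : ℝ) < T := by
            have : 0 < T := by omega
            exact_mod_cast this
          rw [Nat.cast_sub (by omega)]
          field_simp
        simpa using h4.pow m
      have h3 := (h1.mul h2).mul_const ((q⁻¹) ^ u)
      rw [mul_one] at h3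
      refine h3.congr' ?_
      filter_upwards [eventually_ge_atTop (u + 1)] with T hT
      have hT' : (0 : ℝ) < T := by
        have : 0 < T := by omega
        exact_mod_cast this
      have hTu : (0 : ℝ) < ((T - u : ℕ) : ℝ) := by
        have : 0 < T - u := by omega
        exact_mod_cast this
      simp only [hf]
      rw [if_pos (by omega), div_pow]
      field_simp
    · filter_upwards [eventually_ge_atTop 1] with T hT u
      simp only [hf]
      have hT' : (0 : ℝ) < T := by exact_mod_cast hT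
      split_ifs with hu
      · rw [Real.norm_eq_abs, abs_div, abs_mul, abs_of_pos (pow_pos hT' m),
          abs_of_nonneg (pow_nonneg hqi0 u), div_le_iff₀ (by positivity)]
        have e1 := hC (T - u)
        have e2 : ((max (T - u) 1 : ℕ) : ℝ) ^ m ≤ (T : ℝ) ^ m := by
          refine pow_le_pow_left₀ (Nat.cast_nonneg _) ?_ m
          have : max (T - u) 1 ≤ T := by omega
          exact_mod_cast this
        have e3 : 0 ≤ (q⁻¹) ^ u := pow_nonneg hqi0 u
        calc |N (T - u)| * (q⁻¹) ^ u ≤ (C * (max (T - u) 1 : ℕ) ^ m) * (q⁻¹) ^ u :=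
              mul_le_mul_of_nonneg_right e1 e3
          _ ≤ (C * (T : ℝ) ^ m) * (q⁻¹) ^ u := by gcongr
          _ = _ := by ring
      · rw [norm_zero]
        positivity
  rw [tsum_mul_left, tsum_geometric_of_lt_one hqi0 hqi] at hlim
  refine hlim.congr fun T => ?_
  have h1 : ∑' u, f T u = ∑ u ∈ range (T + 1), f T u := by
    refine tsum_eq_sum fun u hu => ?_
    rw [mem_range] at hu
    simp only [hf]
    rw [if_neg (by omega)]
  rw [h1, ← sum_range_reflect, sum_div]
  refine sum_congr rfl fun w hw => ?_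
  rw [mem_range] at hw
  simp only [hf]
  have e1 : T + 1 - 1 - w = T - w := by omega
  rw [e1, if_pos (by omega)]
  have e2 : T - (T - w) = w := by omega
  rw [e2, inv_pow, mul_div_assoc, mul_div_assoc]
  congr 1
  have e3 : q ^ T = q ^ w * q ^ (T - w) := by rw [← pow_add]; congr 1; omega
  rw [e3]
  have : q ^ w ≠ 0 := (pow_pos hq0 _).ne'
  have : q ^ (T - w) ≠ 0 := (pow_pos hq0 _).ne'
  field_simp

end Pool.Agent.Y714.MA
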