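import Pool.Agent.Y714.MA.Geo
import Pool.Agent.Y714.MA.Conv

set_option autoImplicit false
set_option linter.unusedSectionVars false
set_option linter.unusedSimpArgs false
set_option linter.unusedVariables false

/-! The number of cells of given weight. -/

namespace Pool.Agent.Y714.MA

open Finset Filter Topology Pool.Agent.Y714.ML

section

variable {I : Type} [Fintype I] [DecidableEq I]

/-- the cells of weight `w` -/
noncomputable def IS (J : ℕ) (i : I) (w : ℕ) : Finset (Bool × ℕ × (I → ℕ)) :=
  ((univ : Finset Bool) ×ˢ (range (w + 1) ×ˢ Fintype.piFinset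
    (fun l : I => if l = i then {0} else range (w + 1)))).filter (fun c => wtOf J c = w)

theorem mem_IS {J : ℕ} {i : I} {w : ℕ} (hJ : 0 < J) (hn : 3 ≤ Fintype.card I)
    {c : Bool × ℕ × (I → ℕ)} : c ∈ IS J i w ↔ wtOf J c = w ∧ c.2.2 i = 0 := by
  rw [IS, mem_filter, mem_product, mem_product, Fintype.mem_piFinset, mem_range]
  constructor
  · rintro ⟨⟨-, -, h1⟩, h2⟩
    have := h1 i
    rw [if_pos rfl, mem_singleton] at this
    exact ⟨h2, this⟩
  · rintro ⟨h1, h2⟩
    refine ⟨⟨mem_univ _, ?_, fun l => ?_⟩, h1⟩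
    · unfold wtOf at h1
      have h3 : c.2.1 ≤ J * (Fintype.card I - 2) * c.2.1 :=
        Nat.le_mul_of_pos_left _ (Nat.mul_pos hJ (by omega))
      have h4 : c.2.1 + 1 ≤ J * Fintype.card I * (c.2.1 + 1) :=
        Nat.le_mul_of_pos_left _ (Nat.mul_pos hJ (by omega))
      split_ifs at h1 <;> omega
    · have h3 : c.2.2 l ≤ ∑ l, c.2.2 l :=
        single_le_sum (f := c.2.2) (fun _ _ => Nat.zero_le _) (mem_univ l)
      unfold wtOf at h1
      split_ifs with h4
      · rw [mem_singleton, h4]; exact h2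
      · rw [mem_range]; omega

/-- the number of compositions -/
noncomputable def cmp (i : I) (u : ℕ) : ℕ := (piAntidiag (univ.erase i) u).card

theorem cmp_eq (i : I) (hn : 3 ≤ Fintype.card I) (u : ℕ) :
    cmp i u = (u + (Fintype.card I - 2)).choose (Fintype.card I - 2) := by
  have h1 : cmp i u = (finsuppAntidiag (univ.erase i) u).card := by
    unfold cmp
    simp [finsuppAntidiag]
  rw [h1, card_finsuppAntidiag_nat_eq_choose, card_erase_of_mem (mem_univ i), Finset.card_univ]
  have h2 : Fintype.card I - 1 + u - 1 = u + (Fintype.card I - 2) := by omega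
  rw [h2]
  exact (Nat.choose_symm_of_eq_add rfl)

theorem cmp_tendsto (i : I) (hn : 3 ≤ Fintype.card I) :
    Tendsto (fun u : ℕ => (cmp i u : ℝ) / (u : ℝ) ^ (Fintype.card I - 2)) atTop
      (𝓝 (1 / (Fintype.card I - 2).factorial)) := by
  set d := Fintype.card I - 2 with hd
  have h1 := isEquivalent_choose d
  have h2 : Tendsto (fun N : ℕ => ((N.choose d : ℕ) : ℝ) / ((N : ℝ) ^ d / d.factorial)) atTop
      (𝓝 1) := by
    refine (Asymptotics.isEquivalent_iff_tendsto_one ?_).1 h1
    filter_upwards [eventually_ge_atTop 1] with N hN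
    have hN' : (0 : ℝ) < N := by exact_mod_cast hN
    positivity
  have h3 := h2.comp (tendsto_add_atTop_nat d)
  have h4 : Tendsto (fun u : ℕ => (((u + d : ℕ) : ℝ) / (u : ℝ)) ^ d) atTop (𝓝 1) := by
    have e1 : Tendsto (fun u : ℕ => (1 : ℝ) + (d : ℝ) / (u : ℝ)) atTop (𝓝 (1 + 0)) :=
      (tendsto_const_div_atTop_nhds_zero_nat (d : ℝ)).const_add 1
    rw [add_zero] at e1
    have e2 : Tendsto (fun u : ℕ => ((u + d : ℕ) : ℝ) / (u : ℝ)) atTop (𝓝 1) := by
      refine e1.congr' ?_
      filter_upwards [eventually_ge_atTop 1] with u hu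
      have hu' : (0 : ℝ) < u := by exact_mod_cast hu
      push_cast
      field_simp
    simpa using e2.pow d
  have h5 := (h3.mul h4).mul_const (1 / (d.factorial : ℝ))
  rw [mul_one, one_mul] at h5
  refine h5.congr' ?_
  filter_upwards [eventually_ge_atTop 1] with u hu
  have hu' : (0 : ℝ) < u := by exact_mod_cast hu
  have hud : (0 : ℝ) < ((u + d : ℕ) : ℝ) := by positivity
  have hf : (0 : ℝ) < d.factorial := by exact_mod_cast Nat.factorial_pos d
  simp only [Function.comp_apply]
  rw [cmp_eq i hn u, div_pow]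
  field_simp
  rfl

theorem pi_count (i : I) (w s : ℕ) (h : s ≤ w) :
    ((Fintype.piFinset (fun l : I => if l = i then {0} else range (w + 1))).filter
      fun r => s + ∑ l, r l = w).card = cmp i (w - s) := by
  unfold cmp
  congr 1
  ext r
  rw [mem_filter, Fintype.mem_piFinset, mem_piAntidiag]
  constructor
  · rintro ⟨h1, h2⟩
    have h3 := h1 i
    rw [if_pos rfl, mem_singleton] at h3
    have h4 := add_sum_erase univ r (mem_univ i)
    refine ⟨show ∑ l ∈ univ.erase i, r l = w - s by omega, fun l hl => mem_erase.2 ⟨fun h5 => hl (by rw [h5]; exact h3), mem_univ _⟩⟩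
  · rintro ⟨h1, h2⟩
    have h1' : ∑ l ∈ univ.erase i, r l = w - s := h1
    have h3 : r i = 0 := by
      by_contra h4
      exact (mem_erase.1 (h2 i h4)).1 rfl
    have h4 := add_sum_erase univ r (mem_univ i)
    refine ⟨fun l => ?_, show s + ∑ l, r l = w by omega⟩
    have h5 : r l ≤ ∑ l, r l := single_le_sum (f := r) (fun _ _ => Nat.zero_le _) (mem_univ l)
    split_ifs with h6
    · rw [mem_singleton, h6]; exact h3
    · rw [mem_range]; omega

theorem pi_count0 (i : I) (w s : ℕ) (h : w < s) :
    ((Fintype.piFinset (fun l : I => if l = i then {0} else range (w + 1))).filter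
      fun r => s + ∑ l, r l = w).card = 0 := by
  rw [card_eq_zero, filter_eq_empty_iff]
  intro r _
  omega

theorem card_IS (J : ℕ) (i : I) (w : ℕ) (hJ : 0 < J) (hn : 3 ≤ Fintype.card I) :
    ((IS J i w).card : ℝ) = Fc (fun u => (cmp i u : ℝ)) (J * (Fintype.card I - 2)) w +
      (Fc (fun u => (cmp i u : ℝ)) (J * Fintype.card I) w - cmp i w) := by
  unfold IS
  rw [card_filter, sum_product, Fintype.sum_bool]
  simp only [sum_product]
  push_cast
  have hcount : ∀ (b : Bool) (σ : ℕ), ∑ r ∈ Fintype.piFinset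
      (fun l : I => if l = i then {0} else range (w + 1)),
      (if wtOf J (b, σ, r) = w then (1 : ℝ) else 0) =
      (((Fintype.piFinset (fun l : I => if l = i then {0} else range (w + 1))).filter
      fun r => (if b then J * (Fintype.card I - 2) * σ else J * Fintype.card I * (σ + 1)) +
        ∑ l, r l = w).card : ℝ) := by
    intro b σ
    rw [card_filter]
    push_cast
    rfl
  simp only [hcount]
  congr 1
  · unfold Fc
    refine sum_congr rfl fun σ _ => ?_
    simp only [if_true]
    split_ifs with h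
    · rw [pi_count i w _ h]
    · rw [pi_count0 i w _ (by omega), Nat.cast_zero]
  · simp only [Bool.false_eq_true, if_false]
    have e1 : Fc (fun u => (cmp i u : ℝ)) (J * Fintype.card I) w - cmp i w =
        ∑ σ ∈ range w, if J * Fintype.card I * (σ + 1) ≤ w then
          (cmp i (w - J * Fintype.card I * (σ + 1)) : ℝ) else 0 := by
      unfold Fc
      rw [sum_range_succ']
      simp
    rw [e1, sum_range_succ]
    have e2 : w < J * Fintype.card I * (w + 1) := by
      have : w + 1 ≤ J * Fintype.card I * (w + 1) :=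
        Nat.le_mul_of_pos_left _ (Nat.mul_pos hJ (by omega))
      omega
    rw [pi_count0 i w _ e2, Nat.cast_zero, add_zero]
    refine sum_congr rfl fun σ _ => ?_
    split_ifs with h
    · rw [pi_count i w _ h]
    · rw [pi_count0 i w _ (by omega), Nat.cast_zero]

/-- the leading constant -/
noncomputable def c0 (n J : ℕ) : ℝ :=
  1 / (n - 2).factorial / (((J * (n - 2) : ℕ) : ℝ) * (((n - 2 : ℕ) : ℝ) + 1)) +
    1 / (n - 2).factorial / (((J * n : ℕ) : ℝ) * (((n - 2 : ℕ) : ℝ) + 1))

theorem c0_nonneg (n J : ℕ) : 0 ≤ c0 n J := by unfold c0; positivity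

theorem IS_tendsto (J : ℕ) (i : I) (hJ : 0 < J) (hn : 3 ≤ Fintype.card I) :
    Tendsto (fun w : ℕ => ((IS J i w).card : ℝ) / (w : ℝ) ^ (Fintype.card I - 1)) atTop
      (𝓝 (c0 (Fintype.card I) J)) := by
  have h0 := cmp_tendsto i hn
  have h1 := Fc_tendsto (fun u => (cmp i u : ℝ)) _ (Fintype.card I - 2)
    (J * (Fintype.card I - 2)) (Nat.mul_pos hJ (by omega)) h0
  have h2 := Fc_tendsto (fun u => (cmp i u : ℝ)) _ (Fintype.card I - 2)
    (J * Fintype.card I) (Nat.mul_pos hJ (by omega)) h0
  have h3 : Tendsto (fun u : ℕ => (cmp i u : ℝ) / (u : ℝ) ^ (Fintype.card I - 2 + 1)) atTop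
      (𝓝 0) := by
    have e1 : Tendsto (fun u : ℕ => (1 : ℝ) / (u : ℝ)) atTop (𝓝 0) :=
      tendsto_const_div_atTop_nhds_zero_nat 1
    have e2 := h0.mul e1
    rw [mul_zero] at e2
    refine e2.congr fun u => ?_
    rw [pow_succ]
    simp only [div_mul_div_comm, mul_one]
  have h4 := h1.add (h2.sub h3)
  rw [sub_zero] at h4
  have e : Fintype.card I - 1 = Fintype.card I - 2 + 1 := by omega
  refine h4.congr fun w => ?_
  rw [card_IS J i w hJ hn, e]
  ring

end

end Pool.Agent.Y714.MA
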