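import Pool.Agent.Y714.MA.Geo3
import Pool.Agent.Y714.MA.Idx

set_option autoImplicit false
set_option linter.unusedSectionVars false
set_option linter.unusedSimpArgs false
set_option linter.unusedVariables false

/-! The number of configurations of bounded height and the cells. -/

namespace Pool.Agent.Y714.MA

open Finset Pool.Agent.Y714.ML

section

variable {I : Type} [Fintype I] [DecidableEq I]

open Classical in
/-- the admissible directions -/
noncomputable def KSf (H h D : ℕ) (i j1 j2 : I) : Finset (I → ℤ) :=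
  (Fintype.piFinset fun _ : I => Ico (-(H : ℤ)) H).filter (KS H h D i j1 j2)

open Classical in
theorem mem_KSf {H h D : ℕ} {i j1 j2 : I} {k : I → ℤ} :
    k ∈ KSf H h D i j1 j2 ↔ KS H h D i j1 j2 k := by
  rw [KSf, mem_filter, Fintype.mem_piFinset]
  constructor
  · exact fun h => h.2
  · exact fun h => ⟨fun l => mem_Ico.2 (h.2.2.1 l), h⟩

/-- the data of the problem -/
structure Dat (I : Type) [Fintype I] [DecidableEq I] (X : Type) where
  U : Set X
  x : X → I → ℚ × ℚ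
  g : (I → ℤ × ℤ) → X
  j1 : I → I
  j2 : I → I
  o : I
  hx : ∀ t ∈ U, ∀ i j, i ≠ j → detQ (x t i) (x t j) ≠ 0
  hg : ∀ t ∈ U, ∀ w, Rep (x t) w → g w = t
  hg' : ∀ w, (∀ i j, i ≠ j → dt (w i) (w j) ≠ 0) → g w ∈ U ∧ Rep (x (g w)) w
  h1 : ∀ i, j1 i ≠ i
  h2 : ∀ i, j2 i ≠ i
  h12 : ∀ i, j1 i ≠ j2 i
  hn : 5 ≤ Fintype.card I

/-- the parameters -/
structure Par (n : ℕ) where
  lam : ℝ
  J : ℕ
  H : ℕ
  h : ℕ
  D : ℕ
  P0 : ℕ
  ε : ℝ
  hlam : 1 < lam
  hlam2 : lam ≤ 2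
  hJ : lam ^ J = 2
  hJ0 : 0 < J
  hH : H = 4 * h
  hh : 0 < h
  hD : 1 < D
  hP0 : 2 ≤ P0
  hε : 0 < ε
  hε2 : ε ≤ 1 / 2
  hHD : 4 * ((D : ℝ) + 1) ≤ H * ε ^ (n + 3)

variable {X : Type} (dd : Dat I X) (pp : Par (Fintype.card I))

/-- the counting set -/
def NB (B : ℝ) : Set X := {t ∈ dd.U | hgt (fun _ => 2) (dd.x t) ≤ B}

open Classical in
/-- the good elements of a cell -/
noncomputable def Gc (R0 : ℕ) (i : I) (c : Bool × ℕ × (I → ℕ)) (k : I → ℤ) :
    Finset (I → ℤ × ℤ) :=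
  (cel pp.lam pp.H R0 pp.J i (dd.j1 i) c k).filter (Good (tht dd.o))

/-- the sum over all cells -/
noncomputable def Cs (R0 : ℕ) (T : I → (I → ℤ) → ℕ) : ℝ :=
  ∑ i : I, ∑ k ∈ KSf pp.H pp.h pp.D i (dd.j1 i) (dd.j2 i), ∑ w ∈ range (T i k + 1),
    ∑ c ∈ IS pp.J i w, ((Gc dd pp R0 i c k).card : ℝ)

theorem good_eqv {θ : I → ℕ} {v w : I → ℤ × ℤ} (h : Eqv v w) (hv : Good θ v) : Good θ w :=
  ⟨fun l => h.coprime l (hv.1 l), stb_of_natAbs h.natAbs_dt hv.2⟩

open Classical in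
theorem count_upper [DecidableEq X] (B : ℝ) (R0 M K : ℕ) (T : I → (I → ℤ) → ℕ)
    (hT : ∀ i k, KS pp.H pp.h pp.D i (dd.j1 i) (dd.j2 i) k → ∀ w : ℕ,
      (1 - 1 / (pp.D : ℝ)) ^ Fintype.card I * pp.lam ^ (2 * ((Fintype.card I - 1) * R0 + w)) *
        Phk pp.H i k ≤ B → w ≤ T i k)
    (hK : 2 ^ Fintype.card I * B < 2 ^ (K + 1))
    (hMR : pp.lam ^ (R0 + 1) ≤ pp.ε ^ (Fintype.card I + 2) * Real.sqrt (2 ^ M)) :
    (NB dd B).Finite ∧ ((NB dd B).ncard : ℝ) ≤
      Cs dd pp R0 T + ((BX dd.g K M pp.ε).card : ℝ) := by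
  have hn := dd.hn
  have hH0 : 0 < pp.H := by have := pp.hH; have := pp.hh; omega
  have hε1 : pp.ε ≤ 1 := by linarith [pp.hε2]
  have hs0 : 0 < Real.sqrt ((2 : ℝ) ^ M) := Real.sqrt_pos.2 (by positivity)
  have hM : 1 ≤ pp.ε ^ (Fintype.card I + 1) * Real.sqrt (2 ^ M) := by
    have h1 : (1 : ℝ) ≤ pp.lam ^ (R0 + 1) := one_le_pow₀ pp.hlam.le
    refine h1.trans (hMR.trans (mul_le_mul_of_nonneg_right ?_ hs0.le))
    exact pow_le_pow_of_le_one pp.hε.le hε1 (by omega)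
  set F : Finset X := univ.biUnion fun i : I =>
    (KSf pp.H pp.h pp.D i (dd.j1 i) (dd.j2 i)).biUnion fun k => (range (T i k + 1)).biUnion fun w =>
      (IS pp.J i w).biUnion fun c => (Gc dd pp R0 i c k).image dd.g with hF
  have hsub : NB dd B ⊆ ((F ∪ BX dd.g K M pp.ε : Finset X) : Set X) := by
    rintro t ⟨ht, htB⟩
    rw [mem_coe, mem_union]
    have hT' : 2 ^ Fintype.card I * hgt (fun _ => 2) (dd.x t) < 2 ^ (K + 1) := by
      refine lt_of_le_of_lt ?_ hK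
      exact mul_le_mul_of_nonneg_left htB (by positivity)
    rcases dichotomy dd.U dd.x dd.hx dd.g dd.hg hn dd.o M K pp.ε pp.hε pp.hε2 hM t ht hT' with h | h
    · exact Or.inr h
    · left
      obtain ⟨ζ, i, v, hrep, hN⟩ := h
      obtain ⟨w, c, k, hE, hNF, hc0, hKS, hw⟩ := nice_cell (R0 := R0) (J := pp.J) (H := pp.H)
        (D := pp.D) (h := pp.h) pp.hlam pp.hJ (dd.h1 i) (dd.h2 i) (dd.h12 i) pp.hH pp.hh pp.hε hε1
        hN pp.hHD hMR
      have hrep' : Rep (dd.x t) w := hE.rep hrep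
      have hgood : Good (tht dd.o) w := good_eqv hE hN.good
      have hB := (hgt_le_iff (tht_ge dd.o) (tht_sum dd.o) hrep' hgood.2 B).1 htB
      have h1 := cel_hgt_ge pp.hlam pp.hJ (dd.h1 i) hH0 (by omega) hc0 hKS pp.hD hw B hB
      have h2 := hT i k hKS _ h1
      simp only [hF, mem_biUnion, mem_univ, true_and, mem_image, mem_range]
      refine ⟨i, k, mem_KSf.2 hKS, wtOf pp.J c, by omega, c,
        (mem_IS pp.hJ0 (by omega)).2 ⟨rfl, hc0⟩, w, ?_, dd.hg t ht w hrep'⟩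
      exact mem_filter.2 ⟨hw, hgood⟩
  have hfin : (NB dd B).Finite := (F ∪ BX dd.g K M pp.ε).finite_toSet.subset hsub
  refine ⟨hfin, ?_⟩
  have h1 : ((NB dd B).ncard : ℝ) ≤ ((F ∪ BX dd.g K M pp.ε).card : ℝ) := by
    have := Set.ncard_le_ncard hsub (F ∪ BX dd.g K M pp.ε).finite_toSet
    rw [Set.ncard_coe_finset] at this
    exact_mod_cast this
  have h2 : ((F ∪ BX dd.g K M pp.ε).card : ℝ) ≤ (F.card : ℝ) + ((BX dd.g K M pp.ε).card : ℝ) := by
    exact_mod_cast card_union_le _ _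
  have h3 : (F.card : ℝ) ≤ Cs dd pp R0 T := by
    have e1 : F.card ≤ ∑ i : I, ∑ k ∈ KSf pp.H pp.h pp.D i (dd.j1 i) (dd.j2 i),
        ∑ w ∈ range (T i k + 1), ∑ c ∈ IS pp.J i w, (Gc dd pp R0 i c k).card := by
      refine card_biUnion_le.trans (sum_le_sum fun i _ => ?_)
      refine card_biUnion_le.trans (sum_le_sum fun k _ => ?_)
      refine card_biUnion_le.trans (sum_le_sum fun w _ => ?_)
      refine card_biUnion_le.trans (sum_le_sum fun c _ => ?_)
      exact card_image_le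
    unfold Cs
    exact_mod_cast e1
  linarith

open Classical in
theorem count_lower (B : ℝ) (R0 : ℕ) (T : I → (I → ℤ) → ℕ)
    (hT : ∀ i k, KS pp.H pp.h pp.D i (dd.j1 i) (dd.j2 i) k →
      (1 + 1 / (pp.D : ℝ)) ^ Fintype.card I * (pp.lam ^ (2 * (Fintype.card I - 1)) *
        pp.lam ^ (2 * ((Fintype.card I - 1) * R0 + T i k))) * Phk pp.H i k ≤ B)
    (hR : (pp.H : ℝ) ≤ (1 - 1 / (pp.D : ℝ)) * pp.lam ^ R0) (hfin : (NB dd B).Finite) :
    Cs dd pp R0 T ≤ ((NB dd B).ncard : ℝ) := by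
  have hn := dd.hn
  have hH0 : 0 < pp.H := by have := pp.hH; have := pp.hh; omega
  -- basic facts on elements of cells
  have hel : ∀ i k, KS pp.H pp.h pp.D i (dd.j1 i) (dd.j2 i) k → ∀ c, c.2.2 i = 0 →
      wtOf pp.J c ≤ T i k → ∀ w ∈ Gc dd pp R0 i c k,
      dd.g w ∈ NB dd B ∧ Rep (dd.x (dd.g w)) w ∧ Good (tht dd.o) w ∧
      NF i (dd.j1 i) (dd.j2 i) w := by
    intro i k hk c hc hwt w hw
    unfold Gc at hw
    rw [mem_filter] at hw
    obtain ⟨hwc, hgood⟩ := hw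
    have hdtk := cel_dtk (R0 := R0) (J := pp.J) (c := c) pp.hlam pp.hlam2 (dd.h1 i) hH0 pp.hJ0
      (by omega) hk pp.hD le_rfl
    obtain ⟨w0, w1, w2⟩ := (mem_cell (dd.h1 i)).1 hwc
    have hSS : ∀ l, w l ∈ SS pp.lam pp.H i (dd.j1 i) (Xc pp.lam R0 pp.J c) (Lc c) k
        (w (dd.j1 i)) l := by
      intro l
      unfold SS
      split_ifs with g1 g2
      · rw [g1, w0]; exact mem_singleton_self _
      · rw [g2]; exact mem_singleton_self _
      · exact w2 l g1 g2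
    have hne : ∀ a b, a ≠ b → dt (w a) (w b) ≠ 0 := fun a b hab =>
      (hdtk.2 _ w1 a b hab _ (hSS a) _ (hSS b)).1
    obtain ⟨h1, h2⟩ := dd.hg' w hne
    have hX := fun l => Xc_pos (R0 := R0) (J := pp.J) (c := c) pp.hlam l
    refine ⟨⟨h1, ?_⟩, h2, hgood, w0, ?_, ?_, ?_, ?_⟩
    · refine (hgt_le_iff (tht_ge dd.o) (tht_sum dd.o) h2 hgood.2 B).2 fun m => ?_
      refine cel_hgt_le pp.hlam pp.hJ (dd.h1 i) hH0 (by omega) hc hk pp.hD hwc B ?_ m
      refine le_trans ?_ (hT i k hk)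
      have e1 := (Phk_pos (by omega : 3 ≤ Fintype.card I) hH0 hk pp.hD).le
      have e2 : pp.lam ^ (2 * ((Fintype.card I - 1) * R0 + wtOf pp.J c)) ≤
          pp.lam ^ (2 * ((Fintype.card I - 1) * R0 + T i k)) :=
        pow_le_pow_right₀ pp.hlam.le (by omega)
      have e3 : 0 < pp.lam := by linarith [pp.hlam]
      gcongr
    · intro l hl
      have := cel_size pp.hlam (dd.h1 i) hH0 hk hwc l hl
      have h3 := hX l
      have : (0 : ℝ) < (w l).2 := by linarith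
      exact_mod_cast this
    · have := (mem_Tz.1 w1).2.1
      rw [mul_zero] at this
      exact_mod_cast this
    · have := (mem_Tz.1 w1).2.2
      rw [zero_add, mul_one] at this
      exact_mod_cast this
    · obtain ⟨θ, g1, g2, g3, g4, g5⟩ := ss_pos (dd.h1 i) hk.2.1 pp.hlam hH0 hX (Lc_pos c) w1
        (dd.j1 i) (dd.h1 i) (w (dd.j1 i)) (hSS _)
      obtain ⟨θ', g1', g2', g3', g4', g5'⟩ := ss_pos (dd.h1 i) hk.2.1 pp.hlam hH0 hX (Lc_pos c) w1
        (dd.j2 i) (dd.h2 i) (w (dd.j2 i)) (hSS _)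
      have e1 := dt_pos g3 g3'
      have x1 := hX (dd.j1 i)
      have x2 := hX (dd.j2 i)
      have p1 : (0 : ℝ) < (w (dd.j1 i)).2 := by linarith
      have p2 : (0 : ℝ) < (w (dd.j2 i)).2 := by linarith
      have hL := Lc_pos c
      have hH' : (0 : ℝ) < pp.H := by exact_mod_cast hH0
      have hk2 : (1 : ℤ) < k (dd.j2 i) := by
        have h3 := hk.2.2.2.1 (dd.j1 i) (dd.j2 i) (dd.h1 i) (dd.h2 i) (dd.h12 i)
        rw [hk.2.1, zero_sub, abs_neg, abs_of_nonneg hk.2.2.2.2.2] at h3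
        have := pp.hD
        omega
      have hk2' : ((k (dd.j1 i) - k (dd.j2 i) : ℤ) : ℝ) + (θ - θ') < 0 := by
        rw [hk.2.1, zero_sub]
        have : (1 : ℝ) < k (dd.j2 i) := by exact_mod_cast hk2
        push_cast
        linarith
      have e2 : ((dt (w (dd.j1 i)) (w (dd.j2 i)) : ℤ) : ℝ) < 0 := by
        rw [e1]
        exact mul_neg_of_pos_of_neg (by positivity) hk2'
      exact_mod_cast e2
  -- the union for fixed `i`
  set Gi : I → Finset (I → ℤ × ℤ) := fun i =>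
    (KSf pp.H pp.h pp.D i (dd.j1 i) (dd.j2 i)).biUnion fun k => (range (T i k + 1)).biUnion fun w =>
      (IS pp.J i w).biUnion fun c => Gc dd pp R0 i c k with hGi
  have hmemGi : ∀ i w, w ∈ Gi i → ∃ k c, KS pp.H pp.h pp.D i (dd.j1 i) (dd.j2 i) k ∧ c.2.2 i = 0 ∧
      wtOf pp.J c ≤ T i k ∧ w ∈ Gc dd pp R0 i c k := by
    intro i w hw
    simp only [hGi, mem_biUnion, mem_range] at hw
    obtain ⟨k, hk, s, hs, c, hc, hw⟩ := hw
    rw [mem_IS pp.hJ0 (by omega)] at hc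
    exact ⟨k, c, mem_KSf.1 hk, hc.2, by omega, hw⟩
  have huniq : ∀ i k k' c c', KS pp.H pp.h pp.D i (dd.j1 i) (dd.j2 i) k →
      KS pp.H pp.h pp.D i (dd.j1 i) (dd.j2 i) k' → c.2.2 i = 0 → c'.2.2 i = 0 → ∀ w,
      w ∈ Gc dd pp R0 i c k → w ∈ Gc dd pp R0 i c' k' → c = c' ∧ k = k' := by
    intro i k k' c c' hk hk' hc hc' w hw hw'
    unfold Gc at hw hw'
    rw [mem_filter] at hw hw'
    exact cel_unique pp.hlam (dd.h1 i) pp.hH pp.hh hc hc' hk hk' hw.1 hw'.1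
  have hcardGi : ∀ i, (Gi i).card = ∑ k ∈ KSf pp.H pp.h pp.D i (dd.j1 i) (dd.j2 i),
      ∑ w ∈ range (T i k + 1), ∑ c ∈ IS pp.J i w, (Gc dd pp R0 i c k).card := by
    intro i
    simp only [hGi]
    rw [card_biUnion]
    · refine sum_congr rfl fun k hk => ?_
      rw [mem_KSf] at hk
      rw [card_biUnion]
      · refine sum_congr rfl fun s _ => ?_
        rw [card_biUnion]
        intro c hc c' hc' hcc
        rw [mem_coe, mem_IS pp.hJ0 (by omega)] at hc hc'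
        rw [Function.onFun, disjoint_left]
        intro w hw hw'
        exact hcc (huniq i k k c c' hk hk hc.2 hc'.2 w hw hw').1
      · intro s _ s' _ hss
        rw [Function.onFun, disjoint_left]
        intro w hw hw'
        rw [mem_biUnion] at hw hw'
        obtain ⟨c, hc, hw⟩ := hw
        obtain ⟨c', hc', hw'⟩ := hw'
        rw [mem_IS pp.hJ0 (by omega)] at hc hc'
        have := (huniq i k k c c' hk hk hc.2 hc'.2 w hw hw').1
        apply hss
        rw [← hc.1, ← hc'.1, this]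
    · intro k hk k' hk' hkk
      rw [mem_coe, mem_KSf] at hk hk'
      rw [Function.onFun, disjoint_left]
      intro w hw hw'
      simp only [mem_biUnion] at hw hw'
      obtain ⟨s, _, c, hc, hw⟩ := hw
      obtain ⟨s', _, c', hc', hw'⟩ := hw'
      rw [mem_IS pp.hJ0 (by omega)] at hc hc'
      exact hkk (huniq i k k' c c' hk hk' hc.2 hc'.2 w hw hw').2
  have hI0 : 0 < ∑ l, tht dd.o l := by rw [tht_sum]; omega
  have hinj : ∀ i, Set.InjOn dd.g (Gi i : Set (I → ℤ × ℤ)) := by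
    intro i w hw w' hw' heq
    obtain ⟨k, c, hk, hc, hwt, hw⟩ := hmemGi i w hw
    obtain ⟨k', c', hk', hc', hwt', hw'⟩ := hmemGi i w' hw'
    obtain ⟨-, a2, a3, a4⟩ := hel i k hk c hc hwt w hw
    obtain ⟨-, b2, b3, b4⟩ := hel i k' hk' c' hc' hwt' w' hw'
    rw [← heq] at b2
    exact nf_unique i (dd.j1 i) (dd.j2 i) (dd.h1 i) (dd.h2 i) a2 b2 a3.1 b3.1 a3.2 b3.2 hI0 a4 b4
  have hdisj : ∀ i i', i ≠ i' → ∀ w ∈ Gi i, ∀ w' ∈ Gi i', dd.g w ≠ dd.g w' := by
    intro i i' hii w hw w' hw' heq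
    obtain ⟨k, c, hk, hc, hwt, hw⟩ := hmemGi i w hw
    obtain ⟨k', c', hk', hc', hwt', hw'⟩ := hmemGi i' w' hw'
    obtain ⟨-, a2, a3, a4⟩ := hel i k hk c hc hwt w hw
    obtain ⟨-, b2, b3, b4⟩ := hel i' k' hk' c' hc' hwt' w' hw'
    rw [← heq] at b2
    have hE : Eqv w w' := unique_model_wt a2 b2 a3.1 b3.1 a3.2 b3.2 hI0
    obtain ⟨l, hl1, hl2⟩ : ∃ l, l ≠ i ∧ l ≠ i' := by
      by_contra hcon
      push Not at hcon
      have h1 : (univ : Finset I) ⊆ {i, i'} := by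
        intro l _
        rw [mem_insert, mem_singleton]
        by_cases h : l = i
        · exact Or.inl h
        · exact Or.inr (hcon l h)
      have h2 := card_le_card h1
      rw [Finset.card_univ] at h2
      have h3 := card_le_two (a := i) (b := i')
      omega
    unfold Gc at hw hw'
    rw [mem_filter] at hw hw'
    have m1 := cel_min pp.hlam pp.hJ (dd.h1 i) hH0 pp.hD hk hR hw.1 i' l hii.symm hl1 hl2.symm
    have m2 := cel_min pp.hlam pp.hJ (dd.h1 i') hH0 pp.hD hk' hR hw'.1 i l hii hl2 hl1.symm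
    have n1 := hE.natAbs_dt i l
    have n2 := hE.natAbs_dt i' l
    omega
  set F : Finset X := univ.biUnion fun i : I => (Gi i).image dd.g with hF
  have hFcard : F.card = ∑ i : I, (Gi i).card := by
    rw [hF, card_biUnion]
    · exact sum_congr rfl fun i _ => card_image_of_injOn (hinj i)
    · intro i _ i' _ hii
      rw [Function.onFun, disjoint_left]
      intro t ht ht'
      rw [mem_image] at ht ht'
      obtain ⟨w, hw, rfl⟩ := ht
      obtain ⟨w', hw', heq⟩ := ht'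
      exact hdisj i i' hii w hw w' hw' heq.symm
  have hsub : (F : Set X) ⊆ NB dd B := by
    intro t ht
    rw [mem_coe, hF, mem_biUnion] at ht
    obtain ⟨i, -, ht⟩ := ht
    rw [mem_image] at ht
    obtain ⟨w, hw, rfl⟩ := ht
    obtain ⟨k, c, hk, hc, hwt, hw⟩ := hmemGi i w hw
    exact (hel i k hk c hc hwt w hw).1
  have h1 := Set.ncard_le_ncard hsub hfin
  rw [Set.ncard_coe_finset, hFcard, sum_congr rfl fun i _ => hcardGi i] at h1
  unfold Cs
  exact_mod_cast h1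

end

end Pool.Agent.Y714.MA
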