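import Pool.Agent.Y714.MA.Cgood

set_option autoImplicit false
set_option linter.unusedSectionVars false
set_option linter.unusedSimpArgs false
set_option linter.unusedVariables false

/-! The number of good elements of a cell in a residue class. -/

namespace Pool.Agent.Y714.MA

open Finset Pool.Agent.Y714.ML

section

variable {I : Type} [Fintype I] [DecidableEq I]

/-- congruence modulo `P` -/
def Cg (P : ℕ) (w ρ : I → ℤ × ℤ) : Prop := ∀ l, ((P : ℤ) ∣ (w l).1 - (ρ l).1 ∧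
  (P : ℤ) ∣ (w l).2 - (ρ l).2)

theorem Cg.symm {P : ℕ} {w ρ : I → ℤ × ℤ} (h : Cg P w ρ) : Cg P ρ w := fun l =>
  ⟨by rw [← neg_sub, dvd_neg]; exact (h l).1, by rw [← neg_sub, dvd_neg]; exact (h l).2⟩

theorem Cg.trans {P : ℕ} {u w ρ : I → ℤ × ℤ} (h : Cg P u w) (h' : Cg P w ρ) : Cg P u ρ := fun l =>
  ⟨by have := dvd_add (h l).1 (h' l).1; simpa using this,
    by have := dvd_add (h l).2 (h' l).2; simpa using this⟩

theorem rs_bd {θ : I → ℕ} {P0 : ℕ} {i : I} (hP0 : 2 ≤ P0) {ρ : I → ℤ × ℤ} (hρ : ρ ∈ Rs θ P0 i)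
    (l : I) : 0 ≤ (ρ l).1 ∧ (ρ l).1 < (P0.factorial : ℕ) ∧ 0 ≤ (ρ l).2 ∧
      (ρ l).2 < (P0.factorial : ℕ) := by
  classical
  have hP2 : (2 : ℤ) ≤ (P0.factorial : ℕ) := by
    have : P0 ≤ P0.factorial := Nat.self_le_factorial P0
    have h3 : 2 ≤ P0.factorial := by omega
    exact_mod_cast h3
  rw [Rs, mem_filter, Fintype.mem_piFinset] at hρ
  have h6 := hρ.1 l
  split_ifs at h6 with hl
  · rw [mem_singleton] at h6
    rw [h6]
    simp only
    omega
  · rw [mem_product, mem_Ico, mem_Ico] at h6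
    exact ⟨h6.1.1, h6.1.2, h6.2.1, h6.2.2⟩

theorem rs_eq {θ : I → ℕ} {P0 : ℕ} {i : I} (hP0 : 2 ≤ P0) {ρ ρ' : I → ℤ × ℤ} (hρ : ρ ∈ Rs θ P0 i)
    (hρ' : ρ' ∈ Rs θ P0 i) (h : Cg P0.factorial ρ ρ') : ρ = ρ' := by
  funext l
  obtain ⟨a1, a2, a3, a4⟩ := rs_bd hP0 hρ l
  obtain ⟨b1, b2, b3, b4⟩ := rs_bd hP0 hρ' l
  obtain ⟨h1, h2⟩ := h l
  have e1 : (ρ l).1 - (ρ' l).1 = 0 := by
    refine Int.eq_zero_of_abs_lt_dvd h1 ?_
    rw [abs_lt]
    constructor <;> omega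
  have e2 : (ρ l).2 - (ρ' l).2 = 0 := by
    refine Int.eq_zero_of_abs_lt_dvd h2 ?_
    rw [abs_lt]
    constructor <;> omega
  exact Prod.ext (by omega) (by omega)

/-- the residue of a good element -/
theorem exists_rs {θ : I → ℕ} {P0 : ℕ} {i : I} (hP0 : 2 ≤ P0) {w : I → ℤ × ℤ} (hi : w i = (1, 0))
    (hw : Gd θ P0 w) : ∃ ρ ∈ Rs θ P0 i, Cg P0.factorial w ρ := by
  classical
  have hP2 : (2 : ℤ) ≤ (P0.factorial : ℕ) := by
    have : P0 ≤ P0.factorial := Nat.self_le_factorial P0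
    have h3 : 2 ≤ P0.factorial := by omega
    exact_mod_cast h3
  have hc : Cg P0.factorial w (fun l => ((w l).1 % (P0.factorial : ℕ),
      (w l).2 % (P0.factorial : ℕ))) := fun l => ⟨Int.dvd_self_sub_emod, Int.dvd_self_sub_emod⟩
  refine ⟨fun l => ((w l).1 % (P0.factorial : ℕ), (w l).2 % (P0.factorial : ℕ)), ?_, hc⟩
  rw [Rs, mem_filter, Fintype.mem_piFinset]
  refine ⟨fun l => ?_, gd_congr θ P0 _ rfl w _ hc hw⟩
  split_ifs with hl
  · rw [mem_singleton, hl, hi]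
    have : (1 : ℤ) % (P0.factorial : ℕ) = 1 := Int.emod_eq_of_lt (by norm_num) (by omega)
    simp only [this, Int.zero_emod]
  · rw [mem_product, mem_Ico, mem_Ico]
    exact ⟨⟨Int.emod_nonneg _ (by omega), Int.emod_lt_of_pos _ (by omega)⟩,
      ⟨Int.emod_nonneg _ (by omega), Int.emod_lt_of_pos _ (by omega)⟩⟩

variable {lam : ℝ} {H : ℕ} {i j1 : I} {X : I → ℝ} {L Y : ℝ} {k : I → ℤ}

open Classical in
/-- upper bound for the good elements in a residue class -/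
theorem CSz.gr_le (h : CSz lam H i j1 X L Y) (θ : I → ℕ) (P0 : ℕ) (ρ : I → ℤ × ℤ) :
    (((cell lam H i j1 X L k).filter fun w => Good θ w ∧ Cg P0.factorial w ρ).card : ℝ) ≤
      (lam * (1 / (P0.factorial : ℕ) + 1 / Y) ^ 2) ^ (Fintype.card I - 1) *
        ∏ l, vv lam H i j1 X L l := by
  refine le_trans ?_ (h.res_le (k := k) P0.factorial (Nat.factorial_pos _) ρ)
  have h1 : ((cell lam H i j1 X L k).filter fun w => Good θ w ∧ Cg P0.factorial w ρ).card ≤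
      ((cell lam H i j1 X L k).filter fun w => ∀ l, (((P0.factorial : ℕ) : ℤ) ∣ (w l).1 - (ρ l).1 ∧
      ((P0.factorial : ℕ) : ℤ) ∣ (w l).2 - (ρ l).2)).card := by
    refine card_le_card fun w hw => ?_
    rw [mem_filter] at hw ⊢
    exact ⟨hw.1, hw.2.2⟩
  exact_mod_cast h1

open Classical in
/-- lower bound for the good elements in a residue class -/
theorem CSz.gr_ge (h : CSz lam H i j1 X L Y) (θ : I → ℕ) (P0 : ℕ) (hP0 : 2 ≤ P0)
    (hPY : ((P0.factorial : ℕ) : ℝ) ≤ Y) {ρ : I → ℤ × ℤ} (hρ : ρ ∈ Rs θ P0 i) :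
    ((1 / (P0.factorial : ℕ) - 1 / Y) ^ 2) ^ (Fintype.card I - 1) * ∏ l, vv lam H i j1 X L l ≤
    (((cell lam H i j1 X L k).filter fun w => Good θ w ∧ Cg P0.factorial w ρ).card : ℝ) +
    (((cell lam H i j1 X L k).filter fun w => (Gd θ P0 w ∧ ¬ Good θ w) ∧
      Cg P0.factorial w ρ).card : ℝ) := by
  have hρ0 := hρ
  rw [Rs, mem_filter, Fintype.mem_piFinset] at hρ
  have h1 := h.res_ge (k := k) P0.factorial (Nat.factorial_pos _) hPY ρ (by
    have h6 := hρ.1 i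
    rw [if_pos rfl, mem_singleton] at h6
    rw [h6]
    simp)
  refine h1.trans ?_
  have h2 : ((cell lam H i j1 X L k).filter fun w => ∀ l, (((P0.factorial : ℕ) : ℤ) ∣ (w l).1 - (ρ l).1 ∧
      ((P0.factorial : ℕ) : ℤ) ∣ (w l).2 - (ρ l).2)).card ≤
      ((cell lam H i j1 X L k).filter fun w => Good θ w ∧ Cg P0.factorial w ρ).card +
      ((cell lam H i j1 X L k).filter fun w => (Gd θ P0 w ∧ ¬ Good θ w) ∧
      Cg P0.factorial w ρ).card := by
    refine (card_le_card ?_).trans (card_union_le _ _)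
    intro w hw
    rw [mem_filter] at hw
    rw [mem_union, mem_filter, mem_filter]
    by_cases hg : Good θ w
    · exact Or.inl ⟨hw.1, hg, hw.2⟩
    · exact Or.inr ⟨hw.1, ⟨gd_congr θ P0 _ rfl ρ w (Cg.symm hw.2) hρ.2, hg⟩, hw.2⟩
  exact_mod_cast h2

open Classical in
/-- the bad elements over all residue classes -/
theorem CSz.sum_bad_le (h : CSz lam H i j1 X L Y) (o : I) (P0 K : ℕ) (hP0 : 2 ≤ P0)
    (hK : DtK lam H i j1 X L k K) (hn : 5 ≤ Fintype.card I) :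
    ∑ ρ ∈ Rs (tht o) P0 i, (((cell lam H i j1 X L k).filter fun w => (Gd (tht o) P0 w ∧
      ¬ Good (tht o) w) ∧ Cg P0.factorial w ρ).card : ℝ) ≤
      (Fintype.card I + Fintype.card I ^ 3) *
        (256 * 8 ^ Fintype.card I * (1 / P0 + K / Y) * ∏ l, vv lam H i j1 X L l) := by
  refine le_trans ?_ (h.bad_le o P0 K (by omega) hK hn)
  have h1 : ∑ ρ ∈ Rs (tht o) P0 i, ((cell lam H i j1 X L k).filter fun w => (Gd (tht o) P0 w ∧
      ¬ Good (tht o) w) ∧ Cg P0.factorial w ρ).card ≤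
      ((cell lam H i j1 X L k).filter fun w => Gd (tht o) P0 w ∧ ¬ Good (tht o) w).card := by
    rw [← card_biUnion]
    · refine card_le_card fun w hw => ?_
      rw [mem_biUnion] at hw
      obtain ⟨ρ, -, hw⟩ := hw
      rw [mem_filter] at hw ⊢
      exact ⟨hw.1, hw.2.1⟩
    · intro ρ hρ ρ' hρ' hne
      rw [Function.onFun, disjoint_left]
      intro w hw hw'
      rw [mem_filter] at hw hw'
      exact hne (rs_eq hP0 hρ hρ' (hw.2.2.symm.trans hw'.2.2))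
  exact_mod_cast h1

end

end Pool.Agent.Y714.MA
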