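import Pool.Agent.Y714.MA.Asm
import Pool.Agent.Y714.MA.Rsd

set_option autoImplicit false
set_option linter.unusedSectionVars false
set_option linter.unusedSimpArgs false
set_option linter.unusedVariables false

/-! The number of configurations of bounded twisted height and the cells. -/

namespace Pool.Agent.Y714.MA

open Finset Pool.Agent.Y714.ML

section

variable {I : Type} [Fintype I] [DecidableEq I]

/-- real position -/
def RP (i : I) (z : I → ℝ) (w : I → ℤ × ℤ) : Prop := w i = (1, 0) ∧ ∃ x Λ : ℝ, 0 < Λ ∧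
  ∀ l, l ≠ i → 0 < (w l).2 ∧ ((w l).1 : ℝ) = (w l).2 * (x + Λ * z l)

/-- separated positions -/
def Sep (r : ℝ) (i : I) (z : I → ℝ) : Prop := (∀ l, l ≠ i → |z l| ≤ 2) ∧
  ∀ l m, l ≠ i → m ≠ i → l ≠ m → r ≤ |z l - z m|

variable {X : Type} (dd : Dat I X) (pp : Par (Fintype.card I))

/-- a continuous twist of the height -/
structure Tws where
  F : X → ℝ
  a : ℝ
  b : ℝ
  ha : 0 < a
  hF : ∀ t ∈ dd.U, a ≤ F t ∧ F t ≤ b
  cont : ∀ η : ℝ, 0 < η → ∀ r : ℝ, 0 < r → ∃ P1 H1 : ℕ, ∀ P H : ℕ, P1 ≤ P → H1 ≤ H →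
    ∀ (i : I) (w w' : I → ℤ × ℤ) (z z' : I → ℝ), RP i z w → RP i z' w' → Sep r i z → Sep r i z' →
    (∀ l, l ≠ i → |z l - z' l| ≤ 2 / H) → Good (tht dd.o) w → Good (tht dd.o) w' →
    Cg P.factorial w w' → F (dd.g w) ≤ (1 + η) * F (dd.g w')

variable {dd} (T : Tws dd)

/-- local constants -/
def FbP (η : ℝ) (Fb : I → (I → ℤ) → (I → ℤ × ℤ) → ℝ) : Prop :=
  (∀ i k ρ, T.a ≤ Fb i k ρ) ∧ ∀ i k, KS pp.H pp.h pp.D i (dd.j1 i) (dd.j2 i) k → ∀ ρ R0 c,
    ∀ w ∈ cel pp.lam pp.H R0 pp.J i (dd.j1 i) c k, Good (tht dd.o) w → Cg pp.P0.factorial w ρ →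
      T.F (dd.g w) ≤ (1 + η) * Fb i k ρ ∧ Fb i k ρ ≤ (1 + η) * T.F (dd.g w)

/-- the determinants in a cell do not vanish -/
theorem cel_ne {i : I} {k : I → ℤ} (hk : KS pp.H pp.h pp.D i (dd.j1 i) (dd.j2 i) k) {R0 : ℕ}
    {c : Bool × ℕ × (I → ℕ)} {w : I → ℤ × ℤ}
    (hw : w ∈ cel pp.lam pp.H R0 pp.J i (dd.j1 i) c k) (a b : I) (hab : a ≠ b) :
    dt (w a) (w b) ≠ 0 := by
  have hn := dd.hn
  have hH0 : 0 < pp.H := by have := pp.hH; have := pp.hh; omega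
  have hdtk := cel_dtk (R0 := R0) (J := pp.J) (c := c) pp.hlam pp.hlam2 (dd.h1 i) hH0 pp.hJ0
    (by omega) hk pp.hD le_rfl
  obtain ⟨w0, w1, w2⟩ := (mem_cell (dd.h1 i)).1 hw
  have hSS : ∀ l, w l ∈ SS pp.lam pp.H i (dd.j1 i) (Xc pp.lam R0 pp.J c) (Lc c) k
      (w (dd.j1 i)) l := by
    intro l
    unfold SS
    split_ifs with g1 g2
    · rw [g1, w0]; exact mem_singleton_self _
    · rw [g2]; exact mem_singleton_self _
    · exact w2 l g1 g2
  exact (hdtk.2 _ w1 a b hab _ (hSS a) _ (hSS b)).1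

/-- the real position of an element of a cell -/
theorem cel_rp {i : I} {k : I → ℤ} (hk : KS pp.H pp.h pp.D i (dd.j1 i) (dd.j2 i) k) {R0 : ℕ}
    {c : Bool × ℕ × (I → ℕ)} {w : I → ℤ × ℤ}
    (hw : w ∈ cel pp.lam pp.H R0 pp.J i (dd.j1 i) c k) :
    ∃ θ : I → ℝ, (∀ l, 0 ≤ θ l ∧ θ l < 1) ∧ RP i (fun l => (k l + θ l) / pp.H) w := by
  have hH0 : 0 < pp.H := by have := pp.hH; have := pp.hh; omega
  obtain ⟨w0, w1, w2⟩ := (mem_cell (dd.h1 i)).1 hw
  have hSS : ∀ l, w l ∈ SS pp.lam pp.H i (dd.j1 i) (Xc pp.lam R0 pp.J c) (Lc c) k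
      (w (dd.j1 i)) l := by
    intro l
    unfold SS
    split_ifs with g1 g2
    · rw [g1, w0]; exact mem_singleton_self _
    · rw [g2]; exact mem_singleton_self _
    · exact w2 l g1 g2
  have h1 : ∀ l, ∃ θ : ℝ, (0 ≤ θ ∧ θ < 1) ∧ (l ≠ i → 0 < (w l).2 ∧ ((w l).1 : ℝ) =
      (w l).2 * (((w (dd.j1 i)).1 : ℝ) / (w (dd.j1 i)).2 + Lc c * ((k l + θ) / pp.H))) := by
    intro l
    by_cases hl : l = i
    · exact ⟨0, ⟨le_rfl, one_pos⟩, fun h => absurd hl h⟩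
    · have hX := fun l => Xc_pos (R0 := R0) (J := pp.J) (c := c) pp.hlam l
      obtain ⟨θ, g1, g2, g3, g4, g5⟩ := ss_pos (dd.h1 i) hk.2.1 pp.hlam hH0 hX (Lc_pos c) w1 l hl
        (w l) (hSS l)
      have hp : (0 : ℝ) < (w l).2 := lt_of_lt_of_le (hX l) g4
      refine ⟨θ, ⟨g1, g2⟩, fun _ => ⟨by exact_mod_cast hp, ?_⟩⟩
      rw [g3]
      ring
  choose θ hθ using h1
  exact ⟨θ, fun l => (hθ l).1, w0, _, Lc c, Lc_pos c, fun l hl => (hθ l).2 hl⟩

theorem exists_Fb {η r : ℝ} (hη : 0 < η) (hr : 0 < r) {P1 H1 : ℕ}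
    (hc : ∀ P H : ℕ, P1 ≤ P → H1 ≤ H →
    ∀ (i : I) (w w' : I → ℤ × ℤ) (z z' : I → ℝ), RP i z w → RP i z' w' → Sep r i z → Sep r i z' →
    (∀ l, l ≠ i → |z l - z' l| ≤ 2 / H) → Good (tht dd.o) w → Good (tht dd.o) w' →
    Cg P.factorial w w' → T.F (dd.g w) ≤ (1 + η) * T.F (dd.g w'))
    (h1 : P1 ≤ pp.P0) (h2 : H1 ≤ pp.H) (h3 : r * pp.H ≤ pp.D - 1) : ∃ Fb, FbP pp T η Fb := by
  classical
  have hH0 : 0 < pp.H := by have := pp.hH; have := pp.hh; omega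
  have hH' : (0 : ℝ) < pp.H := by exact_mod_cast hH0
  have hH1 : (1 : ℝ) ≤ pp.H := by exact_mod_cast hH0
  have hcmp : ∀ i k, KS pp.H pp.h pp.D i (dd.j1 i) (dd.j2 i) k → ∀ R0 c,
      ∀ w ∈ cel pp.lam pp.H R0 pp.J i (dd.j1 i) c k, ∀ R0' c',
      ∀ w' ∈ cel pp.lam pp.H R0' pp.J i (dd.j1 i) c' k, Good (tht dd.o) w → Good (tht dd.o) w' →
      Cg pp.P0.factorial w w' → T.F (dd.g w) ≤ (1 + η) * T.F (dd.g w') := by
    intro i k hk R0 c w hw R0' c' w' hw' hg hg' hcg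
    obtain ⟨θ, hθ, hz⟩ := cel_rp pp hk hw
    obtain ⟨θ', hθ', hz'⟩ := cel_rp pp hk hw'
    have hsep : ∀ θ : I → ℝ, (∀ l, 0 ≤ θ l ∧ θ l < 1) →
        Sep r i (fun l => ((k l : ℝ) + θ l) / pp.H) := by
      intro θ hθ
      constructor
      · intro l hl
        have e1 := hk.2.2.1 l
        have e2 : (-(pp.H : ℝ)) ≤ k l := by exact_mod_cast e1.1
        have e3 : (k l : ℝ) < pp.H := by exact_mod_cast e1.2
        have e4 := hθ l
        rw [abs_div, abs_of_pos hH', div_le_iff₀ hH', abs_le]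
        constructor <;> linarith
      · intro l m hl hm hlm
        have e1 := hk.2.2.2.1 l m hl hm hlm
        have e2 : (pp.D : ℝ) ≤ |(k l : ℝ) - k m| := by
          have : (((pp.D : ℤ) : ℝ)) ≤ ((|k l - k m| : ℤ) : ℝ) := by exact_mod_cast e1
          simpa using this
        have e3 := hθ l
        have e4 := hθ m
        have e5 : |θ l - θ m| ≤ 1 := by rw [abs_le]; constructor <;> linarith
        have e6 : ((k l : ℝ) + θ l) / pp.H - ((k m : ℝ) + θ m) / pp.H =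
            (((k l : ℝ) - k m) + (θ l - θ m)) / pp.H := by ring
        rw [e6, abs_div, abs_of_pos hH', le_div_iff₀ hH']
        have e7 : |(k l : ℝ) - k m| - |θ l - θ m| ≤ |((k l : ℝ) - k m) + (θ l - θ m)| := by
          have := abs_sub_abs_le_abs_sub ((k l : ℝ) - k m) (-(θ l - θ m))
          rw [abs_neg, sub_neg_eq_add] at this
          exact this
        linarith
    refine hc pp.P0 pp.H h1 h2 i w w' _ _ hz hz' (hsep θ hθ) (hsep θ' hθ') ?_ hg hg' hcg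
    intro l hl
    have e3 := hθ l
    have e4 := hθ' l
    have e6 : ((k l : ℝ) + θ l) / pp.H - ((k l : ℝ) + θ' l) / pp.H = (θ l - θ' l) / pp.H := by ring
    rw [e6, abs_div, abs_of_pos hH']
    refine div_le_div_of_nonneg_right ?_ hH'.le
    rw [abs_le]
    constructor <;> linarith
  refine ⟨fun i k ρ => if h : ∃ R0 c w, w ∈ cel pp.lam pp.H R0 pp.J i (dd.j1 i) c k ∧
    KS pp.H pp.h pp.D i (dd.j1 i) (dd.j2 i) k ∧
    Good (tht dd.o) w ∧ Cg pp.P0.factorial w ρ then T.F (dd.g h.choose_spec.choose_spec.choose)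
      else T.a, ?_, ?_⟩
  · intro i k ρ
    dsimp only
    split_ifs with h
    · have hs := h.choose_spec.choose_spec.choose_spec
      exact (T.hF _ (dd.hg' _ fun a b hab => cel_ne pp hs.2.1 hs.1 a b hab).1).1
    · exact le_rfl
  · intro i k hk ρ R0 c w hw hg hcg
    dsimp only
    have h : ∃ R0 c w, w ∈ cel pp.lam pp.H R0 pp.J i (dd.j1 i) c k ∧
      KS pp.H pp.h pp.D i (dd.j1 i) (dd.j2 i) k ∧
      Good (tht dd.o) w ∧ Cg pp.P0.factorial w ρ := ⟨R0, c, w, hw, hk, hg, hcg⟩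
    rw [dif_pos h]
    have hs := h.choose_spec.choose_spec.choose_spec
    exact ⟨hcmp i k hk R0 c w hw _ _ _ hs.1 hg hs.2.2.1 (hcg.trans hs.2.2.2.symm),
      hcmp i k hk _ _ _ hs.1 R0 c w hw hs.2.2.1 hg (hs.2.2.2.trans hcg.symm)⟩

/-- the counting set -/
def NF2 (B : ℝ) : Set X := {t ∈ dd.U | hgt (fun _ => 2) (dd.x t) * T.F t ≤ B}

variable (dd)

open Classical in
/-- the good elements of a cell in a residue class -/
noncomputable def Gr (R0 : ℕ) (i : I) (c : Bool × ℕ × (I → ℕ)) (κ : (I → ℤ) × (I → ℤ × ℤ)) :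
    Finset (I → ℤ × ℤ) :=
  (cel pp.lam pp.H R0 pp.J i (dd.j1 i) c κ.1).filter fun w => Good (tht dd.o) w ∧
    Cg pp.P0.factorial w κ.2

/-- directions and residues -/
noncomputable def KR (i : I) : Finset ((I → ℤ) × (I → ℤ × ℤ)) :=
  KSf pp.H pp.h pp.D i (dd.j1 i) (dd.j2 i) ×ˢ Rs (tht dd.o) pp.P0 i

/-- the sum over all cells and residue classes -/
noncomputable def Cr (R0 : ℕ) (Tt : I → (I → ℤ) × (I → ℤ × ℤ) → ℕ) : ℝ :=
  ∑ i : I, ∑ κ ∈ KR dd pp i, ∑ w ∈ range (Tt i κ + 1),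
    ∑ c ∈ IS pp.J i w, ((Gr dd pp R0 i c κ).card : ℝ)

variable {dd}

theorem hgt_nonneg (x : I → ℚ × ℚ) : 0 ≤ hgt (fun _ => 2) x := by
  unfold hgt
  exact (Height.mulHeight_pos _).le

open Classical in
theorem countF_upper [DecidableEq X] {η : ℝ} (hη : 0 < η)
    {Fb : I → (I → ℤ) → (I → ℤ × ℤ) → ℝ} (hFb : FbP pp T η Fb) (B : ℝ) (R0 M K : ℕ)
    (Tt : I → (I → ℤ) × (I → ℤ × ℤ) → ℕ)
    (hT : ∀ i κ, KS pp.H pp.h pp.D i (dd.j1 i) (dd.j2 i) κ.1 → ∀ w : ℕ,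
      (1 - 1 / (pp.D : ℝ)) ^ Fintype.card I * pp.lam ^ (2 * ((Fintype.card I - 1) * R0 + w)) *
        Phk pp.H i κ.1 * Fb i κ.1 κ.2 ≤ (1 + η) * B → κ ∈ KR dd pp i → w ≤ Tt i κ)
    (hK : 2 ^ Fintype.card I * (B / T.a) < 2 ^ (K + 1))
    (hMR : pp.lam ^ (R0 + 1) ≤ pp.ε ^ (Fintype.card I + 2) * Real.sqrt (2 ^ M)) :
    (NF2 T B).Finite ∧ ((NF2 T B).ncard : ℝ) ≤
      Cr dd pp R0 Tt + ((BX dd.g K M pp.ε).card : ℝ) := by
  have hn := dd.hn
  have hH0 : 0 < pp.H := by have := pp.hH; have := pp.hh; omega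
  have hε1 : pp.ε ≤ 1 := by linarith [pp.hε2]
  have hs0 : 0 < Real.sqrt ((2 : ℝ) ^ M) := Real.sqrt_pos.2 (by positivity)
  have hM : 1 ≤ pp.ε ^ (Fintype.card I + 1) * Real.sqrt (2 ^ M) := by
    have h1 : (1 : ℝ) ≤ pp.lam ^ (R0 + 1) := one_le_pow₀ pp.hlam.le
    refine h1.trans (hMR.trans (mul_le_mul_of_nonneg_right ?_ hs0.le))
    exact pow_le_pow_of_le_one pp.hε.le hε1 (by omega)
  have hta := T.ha
  set F : Finset X := univ.biUnion fun i : I =>
    (KR dd pp i).biUnion fun κ => (range (Tt i κ + 1)).biUnion fun w =>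
      (IS pp.J i w).biUnion fun c => (Gr dd pp R0 i c κ).image dd.g with hF
  have hsub : NF2 T B ⊆ ((F ∪ BX dd.g K M pp.ε : Finset X) : Set X) := by
    rintro t ⟨ht, htB⟩
    rw [mem_coe, mem_union]
    have hFt := (T.hF t ht).1
    have hFt0 : 0 < T.F t := lt_of_lt_of_le hta hFt
    have htB1 : hgt (fun _ => 2) (dd.x t) ≤ B / T.F t := by rwa [le_div_iff₀ hFt0]
    have htB2 : hgt (fun _ => 2) (dd.x t) ≤ B / T.a := by
      rw [le_div_iff₀ hta]
      exact (mul_le_mul_of_nonneg_left hFt (hgt_nonneg _)).trans htB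
    have hT' : 2 ^ Fintype.card I * hgt (fun _ => 2) (dd.x t) < 2 ^ (K + 1) := by
      refine lt_of_le_of_lt ?_ hK
      exact mul_le_mul_of_nonneg_left htB2 (by positivity)
    rcases dichotomy dd.U dd.x dd.hx dd.g dd.hg hn dd.o M K pp.ε pp.hε pp.hε2 hM t ht hT' with h | h
    · exact Or.inr h
    · left
      obtain ⟨ζ, i, v, hrep, hN⟩ := h
      obtain ⟨w, c, k, hE, hNF, hc0, hKS, hw⟩ := nice_cell (R0 := R0) (J := pp.J) (H := pp.H)
        (D := pp.D) (h := pp.h) pp.hlam pp.hJ (dd.h1 i) (dd.h2 i) (dd.h12 i) pp.hH pp.hh pp.hε hε1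
        hN pp.hHD hMR
      have hrep' : Rep (dd.x t) w := hE.rep hrep
      have hgood : Good (tht dd.o) w := good_eqv hE hN.good
      have hgw : dd.g w = t := dd.hg t ht w hrep'
      have hB := (hgt_le_iff (tht_ge dd.o) (tht_sum dd.o) hrep' hgood.2 (B / T.F t)).1 htB1
      have h1 := cel_hgt_ge pp.hlam pp.hJ (dd.h1 i) hH0 (by omega) hc0 hKS pp.hD hw _ hB
      obtain ⟨ρ, hρ, hcg⟩ := exists_rs (i := i) pp.hP0 hNF.1 (hgood.gd pp.P0)
      have hκ : (k, ρ) ∈ KR dd pp i := mem_product.2 ⟨mem_KSf.2 hKS, hρ⟩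
      have hfb := (hFb.2 i k hKS ρ R0 c w hw hgood hcg).2
      rw [hgw] at hfb
      have hfb0 : 0 < Fb i k ρ := lt_of_lt_of_le hta (hFb.1 i k ρ)
      have h2 := hT i (k, ρ) hKS (wtOf pp.J c) (by
        rw [le_div_iff₀ hFt0] at h1
        have hx0 : 0 ≤ (1 - 1 / (pp.D : ℝ)) ^ Fintype.card I *
            pp.lam ^ (2 * ((Fintype.card I - 1) * R0 + wtOf pp.J c)) * Phk pp.H i k := by
          have hD : (0 : ℝ) ≤ 1 - 1 / (pp.D : ℝ) := by
            have h1 : (1 : ℝ) < pp.D := by exact_mod_cast pp.hD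
            have : 1 / (pp.D : ℝ) < 1 := by rw [div_lt_one (by linarith)]; exact h1
            linarith
          have := (Phk_pos (by omega : 3 ≤ Fintype.card I) hH0 hKS pp.hD).le
          have := pp.hlam
          have : 0 < pp.lam := by linarith
          positivity
        have h3 := mul_le_mul_of_nonneg_left hfb hx0
        simp only
        nlinarith) hκ
      simp only [hF, mem_biUnion, mem_univ, true_and, mem_image, mem_range]
      refine ⟨i, (k, ρ), hκ, wtOf pp.J c, by omega, c,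
        (mem_IS pp.hJ0 (by omega)).2 ⟨rfl, hc0⟩, w, ?_, hgw⟩
      exact mem_filter.2 ⟨hw, hgood, hcg⟩
  have hfin : (NF2 T B).Finite := (F ∪ BX dd.g K M pp.ε).finite_toSet.subset hsub
  refine ⟨hfin, ?_⟩
  have h1 : ((NF2 T B).ncard : ℝ) ≤ ((F ∪ BX dd.g K M pp.ε).card : ℝ) := by
    have := Set.ncard_le_ncard hsub (F ∪ BX dd.g K M pp.ε).finite_toSet
    rw [Set.ncard_coe_finset] at this
    exact_mod_cast this
  have h2 : ((F ∪ BX dd.g K M pp.ε).card : ℝ) ≤ (F.card : ℝ) + ((BX dd.g K M pp.ε).card : ℝ) := by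
    exact_mod_cast card_union_le _ _
  have h3 : (F.card : ℝ) ≤ Cr dd pp R0 Tt := by
    have e1 : F.card ≤ ∑ i : I, ∑ κ ∈ KR dd pp i,
        ∑ w ∈ range (Tt i κ + 1), ∑ c ∈ IS pp.J i w, (Gr dd pp R0 i c κ).card := by
      refine card_biUnion_le.trans (sum_le_sum fun i _ => ?_)
      refine card_biUnion_le.trans (sum_le_sum fun k _ => ?_)
      refine card_biUnion_le.trans (sum_le_sum fun w _ => ?_)
      refine card_biUnion_le.trans (sum_le_sum fun c _ => ?_)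
      exact card_image_le
    unfold Cr
    exact_mod_cast e1
  linarith

open Classical in
theorem countF_lower {η : ℝ} (hη : 0 < η)
    {Fb : I → (I → ℤ) → (I → ℤ × ℤ) → ℝ} (hFb : FbP pp T η Fb) (B : ℝ) (R0 : ℕ)
    (Tt : I → (I → ℤ) × (I → ℤ × ℤ) → ℕ)
    (hT : ∀ i κ, κ ∈ KR dd pp i →
      (1 + 1 / (pp.D : ℝ)) ^ Fintype.card I * (pp.lam ^ (2 * (Fintype.card I - 1)) *
        pp.lam ^ (2 * ((Fintype.card I - 1) * R0 + Tt i κ))) * Phk pp.H i κ.1 *
          ((1 + η) * Fb i κ.1 κ.2) ≤ B)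
    (hR : (pp.H : ℝ) ≤ (1 - 1 / (pp.D : ℝ)) * pp.lam ^ R0) (hfin : (NF2 T B).Finite) :
    Cr dd pp R0 Tt ≤ ((NF2 T B).ncard : ℝ) := by
  have hn := dd.hn
  have hH0 : 0 < pp.H := by have := pp.hH; have := pp.hh; omega
  have hta := T.ha
  -- basic facts on elements of cells
  have hel : ∀ i κ, κ ∈ KR dd pp i → ∀ c, c.2.2 i = 0 →
      wtOf pp.J c ≤ Tt i κ → ∀ w ∈ Gr dd pp R0 i c κ,
      dd.g w ∈ NF2 T B ∧ Rep (dd.x (dd.g w)) w ∧ Good (tht dd.o) w ∧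
      NF i (dd.j1 i) (dd.j2 i) w := by
    intro i κ hκ c hc hwt w hw
    have hk : KS pp.H pp.h pp.D i (dd.j1 i) (dd.j2 i) κ.1 := mem_KSf.1 (mem_product.1 hκ).1
    unfold Gr at hw
    rw [mem_filter] at hw
    obtain ⟨hwc, hgood, hcg⟩ := hw
    obtain ⟨w0, w1, w2⟩ := (mem_cell (dd.h1 i)).1 hwc
    have hSS : ∀ l, w l ∈ SS pp.lam pp.H i (dd.j1 i) (Xc pp.lam R0 pp.J c) (Lc c) κ.1
        (w (dd.j1 i)) l := by
      intro l
      unfold SS
      split_ifs with g1 g2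
      · rw [g1, w0]; exact mem_singleton_self _
      · rw [g2]; exact mem_singleton_self _
      · exact w2 l g1 g2
    have hne : ∀ a b, a ≠ b → dt (w a) (w b) ≠ 0 := cel_ne pp hk hwc
    obtain ⟨h1, h2⟩ := dd.hg' w hne
    have hX := fun l => Xc_pos (R0 := R0) (J := pp.J) (c := c) pp.hlam l
    refine ⟨⟨h1, ?_⟩, h2, hgood, w0, ?_, ?_, ?_, ?_⟩
    · have hfb := (hFb.2 i κ.1 hk κ.2 R0 c w hwc hgood hcg).1
      have hfb0 : 0 < Fb i κ.1 κ.2 := lt_of_lt_of_le hta (hFb.1 i κ.1 κ.2)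
      have hFt0 : 0 < T.F (dd.g w) := lt_of_lt_of_le hta (T.hF _ h1).1
      have hx := (hgt_le_iff (tht_ge dd.o) (tht_sum dd.o) h2 hgood.2 _).2 fun m =>
        cel_hgt_le pp.hlam pp.hJ (dd.h1 i) hH0 (by omega) hc hk pp.hD hwc _ le_rfl m
      have e1 := (Phk_pos (by omega : 3 ≤ Fintype.card I) hH0 hk pp.hD).le
      have e2 : pp.lam ^ (2 * ((Fintype.card I - 1) * R0 + wtOf pp.J c)) ≤
          pp.lam ^ (2 * ((Fintype.card I - 1) * R0 + Tt i κ)) :=
        pow_le_pow_right₀ pp.hlam.le (by omega)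
      have e3 : 0 < pp.lam := by linarith [pp.hlam]
      calc hgt (fun _ => 2) (dd.x (dd.g w)) * T.F (dd.g w) ≤
          ((1 + 1 / (pp.D : ℝ)) ^ Fintype.card I * (pp.lam ^ (2 * (Fintype.card I - 1)) *
            pp.lam ^ (2 * ((Fintype.card I - 1) * R0 + wtOf pp.J c))) * Phk pp.H i κ.1) *
            ((1 + η) * Fb i κ.1 κ.2) := mul_le_mul hx hfb hFt0.le (by positivity)
        _ ≤ (1 + 1 / (pp.D : ℝ)) ^ Fintype.card I * (pp.lam ^ (2 * (Fintype.card I - 1)) *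
        pp.lam ^ (2 * ((Fintype.card I - 1) * R0 + Tt i κ))) * Phk pp.H i κ.1 *
          ((1 + η) * Fb i κ.1 κ.2) := by
            have : 0 ≤ (1 + η) * Fb i κ.1 κ.2 := by positivity
            gcongr
        _ ≤ B := hT i κ hκ
    · intro l hl
      have := cel_size pp.hlam (dd.h1 i) hH0 hk hwc l hl
      have h3 := hX l
      have : (0 : ℝ) < (w l).2 := by linarith
      exact_mod_cast this
    · have := (mem_Tz.1 w1).2.1
      rw [mul_zero] at this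
      exact_mod_cast this
    · have := (mem_Tz.1 w1).2.2
      rw [zero_add, mul_one] at this
      exact_mod_cast this
    · obtain ⟨θ, g1, g2, g3, g4, g5⟩ := ss_pos (dd.h1 i) hk.2.1 pp.hlam hH0 hX (Lc_pos c) w1
        (dd.j1 i) (dd.h1 i) (w (dd.j1 i)) (hSS _)
      obtain ⟨θ', g1', g2', g3', g4', g5'⟩ := ss_pos (dd.h1 i) hk.2.1 pp.hlam hH0 hX (Lc_pos c) w1
        (dd.j2 i) (dd.h2 i) (w (dd.j2 i)) (hSS _)
      have e1 := dt_pos g3 g3'
      have x1 := hX (dd.j1 i)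
      have x2 := hX (dd.j2 i)
      have p1 : (0 : ℝ) < (w (dd.j1 i)).2 := by linarith
      have p2 : (0 : ℝ) < (w (dd.j2 i)).2 := by linarith
      have hL := Lc_pos c
      have hH' : (0 : ℝ) < pp.H := by exact_mod_cast hH0
      have hk2 : (1 : ℤ) < κ.1 (dd.j2 i) := by
        have h3 := hk.2.2.2.1 (dd.j1 i) (dd.j2 i) (dd.h1 i) (dd.h2 i) (dd.h12 i)
        rw [hk.2.1, zero_sub, abs_neg, abs_of_nonneg hk.2.2.2.2.2] at h3
        have := pp.hD
        omega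
      have hk2' : ((κ.1 (dd.j1 i) - κ.1 (dd.j2 i) : ℤ) : ℝ) + (θ - θ') < 0 := by
        rw [hk.2.1, zero_sub]
        have : (1 : ℝ) < κ.1 (dd.j2 i) := by exact_mod_cast hk2
        push_cast
        linarith
      have e2 : ((dt (w (dd.j1 i)) (w (dd.j2 i)) : ℤ) : ℝ) < 0 := by
        rw [e1]
        exact mul_neg_of_pos_of_neg (by positivity) hk2'
      exact_mod_cast e2
  -- the union for fixed `i`
  set Gi : I → Finset (I → ℤ × ℤ) := fun i =>
    (KR dd pp i).biUnion fun κ => (range (Tt i κ + 1)).biUnion fun w =>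
      (IS pp.J i w).biUnion fun c => Gr dd pp R0 i c κ with hGi
  have hmemGi : ∀ i w, w ∈ Gi i → ∃ κ c, κ ∈ KR dd pp i ∧ c.2.2 i = 0 ∧
      wtOf pp.J c ≤ Tt i κ ∧ w ∈ Gr dd pp R0 i c κ := by
    intro i w hw
    simp only [hGi, mem_biUnion, mem_range] at hw
    obtain ⟨k, hk, s, hs, c, hc, hw⟩ := hw
    rw [mem_IS pp.hJ0 (by omega)] at hc
    exact ⟨k, c, hk, hc.2, by omega, hw⟩
  have huniq : ∀ i κ κ' c c', κ ∈ KR dd pp i → κ' ∈ KR dd pp i → c.2.2 i = 0 → c'.2.2 i = 0 → ∀ w,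
      w ∈ Gr dd pp R0 i c κ → w ∈ Gr dd pp R0 i c' κ' → c = c' ∧ κ = κ' := by
    intro i κ κ' c c' hk hk' hc hc' w hw hw'
    unfold Gr at hw hw'
    rw [mem_filter] at hw hw'
    have h1 := mem_product.1 hk
    have h2 := mem_product.1 hk'
    obtain ⟨e1, e2⟩ := cel_unique pp.hlam (dd.h1 i) pp.hH pp.hh hc hc' (mem_KSf.1 h1.1)
      (mem_KSf.1 h2.1) hw.1 hw'.1
    exact ⟨e1, Prod.ext e2 (rs_eq pp.hP0 h1.2 h2.2 (hw.2.2.symm.trans hw'.2.2))⟩
  have hcardGi : ∀ i, (Gi i).card = ∑ κ ∈ KR dd pp i,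
      ∑ w ∈ range (Tt i κ + 1), ∑ c ∈ IS pp.J i w, (Gr dd pp R0 i c κ).card := by
    intro i
    simp only [hGi]
    rw [card_biUnion]
    · refine sum_congr rfl fun k hk => ?_
      rw [card_biUnion]
      · refine sum_congr rfl fun s _ => ?_
        rw [card_biUnion]
        intro c hc c' hc' hcc
        rw [mem_coe, mem_IS pp.hJ0 (by omega)] at hc hc'
        rw [Function.onFun, disjoint_left]
        intro w hw hw'
        exact hcc (huniq i k k c c' hk hk hc.2 hc'.2 w hw hw').1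
      · intro s _ s' _ hss
        rw [Function.onFun, disjoint_left]
        intro w hw hw'
        rw [mem_biUnion] at hw hw'
        obtain ⟨c, hc, hw⟩ := hw
        obtain ⟨c', hc', hw'⟩ := hw'
        rw [mem_IS pp.hJ0 (by omega)] at hc hc'
        have := (huniq i k k c c' hk hk hc.2 hc'.2 w hw hw').1
        apply hss
        rw [← hc.1, ← hc'.1, this]
    · intro k hk k' hk' hkk
      rw [mem_coe] at hk hk'
      rw [Function.onFun, disjoint_left]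
      intro w hw hw'
      simp only [mem_biUnion] at hw hw'
      obtain ⟨s, _, c, hc, hw⟩ := hw
      obtain ⟨s', _, c', hc', hw'⟩ := hw'
      rw [mem_IS pp.hJ0 (by omega)] at hc hc'
      exact hkk (huniq i k k' c c' hk hk' hc.2 hc'.2 w hw hw').2
  have hI0 : 0 < ∑ l, tht dd.o l := by rw [tht_sum]; omega
  have hinj : ∀ i, Set.InjOn dd.g (Gi i : Set (I → ℤ × ℤ)) := by
    intro i w hw w' hw' heq
    obtain ⟨k, c, hk, hc, hwt, hw⟩ := hmemGi i w hw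
    obtain ⟨k', c', hk', hc', hwt', hw'⟩ := hmemGi i w' hw'
    obtain ⟨-, a2, a3, a4⟩ := hel i k hk c hc hwt w hw
    obtain ⟨-, b2, b3, b4⟩ := hel i k' hk' c' hc' hwt' w' hw'
    rw [← heq] at b2
    exact nf_unique i (dd.j1 i) (dd.j2 i) (dd.h1 i) (dd.h2 i) a2 b2 a3.1 b3.1 a3.2 b3.2 hI0 a4 b4
  have hdisj : ∀ i i', i ≠ i' → ∀ w ∈ Gi i, ∀ w' ∈ Gi i', dd.g w ≠ dd.g w' := by
    intro i i' hii w hw w' hw' heq
    obtain ⟨k, c, hk, hc, hwt, hw⟩ := hmemGi i w hw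
    obtain ⟨k', c', hk', hc', hwt', hw'⟩ := hmemGi i' w' hw'
    obtain ⟨-, a2, a3, a4⟩ := hel i k hk c hc hwt w hw
    obtain ⟨-, b2, b3, b4⟩ := hel i' k' hk' c' hc' hwt' w' hw'
    rw [← heq] at b2
    have hE : Eqv w w' := unique_model_wt a2 b2 a3.1 b3.1 a3.2 b3.2 hI0
    obtain ⟨l, hl1, hl2⟩ : ∃ l, l ≠ i ∧ l ≠ i' := by
      by_contra hcon
      push Not at hcon
      have h1 : (univ : Finset I) ⊆ {i, i'} := by
        intro l _
        rw [mem_insert, mem_singleton]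
        by_cases h : l = i
        · exact Or.inl h
        · exact Or.inr (hcon l h)
      have h2 := card_le_card h1
      rw [Finset.card_univ] at h2
      have h3 := card_le_two (a := i) (b := i')
      omega
    unfold Gr at hw hw'
    rw [mem_filter] at hw hw'
    have m1 := cel_min pp.hlam pp.hJ (dd.h1 i) hH0 pp.hD (mem_KSf.1 (mem_product.1 hk).1) hR hw.1
      i' l hii.symm hl1 hl2.symm
    have m2 := cel_min pp.hlam pp.hJ (dd.h1 i') hH0 pp.hD (mem_KSf.1 (mem_product.1 hk').1) hR hw'.1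
      i l hii hl2 hl1.symm
    have n1 := hE.natAbs_dt i l
    have n2 := hE.natAbs_dt i' l
    omega
  set F : Finset X := univ.biUnion fun i : I => (Gi i).image dd.g with hF
  have hFcard : F.card = ∑ i : I, (Gi i).card := by
    rw [hF, card_biUnion]
    · exact sum_congr rfl fun i _ => card_image_of_injOn (hinj i)
    · intro i _ i' _ hii
      rw [Function.onFun, disjoint_left]
      intro t ht ht'
      rw [mem_image] at ht ht'
      obtain ⟨w, hw, rfl⟩ := ht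
      obtain ⟨w', hw', heq⟩ := ht'
      exact hdisj i i' hii w hw w' hw' heq.symm
  have hsub : (F : Set X) ⊆ NF2 T B := by
    intro t ht
    rw [mem_coe, hF, mem_biUnion] at ht
    obtain ⟨i, -, ht⟩ := ht
    rw [mem_image] at ht
    obtain ⟨w, hw, rfl⟩ := ht
    obtain ⟨k, c, hk, hc, hwt, hw⟩ := hmemGi i w hw
    exact (hel i k hk c hc hwt w hw).1
  have h1 := Set.ncard_le_ncard hsub hfin
  rw [Set.ncard_coe_finset, hFcard, sum_congr rfl fun i _ => hcardGi i] at h1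
  unfold Cr
  exact_mod_cast h1

end

end Pool.Agent.Y714.MA
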