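import Pool.Agent.Y714.MA.Conv

set_option autoImplicit false
set_option linter.unusedSectionVars false
set_option linter.unusedSimpArgs false
set_option linter.unusedVariables false

/-! The main sum as a function of the height bound. -/

namespace Pool.Agent.Y714.MA

open Finset Filter Topology

/-- the cut-off -/
noncomputable def R0f (B : ℝ) : ℕ := ⌊Real.sqrt (Real.log B)⌋₊

/-- the last weight -/
noncomputable def Tm (q v : ℝ) (m : ℕ) (B : ℝ) : ℕ :=
  ⌊Real.log (B / v) / Real.log q⌋₊ - m * R0f B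

/-- the main sum -/
noncomputable def Um (N : ℕ → ℝ) (q v : ℝ) (m : ℕ) (B : ℝ) : ℝ :=
  q ^ (m * R0f B) * ∑ w ∈ range (Tm q v m B + 1), N w * q ^ w

theorem sqrt_div_tendsto : Tendsto (fun B : ℝ => Real.sqrt (Real.log B) / Real.log B) atTop (𝓝 0) := by
  have h1 : Tendsto (fun x : ℝ => 1 / Real.sqrt x) atTop (𝓝 0) := by
    have := Real.tendsto_sqrt_atTop.inv_tendsto_atTop
    refine this.congr fun x => ?_
    simp
  have h2 := h1.comp Real.tendsto_log_atTop
  refine h2.congr' ?_
  filter_upwards [eventually_gt_atTop 1] with B hB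
  have h3 : 0 < Real.log B := Real.log_pos hB
  simp only [Function.comp_apply]
  rw [div_eq_div_iff (Real.sqrt_pos.2 h3).ne' h3.ne', one_mul, Real.mul_self_sqrt h3.le]

theorem R0f_tendsto : Tendsto (fun B : ℝ => (R0f B : ℝ) / Real.log B) atTop (𝓝 0) := by
  refine squeeze_zero' ?_ ?_ sqrt_div_tendsto
  · filter_upwards [eventually_gt_atTop 1] with B hB
    have h3 : 0 < Real.log B := Real.log_pos hB
    positivity
  · filter_upwards [eventually_gt_atTop 1] with B hB
    have h3 : 0 < Real.log B := Real.log_pos hB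
    exact div_le_div_of_nonneg_right (Nat.floor_le (Real.sqrt_nonneg _)) h3.le

theorem R0f_atTop : Tendsto R0f atTop atTop :=
  tendsto_nat_floor_atTop.comp (Real.tendsto_sqrt_atTop.comp Real.tendsto_log_atTop)

section

variable {q v : ℝ} (hq : 1 < q) (hv : 0 < v) (m : ℕ)

include hq hv

theorem y_tendsto : Tendsto (fun B : ℝ => Real.log (B / v) / Real.log q / Real.log B) atTop
    (𝓝 (1 / Real.log q)) := by
  have hlq : 0 < Real.log q := Real.log_pos hq
  have h1 : Tendsto (fun B : ℝ => (1 - Real.log v / Real.log B) * (1 / Real.log q)) atTop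
      (𝓝 ((1 - 0) * (1 / Real.log q))) := by
    refine Tendsto.mul_const _ (Tendsto.const_sub 1 ?_)
    exact Tendsto.div_atTop tendsto_const_nhds Real.tendsto_log_atTop
  rw [sub_zero, one_mul] at h1
  refine h1.congr' ?_
  filter_upwards [eventually_gt_atTop 1] with B hB
  have h3 : 0 < Real.log B := Real.log_pos hB
  rw [Real.log_div (by linarith) hv.ne']
  field_simp

theorem floor_tendsto : Tendsto (fun B : ℝ => ((⌊Real.log (B / v) / Real.log q⌋₊ : ℕ) : ℝ) /
    Real.log B) atTop (𝓝 (1 / Real.log q)) := by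
  have hlq : 0 < Real.log q := Real.log_pos hq
  have h1 := y_tendsto hq hv
  have h2 : Tendsto (fun B : ℝ => Real.log (B / v) / Real.log q / Real.log B - 1 / Real.log B) atTop
      (𝓝 (1 / Real.log q - 0)) :=
    h1.sub (Tendsto.div_atTop tendsto_const_nhds Real.tendsto_log_atTop)
  rw [sub_zero] at h2
  refine tendsto_of_tendsto_of_tendsto_of_le_of_le' h2 h1 ?_ ?_
  · filter_upwards [eventually_gt_atTop 1] with B hB
    have h3 : 0 < Real.log B := Real.log_pos hB
    rw [← sub_div]
    refine div_le_div_of_nonneg_right ?_ h3.le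
    have := Nat.lt_floor_add_one (Real.log (B / v) / Real.log q)
    linarith
  · filter_upwards [eventually_gt_atTop 1, eventually_gt_atTop v] with B hB hBv
    have h3 : 0 < Real.log B := Real.log_pos hB
    refine div_le_div_of_nonneg_right (Nat.floor_le ?_) h3.le
    refine div_nonneg (Real.log_nonneg ?_) hlq.le
    rw [le_div_iff₀ hv]
    linarith

theorem R_le : ∀ᶠ B : ℝ in atTop, m * R0f B ≤ ⌊Real.log (B / v) / Real.log q⌋₊ := by
  have hlq : 0 < Real.log q := Real.log_pos hq
  have h1 := floor_tendsto hq hv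
  have h2 : Tendsto (fun B : ℝ => (m : ℝ) * ((R0f B : ℝ) / Real.log B)) atTop (𝓝 ((m : ℝ) * 0)) :=
    R0f_tendsto.const_mul _
  rw [mul_zero] at h2
  have h3 : (0 : ℝ) < 1 / Real.log q := by positivity
  filter_upwards [h1.eventually (lt_mem_nhds (half_lt_self h3)),
    h2.eventually (gt_mem_nhds (half_pos h3)), eventually_gt_atTop 1] with B e1 e2 e3
  have h4 : 0 < Real.log B := Real.log_pos e3
  have h5 : (m : ℝ) * ((R0f B : ℝ) / Real.log B) <
      ((⌊Real.log (B / v) / Real.log q⌋₊ : ℕ) : ℝ) / Real.log B := e2.trans e1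
  rw [← mul_div_assoc, div_lt_div_iff_of_pos_right h4] at h5
  exact_mod_cast h5.le

theorem Tm_tendsto : Tendsto (fun B : ℝ => (Tm q v m B : ℝ) / Real.log B) atTop
    (𝓝 (1 / Real.log q)) := by
  have h1 := floor_tendsto hq hv
  have h2 : Tendsto (fun B : ℝ => (m : ℝ) * ((R0f B : ℝ) / Real.log B)) atTop (𝓝 ((m : ℝ) * 0)) :=
    R0f_tendsto.const_mul _
  rw [mul_zero] at h2
  have h3 := h1.sub h2
  rw [sub_zero] at h3
  refine h3.congr' ?_
  filter_upwards [R_le hq hv m] with B hB
  unfold Tm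
  rw [Nat.cast_sub hB]
  push_cast
  ring

theorem Tm_atTop : Tendsto (Tm q v m) atTop atTop := by
  have hlq : 0 < Real.log q := Real.log_pos hq
  have h1 := Tm_tendsto hq hv m
  have h2 := h1.pos_mul_atTop (by positivity) Real.tendsto_log_atTop
  have h3 : Tendsto (fun B : ℝ => (Tm q v m B : ℝ)) atTop atTop := by
    refine h2.congr' ?_
    filter_upwards [eventually_gt_atTop 1] with B hB
    have h3 : 0 < Real.log B := Real.log_pos hB
    field_simp
  exact tendsto_natCast_atTop_iff.1 h3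

theorem q_pow : ∀ᶠ B : ℝ in atTop, m * R0f B + Tm q v m B = ⌊Real.log (B / v) / Real.log q⌋₊ ∧
    q ^ (m * R0f B + Tm q v m B) ≤ B / v ∧ B / v < q ^ (m * R0f B + Tm q v m B + 1) := by
  have hlq : 0 < Real.log q := Real.log_pos hq
  filter_upwards [R_le hq hv m, eventually_gt_atTop 1, eventually_gt_atTop v] with B hB hB1 hBv
  have e1 : m * R0f B + Tm q v m B = ⌊Real.log (B / v) / Real.log q⌋₊ := by
    unfold Tm
    omega
  have hBv1 : 1 < B / v := by rw [lt_div_iff₀ hv]; linarith
  have hBv0 : 0 < B / v := by linarith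
  refine ⟨e1, ?_, ?_⟩
  · rw [e1]
    have h1 : ((⌊Real.log (B / v) / Real.log q⌋₊ : ℕ) : ℝ) ≤ Real.log (B / v) / Real.log q :=
      Nat.floor_le (div_nonneg (Real.log_nonneg hBv1.le) hlq.le)
    rw [← Real.rpow_natCast]
    rw [← Real.le_logb_iff_rpow_le hq hBv0]
    exact h1
  · rw [e1]
    have h1 := Nat.lt_floor_add_one (Real.log (B / v) / Real.log q)
    rw [← Real.rpow_natCast]
    rw [← Real.logb_lt_iff_lt_rpow hq hBv0]
    push_cast
    exact h1

theorem Um_tendsto (N : ℕ → ℝ) (c : ℝ)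
    (h : Tendsto (fun w : ℕ => N w / (w : ℝ) ^ m) atTop (𝓝 c)) :
    Tendsto (fun B : ℝ => Um N q v m B / (q ^ (m * R0f B + Tm q v m B) * Real.log B ^ m)) atTop
      (𝓝 (c * (1 - q⁻¹)⁻¹ * (1 / Real.log q) ^ m)) := by
  have h1 := (geo_tendsto N c q m hq h).comp (Tm_atTop hq hv m)
  have h2 := (Tm_tendsto hq hv m).pow m
  have h3 := h1.mul h2
  refine h3.congr' ?_
  filter_upwards [(Tm_atTop hq hv m).eventually (eventually_ge_atTop 1), eventually_gt_atTop 1]
    with B hB hB1
  have hT : (0 : ℝ) < Tm q v m B := by exact_mod_cast hB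
  have hlB : 0 < Real.log B := Real.log_pos hB1
  simp only [Function.comp_apply]
  unfold Um
  have hq0 : 0 < q := by linarith
  have g1 : q ^ (m * R0f B) ≠ 0 := (pow_pos hq0 _).ne'
  have g2 : q ^ (Tm q v m B) ≠ 0 := (pow_pos hq0 _).ne'
  rw [pow_add, div_pow]
  field_simp

/-- two-sided bound for the main sum -/
theorem Um_bounds (N : ℕ → ℝ) (c : ℝ) (hN : ∀ w, 0 ≤ N w)
    (h : Tendsto (fun w : ℕ => N w / (w : ℝ) ^ m) atTop (𝓝 c)) (δ : ℝ) (hδ : 0 < δ) :
    ∀ᶠ B : ℝ in atTop,
      (c * (1 - q⁻¹)⁻¹ * (1 / Real.log q) ^ m / (v * q) - δ) * (B * Real.log B ^ m) ≤ Um N q v m B ∧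
      Um N q v m B ≤ (c * (1 - q⁻¹)⁻¹ * (1 / Real.log q) ^ m / v + δ) * (B * Real.log B ^ m) := by
  set C := c * (1 - q⁻¹)⁻¹ * (1 / Real.log q) ^ m with hC
  have hq0 : 0 < q := by linarith
  have h1 := Um_tendsto hq hv m N c h
  rw [← hC] at h1
  have hδv : 0 < δ * v := mul_pos hδ hv
  filter_upwards [h1.eventually (lt_mem_nhds (show C - δ * v < C by linarith)),
    h1.eventually (gt_mem_nhds (show C < C + δ * v by linarith)), q_pow hq hv m,
    eventually_gt_atTop 1] with B e1 e2 e3 e4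
  obtain ⟨-, e3, e3'⟩ := e3
  have hlB : 0 < Real.log B := Real.log_pos e4
  set x := q ^ (m * R0f B + Tm q v m B) with hx
  have hx0 : 0 < x := pow_pos hq0 _
  rw [pow_succ, ← hx] at e3'
  have hL : 0 < Real.log B ^ m := pow_pos hlB m
  rw [lt_div_iff₀ (by positivity)] at e1
  rw [div_lt_iff₀ (by positivity)] at e2
  have hU : 0 ≤ Um N q v m B := by
    unfold Um
    exact mul_nonneg (pow_pos hq0 _).le (sum_nonneg fun w _ => mul_nonneg (hN w) (pow_pos hq0 _).le)
  have hxB : x * v ≤ B := by rwa [le_div_iff₀ hv] at e3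
  have hxB' : B < x * q * v := by rwa [div_lt_iff₀ hv] at e3'
  have hB0 : 0 < B := by linarith
  constructor
  · by_cases hneg : C - δ * v ≤ 0
    · have h2 : C / (v * q) - δ ≤ 0 := by
        have : C / (v * q) ≤ δ := by
          rw [div_le_iff₀ (by positivity)]
          nlinarith
        linarith
      have : (C / (v * q) - δ) * (B * Real.log B ^ m) ≤ 0 :=
        mul_nonpos_of_nonpos_of_nonneg h2 (by positivity)
      linarith
    · push Not at hneg
      have h2 : (C / (v * q) - δ) * (B * Real.log B ^ m) ≤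
          (C - δ * v) * (x * Real.log B ^ m) := by
        have h3 : (C / (v * q) - δ) ≤ (C - δ * v) / (v * q) := by
          rw [sub_div]
          have : δ * v / (v * q) ≤ δ := by
            rw [div_le_iff₀ (by positivity)]
            nlinarith
          linarith
        calc (C / (v * q) - δ) * (B * Real.log B ^ m) ≤
              (C - δ * v) / (v * q) * (B * Real.log B ^ m) :=
              mul_le_mul_of_nonneg_right h3 (by positivity)
          _ ≤ (C - δ * v) / (v * q) * ((x * q * v) * Real.log B ^ m) := by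
              refine mul_le_mul_of_nonneg_left ?_ (by positivity)
              exact mul_le_mul_of_nonneg_right hxB'.le hL.le
          _ = _ := by field_simp
      linarith
  · have hCv : 0 ≤ C + δ * v := by
      by_contra hcon
      push Not at hcon
      have : (C + δ * v) * (x * Real.log B ^ m) < 0 := mul_neg_of_neg_of_pos hcon (by positivity)
      linarith
    calc Um N q v m B ≤ (C + δ * v) * (x * Real.log B ^ m) := e2.le
      _ ≤ (C + δ * v) * ((B / v) * Real.log B ^ m) := by gcongr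
      _ = _ := by field_simp

end

/-- the Cauchy criterion -/
theorem exists_lim (f : ℝ → ℝ) (h : ∀ δ : ℝ, 0 < δ → ∃ a b : ℝ, b - a ≤ δ ∧
    ∀ᶠ B in atTop, a ≤ f B ∧ f B ≤ b) : ∃ L, Tendsto f atTop (𝓝 L) := by
  apply cauchy_map_iff_exists_tendsto.1
  rw [Metric.cauchy_iff]
  refine ⟨inferInstance, fun ε hε => ?_⟩
  obtain ⟨a, b, hab, hev⟩ := h (ε / 2) (half_pos hε)
  refine ⟨f '' {B | a ≤ f B ∧ f B ≤ b}, image_mem_map hev, ?_⟩
  rintro x ⟨B, hB, rfl⟩ y ⟨B', hB', rfl⟩
  rw [Real.dist_eq, abs_lt]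
  obtain ⟨h1, h2⟩ := hB
  obtain ⟨h3, h4⟩ := hB'
  constructor <;> linarith

end Pool.Agent.Y714.MA
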