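import Pool.Agent.Y714.MA.Cell

set_option autoImplicit false
set_option linter.unusedSectionVars false
set_option linter.unusedSimpArgs false

/-! Large primes: few elements of a cell are bad. -/

namespace Pool.Agent.Y714.MA

open Finset Pool.Agent.Y714.ML

theorem Sz.noncop {lam X l Y : ℝ} (h : Sz lam X l Y) (u : ℝ) (P0 K : ℕ) (hP0 : 0 < P0)
    (hK : lam * X ≤ 2 ^ K)
    [DecidablePred fun z : ℤ × ℤ => ∃ p : ℕ, p.Prime ∧ P0 < p ∧ (p : ℤ) ∣ z.1 ∧ (p : ℤ) ∣ z.2] :
    (((Tz lam X u l).filter fun z => ∃ p : ℕ, p.Prime ∧ P0 < p ∧ (p : ℤ) ∣ z.1 ∧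
      (p : ℤ) ∣ z.2).card : ℝ) ≤ 256 * (1 / P0 + K / Y) * vol lam X l := by
  classical
  rw [card_Tz_filter]
  push_cast
  have hY : 0 < Y := by linarith [h.hY]
  have hXl : 0 < X * l := mul_pos h.hX h.hl
  have hlX : 0 < (lam - 1) * X := by
    have := h.hYX
    linarith
  have h2 := h.h2
  have h3 := h.h1
  have h1 := tp (Iv X (lam * X)) (fun b => Iv (b * u) (b * (u + l))) (fun b => b)
    (fun p b a => (p : ℤ) ∣ a) P0 K Y ((lam - 1) * X) (X * l) 8 hP0 h.hY (by norm_num) hlX.le hXl.le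
    ?_ ?_ ?_ ?_
  · refine le_trans (le_of_eq ?_) (h1.trans (le_of_eq ?_))
    · refine sum_congr rfl fun b _ => ?_
      congr 2
      refine filter_congr fun a _ => ?_
      constructor
      · rintro ⟨p, g1, g2, g3, g4⟩; exact ⟨p, g1, g2, g4, g3⟩
      · rintro ⟨p, g1, g2, g3, g4⟩; exact ⟨p, g1, g2, g4, g3⟩
    · unfold vol; ring
  · intro b hb
    obtain ⟨g0, g1, g2⟩ := h.bpos hb
    have g3 : 0 < b := by exact_mod_cast g0
    refine ⟨g3.ne', ?_⟩
    have g4 : (b : ℝ) ≤ 2 ^ K := g2.trans hK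
    have g5 : b ≤ 2 ^ K := by exact_mod_cast g4
    have g6 : (b.natAbs : ℤ) ≤ 2 ^ K := by rw [Int.natCast_natAbs, abs_of_pos g3]; exact g5
    exact_mod_cast g6
  · intro p hp _
    have g1 := h.row_le p hp.pos 0
    simp only [sub_zero] at g1
    refine g1.trans ?_
    have hp0 : (0 : ℝ) < p := by exact_mod_cast hp.pos
    have : 0 < 1 / (p : ℝ) + 1 / Y := by positivity
    nlinarith [mul_pos hlX this]
  · refine h.row_all.trans ?_
    linarith
  · intro b hb p hp _ _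
    have g1 := h.col_le u hb p hp.pos 0
    simp only [sub_zero] at g1
    refine g1.trans ?_
    have hp0 : (0 : ℝ) < p := by exact_mod_cast hp.pos
    have : 0 < 1 / (p : ℝ) + 1 / Y := by positivity
    nlinarith [mul_pos hXl this]

section

variable {I : Type} [Fintype I] [DecidableEq I]

theorem prod_split3 (c : I → ℝ) (j k l : I) (hjk : j ≠ k) (hjl : j ≠ l) (hkl : k ≠ l) :
    ∏ a, c a = c j * (c k * (c l * ∏ a ∈ ((univ.erase j).erase k).erase l, c a)) := by
  rw [← mul_prod_erase univ c (mem_univ j)]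
  rw [← mul_prod_erase (univ.erase j) c (mem_erase.2 ⟨hjk.symm, mem_univ k⟩)]
  rw [← mul_prod_erase ((univ.erase j).erase k) c
    (mem_erase.2 ⟨hkl.symm, mem_erase.2 ⟨hjl.symm, mem_univ l⟩⟩)]

theorem mul4 {x1 x2 x3 x4 y3 y4 : ℝ} (h1 : 0 ≤ x1) (h1' : x1 ≤ 1) (h2 : 0 ≤ x2) (h2' : x2 ≤ 1)
    (h3 : 0 ≤ x3) (h3' : x3 ≤ y3) (h4 : 0 ≤ x4) (h4' : x4 ≤ y4) :
    x1 * (x2 * (x3 * x4)) ≤ y3 * y4 := by
  have e1 : x3 * x4 ≤ y3 * y4 := mul_le_mul h3' h4' h4 (h3.trans h3')
  have e2 : 0 ≤ x3 * x4 := mul_nonneg h3 h4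
  have e3 : x2 * (x3 * x4) ≤ x3 * x4 := mul_le_of_le_one_left e2 h2'
  have e4 : x1 * (x2 * (x3 * x4)) ≤ x2 * (x3 * x4) :=
    mul_le_of_le_one_left (mul_nonneg h2 e2) h1'
  linarith

theorem mul3 {x1 x3 x4 y3 y4 : ℝ} (h1 : 0 ≤ x1) (h1' : x1 ≤ 1)
    (h3 : 0 ≤ x3) (h3' : x3 ≤ y3) (h4 : 0 ≤ x4) (h4' : x4 ≤ y4) :
    x1 * (x3 * x4) ≤ y3 * y4 := by
  have e1 := mul4 h1 h1' zero_le_one le_rfl h3 h3' h4 h4'
  rwa [one_mul] at e1

open Classical in
theorem pi_triple (S : I → Finset (ℤ × ℤ)) (j k l : I) (hjk : j ≠ k) (hjl : j ≠ l) (hkl : k ≠ l)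
    (E : ℤ × ℤ → ℤ × ℤ → ℤ × ℤ → Prop) (c : I → ℝ) (hc : ∀ a, 0 ≤ c a)
    (h1 : ∀ a, a ≠ k → a ≠ l → ((S a).card : ℝ) ≤ c a)
    (h2 : ∀ a ∈ S j, ∑ b ∈ S k, (((S l).filter fun z => E a b z).card : ℝ) ≤ c k * c l) :
    (((Fintype.piFinset S).filter fun ω => E (ω j) (ω k) (ω l)).card : ℝ) ≤ ∏ a, c a := by
  set R := ((univ.erase j).erase k).erase l with hR
  have h3 : ((Fintype.piFinset S).filter fun ω => E (ω j) (ω k) (ω l)).card =
      ∑ q ∈ S j ×ˢ S k, (((Fintype.piFinset S).filter fun ω => E (ω j) (ω k) (ω l)).filter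
        fun ω => (ω j, ω k) = q).card := by
    refine card_eq_sum_card_fiberwise fun ω hω => ?_
    rw [mem_coe, mem_filter, Fintype.mem_piFinset] at hω
    exact mem_coe.2 (mem_product.2 ⟨hω.1 j, hω.1 k⟩)
  have h4 : ∀ q ∈ S j ×ˢ S k, ((((Fintype.piFinset S).filter fun ω => E (ω j) (ω k) (ω l)).filter
        fun ω => (ω j, ω k) = q).card : ℝ) ≤
        (((S l).filter fun z => E q.1 q.2 z).card : ℝ) * ∏ a ∈ R, c a := by
    intro q _
    have e1 : (((Fintype.piFinset S).filter fun ω => E (ω j) (ω k) (ω l)).filter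
        fun ω => (ω j, ω k) = q) ⊆ (Fintype.piFinset S).filter fun ω => ∀ a,
          ((a = j → ω a = q.1) ∧ (a = k → ω a = q.2) ∧ (a = l → E q.1 q.2 (ω a))) := by
      intro ω hω
      rw [mem_filter, mem_filter] at hω
      obtain ⟨⟨g1, g2⟩, g3⟩ := hω
      have g4 : ω j = q.1 := by rw [← g3]
      have g5 : ω k = q.2 := by rw [← g3]
      rw [mem_filter]
      refine ⟨g1, fun a => ⟨?_, ?_, ?_⟩⟩
      · rintro rfl; exact g4
      · rintro rfl; exact g5
      · rintro rfl; rw [g4, g5] at g2; exact g2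
    have e2 := card_le_card e1
    rw [pi_filter S (fun a z => (a = j → z = q.1) ∧ (a = k → z = q.2) ∧ (a = l → E q.1 q.2 z))]
      at e2
    have e3 : ((((Fintype.piFinset S).filter fun ω => E (ω j) (ω k) (ω l)).filter
        fun ω => (ω j, ω k) = q).card : ℝ) ≤ ∏ a, (((S a).filter fun z =>
          (a = j → z = q.1) ∧ (a = k → z = q.2) ∧ (a = l → E q.1 q.2 z)).card : ℝ) := by
      exact_mod_cast e2
    refine e3.trans ?_
    rw [prod_split3 _ j k l hjk hjl hkl]
    have f1 : (((S j).filter fun z => (j = j → z = q.1) ∧ (j = k → z = q.2) ∧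
        (j = l → E q.1 q.2 z)).card : ℝ) ≤ 1 := by
      have : ((S j).filter fun z => (j = j → z = q.1) ∧ (j = k → z = q.2) ∧
        (j = l → E q.1 q.2 z)) ⊆ {q.1} := by
        intro z hz
        rw [mem_filter] at hz
        exact mem_singleton.2 (hz.2.1 rfl)
      have := card_le_card this
      rw [card_singleton] at this
      exact_mod_cast this
    have f2 : (((S k).filter fun z => (k = j → z = q.1) ∧ (k = k → z = q.2) ∧
        (k = l → E q.1 q.2 z)).card : ℝ) ≤ 1 := by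
      have : ((S k).filter fun z => (k = j → z = q.1) ∧ (k = k → z = q.2) ∧
        (k = l → E q.1 q.2 z)) ⊆ {q.2} := by
        intro z hz
        rw [mem_filter] at hz
        exact mem_singleton.2 (hz.2.2.1 rfl)
      have := card_le_card this
      rw [card_singleton] at this
      exact_mod_cast this
    have f3 : (((S l).filter fun z => (l = j → z = q.1) ∧ (l = k → z = q.2) ∧
        (l = l → E q.1 q.2 z)).card : ℝ) ≤ (((S l).filter fun z => E q.1 q.2 z).card : ℝ) := by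
      have : ((S l).filter fun z => (l = j → z = q.1) ∧ (l = k → z = q.2) ∧
        (l = l → E q.1 q.2 z)) ⊆ (S l).filter fun z => E q.1 q.2 z := by
        intro z hz
        rw [mem_filter] at hz ⊢
        exact ⟨hz.1, hz.2.2.2 rfl⟩
      exact_mod_cast card_le_card this
    have f4 : ∏ a ∈ R, (((S a).filter fun z =>
          (a = j → z = q.1) ∧ (a = k → z = q.2) ∧ (a = l → E q.1 q.2 z)).card : ℝ) ≤
          ∏ a ∈ R, c a := by
      refine prod_le_prod (fun a _ => Nat.cast_nonneg _) fun a ha => ?_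
      rw [hR, mem_erase, mem_erase] at ha
      refine le_trans ?_ (h1 a ha.2.1 ha.1)
      exact_mod_cast card_filter_le _ _
    have f5 : 0 ≤ ∏ a ∈ R, (((S a).filter fun z =>
          (a = j → z = q.1) ∧ (a = k → z = q.2) ∧ (a = l → E q.1 q.2 z)).card : ℝ) :=
      prod_nonneg fun a _ => Nat.cast_nonneg _
    exact mul4 (Nat.cast_nonneg _) f1 (Nat.cast_nonneg _) f2 (Nat.cast_nonneg _) f3 f5 f4
  have h5 : (((Fintype.piFinset S).filter fun ω => E (ω j) (ω k) (ω l)).card : ℝ) ≤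
      ∑ q ∈ S j ×ˢ S k, (((S l).filter fun z => E q.1 q.2 z).card : ℝ) * ∏ a ∈ R, c a := by
    rw [h3]
    push_cast
    exact sum_le_sum h4
  refine h5.trans ?_
  rw [sum_product]
  have hRc : 0 ≤ ∏ a ∈ R, c a := prod_nonneg fun a _ => hc a
  have h6 : ∑ a ∈ S j, ∑ b ∈ S k, (((S l).filter fun z => E (a, b).1 (a, b).2 z).card : ℝ) *
      ∏ a ∈ R, c a ≤ ∑ a ∈ S j, (c k * c l) * ∏ a ∈ R, c a := by
    refine sum_le_sum fun a ha => ?_
    rw [← sum_mul]
    exact mul_le_mul_of_nonneg_right (h2 a ha) hRc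
  refine h6.trans ?_
  rw [sum_const, nsmul_eq_mul, prod_split3 c j k l hjk hjl hkl]
  have h7 := h1 j hjk hjl
  have h8 : 0 ≤ (c k * c l) * ∏ a ∈ R, c a := mul_nonneg (mul_nonneg (hc k) (hc l)) hRc
  calc _ ≤ c j * ((c k * c l) * ∏ a ∈ R, c a) := mul_le_mul_of_nonneg_right h7 h8
    _ = _ := by ring

variable {lam : ℝ} {H : ℕ} {i j1 : I} {X : I → ℝ} {L Y : ℝ} {k : I → ℤ}

/-- non-vanishing and size of the determinants -/
def DtK (lam : ℝ) (H : ℕ) (i j1 : I) (X : I → ℝ) (L : ℝ) (k : I → ℤ) (K : ℕ) : Prop :=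
  (∀ l, l ≠ i → lam * X l ≤ 2 ^ K) ∧
  ∀ z ∈ Tz lam (X j1) 0 1, ∀ a b : I, a ≠ b → ∀ u ∈ SS lam H i j1 X L k z a,
    ∀ v ∈ SS lam H i j1 X L k z b, dt u v ≠ 0 ∧ (dt u v).natAbs ≤ 2 ^ K

theorem prod_A (A : ℝ) (l : I) : ∏ a : I, (if a = l then A else 8) = A * 8 ^ (Fintype.card I - 1) := by
  rw [← mul_prod_erase univ _ (mem_univ l), if_pos rfl]
  rw [prod_congr rfl (g := fun _ => (8 : ℝ)) (fun a ha => if_neg (ne_of_mem_erase ha)), prod_const,
    card_erase_of_mem (mem_univ l), Finset.card_univ]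

open Classical in
/-- common factors -/
theorem CSz.badA (h : CSz lam H i j1 X L Y) (P0 K : ℕ) (hP0 : 0 < P0)
    (hK : DtK lam H i j1 X L k K) (l : I) (hl : l ≠ i) :
    (((cell lam H i j1 X L k).filter fun w => ∃ p : ℕ, p.Prime ∧ P0 < p ∧ (p : ℤ) ∣ (w l).1 ∧
      (p : ℤ) ∣ (w l).2).card : ℝ) ≤
      256 * 8 ^ Fintype.card I * (1 / P0 + K / Y) * ∏ a, vv lam H i j1 X L a := by
  have hij := h.hij
  have hY : 0 < Y := by linarith [h.h1.hY]
  have he : 0 ≤ 1 / (P0 : ℝ) + K / Y := by positivity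
  have h1 := cell_upper (lam := lam) (H := H) (X := X) (L := L) (k := k) hij
    (fun a z => a = l → ∃ p : ℕ, p.Prime ∧ P0 < p ∧ (p : ℤ) ∣ z.1 ∧ (p : ℤ) ∣ z.2)
    (fun a => (if a = l then 256 * (1 / P0 + K / Y) else 8) * vv lam H i j1 X L a) ?_ ?_ ?_
  · have e1 : ((cell lam H i j1 X L k).filter fun w => ∀ a, a = l → ∃ p : ℕ, p.Prime ∧ P0 < p ∧
        (p : ℤ) ∣ (w a).1 ∧ (p : ℤ) ∣ (w a).2) = (cell lam H i j1 X L k).filter fun w =>
        ∃ p : ℕ, p.Prime ∧ P0 < p ∧ (p : ℤ) ∣ (w l).1 ∧ (p : ℤ) ∣ (w l).2 := by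
      refine filter_congr fun w _ => ?_
      constructor
      · intro g; exact g l rfl
      · rintro g a rfl; exact g
    rw [e1] at h1
    refine h1.trans ?_
    rw [prod_mul_distrib, prod_A]
    have e2 : (8 : ℝ) ^ (Fintype.card I - 1) ≤ 8 ^ Fintype.card I :=
      pow_le_pow_right₀ (by norm_num) (by omega)
    have e3 : 0 ≤ ∏ a, vv lam H i j1 X L a := prod_nonneg fun a _ => (h.vv_pos a).le
    calc _ ≤ 256 * (1 / (P0 : ℝ) + K / Y) * 8 ^ Fintype.card I * ∏ a, vv lam H i j1 X L a := by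
          gcongr
      _ = _ := by ring
  · intro a
    have := h.vv_pos a
    split_ifs <;> positivity
  · by_cases h2 : j1 = l
    · subst h2
      simp only [true_imp_iff, if_true]
      rw [vv, if_neg hij, if_pos rfl]
      exact h.h1.noncop 0 P0 K hP0 (hK.1 _ hij)
    · simp only [h2, false_imp_iff, filter_true, if_false]
      rw [vv, if_neg hij, if_pos rfl]
      exact h.h1.card_le 0
  · intro z hz a ha
    by_cases h2 : a = l
    · subst h2
      simp only [true_imp_iff, if_true]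
      rw [SS, if_neg hl, if_neg ha, vv, if_neg hl, if_neg ha]
      exact (h.h2 a hl ha).noncop _ P0 K hP0 (hK.1 _ hl)
    · simp only [h2, false_imp_iff, filter_true, if_false]
      have := h.SS_le (k := k) z a
      rw [if_neg ha] at this
      exact this

/-- bad triples -/
def BT (P0 : ℕ) (x y z : ℤ × ℤ) : Prop :=
  (∀ p : ℕ, p.Prime → P0 < p → ¬ ((p : ℤ) ∣ x.1 ∧ (p : ℤ) ∣ x.2)) ∧
    ∃ p : ℕ, p.Prime ∧ P0 < p ∧ (p : ℤ) ∣ dt x y ∧ (p : ℤ) ∣ dt x z

open Classical in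
theorem CSz.badC (h : CSz lam H i j1 X L Y) (P0 K : ℕ) (hP0 : 0 < P0)
    (hK : DtK lam H i j1 X L k K) (a b c : I) (hab : a ≠ b) (hac : a ≠ c) (hbc : b ≠ c)
    (hb : b ≠ i) (hb1 : b ≠ j1) (hc : c ≠ i) (hc1 : c ≠ j1) :
    (((cell lam H i j1 X L k).filter fun w => BT P0 (w a) (w b) (w c)).card : ℝ) ≤
      256 * 8 ^ Fintype.card I * (1 / P0 + K / Y) * ∏ a, vv lam H i j1 X L a := by
  have hij := h.hij
  have hY : 0 < Y := by linarith [h.h1.hY]
  have he : 0 ≤ 1 / (P0 : ℝ) + K / Y := by positivity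
  rw [card_cell_filter hij]
  push_cast
  set V' : ℝ := ∏ a, (if a = j1 then 1 else vv lam H i j1 X L a) with hV'
  have hV'0 : 0 ≤ V' := prod_nonneg fun a _ => by
    have := h.vv_pos a
    split_ifs <;> positivity
  have h1 : ∀ z ∈ Tz lam (X j1) 0 1, (((Fintype.piFinset (SS lam H i j1 X L k z)).filter
      fun w => BT P0 (w a) (w b) (w c)).card : ℝ) ≤
      256 * (1 / P0 + K / Y) * 8 ^ (Fintype.card I - 1) * V' := by
    intro z hz
    have h2 := pi_triple (SS lam H i j1 X L k z) a b c hab hac hbc (BT P0)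
      (fun d => (if d = b then 256 * (1 / P0 + K / Y) else 8) *
        (if d = j1 then 1 else vv lam H i j1 X L d)) ?_ ?_ ?_
    · refine h2.trans (le_of_eq ?_)
      rw [prod_mul_distrib, prod_A]
    · intro d
      have := h.vv_pos d
      split_ifs <;> positivity
    · intro d hd _
      rw [if_neg hd]
      exact h.SS_le z d
    · intro x hx
      rw [if_pos rfl, if_neg hb1, if_neg hbc.symm, if_neg hc1]
      have hb2 := h.h2 b hb hb1
      have hc2 := h.h2 c hc hc1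
      have eb : SS lam H i j1 X L k z b =
          Tz lam (X b) ((z.1 : ℝ) / z.2 + L * k b / H) (L / H) := by
        rw [SS, if_neg hb, if_neg hb1]
      have ec : SS lam H i j1 X L k z c =
          Tz lam (X c) ((z.1 : ℝ) / z.2 + L * k c / H) (L / H) := by
        rw [SS, if_neg hc, if_neg hc1]
      have vb : vv lam H i j1 X L b = vol lam (X b) (L / H) := by rw [vv, if_neg hb, if_neg hb1]
      have vc : vv lam H i j1 X L c = vol lam (X c) (L / H) := by rw [vv, if_neg hc, if_neg hc1]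
      by_cases hx1 : ∀ p : ℕ, p.Prime → P0 < p → ¬ ((p : ℤ) ∣ x.1 ∧ (p : ℤ) ∣ x.2)
      · have h3 := tp (SS lam H i j1 X L k z b) (fun _ => SS lam H i j1 X L k z c)
          (fun y => dt x y) (fun p y t => (p : ℤ) ∣ dt x t) P0 K Y (vv lam H i j1 X L b)
          (vv lam H i j1 X L c) 8 hP0 h.h1.hY (by norm_num) (h.vv_pos b).le (h.vv_pos c).le
          (fun y hy => hK.2 z hz a b hab x hx y hy) ?_ ?_ ?_
        · have e1 : ∑ y ∈ SS lam H i j1 X L k z b,
              (((SS lam H i j1 X L k z c).filter fun t => BT P0 x y t).card : ℝ) =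
              ∑ y ∈ SS lam H i j1 X L k z b, (((SS lam H i j1 X L k z c).filter fun t =>
                ∃ p : ℕ, p.Prime ∧ P0 < p ∧ (p : ℤ) ∣ dt x y ∧ (p : ℤ) ∣ dt x t).card : ℝ) := by
            refine sum_congr rfl fun y _ => ?_
            congr 2
            refine filter_congr fun t _ => ?_
            unfold BT
            constructor
            · rintro ⟨-, g⟩; exact g
            · intro g; exact ⟨hx1, g⟩
          rw [e1]
          refine h3.trans ?_
          have := mul_pos (h.vv_pos b) (h.vv_pos c)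
          have e2 : 4 * 8 ^ 2 * (1 / (P0 : ℝ) + K / Y) * (vv lam H i j1 X L b * vv lam H i j1 X L c) =
              256 * (1 / P0 + K / Y) * (vv lam H i j1 X L b * vv lam H i j1 X L c) := by norm_num
          rw [e2]
          have e3 : 0 ≤ 256 * (1 / (P0 : ℝ) + K / Y) * (vv lam H i j1 X L b * vv lam H i j1 X L c) := by
            positivity
          linarith
        · intro p hp hpP
          rw [eb, vb]
          exact hb2.dt_le _ p hp x (hx1 p hp hpP)
        · rw [eb, vb]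
          exact hb2.card_le _
        · intro y _ p hp hpP _
          rw [ec, vc]
          exact hc2.dt_le _ p hp x (hx1 p hp hpP)
      · have e1 : ∑ y ∈ SS lam H i j1 X L k z b,
              (((SS lam H i j1 X L k z c).filter fun t => BT P0 x y t).card : ℝ) = 0 := by
          refine sum_eq_zero fun y _ => ?_
          rw [filter_false_of_mem]
          · simp
          · intro t _ g
            exact hx1 g.1
        rw [e1]
        have := h.vv_pos b
        have := h.vv_pos c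
        positivity
  refine (sum_le_sum h1).trans ?_
  rw [sum_const, nsmul_eq_mul]
  have h4 := h.h1.card_le 0
  have h5 : ∏ a, vv lam H i j1 X L a = vv lam H i j1 X L j1 * V' := by
    rw [hV', ← mul_prod_erase univ _ (mem_univ j1),
      ← mul_prod_erase univ (fun a => if a = j1 then 1 else vv lam H i j1 X L a) (mem_univ j1),
      if_pos rfl, one_mul]
    congr 1
    exact prod_congr rfl fun a ha => (if_neg (ne_of_mem_erase ha)).symm
  have h6 : vv lam H i j1 X L j1 = vol lam (X j1) 1 := by rw [vv, if_neg hij, if_pos rfl]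
  have hn : 0 < Fintype.card I := Fintype.card_pos_iff.2 ⟨i⟩
  have h7 : (8 : ℝ) ^ Fintype.card I = 8 * 8 ^ (Fintype.card I - 1) := by
    rw [← pow_succ']
    congr 1
    omega
  have h8 : 0 ≤ 256 * (1 / (P0 : ℝ) + K / Y) * 8 ^ (Fintype.card I - 1) * V' := by positivity
  calc _ ≤ (8 * vol lam (X j1) 1) * (256 * (1 / P0 + K / Y) * 8 ^ (Fintype.card I - 1) * V') :=
        mul_le_mul_of_nonneg_right h4 h8
    _ = _ := by rw [h5, h6, h7]; ring

open Classical in
theorem CSz.badC1 (h : CSz lam H i j1 X L Y) (P0 K : ℕ) (hP0 : 0 < P0)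
    (hK : DtK lam H i j1 X L k K) (c : I) (hc : c ≠ i) (hc1 : c ≠ j1) :
    (((cell lam H i j1 X L k).filter fun w => BT P0 (w i) (w j1) (w c)).card : ℝ) ≤
      256 * 8 ^ Fintype.card I * (1 / P0 + K / Y) * ∏ a, vv lam H i j1 X L a := by
  have hij := h.hij
  have hY : 0 < Y := by linarith [h.h1.hY]
  have he : 0 ≤ 1 / (P0 : ℝ) + K / Y := by positivity
  rw [card_cell_filter hij]
  push_cast
  have hc2 := h.h2 c hc hc1
  have vc : vv lam H i j1 X L c = vol lam (X c) (L / H) := by rw [vv, if_neg hc, if_neg hc1]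
  have v1 : vv lam H i j1 X L j1 = vol lam (X j1) 1 := by rw [vv, if_neg hij, if_pos rfl]
  have ec : ∀ z, SS lam H i j1 X L k z c =
      Tz lam (X c) ((z.1 : ℝ) / z.2 + L * k c / H) (L / H) := by
    intro z
    rw [SS, if_neg hc, if_neg hc1]
  set R := (univ.erase j1).erase c with hR
  have h1 : ∀ z ∈ Tz lam (X j1) 0 1, (((Fintype.piFinset (SS lam H i j1 X L k z)).filter
      fun w => BT P0 (w i) (w j1) (w c)).card : ℝ) ≤
      (((SS lam H i j1 X L k z c).filter fun t => ∃ p : ℕ, p.Prime ∧ P0 < p ∧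
        (p : ℤ) ∣ dt (1, 0) z ∧ (p : ℤ) ∣ dt (1, 0) t).card : ℝ) *
        ∏ a ∈ R, 8 * vv lam H i j1 X L a := by
    intro z hz
    have e1 : ((Fintype.piFinset (SS lam H i j1 X L k z)).filter
        fun w => BT P0 (w i) (w j1) (w c)) ⊆
        (Fintype.piFinset (SS lam H i j1 X L k z)).filter fun w => ∀ a, (a = c → ∃ p : ℕ, p.Prime ∧
          P0 < p ∧ (p : ℤ) ∣ dt (1, 0) z ∧ (p : ℤ) ∣ dt (1, 0) (w a)) := by
      intro w hw
      rw [mem_filter, Fintype.mem_piFinset] at hw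
      obtain ⟨g1, -, g2⟩ := hw
      have g3 : w i = (1, 0) := by
        have := g1 i
        rw [SS, if_pos rfl] at this
        exact mem_singleton.1 this
      have g4 : w j1 = z := by
        have := g1 j1
        rw [SS, if_neg hij, if_pos rfl] at this
        exact mem_singleton.1 this
      rw [mem_filter, Fintype.mem_piFinset]
      refine ⟨g1, ?_⟩
      rintro a rfl
      rw [g3, g4] at g2
      exact g2
    have e2 := card_le_card e1
    rw [pi_filter (SS lam H i j1 X L k z) (fun a t => a = c → ∃ p : ℕ, p.Prime ∧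
          P0 < p ∧ (p : ℤ) ∣ dt (1, 0) z ∧ (p : ℤ) ∣ dt (1, 0) t)] at e2
    have e3 : (((Fintype.piFinset (SS lam H i j1 X L k z)).filter
      fun w => BT P0 (w i) (w j1) (w c)).card : ℝ) ≤ ∏ a, (((SS lam H i j1 X L k z a).filter
        fun t => a = c → ∃ p : ℕ, p.Prime ∧
          P0 < p ∧ (p : ℤ) ∣ dt (1, 0) z ∧ (p : ℤ) ∣ dt (1, 0) t).card : ℝ) := by
      exact_mod_cast e2
    refine e3.trans ?_
    rw [← mul_prod_erase univ _ (mem_univ j1),
      ← mul_prod_erase (univ.erase j1) _ (mem_erase.2 ⟨hc1, mem_univ c⟩)]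
    have f1 : (((SS lam H i j1 X L k z j1).filter fun t => j1 = c → ∃ p : ℕ, p.Prime ∧
          P0 < p ∧ (p : ℤ) ∣ dt (1, 0) z ∧ (p : ℤ) ∣ dt (1, 0) t).card : ℝ) ≤ 1 := by
      have := card_filter_le (SS lam H i j1 X L k z j1) fun t => j1 = c → ∃ p : ℕ, p.Prime ∧
          P0 < p ∧ (p : ℤ) ∣ dt (1, 0) z ∧ (p : ℤ) ∣ dt (1, 0) t
      have e4 : (SS lam H i j1 X L k z j1).card = 1 := by
        rw [SS, if_neg hij, if_pos rfl, card_singleton]
      rw [e4] at this
      exact_mod_cast this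
    have f2 : (((SS lam H i j1 X L k z c).filter fun t => c = c → ∃ p : ℕ, p.Prime ∧
          P0 < p ∧ (p : ℤ) ∣ dt (1, 0) z ∧ (p : ℤ) ∣ dt (1, 0) t).card : ℝ) =
        (((SS lam H i j1 X L k z c).filter fun t => ∃ p : ℕ, p.Prime ∧ P0 < p ∧
        (p : ℤ) ∣ dt (1, 0) z ∧ (p : ℤ) ∣ dt (1, 0) t).card : ℝ) := by
      congr 2
      refine filter_congr fun t _ => ?_
      simp
    have f3 : ∏ a ∈ R, (((SS lam H i j1 X L k z a).filter fun t => a = c → ∃ p : ℕ, p.Prime ∧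
          P0 < p ∧ (p : ℤ) ∣ dt (1, 0) z ∧ (p : ℤ) ∣ dt (1, 0) t).card : ℝ) ≤
        ∏ a ∈ R, 8 * vv lam H i j1 X L a := by
      refine prod_le_prod (fun a _ => Nat.cast_nonneg _) fun a ha => ?_
      rw [hR, mem_erase, mem_erase] at ha
      have e5 := h.SS_le (k := k) z a
      rw [if_neg ha.2.1] at e5
      refine le_trans ?_ e5
      exact_mod_cast card_filter_le _ _
    rw [f2]
    have f4 : 0 ≤ ∏ a ∈ R, (((SS lam H i j1 X L k z a).filter fun t => a = c → ∃ p : ℕ, p.Prime ∧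
          P0 < p ∧ (p : ℤ) ∣ dt (1, 0) z ∧ (p : ℤ) ∣ dt (1, 0) t).card : ℝ) :=
      prod_nonneg fun a _ => Nat.cast_nonneg _
    exact mul3 (Nat.cast_nonneg _) f1 (Nat.cast_nonneg _) (le_refl _) f4 f3
  refine (sum_le_sum h1).trans ?_
  rw [← sum_mul]
  have h10 : ∀ p : ℕ, p.Prime → ¬ ((p : ℤ) ∣ ((1 : ℤ), (0 : ℤ)).1 ∧ (p : ℤ) ∣ ((1 : ℤ), (0 : ℤ)).2) := by
    intro p hp g
    exact (Nat.prime_iff_prime_int.1 hp).not_isUnit (isUnit_of_dvd_one g.1)
  have h3 := tp (Tz lam (X j1) 0 1) (fun z => SS lam H i j1 X L k z c)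
          (fun y => dt (1, 0) y) (fun p y t => (p : ℤ) ∣ dt (1, 0) t) P0 K Y (vv lam H i j1 X L j1)
          (vv lam H i j1 X L c) 8 hP0 h.h1.hY (by norm_num) (h.vv_pos j1).le (h.vv_pos c).le
          (fun y hy => hK.2 y hy i j1 hij.symm (1, 0) (by rw [SS, if_pos rfl]; exact mem_singleton_self _)
            y (by rw [SS, if_neg hij, if_pos rfl]; exact mem_singleton_self _)) ?_ ?_ ?_
  · have h4 : 0 ≤ ∏ a ∈ R, 8 * vv lam H i j1 X L a := prod_nonneg fun a _ => by
      have := h.vv_pos a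
      positivity
    refine (mul_le_mul_of_nonneg_right h3 h4).trans ?_
    rw [prod_mul_distrib, prod_const]
    have h5 : ∏ a, vv lam H i j1 X L a =
        vv lam H i j1 X L j1 * (vv lam H i j1 X L c * ∏ a ∈ R, vv lam H i j1 X L a) := by
      rw [← mul_prod_erase univ _ (mem_univ j1),
        ← mul_prod_erase (univ.erase j1) _ (mem_erase.2 ⟨hc1, mem_univ c⟩)]
    rw [h5]
    have h6 : (8 : ℝ) ^ R.card ≤ 8 ^ Fintype.card I :=
      pow_le_pow_right₀ (by norm_num) (card_le_univ R)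
    have g1 := h.vv_pos j1
    have g2 := h.vv_pos c
    have g3 : 0 ≤ ∏ a ∈ R, vv lam H i j1 X L a := prod_nonneg fun a _ => (h.vv_pos a).le
    calc _ = 256 * (1 / (P0 : ℝ) + K / Y) * (vv lam H i j1 X L j1 * vv lam H i j1 X L c) *
          (8 ^ R.card * ∏ a ∈ R, vv lam H i j1 X L a) := by norm_num
      _ ≤ 256 * (1 / (P0 : ℝ) + K / Y) * (vv lam H i j1 X L j1 * vv lam H i j1 X L c) *
          (8 ^ Fintype.card I * ∏ a ∈ R, vv lam H i j1 X L a) := by gcongr
      _ = _ := by ring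
  · intro p hp _
    rw [v1]
    exact h.h1.dt_le 0 p hp (1, 0) (h10 p hp)
  · rw [v1]
    exact h.h1.card_le 0
  · intro y _ p hp _ _
    rw [ec, vc]
    exact hc2.dt_le _ p hp (1, 0) (h10 p hp)

end

end Pool.Agent.Y714.MA
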