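import Pool.Agent.Y714.MA.Tz

set_option autoImplicit false
set_option linter.unusedSectionVars false
set_option linter.unusedSimpArgs false

/-! Cells of normal forms and the number of their elements in residue classes. -/

namespace Pool.Agent.Y714.MA

open Finset Pool.Agent.Y714.ML

section

variable {I : Type} [Fintype I] [DecidableEq I]

/-- the possible vectors -/
noncomputable def SS (lam : ℝ) (H : ℕ) (i j1 : I) (X : I → ℝ) (L : ℝ) (k : I → ℤ) (z : ℤ × ℤ)
    (l : I) : Finset (ℤ × ℤ) :=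
  if l = i then {(1, 0)} else if l = j1 then {z} else
    Tz lam (X l) ((z.1 : ℝ) / z.2 + L * k l / H) (L / H)

/-- the cells -/
noncomputable def cell (lam : ℝ) (H : ℕ) (i j1 : I) (X : I → ℝ) (L : ℝ) (k : I → ℤ) :
    Finset (I → ℤ × ℤ) :=
  (Tz lam (X j1) 0 1).biUnion fun z => Fintype.piFinset (SS lam H i j1 X L k z)

variable {lam : ℝ} {H : ℕ} {i j1 : I} {X : I → ℝ} {L : ℝ} {k : I → ℤ}

theorem mem_cell {w : I → ℤ × ℤ} (hij : j1 ≠ i) : w ∈ cell lam H i j1 X L k ↔
    w i = (1, 0) ∧ w j1 ∈ Tz lam (X j1) 0 1 ∧ ∀ l, l ≠ i → l ≠ j1 →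
      w l ∈ Tz lam (X l) (((w j1).1 : ℝ) / (w j1).2 + L * k l / H) (L / H) := by
  rw [cell, mem_biUnion]
  constructor
  · rintro ⟨z, hz, hw⟩
    rw [Fintype.mem_piFinset] at hw
    have h1 : w i = (1, 0) := by
      have := hw i
      rw [SS, if_pos rfl] at this
      exact mem_singleton.1 this
    have h2 : w j1 = z := by
      have := hw j1
      rw [SS, if_neg hij, if_pos rfl] at this
      exact mem_singleton.1 this
    refine ⟨h1, by rw [h2]; exact hz, fun l hl hl' => ?_⟩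
    have := hw l
    rw [SS, if_neg hl, if_neg hl', ← h2] at this
    exact this
  · rintro ⟨h1, h2, h3⟩
    refine ⟨w j1, h2, ?_⟩
    rw [Fintype.mem_piFinset]
    intro l
    unfold SS
    split_ifs with h4 h5
    · rw [h4, h1]; exact mem_singleton_self _
    · rw [h5]; exact mem_singleton_self _
    · exact h3 l h4 h5

/-- filtered cells, as a sum -/
theorem card_cell_filter (hij : j1 ≠ i) (Q : (I → ℤ × ℤ) → Prop) [DecidablePred Q] :
    ((cell lam H i j1 X L k).filter Q).card =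
      ∑ z ∈ Tz lam (X j1) 0 1, ((Fintype.piFinset (SS lam H i j1 X L k z)).filter Q).card := by
  classical
  rw [cell, filter_biUnion, card_biUnion]
  intro z _ z' _ hzz
  rw [Function.onFun, disjoint_left]
  intro w hw hw'
  rw [mem_filter, Fintype.mem_piFinset] at hw hw'
  have h2 : w j1 = z := by
    have := hw.1 j1
    rw [SS, if_neg hij, if_pos rfl] at this
    exact mem_singleton.1 this
  have h3 : w j1 = z' := by
    have := hw'.1 j1
    rw [SS, if_neg hij, if_pos rfl] at this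
    exact mem_singleton.1 this
  exact hzz (h2.symm.trans h3)

theorem pi_filter (S : I → Finset (ℤ × ℤ)) (Q : I → ℤ × ℤ → Prop) [∀ l, DecidablePred (Q l)] :
    ((Fintype.piFinset S).filter fun ω => ∀ l, Q l (ω l)).card = ∏ l, ((S l).filter (Q l)).card := by
  have h1 : ((Fintype.piFinset S).filter fun ω => ∀ i, Q i (ω i)) =
      Fintype.piFinset fun i => (S i).filter (Q i) := by
    ext ω
    simp only [mem_filter, Fintype.mem_piFinset]
    exact forall_and.symm
  rw [h1, Fintype.card_piFinset]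

theorem cell_upper (hij : j1 ≠ i) (Q : I → ℤ × ℤ → Prop) [∀ l, DecidablePred (Q l)] (c : I → ℝ)
    (hc : ∀ l, 0 ≤ c l) (h1 : (((Tz lam (X j1) 0 1).filter (Q j1)).card : ℝ) ≤ c j1)
    (h2 : ∀ z ∈ Tz lam (X j1) 0 1, ∀ l, l ≠ j1 →
      (((SS lam H i j1 X L k z l).filter (Q l)).card : ℝ) ≤ c l) :
    (((cell lam H i j1 X L k).filter fun w => ∀ l, Q l (w l)).card : ℝ) ≤ ∏ l, c l := by
  rw [card_cell_filter hij]
  push_cast
  have h3 : ∀ z ∈ Tz lam (X j1) 0 1, (((Fintype.piFinset (SS lam H i j1 X L k z)).filter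
      fun ω => ∀ l, Q l (ω l)).card : ℝ) ≤
      if Q j1 z then ∏ l ∈ univ.erase j1, c l else 0 := by
    intro z hz
    rw [pi_filter]
    push_cast
    rw [← mul_prod_erase univ _ (mem_univ j1)]
    have h4 : SS lam H i j1 X L k z j1 = {z} := by rw [SS, if_neg hij, if_pos rfl]
    rw [h4, filter_singleton]
    split_ifs with h5
    · rw [card_singleton, Nat.cast_one, one_mul]
      exact prod_le_prod (fun l _ => Nat.cast_nonneg _)
        fun l hl => h2 z hz l (ne_of_mem_erase hl)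
    · simp
  refine (sum_le_sum h3).trans ?_
  rw [← sum_filter, sum_const, nsmul_eq_mul, ← mul_prod_erase univ c (mem_univ j1)]
  exact mul_le_mul_of_nonneg_right h1 (prod_nonneg fun l _ => hc l)

theorem cell_lower (hij : j1 ≠ i) (Q : I → ℤ × ℤ → Prop) [∀ l, DecidablePred (Q l)] (c : I → ℝ)
    (hc : ∀ l, 0 ≤ c l) (h1 : c j1 ≤ (((Tz lam (X j1) 0 1).filter (Q j1)).card : ℝ))
    (h2 : ∀ z ∈ Tz lam (X j1) 0 1, ∀ l, l ≠ j1 →
      c l ≤ (((SS lam H i j1 X L k z l).filter (Q l)).card : ℝ)) :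
    ∏ l, c l ≤ (((cell lam H i j1 X L k).filter fun w => ∀ l, Q l (w l)).card : ℝ) := by
  rw [card_cell_filter hij]
  push_cast
  have h3 : ∀ z ∈ Tz lam (X j1) 0 1, (if Q j1 z then ∏ l ∈ univ.erase j1, c l else 0) ≤
      (((Fintype.piFinset (SS lam H i j1 X L k z)).filter
      fun ω => ∀ l, Q l (ω l)).card : ℝ) := by
    intro z hz
    rw [pi_filter]
    push_cast
    rw [← mul_prod_erase univ _ (mem_univ j1)]
    have h4 : SS lam H i j1 X L k z j1 = {z} := by rw [SS, if_neg hij, if_pos rfl]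
    rw [h4, filter_singleton]
    split_ifs with h5
    · rw [card_singleton, Nat.cast_one, one_mul]
      exact prod_le_prod (fun l _ => hc l)
        fun l hl => h2 z hz l (ne_of_mem_erase hl)
    · simp
  refine le_trans ?_ (sum_le_sum h3)
  rw [← sum_filter, sum_const, nsmul_eq_mul, ← mul_prod_erase univ c (mem_univ j1)]
  exact mul_le_mul_of_nonneg_right h1 (prod_nonneg fun l _ => hc l)

/-- the size conditions -/
structure CSz (lam : ℝ) (H : ℕ) (i j1 : I) (X : I → ℝ) (L Y : ℝ) : Prop where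
  hij : j1 ≠ i
  h1 : Sz lam (X j1) 1 Y
  h2 : ∀ l, l ≠ i → l ≠ j1 → Sz lam (X l) (L / H) Y

/-- the volumes -/
noncomputable def vv (lam : ℝ) (H : ℕ) (i j1 : I) (X : I → ℝ) (L : ℝ) (l : I) : ℝ :=
  if l = i then 1 else if l = j1 then vol lam (X j1) 1 else vol lam (X l) (L / H)

variable {Y : ℝ}

theorem CSz.vv_pos (h : CSz lam H i j1 X L Y) (l : I) : 0 < vv lam H i j1 X L l := by
  unfold vv
  split_ifs with h1 h2
  · exact one_pos
  · exact h.h1.vol_pos
  · exact (h.h2 l h1 h2).vol_pos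

theorem CSz.SS_le (h : CSz lam H i j1 X L Y) (z : ℤ × ℤ) (l : I) :
    ((SS lam H i j1 X L k z l).card : ℝ) ≤ 8 * (if l = j1 then 1 else vv lam H i j1 X L l) := by
  have hij := h.hij
  by_cases h1 : l = i
  · have h2 : l ≠ j1 := fun h' => hij (h'.symm.trans h1)
    rw [if_neg h2, SS, if_pos h1, vv, if_pos h1]
    simp
  · by_cases h2 : l = j1
    · rw [if_pos h2, SS, if_neg h1, if_pos h2]
      simp
    · rw [if_neg h2, SS, if_neg h1, if_neg h2, vv, if_neg h1, if_neg h2]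
      exact (h.h2 l h1 h2).card_le _

theorem prod_ne (A : ℝ) : ∏ l : I, (if l = i then 1 else A) = A ^ (Fintype.card I - 1) := by
  rw [← mul_prod_erase univ _ (mem_univ i), if_pos rfl, one_mul]
  rw [prod_congr rfl (g := fun _ => A) (fun l hl => if_neg (ne_of_mem_erase hl)), prod_const,
    card_erase_of_mem (mem_univ i), Finset.card_univ]

/-- the elements in a residue class, upper bound -/
theorem CSz.res_le (h : CSz lam H i j1 X L Y) (q : ℕ) (hq : 0 < q) (ρ : I → ℤ × ℤ) :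
    (((cell lam H i j1 X L k).filter fun w => ∀ l, ((q : ℤ) ∣ (w l).1 - (ρ l).1 ∧
      (q : ℤ) ∣ (w l).2 - (ρ l).2)).card : ℝ) ≤
      (lam * (1 / q + 1 / Y) ^ 2) ^ (Fintype.card I - 1) * ∏ l, vv lam H i j1 X L l := by
  have hij := h.hij
  have hY : 0 < Y := by linarith [h.h1.hY]
  have hlam : 0 < lam := by linarith [h.h1.h1]
  have h1 := cell_upper (lam := lam) (H := H) (X := X) (L := L) (k := k) hij
    (fun l z => (q : ℤ) ∣ z.1 - (ρ l).1 ∧ (q : ℤ) ∣ z.2 - (ρ l).2)
    (fun l => (if l = i then 1 else lam * (1 / q + 1 / Y) ^ 2) * vv lam H i j1 X L l) ?_ ?_ ?_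
  · refine h1.trans (le_of_eq ?_)
    rw [prod_mul_distrib, prod_ne]
  · intro l
    have := h.vv_pos l
    split_ifs <;> positivity
  · rw [if_neg hij, vv, if_neg hij, if_pos rfl]
    refine (h.h1.res_le 0 q hq _ _).trans (le_of_eq ?_)
    ring
  · intro z hz l hl
    by_cases h2 : l = i
    · rw [SS, if_pos h2, if_pos h2, vv, if_pos h2]
      have : (({((1 : ℤ), (0 : ℤ))} : Finset (ℤ × ℤ)).filter fun z => (q : ℤ) ∣ z.1 - (ρ l).1 ∧
          (q : ℤ) ∣ z.2 - (ρ l).2).card ≤ 1 := (card_filter_le _ _).trans (by simp)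
      have h3 : ((({((1 : ℤ), (0 : ℤ))} : Finset (ℤ × ℤ)).filter fun z => (q : ℤ) ∣ z.1 - (ρ l).1 ∧
          (q : ℤ) ∣ z.2 - (ρ l).2).card : ℝ) ≤ 1 := by exact_mod_cast this
      linarith
    · rw [SS, if_neg h2, if_neg hl, if_neg h2, vv, if_neg h2, if_neg hl]
      refine ((h.h2 l h2 hl).res_le _ q hq _ _).trans (le_of_eq ?_)
      ring

/-- the elements in a residue class, lower bound -/
theorem CSz.res_ge (h : CSz lam H i j1 X L Y) (q : ℕ) (hq : 0 < q) (hqY : q ≤ Y) (ρ : I → ℤ × ℤ)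
    (hρ : (q : ℤ) ∣ 1 - (ρ i).1 ∧ (q : ℤ) ∣ 0 - (ρ i).2) :
    ((1 / q - 1 / Y) ^ 2) ^ (Fintype.card I - 1) * ∏ l, vv lam H i j1 X L l ≤
    (((cell lam H i j1 X L k).filter fun w => ∀ l, ((q : ℤ) ∣ (w l).1 - (ρ l).1 ∧
      (q : ℤ) ∣ (w l).2 - (ρ l).2)).card : ℝ) := by
  have hij := h.hij
  have hY : 0 < Y := by linarith [h.h1.hY]
  have hq' : (0 : ℝ) < q := by exact_mod_cast hq
  have hlam : 0 < lam := by linarith [h.h1.h1]
  have h1 := cell_lower (lam := lam) (H := H) (X := X) (L := L) (k := k) hij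
    (fun l z => (q : ℤ) ∣ z.1 - (ρ l).1 ∧ (q : ℤ) ∣ z.2 - (ρ l).2)
    (fun l => (if l = i then 1 else (1 / (q : ℝ) - 1 / Y) ^ 2) * vv lam H i j1 X L l) ?_ ?_ ?_
  · refine le_trans (le_of_eq ?_) h1
    rw [prod_mul_distrib, prod_ne]
  · intro l
    have := h.vv_pos l
    split_ifs <;> positivity
  · rw [if_neg hij, vv, if_neg hij, if_pos rfl]
    refine le_trans (le_of_eq ?_) (h.h1.res_ge 0 q hq hqY _ _)
    ring
  · intro z hz l hl
    by_cases h2 : l = i
    · subst h2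
      rw [SS, if_pos rfl, if_pos rfl, vv, if_pos rfl, filter_singleton, if_pos hρ]
      simp
    · rw [SS, if_neg h2, if_neg hl, if_neg h2, vv, if_neg h2, if_neg hl]
      refine le_trans (le_of_eq ?_) ((h.h2 l h2 hl).res_ge _ q hq hqY _ _)
      ring

end

end Pool.Agent.Y714.MA
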