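import Pool.Agent.Y714.MA.Cbad

set_option autoImplicit false
set_option linter.unusedSectionVars false
set_option linter.unusedSimpArgs false
set_option linter.unusedVariables false

/-! The number of good elements of a cell. -/

namespace Pool.Agent.Y714.MA

open Finset Pool.Agent.Y714.ML

section

variable {I : Type} [Fintype I] [DecidableEq I]

/-- the weights -/
def tht (o : I) (l : I) : ℕ := if l = o then 3 else 2

theorem tht_ge (o l : I) : 2 ≤ tht o l := by unfold tht; split_ifs <;> norm_num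

theorem tht_sum (o : I) : ∑ l, tht o l = 2 * Fintype.card I + 1 := by
  have h1 : ∀ l, tht o l = 2 + (if l = o then 1 else 0) := by
    intro l; unfold tht; split_ifs <;> norm_num
  rw [sum_congr rfl fun l _ => h1 l, sum_add_distrib, sum_ite_eq' univ o (fun _ => 1)]
  simp [Finset.card_univ, mul_comm]

theorem tht_sum_le (o : I) (N : Finset I) : ∑ l ∈ N, tht o l ≤ 2 * N.card + 1 := by
  have h1 : ∀ l, tht o l = 2 + (if l = o then 1 else 0) := by
    intro l; unfold tht; split_ifs <;> norm_num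
  rw [sum_congr rfl fun l _ => h1 l, sum_add_distrib, sum_ite_eq' N o (fun _ => 1), sum_const,
    smul_eq_mul]
  split_ifs <;> omega

/-- coprime and stable -/
def Good (θ : I → ℕ) (w : I → ℤ × ℤ) : Prop := (∀ l, IsCoprime (w l).1 (w l).2) ∧ Stb θ w

/-- the conditions at the small primes -/
def Gd (θ : I → ℕ) (P0 : ℕ) (w : I → ℤ × ℤ) : Prop := ∀ p : ℕ, p.Prime → p ≤ P0 →
  (∀ l, ¬ ((p : ℤ) ∣ (w l).1 ∧ (p : ℤ) ∣ (w l).2)) ∧
  ∀ j, 2 * ∑ l ∈ univ.filter (fun l => (p : ℤ) ∣ dt (w j) (w l)), θ l < ∑ l, θ l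

theorem gd_congr (θ : I → ℕ) (P0 P : ℕ) (hP : P = P0.factorial) (w ρ : I → ℤ × ℤ)
    (h : ∀ l, (P : ℤ) ∣ (w l).1 - (ρ l).1 ∧ (P : ℤ) ∣ (w l).2 - (ρ l).2) (hw : Gd θ P0 w) :
    Gd θ P0 ρ := by
  intro p hp hpP
  obtain ⟨h1, h2⟩ := hw p hp hpP
  have hpd : (p : ℤ) ∣ P := by
    rw [hP]
    exact_mod_cast (hp.dvd_factorial).2 hpP
  have e1 : ∀ l, (p : ℤ) ∣ (w l).1 - (ρ l).1 := fun l => hpd.trans (h l).1
  have e2 : ∀ l, (p : ℤ) ∣ (w l).2 - (ρ l).2 := fun l => hpd.trans (h l).2
  constructor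
  · rintro l ⟨g1, g2⟩
    refine h1 l ⟨?_, ?_⟩
    · have := dvd_add (e1 l) g1
      simpa using this
    · have := dvd_add (e2 l) g2
      simpa using this
  · intro j
    have e3 : (univ.filter fun l => (p : ℤ) ∣ dt (ρ j) (ρ l)) =
        univ.filter fun l => (p : ℤ) ∣ dt (w j) (w l) := by
      refine filter_congr fun l _ => ?_
      have e4 : (p : ℤ) ∣ dt (w j) (w l) - dt (ρ j) (ρ l) := by
        have e5 : dt (w j) (w l) - dt (ρ j) (ρ l) =
            ((w j).1 - (ρ j).1) * (w l).2 + (ρ j).1 * ((w l).2 - (ρ l).2) -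
            ((w j).2 - (ρ j).2) * (w l).1 - (ρ j).2 * ((w l).1 - (ρ l).1) := by
          unfold dt; ring
        rw [e5]
        exact dvd_sub (dvd_sub (dvd_add ((e1 j).mul_right _) ((e2 l).mul_left _))
          ((e2 j).mul_right _)) ((e1 l).mul_left _)
      constructor
      · intro g
        have := dvd_add e4 g
        simpa using this
      · intro g
        have := dvd_sub g e4
        simpa using this
    rw [e3]
    exact h2 j

theorem Good.gd {θ : I → ℕ} {w : I → ℤ × ℤ} (h : Good θ w) (P0 : ℕ) : Gd θ P0 w := by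
  intro p hp _
  refine ⟨fun l g => ?_, h.2 p hp⟩
  have h1 := (h.1 l).isUnit_of_dvd' g.1 g.2
  exact (Nat.prime_iff_prime_int.1 hp).not_isUnit h1

open Classical in
/-- the good residues -/
noncomputable def Rs (θ : I → ℕ) (P0 : ℕ) (i : I) : Finset (I → ℤ × ℤ) :=
  (Fintype.piFinset fun l => if l = i then {((1 : ℤ), (0 : ℤ))} else
    Ico (0 : ℤ) P0.factorial ×ˢ Ico (0 : ℤ) P0.factorial).filter (Gd θ P0)

theorem card_Rs (θ : I → ℕ) (P0 : ℕ) (i : I) :
    ((Rs θ P0 i).card : ℝ) ≤ ((P0.factorial : ℝ) ^ 2) ^ (Fintype.card I - 1) := by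
  classical
  have h1 : (Rs θ P0 i).card ≤ ∏ l : I, (if l = i then 1 else P0.factorial ^ 2) := by
    refine (card_filter_le _ _).trans (le_of_eq ?_)
    rw [Fintype.card_piFinset]
    refine prod_congr rfl fun l _ => ?_
    split_ifs
    · simp
    · rw [card_product, Int.card_Ico]
      simp [pow_two]
  have h2 : ((Rs θ P0 i).card : ℝ) ≤ ∏ l : I, (if l = i then 1 else (P0.factorial : ℝ) ^ 2) := by
    have h3 : ((Rs θ P0 i).card : ℝ) ≤ ((∏ l : I, (if l = i then 1 else P0.factorial ^ 2) : ℕ) : ℝ) := by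
      exact_mod_cast h1
    refine h3.trans (le_of_eq ?_)
    push_cast
    rfl
  rwa [prod_ne] at h2

variable {lam : ℝ} {H : ℕ} {i j1 : I} {X : I → ℝ} {L Y : ℝ} {k : I → ℤ}

open Classical in
theorem cell_gd (hij : j1 ≠ i) (θ : I → ℕ) (P0 : ℕ) (hP0 : 2 ≤ P0) :
    ((cell lam H i j1 X L k).filter (Gd θ P0)).card = ∑ ρ ∈ Rs θ P0 i,
      ((cell lam H i j1 X L k).filter fun w => ∀ l, (((P0.factorial : ℕ) : ℤ) ∣ (w l).1 - (ρ l).1 ∧
        ((P0.factorial : ℕ) : ℤ) ∣ (w l).2 - (ρ l).2)).card := by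
  set P := P0.factorial with hP
  have hPpos : (0 : ℤ) < P := by exact_mod_cast Nat.factorial_pos P0
  have hP2 : (2 : ℤ) ≤ P := by
    have : P0 ≤ P0.factorial := Nat.self_le_factorial P0
    have h3 : 2 ≤ P := by omega
    exact_mod_cast h3
  set red : (I → ℤ × ℤ) → (I → ℤ × ℤ) := fun w l => ((w l).1 % P, (w l).2 % P) with hred
  have hr : ∀ w : I → ℤ × ℤ, ∀ l, (P : ℤ) ∣ (w l).1 - (red w l).1 ∧ (P : ℤ) ∣ (w l).2 - (red w l).2 :=
    fun w l => ⟨Int.dvd_self_sub_emod, Int.dvd_self_sub_emod⟩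
  have hr' : ∀ w : I → ℤ × ℤ, ∀ l, (P : ℤ) ∣ (red w l).1 - (w l).1 ∧ (P : ℤ) ∣ (red w l).2 - (w l).2 :=
    fun w l => ⟨by rw [← neg_sub, dvd_neg]; exact (hr w l).1,
      by rw [← neg_sub, dvd_neg]; exact (hr w l).2⟩
  have hmaps : ∀ w ∈ (cell lam H i j1 X L k).filter (Gd θ P0), red w ∈ Rs θ P0 i := by
    intro w hw
    rw [mem_filter] at hw
    have h1 := ((mem_cell hij).1 hw.1).1
    rw [Rs, mem_filter, Fintype.mem_piFinset]
    refine ⟨fun l => ?_, gd_congr θ P0 P hP w _ (hr w) hw.2⟩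
    split_ifs with hl
    · rw [mem_singleton, hred]
      simp only
      rw [hl, h1]
      have : (1 : ℤ) % P = 1 := Int.emod_eq_of_lt (by norm_num) (by omega)
      simp [this]
    · rw [mem_product, mem_Ico, mem_Ico]
      exact ⟨⟨Int.emod_nonneg _ hPpos.ne', Int.emod_lt_of_pos _ hPpos⟩,
        ⟨Int.emod_nonneg _ hPpos.ne', Int.emod_lt_of_pos _ hPpos⟩⟩
  rw [card_eq_sum_card_fiberwise (f := red) (t := Rs θ P0 i) (fun w hw => hmaps w hw)]
  refine sum_congr rfl fun ρ hρ => ?_
  congr 1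
  ext w
  rw [mem_filter, mem_filter, mem_filter]
  constructor
  · rintro ⟨⟨h1, h2⟩, h3⟩
    refine ⟨h1, ?_⟩
    rw [← h3]
    exact hr w
  · rintro ⟨h1, h2⟩
    have hρ' := hρ
    rw [Rs, mem_filter, Fintype.mem_piFinset] at hρ'
    have h4 : red w = ρ := by
      funext l
      have h5 : 0 ≤ (ρ l).1 ∧ (ρ l).1 < P ∧ 0 ≤ (ρ l).2 ∧ (ρ l).2 < P := by
        have h6 := hρ'.1 l
        split_ifs at h6 with hl
        · rw [mem_singleton] at h6
          rw [h6]
          simp only
          omega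
        · rw [mem_product, mem_Ico, mem_Ico] at h6
          exact ⟨h6.1.1, h6.1.2, h6.2.1, h6.2.2⟩
      have e1 : (w l).1 % P = (ρ l).1 := by
        have g1 : (w l).1 ≡ (ρ l).1 [ZMOD P] := ((Int.modEq_iff_dvd).2 (h2 l).1).symm
        have g2 : (w l).1 % P = (ρ l).1 % P := g1
        rw [g2, Int.emod_eq_of_lt h5.1 h5.2.1]
      have e2 : (w l).2 % P = (ρ l).2 := by
        have g1 : (w l).2 ≡ (ρ l).2 [ZMOD P] := ((Int.modEq_iff_dvd).2 (h2 l).2).symm
        have g2 : (w l).2 % P = (ρ l).2 % P := g1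
        rw [g2, Int.emod_eq_of_lt h5.2.2.1 h5.2.2.2]
      exact Prod.ext e1 e2
    refine ⟨⟨h1, ?_⟩, h4⟩
    refine gd_congr θ P0 P hP ρ w (fun l => ?_) hρ'.2
    rw [← h4]
    exact hr' w l

open Classical in
/-- upper bound for the good elements -/
theorem CSz.good_le (h : CSz lam H i j1 X L Y) (θ : I → ℕ) (P0 : ℕ) (hP0 : 2 ≤ P0) :
    (((cell lam H i j1 X L k).filter (Good θ)).card : ℝ) ≤
      (Rs θ P0 i).card * (lam * (1 / (P0.factorial : ℕ) + 1 / Y) ^ 2) ^ (Fintype.card I - 1) *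
        ∏ l, vv lam H i j1 X L l := by
  have h1 : ((cell lam H i j1 X L k).filter (Good θ)).card ≤
      ((cell lam H i j1 X L k).filter (Gd θ P0)).card := by
    refine card_le_card fun w hw => ?_
    rw [mem_filter] at hw ⊢
    exact ⟨hw.1, hw.2.gd P0⟩
  have h2 : (((cell lam H i j1 X L k).filter (Good θ)).card : ℝ) ≤
      (((cell lam H i j1 X L k).filter (Gd θ P0)).card : ℝ) := by exact_mod_cast h1
  refine h2.trans ?_
  rw [cell_gd h.hij θ P0 hP0]
  push_cast
  refine (sum_le_sum fun ρ _ => h.res_le P0.factorial (Nat.factorial_pos _) ρ).trans (le_of_eq ?_)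
  rw [sum_const, nsmul_eq_mul]
  ring

open Classical in
/-- the elements which are good at the small primes but not good -/
theorem CSz.bad_le (h : CSz lam H i j1 X L Y) (o : I) (P0 K : ℕ) (hP0 : 0 < P0)
    (hK : DtK lam H i j1 X L k K) (hn : 5 ≤ Fintype.card I) :
    (((cell lam H i j1 X L k).filter fun w => Gd (tht o) P0 w ∧ ¬ Good (tht o) w).card : ℝ) ≤
      (Fintype.card I + Fintype.card I ^ 3) *
        (256 * 8 ^ Fintype.card I * (1 / P0 + K / Y) * ∏ l, vv lam H i j1 X L l) := by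
  have hij := h.hij
  set M : ℝ := 256 * 8 ^ Fintype.card I * (1 / P0 + K / Y) * ∏ l, vv lam H i j1 X L l with hM
  set A : I → Finset (I → ℤ × ℤ) := fun l => (cell lam H i j1 X L k).filter fun w =>
    ∃ p : ℕ, p.Prime ∧ P0 < p ∧ (p : ℤ) ∣ (w l).1 ∧ (p : ℤ) ∣ (w l).2 with hA
  set C : I × I × I → Finset (I → ℤ × ℤ) := fun q => (cell lam H i j1 X L k).filter fun w =>
    BT P0 (w q.1) (w q.2.1) (w q.2.2) with hC
  set T1 : Finset I := univ.filter fun l => l ≠ i with hT1
  set T : Finset (I × I × I) := univ.filter fun q => q.1 ≠ q.2.1 ∧ q.1 ≠ q.2.2 ∧ q.2.1 ≠ q.2.2 ∧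
    q.2.2 ≠ i ∧ q.2.2 ≠ j1 ∧ ((q.2.1 ≠ i ∧ q.2.1 ≠ j1) ∨ (q.1 = i ∧ q.2.1 = j1)) with hT
  have hsub : ((cell lam H i j1 X L k).filter fun w => Gd (tht o) P0 w ∧ ¬ Good (tht o) w) ⊆
      T1.biUnion A ∪ T.biUnion C := by
    intro w hw
    rw [mem_filter] at hw
    obtain ⟨hwc, hgd, hng⟩ := hw
    have hwi := ((mem_cell hij).1 hwc).1
    by_cases hcop : ∀ l, IsCoprime (w l).1 (w l).2
    · -- unstable at a large prime
      have hns : ¬ Stb (tht o) w := fun hs => hng ⟨hcop, hs⟩
      unfold Stb at hns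
      push Not at hns
      obtain ⟨p, hp, j, hj⟩ := hns
      have hpP : P0 < p := by
        by_contra hle
        push Not at hle
        have := (hgd p hp hle).2 j
        omega
      set N := univ.filter (fun l => (p : ℤ) ∣ dt (w j) (w l)) with hN
      have h3 : 2 < N.card := by
        have e1 := tht_sum_le o N
        have e2 := tht_sum o
        omega
      obtain ⟨a, ha, b, hb, c, hc, hab, hac, hbc⟩ := two_lt_card.1 h3
      rw [hN, mem_filter] at ha hb hc
      set rk : I → ℕ := fun l => if l = i then 0 else if l = j1 then 1 else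
        2 + (Fintype.equivFin I l : ℕ) with hrk
      have hrki : Function.Injective rk := by
        intro x y hxy
        simp only [hrk] at hxy
        by_cases x1 : x = i <;> by_cases y1 : y = i
        · rw [x1, y1]
        · exfalso
          rw [if_pos x1, if_neg y1] at hxy
          split_ifs at hxy <;> omega
        · exfalso
          rw [if_neg x1, if_pos y1] at hxy
          split_ifs at hxy <;> omega
        · rw [if_neg x1, if_neg y1] at hxy
          by_cases x2 : x = j1 <;> by_cases y2 : y = j1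
          · rw [x2, y2]
          · exfalso
            rw [if_pos x2, if_neg y2] at hxy
            omega
          · exfalso
            rw [if_neg x2, if_pos y2] at hxy
            omega
          · rw [if_neg x2, if_neg y2] at hxy
            have : (Fintype.equivFin I x : ℕ) = Fintype.equivFin I y := by omega
            exact (Fintype.equivFin I).injective (Fin.ext this)
      have hab' := dvd_dt_trans (hcop j) p ha.2 hb.2
      have hac' := dvd_dt_trans (hcop j) p ha.2 hc.2
      have hbc' := dvd_dt_trans (hcop j) p hb.2 hc.2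
      obtain ⟨x, y, z, hxy, hyz, h4, h5⟩ := sort3 rk hrki (fun s t => (p : ℤ) ∣ dt (w s) (w t))
        (fun s t g => by rw [dt_comm]; exact (dvd_neg.2 g)) a b c hab hac hbc hab' hac' hbc'
      have hz1 : z ≠ i := by
        intro g
        rw [g] at hyz
        simp only [hrk, if_true] at hyz
        omega
      have hz2 : z ≠ j1 := by
        intro g
        rw [g] at hyz
        simp only [hrk, if_neg hij, if_true] at hyz hxy
        omega
      have hy1 : y ≠ i := by
        intro g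
        rw [g] at hxy
        simp only [hrk, if_true] at hxy
        omega
      have hbt : BT P0 (w x) (w y) (w z) := by
        refine ⟨fun p' hp' _ g => ?_, p, hp, hpP, h4, h5⟩
        exact (Nat.prime_iff_prime_int.1 hp').not_isUnit ((hcop x).isUnit_of_dvd' g.1 g.2)
      refine mem_union_right _ (mem_biUnion.2 ⟨(x, y, z), ?_, mem_filter.2 ⟨hwc, hbt⟩⟩)
      rw [hT, mem_filter]
      refine ⟨mem_univ _, ?_, ?_, ?_, hz1, hz2, ?_⟩
      · exact fun g => by simp only at g; rw [g] at hxy; exact lt_irrefl _ hxy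
      · exact fun g => by simp only at g; rw [g] at hxy; exact lt_irrefl _ (hxy.trans hyz)
      · exact fun g => by simp only at g; rw [g] at hyz; exact lt_irrefl _ hyz
      · by_cases hy2 : y = j1
        · right
          refine ⟨?_, hy2⟩
          by_contra hxi
          simp only at hxi
          rw [hy2] at hxy
          simp only [hrk, if_neg hij, if_true, if_neg hxi] at hxy
          split_ifs at hxy <;> omega
        · exact Or.inl ⟨hy1, hy2⟩
    · push Not at hcop
      obtain ⟨l, hl⟩ := hcop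
      obtain ⟨p, hp, hp1, hp2⟩ := exists_prime_of_not_coprime _ _ hl
      have hpP : P0 < p := by
        by_contra hle
        push Not at hle
        exact (hgd p hp hle).1 l ⟨hp1, hp2⟩
      have hli : l ≠ i := by
        intro g
        rw [g, hwi] at hp1
        exact (Nat.prime_iff_prime_int.1 hp).not_isUnit (isUnit_of_dvd_one hp1)
      exact mem_union_left _ (mem_biUnion.2 ⟨l, mem_filter.2 ⟨mem_univ _, hli⟩,
        mem_filter.2 ⟨hwc, p, hp, hpP, hp1, hp2⟩⟩)
  have hY : 0 < Y := by linarith [h.h1.hY]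
  have hM0 : 0 ≤ M := by
    have : 0 ≤ ∏ l, vv lam H i j1 X L l := prod_nonneg fun a _ => (h.vv_pos a).le
    positivity
  have h1 : ((T1.biUnion A).card : ℝ) ≤ Fintype.card I * M := by
    have e1 : ((T1.biUnion A).card : ℝ) ≤ ∑ l ∈ T1, ((A l).card : ℝ) := by
      exact_mod_cast card_biUnion_le
    have e2 : ∑ l ∈ T1, ((A l).card : ℝ) ≤ ∑ l ∈ T1, M := by
      refine sum_le_sum fun l hl => ?_
      rw [hT1, mem_filter] at hl
      exact h.badA P0 K hP0 hK l hl.2
    rw [sum_const, nsmul_eq_mul] at e2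
    have e3 : (T1.card : ℝ) ≤ Fintype.card I := by exact_mod_cast card_le_univ T1
    exact e1.trans (e2.trans (mul_le_mul_of_nonneg_right e3 hM0))
  have h2 : ((T.biUnion C).card : ℝ) ≤ Fintype.card I ^ 3 * M := by
    have e1 : ((T.biUnion C).card : ℝ) ≤ ∑ q ∈ T, ((C q).card : ℝ) := by
      exact_mod_cast card_biUnion_le
    have e2 : ∑ q ∈ T, ((C q).card : ℝ) ≤ ∑ q ∈ T, M := by
      refine sum_le_sum fun q hq => ?_
      rw [hT, mem_filter] at hq
      obtain ⟨-, q1, q2, q3, q4, q5, q6⟩ := hq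
      rcases q6 with ⟨g1, g2⟩ | ⟨g1, g2⟩
      · exact h.badC P0 K hP0 hK q.1 q.2.1 q.2.2 q1 q2 q3 g1 g2 q4 q5
      · have := h.badC1 P0 K hP0 hK q.2.2 q4 q5
        simp only [hC]
        rw [g1, g2]
        exact this
    rw [sum_const, nsmul_eq_mul] at e2
    have e3 : (T.card : ℝ) ≤ Fintype.card I ^ 3 := by
      have := card_le_univ T
      rw [Fintype.card_prod, Fintype.card_prod] at this
      have e4 : Fintype.card I * (Fintype.card I * Fintype.card I) = Fintype.card I ^ 3 := by ring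
      rw [e4] at this
      exact_mod_cast this
    exact e1.trans (e2.trans (mul_le_mul_of_nonneg_right e3 hM0))
  have h3 : (((cell lam H i j1 X L k).filter fun w => Gd (tht o) P0 w ∧ ¬ Good (tht o) w).card : ℝ) ≤
      ((T1.biUnion A).card : ℝ) + ((T.biUnion C).card : ℝ) := by
    have := (card_le_card hsub).trans (card_union_le _ _)
    exact_mod_cast this
  calc _ ≤ _ := h3
    _ ≤ Fintype.card I * M + Fintype.card I ^ 3 * M := add_le_add h1 h2
    _ = _ := by ring

open Classical in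
/-- lower bound for the good elements -/
theorem CSz.good_ge (h : CSz lam H i j1 X L Y) (o : I) (P0 K : ℕ) (hP0 : 2 ≤ P0)
    (hPY : ((P0.factorial : ℕ) : ℝ) ≤ Y) (hK : DtK lam H i j1 X L k K) (hn : 5 ≤ Fintype.card I) :
    ((Rs (tht o) P0 i).card * ((1 / (P0.factorial : ℕ) - 1 / Y) ^ 2) ^ (Fintype.card I - 1) -
      (Fintype.card I + Fintype.card I ^ 3) * (256 * 8 ^ Fintype.card I * (1 / P0 + K / Y))) *
        ∏ l, vv lam H i j1 X L l ≤
    (((cell lam H i j1 X L k).filter (Good (tht o))).card : ℝ) := by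
  have h1 := h.bad_le o P0 K (by omega) hK hn
  have h2 : (Rs (tht o) P0 i).card * ((1 / ((P0.factorial : ℕ) : ℝ) - 1 / Y) ^ 2) ^
      (Fintype.card I - 1) * ∏ l, vv lam H i j1 X L l ≤
      (((cell lam H i j1 X L k).filter (Gd (tht o) P0)).card : ℝ) := by
    rw [cell_gd h.hij (tht o) P0 hP0]
    push_cast
    refine le_trans (le_of_eq ?_) (sum_le_sum fun ρ hρ =>
      h.res_ge P0.factorial (Nat.factorial_pos _) hPY ρ ?_)
    · rw [sum_const, nsmul_eq_mul]
      ring
    · rw [Rs, mem_filter, Fintype.mem_piFinset] at hρ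
      have h6 := hρ.1 i
      rw [if_pos rfl, mem_singleton] at h6
      rw [h6]
      simp
  have h3 : (((cell lam H i j1 X L k).filter (Gd (tht o) P0)).card : ℝ) ≤
      (((cell lam H i j1 X L k).filter fun w => Gd (tht o) P0 w ∧ ¬ Good (tht o) w).card : ℝ) +
      (((cell lam H i j1 X L k).filter (Good (tht o))).card : ℝ) := by
    have : (cell lam H i j1 X L k).filter (Gd (tht o) P0) ⊆
        ((cell lam H i j1 X L k).filter fun w => Gd (tht o) P0 w ∧ ¬ Good (tht o) w) ∪
        (cell lam H i j1 X L k).filter (Good (tht o)) := by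
      intro w hw
      rw [mem_filter] at hw
      rw [mem_union, mem_filter, mem_filter]
      by_cases hg : Good (tht o) w
      · exact Or.inr ⟨hw.1, hg⟩
      · exact Or.inl ⟨hw.1, hw.2, hg⟩
    have := (card_le_card this).trans (card_union_le _ _)
    exact_mod_cast this
  rw [sub_mul]
  have e : (Fintype.card I + (Fintype.card I : ℝ) ^ 3) *
      (256 * 8 ^ Fintype.card I * (1 / P0 + K / Y)) * ∏ l, vv lam H i j1 X L l =
      (Fintype.card I + (Fintype.card I : ℝ) ^ 3) *
      (256 * 8 ^ Fintype.card I * (1 / P0 + K / Y) * ∏ l, vv lam H i j1 X L l) := by ring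
  rw [e]
  linarith

end

end Pool.Agent.Y714.MA
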