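import Pool.Agent.Y714.MA.Cgood
import Pool.Agent.Y714.ML.Main

set_option autoImplicit false
set_option linter.unusedSectionVars false
set_option linter.unusedSimpArgs false
set_option linter.unusedVariables false

/-! Configurations which are not in general position: counting. -/

namespace Pool.Agent.Y714.MA

open Finset Pool.Agent.Y714.ML

section

variable {I : Type} [Fintype I] [DecidableEq I]

/-- possible second vectors -/
noncomputable def P2t (τ ρ : ℝ) : Finset (ℤ × ℤ) :=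
  ((Ico (0 : ℤ) ⌊ρ⌋) ×ˢ (Icc (1 : ℤ) ⌊ρ⌋)).filter fun ab => τ * ρ ≤ ab.2

theorem card_P2t {τ ρ : ℝ} (hρ : 0 ≤ ρ) : ((P2t τ ρ).card : ℝ) ≤ ρ ^ 2 := by
  have h0 : 0 ≤ ⌊ρ⌋ := Int.floor_nonneg.2 hρ
  have h1 : (P2t τ ρ).card ≤ ((Ico (0 : ℤ) ⌊ρ⌋) ×ˢ (Icc (1 : ℤ) ⌊ρ⌋)).card := card_filter_le _ _
  rw [card_product, Int.card_Ico, Int.card_Icc] at h1
  have h2 : ((⌊ρ⌋.toNat : ℕ) : ℝ) ≤ ρ := by
    have h3 : ((⌊ρ⌋.toNat : ℤ) : ℝ) = ⌊ρ⌋ := by rw [Int.toNat_of_nonneg h0]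
    have h4 : ((⌊ρ⌋.toNat : ℕ) : ℝ) = ⌊ρ⌋ := by rw [← h3]; norm_cast
    rw [h4]
    exact Int.floor_le ρ
  have h3 : ((P2t τ ρ).card : ℝ) ≤ (⌊ρ⌋.toNat : ℝ) * (⌊ρ⌋.toNat : ℝ) := by
    have : (⌊ρ⌋ - 0).toNat * (⌊ρ⌋ + 1 - 1).toNat = ⌊ρ⌋.toNat * ⌊ρ⌋.toNat := by simp
    rw [this] at h1
    exact_mod_cast h1
  calc ((P2t τ ρ).card : ℝ) ≤ (⌊ρ⌋.toNat : ℝ) * (⌊ρ⌋.toNat : ℝ) := h3
    _ ≤ ρ * ρ := by gcongr
    _ = ρ ^ 2 := by ring

/-- normalised configurations with extra conditions -/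
noncomputable def KD (Λ d r : I → ℝ) (τ : ℝ) (i0 i1 : I) : Finset (I → ℤ × ℤ) :=
  (P2t τ (Λ i0 * Λ i1)).biUnion fun ab => Fintype.piFinset fun k =>
    if k = i0 then {(1, 0)} else if k = i1 then {ab} else
      Q2 ab (d k * (Λ i0 * Λ k)) (r k * (Λ i1 * Λ k))

theorem mem_KD (Λ d r : I → ℝ) (τ : ℝ) (i0 i1 : I) (w : I → ℤ × ℤ)
    (h0 : w i0 = (1, 0)) (h1 : 0 ≤ (w i1).1) (h2 : (w i1).1 < (w i1).2) (h01 : i0 ≠ i1)
    (hle : ((dt (w i0) (w i1)).natAbs : ℝ) ≤ Λ i0 * Λ i1)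
    (hlt : τ * (Λ i0 * Λ i1) ≤ ((dt (w i0) (w i1)).natAbs : ℝ))
    (hd : ∀ k, k ≠ i0 → k ≠ i1 → ((dt (w i0) (w k)).natAbs : ℝ) ≤ d k * (Λ i0 * Λ k))
    (hr : ∀ k, k ≠ i0 → k ≠ i1 → ((dt (w i1) (w k)).natAbs : ℝ) ≤ r k * (Λ i1 * Λ k)) :
    w ∈ KD Λ d r τ i0 i1 := by
  have hdd : ∀ k, dt (w i0) (w k) = (w k).2 := by
    intro k
    rw [h0]
    unfold dt
    simp
  have hb : 0 < (w i1).2 := by omega
  have hb1 : ((w i1).2 : ℝ) ≤ Λ i0 * Λ i1 := by
    rw [hdd i1] at hle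
    have h4 : (((w i1).2.natAbs : ℕ) : ℝ) = |((w i1).2 : ℝ)| := by
      rw [Nat.cast_natAbs]; push_cast; rfl
    rw [h4] at hle
    exact (le_abs_self _).trans hle
  rw [KD, mem_biUnion]
  refine ⟨w i1, ?_, ?_⟩
  · rw [P2t, mem_filter, mem_product, mem_Ico, mem_Icc]
    have h5 : (w i1).2 ≤ ⌊Λ i0 * Λ i1⌋ := Int.le_floor.2 hb1
    refine ⟨⟨⟨h1, by omega⟩, by omega, h5⟩, ?_⟩
    rw [hdd i1] at hlt
    have h4 : (((w i1).2.natAbs : ℕ) : ℝ) = ((w i1).2 : ℝ) := by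
      rw [Nat.cast_natAbs, abs_of_pos hb]
    rw [h4] at hlt
    exact hlt
  · rw [Fintype.mem_piFinset]
    intro k
    by_cases hk0 : k = i0
    · rw [if_pos hk0, hk0, h0]
      exact mem_singleton_self _
    · rw [if_neg hk0]
      by_cases hk1 : k = i1
      · rw [if_pos hk1, hk1]
        exact mem_singleton_self _
      · rw [if_neg hk1]
        refine mem_Q2 hb _ ?_ ?_
        · have h3 := hd k hk0 hk1
          rw [hdd k, Nat.cast_natAbs, Int.cast_abs] at h3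
          exact h3
        · have h3 := hr k hk0 hk1
          rw [Nat.cast_natAbs, Int.cast_abs] at h3
          exact h3

theorem card_KD (Λ d r : I → ℝ) (τ : ℝ) (hΛ : ∀ i, 0 < Λ i) (i0 i1 : I) (h01 : i0 ≠ i1)
    (hτ : 0 < τ) (hd0 : ∀ k, 0 < d k) (hr0 : ∀ k, 0 < r k)
    (hd : ∀ k, k ≠ i0 → 1 ≤ d k * (Λ i0 * Λ k)) (hr : ∀ k, k ≠ i0 → 1 ≤ r k / τ * (Λ k / Λ i0))
    (c : I → ℝ) (hc1 : ∀ k, 1 ≤ c k ∨ (k ≠ i0 ∧ k ≠ i1))
    (hc : ∀ k, k ≠ i0 → k ≠ i1 → 9 * (d k * r k / τ) ≤ c k) :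
    ((KD Λ d r τ i0 i1).card : ℝ) ≤ (∏ i, c i) * ∏ i, Λ i ^ 2 := by
  classical
  have hρ : 0 < Λ i0 * Λ i1 := mul_pos (hΛ _) (hΛ _)
  have hc0 : ∀ k, 0 ≤ c k := by
    intro k
    rcases hc1 k with h | ⟨h1, h2⟩
    · linarith
    · refine le_trans ?_ (hc k h1 h2)
      have := hd0 k
      have := hr0 k
      positivity
  have hstep : ∀ ab ∈ P2t τ (Λ i0 * Λ i1), ((Fintype.piFinset fun k =>
      if k = i0 then {((1 : ℤ), (0 : ℤ))} else if k = i1 then {ab} else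
        Q2 ab (d k * (Λ i0 * Λ k)) (r k * (Λ i1 * Λ k))).card : ℝ) ≤
      ∏ k, (if k = i0 then 1 else if k = i1 then 1 else c k * Λ k ^ 2) := by
    intro ab hab
    rw [P2t, mem_filter, mem_product, mem_Icc] at hab
    have hb : 0 < ab.2 := by omega
    have hb' : (0 : ℝ) < ab.2 := by exact_mod_cast hb
    rw [Fintype.card_piFinset]
    push_cast
    refine prod_le_prod (fun k _ => Nat.cast_nonneg _) fun k _ => ?_
    by_cases hk0 : k = i0
    · rw [if_pos hk0, if_pos hk0]; simp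
    · rw [if_neg hk0, if_neg hk0]
      by_cases hk1 : k = i1
      · rw [if_pos hk1, if_pos hk1]; simp
      · rw [if_neg hk1, if_neg hk1]
        have hdk := hd0 k
        have hrk := hr0 k
        have hΛk := hΛ k
        have hΛ0 := hΛ i0
        have hΛ1 := hΛ i1
        refine (card_Q2 hb (mul_pos hdk (mul_pos hΛ0 hΛk)).le
          (mul_pos hrk (mul_pos hΛ1 hΛk)).le).trans ?_
        have e1 : 2 * (d k * (Λ i0 * Λ k)) + 1 ≤ 3 * (d k * (Λ i0 * Λ k)) := by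
          have := hd k hk0
          linarith
        have e2 : 2 * (r k * (Λ i1 * Λ k)) / ab.2 + 1 ≤ 3 * (r k / τ * (Λ k / Λ i0)) := by
          have h3 : 2 * (r k * (Λ i1 * Λ k)) / ab.2 ≤ 2 * (r k / τ * (Λ k / Λ i0)) := by
            rw [div_le_iff₀ hb']
            have h4 := hab.2
            have h5 : 2 * (r k / τ * (Λ k / Λ i0)) * (τ * (Λ i0 * Λ i1)) ≤
                2 * (r k / τ * (Λ k / Λ i0)) * ab.2 :=
              mul_le_mul_of_nonneg_left h4 (by positivity)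
            have h6 : 2 * (r k / τ * (Λ k / Λ i0)) * (τ * (Λ i0 * Λ i1)) =
                2 * (r k * (Λ i1 * Λ k)) := by
              field_simp
            linarith
          have h4 := hr k hk0
          linarith
        have h7 : 0 ≤ 2 * (r k * (Λ i1 * Λ k)) / ab.2 + 1 := by positivity
        have h8 : 0 ≤ 3 * (d k * (Λ i0 * Λ k)) := by positivity
        calc (2 * (d k * (Λ i0 * Λ k)) + 1) * (2 * (r k * (Λ i1 * Λ k)) / ab.2 + 1)
            ≤ (3 * (d k * (Λ i0 * Λ k))) * (3 * (r k / τ * (Λ k / Λ i0))) := mul_le_mul e1 e2 h7 h8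
          _ = 9 * (d k * r k / τ) * Λ k ^ 2 := by
            field_simp
            ring
          _ ≤ c k * Λ k ^ 2 := mul_le_mul_of_nonneg_right (hc k hk0 hk1) (by positivity)
  have h1 : ((KD Λ d r τ i0 i1).card : ℝ) ≤ ∑ ab ∈ P2t τ (Λ i0 * Λ i1),
      ∏ k, (if k = i0 then 1 else if k = i1 then 1 else c k * Λ k ^ 2) := by
    have h2 : ((KD Λ d r τ i0 i1).card : ℝ) ≤ ∑ ab ∈ P2t τ (Λ i0 * Λ i1), ((Fintype.piFinset fun k =>
      if k = i0 then {((1 : ℤ), (0 : ℤ))} else if k = i1 then {ab} else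
        Q2 ab (d k * (Λ i0 * Λ k)) (r k * (Λ i1 * Λ k))).card : ℝ) := by
      unfold KD
      exact_mod_cast card_biUnion_le
    exact h2.trans (sum_le_sum hstep)
  rw [sum_const, nsmul_eq_mul] at h1
  have hnn : 0 ≤ ∏ k, (if k = i0 then 1 else if k = i1 then 1 else c k * Λ k ^ 2) := by
    refine prod_nonneg fun k _ => ?_
    split_ifs
    · exact zero_le_one
    · exact zero_le_one
    · exact mul_nonneg (hc0 k) (sq_nonneg _)
  have h3 : (Λ i0 * Λ i1) ^ 2 *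
      ∏ k, (if k = i0 then 1 else if k = i1 then 1 else c k * Λ k ^ 2) =
      ∏ k, (if k = i0 then Λ k ^ 2 else if k = i1 then Λ k ^ 2 else c k * Λ k ^ 2) := by
    have e1 : Λ i0 ^ 2 = ∏ k, (if k = i0 then Λ k ^ 2 else 1) := by
      rw [Finset.prod_ite_eq' univ i0 (fun k => Λ k ^ 2)]
      simp
    have e2 : Λ i1 ^ 2 = ∏ k, (if k = i1 then Λ k ^ 2 else 1) := by
      rw [Finset.prod_ite_eq' univ i1 (fun k => Λ k ^ 2)]
      simp
    rw [mul_pow, e1, e2, ← prod_mul_distrib, ← prod_mul_distrib]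
    refine prod_congr rfl fun k _ => ?_
    by_cases hk0 : k = i0
    · have hk1 : k ≠ i1 := fun h => h01 (hk0.symm.trans h)
      simp [hk0, h01]
    · by_cases hk1 : k = i1
      · simp [hk1, Ne.symm h01]
      · simp [hk0, hk1]
  have h4 : ∏ k, (if k = i0 then Λ k ^ 2 else if k = i1 then Λ k ^ 2 else c k * Λ k ^ 2) ≤
      ∏ k, c k * Λ k ^ 2 := by
    refine prod_le_prod (fun k _ => ?_) fun k _ => ?_
    · have := hc0 k
      split_ifs <;> positivity
    · have h5 : 0 < Λ k ^ 2 := pow_pos (hΛ k) 2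
      have h6 : (k = i0 ∨ k = i1) → 1 ≤ c k := by
        intro g
        rcases hc1 k with h | ⟨g1, g2⟩
        · exact h
        · rcases g with g | g
          · exact absurd g g1
          · exact absurd g g2
      split_ifs with g1 g2
      · nlinarith [h6 (Or.inl g1)]
      · nlinarith [h6 (Or.inr g2)]
      · exact le_refl _
  calc ((KD Λ d r τ i0 i1).card : ℝ) ≤ ((P2t τ (Λ i0 * Λ i1)).card : ℝ) *
        ∏ k, (if k = i0 then 1 else if k = i1 then 1 else c k * Λ k ^ 2) := h1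
    _ ≤ (Λ i0 * Λ i1) ^ 2 *
        ∏ k, (if k = i0 then 1 else if k = i1 then 1 else c k * Λ k ^ 2) :=
        mul_le_mul_of_nonneg_right (card_P2t hρ.le) hnn
    _ = _ := h3
    _ ≤ _ := h4
    _ = _ := by rw [prod_mul_distrib]

/-- the first thin set: one small coordinate -/
noncomputable def KA (Λ : I → ℝ) (ε : ℝ) (i0 i1 k0 : I) : Finset (I → ℤ × ℤ) :=
  KD Λ (fun k => if k = k0 then ε else 1) (fun _ => 1) (1 / 2) i0 i1

/-- the second thin set: two close points -/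
noncomputable def KB (Λ : I → ℝ) (ε : ℝ) (i0 i1 k0 : I) : Finset (I → ℤ × ℤ) :=
  KD Λ (fun _ => 1) (fun k => if k = k0 then ε ^ (Fintype.card I + 1) else 1) ε i0 i1

theorem prod_one_ite (ε : ℝ) (k0 : I) : ∏ k : I, (if k = k0 then ε else 1) = ε := by
  rw [Finset.prod_ite_eq' univ k0 (fun _ => ε)]
  simp

theorem card_KA (Λ : I → ℝ) (hΛ : ∀ i, 0 < Λ i) (ε : ℝ) (hε : 0 < ε) (hε1 : ε ≤ 1) (i0 i1 k0 : I)
    (h01 : i0 ≠ i1) (hk0 : k0 ≠ i0) (hk1 : k0 ≠ i1) (hmin : ∀ k, Λ i0 ≤ Λ k)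
    (hd : ∀ k, k ≠ i0 → 1 ≤ ε * (Λ i0 * Λ k)) :
    ((KA Λ ε i0 i1 k0).card : ℝ) ≤ 18 ^ Fintype.card I * ε * ∏ i, Λ i ^ 2 := by
  have h1 := card_KD Λ (fun k => if k = k0 then ε else 1) (fun _ => 1) (1 / 2) hΛ i0 i1 h01
    (by norm_num) (fun k => by split_ifs <;> positivity) (fun _ => one_pos)
    (fun k hk => by
      split_ifs
      · exact hd k hk
      · have e1 := hd k hk
        have e2 : 0 < Λ i0 * Λ k := mul_pos (hΛ _) (hΛ _)
        nlinarith)
    (fun k hk => by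
      have e1 : 1 ≤ Λ k / Λ i0 := (one_le_div (hΛ i0)).2 (hmin k)
      linarith)
    (fun k => 18 * (if k = k0 then ε else 1))
    (fun k => by
      by_cases h : k = k0
      · right
        rw [h]
        exact ⟨hk0, hk1⟩
      · left
        rw [if_neg h]
        norm_num)
    (fun k _ _ => by
      split_ifs <;> linarith)
  rw [prod_mul_distrib, prod_one_ite, prod_const, Finset.card_univ] at h1
  exact h1

theorem card_KB (Λ : I → ℝ) (hΛ : ∀ i, 0 < Λ i) (ε : ℝ) (hε : 0 < ε) (hε1 : ε ≤ 1) (i0 i1 k0 : I)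
    (h01 : i0 ≠ i1) (hk0 : k0 ≠ i0) (hk1 : k0 ≠ i1) (hone : ∀ k, k ≠ i0 → 1 ≤ Λ i0 * Λ k)
    (hr : ∀ k, k ≠ i0 → 1 ≤ ε ^ Fintype.card I * (Λ k / Λ i0)) :
    ((KB Λ ε i0 i1 k0).card : ℝ) ≤ 18 ^ Fintype.card I * ε * ∏ i, Λ i ^ 2 := by
  set n := Fintype.card I with hn
  have hεn : ε ^ n ≤ 1 := pow_le_one₀ hε.le hε1
  have hεn0 : 0 < ε ^ n := pow_pos hε n
  have h1 := card_KD Λ (fun _ => 1) (fun k => if k = k0 then ε ^ (n + 1) else 1) ε hΛ i0 i1 h01
    hε (fun _ => one_pos) (fun k => by split_ifs <;> positivity)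
    (fun k hk => by
      have e1 := hone k hk
      linarith)
    (fun k hk => by
      have e1 := hr k hk
      have e2 : 0 < Λ k / Λ i0 := div_pos (hΛ _) (hΛ _)
      have e3 : 1 ≤ 1 / ε := (one_le_div hε).2 hε1
      split_ifs
      · have : ε ^ (n + 1) / ε = ε ^ n := by
          rw [pow_succ]; field_simp
        rw [this]
        exact e1
      · have e4 : 1 ≤ Λ k / Λ i0 := by nlinarith
        nlinarith)
    (fun k => 9 / ε * (if k = k0 then ε ^ (n + 1) else 1))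
    (fun k => by
      by_cases h : k = k0
      · right
        rw [h]
        exact ⟨hk0, hk1⟩
      · left
        rw [if_neg h, mul_one, le_div_iff₀ hε]
        linarith)
    (fun k _ _ => by
      split_ifs
      · apply le_of_eq; ring
      · apply le_of_eq; ring)
  rw [prod_mul_distrib, prod_one_ite, prod_const, Finset.card_univ, ← hn] at h1
  have h2 : (9 / ε) ^ n * ε ^ (n + 1) = 9 ^ n * ε := by
    rw [div_pow, pow_succ]
    field_simp
  rw [h2] at h1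
  refine h1.trans ?_
  have h3 : 0 ≤ ∏ i, Λ i ^ 2 := prod_nonneg fun i _ => sq_nonneg _
  have h4 : (9 : ℝ) ^ n ≤ 18 ^ n := pow_le_pow_left₀ (by norm_num) (by norm_num) n
  gcongr

/-! ### exponents -/

/-- exponent vectors on which a linear form is small -/
theorem card_sparse (κ M : ℕ) (i j : I) (hij : i ≠ j) (hcard : 3 ≤ Fintype.card I) (s : ℤ) :
    ((ZZ I κ).filter fun ζ => 0 ≤ ζ j + s * ζ i ∧ ζ j + s * ζ i < M).card ≤
      M * (2 * κ + 1) ^ (Fintype.card I - 2) := by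
  classical
  obtain ⟨k0, hk0⟩ : ∃ k0, k0 ≠ i ∧ k0 ≠ j := by
    by_contra hc
    push Not at hc
    have h1 : (univ : Finset I) ⊆ {i, j} := by
      intro k _
      rw [mem_insert, mem_singleton]
      by_cases h : k = i
      · exact Or.inl h
      · exact Or.inr (hc k h)
    have h2 := card_le_card h1
    rw [Finset.card_univ] at h2
    have h3 := card_le_two (a := i) (b := j)
    omega
  set S : Finset (ℤ × (I → ℤ)) := (Ico (0 : ℤ) M) ×ˢ Fintype.piFinset fun l : I =>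
    if l = j then {0} else if l = k0 then {0} else Icc (-(κ : ℤ)) κ with hS
  have h1 : ((ZZ I κ).filter fun ζ => 0 ≤ ζ j + s * ζ i ∧ ζ j + s * ζ i < M).card ≤ S.card := by
    refine card_le_card_of_injOn (fun ζ => (ζ j + s * ζ i, fun l => if l = j then 0 else
      if l = k0 then 0 else ζ l)) ?_ ?_
    · intro ζ hζ
      rw [mem_coe, mem_filter, ZZ, mem_filter, Fintype.mem_piFinset] at hζ
      rw [mem_coe, hS, mem_product, mem_Ico, Fintype.mem_piFinset]
      refine ⟨hζ.2, fun l => ?_⟩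
      simp only
      split_ifs
      · exact mem_singleton_self _
      · exact mem_singleton_self _
      · exact hζ.1.1 l
    · intro ζ hζ ζ' hζ' h
      rw [mem_coe, mem_filter, ZZ, mem_filter] at hζ hζ'
      rw [Prod.mk.injEq] at h
      obtain ⟨h2, h3⟩ := h
      have h4 : ∀ l, l ≠ j → l ≠ k0 → ζ l = ζ' l := by
        intro l hl1 hl2
        have := congrFun h3 l
        simp only [if_neg hl1, if_neg hl2] at this
        exact this
      have h5 := h4 i hij hk0.1.symm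
      have h6 : ζ j = ζ' j := by rw [h5] at h2; omega
      have h7 : ζ k0 = ζ' k0 := by
        have e1 := add_sum_erase univ ζ (mem_univ k0)
        have e2 := add_sum_erase univ ζ' (mem_univ k0)
        have e3 : ∑ l ∈ univ.erase k0, ζ l = ∑ l ∈ univ.erase k0, ζ' l := by
          refine sum_congr rfl fun l hl => ?_
          by_cases hlj : l = j
          · rw [hlj]; exact h6
          · exact h4 l hlj (ne_of_mem_erase hl)
        have e4 := hζ.1.2
        have e5 := hζ'.1.2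
        omega
      funext l
      by_cases hlj : l = j
      · rw [hlj]; exact h6
      · by_cases hlk : l = k0
        · rw [hlk]; exact h7
        · exact h4 l hlj hlk
  refine h1.trans (le_of_eq ?_)
  rw [hS, card_product, Int.card_Ico, Fintype.card_piFinset]
  have h2 : ∏ l : I, (if l = j then ({0} : Finset ℤ) else if l = k0 then {0} else
      Icc (-(κ : ℤ)) κ).card = (2 * κ + 1) ^ (Fintype.card I - 2) := by
    rw [← mul_prod_erase univ _ (mem_univ j),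
      ← mul_prod_erase (univ.erase j) _ (mem_erase.2 ⟨hk0.2, mem_univ k0⟩)]
    rw [if_pos rfl, if_neg hk0.2, if_pos rfl, card_singleton, one_mul, one_mul]
    have h3 : ∀ l ∈ (univ.erase j).erase k0, (if l = j then ({0} : Finset ℤ) else
        if l = k0 then {0} else Icc (-(κ : ℤ)) κ).card = 2 * κ + 1 := by
      intro l hl
      rw [mem_erase, mem_erase] at hl
      rw [if_neg hl.2.1, if_neg hl.1, Int.card_Icc]
      omega
    rw [prod_congr rfl h3, prod_const, card_erase_of_mem (mem_erase.2 ⟨hk0.2, mem_univ k0⟩),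
      card_erase_of_mem (mem_univ j), Finset.card_univ]
    rfl
  rw [h2]
  simp

/-- unions over exponent vectors -/
theorem card_UZ {X : Type} [DecidableEq X] (g : (I → ℤ × ℤ) → X) (K Z : ℕ) (A : ℝ) (hA : 0 ≤ A)
    (Zs : ℕ → Finset (I → ℤ)) (F : (I → ℤ) → Finset (I → ℤ × ℤ))
    (hZ : ∀ κ ≤ K, (Zs κ).card ≤ Z) (hF : ∀ κ ≤ K, ∀ ζ ∈ Zs κ, ((F ζ).card : ℝ) ≤ A * 2 ^ κ) :
    (((range (K + 1)).biUnion fun κ => (Zs κ).biUnion fun ζ => (F ζ).image g).card : ℝ) ≤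
      2 * Z * A * 2 ^ K := by
  classical
  have h1 : ∀ κ ∈ range (K + 1), (((Zs κ).biUnion fun ζ => (F ζ).image g).card : ℝ) ≤
      Z * (A * 2 ^ κ) := by
    intro κ hκ
    rw [mem_range] at hκ
    have h2 : (((Zs κ).biUnion fun ζ => (F ζ).image g).card : ℝ) ≤
        ∑ ζ ∈ Zs κ, (((F ζ).image g).card : ℝ) := by exact_mod_cast card_biUnion_le
    have h3 : ∑ ζ ∈ Zs κ, (((F ζ).image g).card : ℝ) ≤ ∑ ζ ∈ Zs κ, A * 2 ^ κ := by
      refine sum_le_sum fun ζ hζ => ?_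
      refine le_trans ?_ (hF κ (by omega) ζ hζ)
      exact_mod_cast card_image_le
    rw [sum_const, nsmul_eq_mul] at h3
    have h4 : ((Zs κ).card : ℝ) ≤ Z := by exact_mod_cast hZ κ (by omega)
    exact (h2.trans h3).trans (mul_le_mul_of_nonneg_right h4 (by positivity))
  have h2 : (((range (K + 1)).biUnion fun κ => (Zs κ).biUnion fun ζ => (F ζ).image g).card : ℝ) ≤
      ∑ κ ∈ range (K + 1), (((Zs κ).biUnion fun ζ => (F ζ).image g).card : ℝ) := by
    exact_mod_cast card_biUnion_le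
  refine (h2.trans (sum_le_sum h1)).trans ?_
  rw [← mul_sum, ← mul_sum]
  have h5 : ∑ κ ∈ range (K + 1), (2 : ℝ) ^ κ ≤ 2 * 2 ^ K := by
    have h6 := geom_sum_eq (x := (2 : ℝ)) (by norm_num) (K + 1)
    rw [h6]
    rw [pow_succ]
    norm_num
    linarith [pow_pos (two_pos (α := ℝ)) K]
  have h6 : (0 : ℝ) ≤ Z := Nat.cast_nonneg Z
  calc (Z : ℝ) * (A * ∑ κ ∈ range (K + 1), (2 : ℝ) ^ κ) ≤ Z * (A * (2 * 2 ^ K)) := by gcongr
    _ = _ := by ring

end

end Pool.Agent.Y714.MA
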