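import Pool.Agent.Y714.MA.Err

set_option autoImplicit false
set_option linter.unusedSectionVars false
set_option linter.unusedSimpArgs false
set_option linter.unusedVariables false

/-! Configurations which are not in general position: the dichotomy. -/

namespace Pool.Agent.Y714.MA

open Finset Pool.Agent.Y714.ML

section

variable {I : Type} [Fintype I] [DecidableEq I]

open Classical in
/-- sparse exponents -/
noncomputable def ZSp (I : Type) [Fintype I] [DecidableEq I] (M κ : ℕ) : Finset (I → ℤ) :=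
  ((univ : Finset (I × I)).filter fun q => q.1 ≠ q.2).biUnion fun q =>
    ((ZZ I κ).filter fun ζ => 0 ≤ ζ q.2 + 1 * ζ q.1 ∧ ζ q.2 + 1 * ζ q.1 < (M : ℤ)) ∪
    ((ZZ I κ).filter fun ζ => 0 ≤ ζ q.2 + (-1) * ζ q.1 ∧ ζ q.2 + (-1) * ζ q.1 < (M : ℤ))

theorem card_ZSp (M κ K : ℕ) (hκ : κ ≤ K) (hcard : 3 ≤ Fintype.card I) :
    (ZSp I M κ).card ≤ Fintype.card I ^ 2 * (2 * (M * (2 * K + 1) ^ (Fintype.card I - 2))) := by
  classical
  have h1 : ∀ q ∈ ((univ : Finset (I × I)).filter fun q => q.1 ≠ q.2),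
      (((ZZ I κ).filter fun ζ => 0 ≤ ζ q.2 + 1 * ζ q.1 ∧ ζ q.2 + 1 * ζ q.1 < (M : ℤ)) ∪
    ((ZZ I κ).filter fun ζ => 0 ≤ ζ q.2 + (-1) * ζ q.1 ∧ ζ q.2 + (-1) * ζ q.1 < (M : ℤ))).card ≤
      2 * (M * (2 * K + 1) ^ (Fintype.card I - 2)) := by
    intro q hq
    rw [mem_filter] at hq
    have e1 := card_sparse κ M q.1 q.2 hq.2 hcard 1
    have e2 := card_sparse κ M q.1 q.2 hq.2 hcard (-1)
    have e3 : M * (2 * κ + 1) ^ (Fintype.card I - 2) ≤ M * (2 * K + 1) ^ (Fintype.card I - 2) :=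
      Nat.mul_le_mul_left _ (Nat.pow_le_pow_left (by omega) _)
    refine (card_union_le _ _).trans ?_
    omega
  unfold ZSp
  refine card_biUnion_le.trans ((sum_le_sum h1).trans ?_)
  rw [sum_const, smul_eq_mul]
  refine Nat.mul_le_mul_right _ ((card_filter_le _ _).trans (le_of_eq ?_))
  rw [Finset.card_univ, Fintype.card_prod, pow_two]

open Classical in
/-- all normalised configurations -/
noncomputable def FS (ζ : I → ℤ) : Finset (I → ℤ × ℤ) :=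
  ((univ : Finset (I × I)).filter fun q => q.1 ≠ q.2 ∧ (∀ k, Lam ζ q.1 ≤ Lam ζ k) ∧
      ∀ k, k ≠ q.1 → 1 ≤ Lam ζ q.1 * Lam ζ k).biUnion fun q => KK (Lam ζ) q.1 q.2

theorem card_FS (κ : ℕ) (ζ : I → ℤ) (hζ : ζ ∈ ZZ I κ) :
    ((FS ζ).card : ℝ) ≤ ((Fintype.card I : ℝ) ^ 2 * 15 ^ Fintype.card I) * 2 ^ κ := by
  classical
  set n := Fintype.card I with hn
  have h1 : ∀ q ∈ ((univ : Finset (I × I)).filter fun q => q.1 ≠ q.2 ∧
      (∀ k, Lam ζ q.1 ≤ Lam ζ k) ∧ ∀ k, k ≠ q.1 → 1 ≤ Lam ζ q.1 * Lam ζ k),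
      ((KK (Lam ζ) q.1 q.2).card : ℝ) ≤ 15 ^ n * 2 ^ κ := by
    intro q hq
    rw [mem_filter] at hq
    have h2 := card_KK (Lam ζ) (Lam_pos ζ) q.1 q.2 hq.2.1 hq.2.2.1 hq.2.2.2
    rw [Lam_prod] at h2
    have h3 : ∑ i, ζ i = (κ : ℤ) := by
      rw [ZZ, mem_filter] at hζ
      exact hζ.2
    rw [h3, zpow_natCast] at h2
    exact h2
  have h3 : ((FS ζ).card : ℝ) ≤
      ∑ q ∈ ((univ : Finset (I × I)).filter fun q => q.1 ≠ q.2 ∧
      (∀ k, Lam ζ q.1 ≤ Lam ζ k) ∧ ∀ k, k ≠ q.1 → 1 ≤ Lam ζ q.1 * Lam ζ k),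
      ((KK (Lam ζ) q.1 q.2).card : ℝ) := by
    unfold FS
    exact_mod_cast card_biUnion_le
  refine (h3.trans (sum_le_sum h1)).trans ?_
  rw [sum_const, nsmul_eq_mul]
  have h4 : ((univ : Finset (I × I)).filter fun q => q.1 ≠ q.2 ∧
      (∀ k, Lam ζ q.1 ≤ Lam ζ k) ∧ ∀ k, k ≠ q.1 → 1 ≤ Lam ζ q.1 * Lam ζ k).card ≤ n ^ 2 := by
    refine (card_filter_le _ _).trans ?_
    rw [Finset.card_univ, Fintype.card_prod, hn, pow_two]
  have h5 : (((univ : Finset (I × I)).filter fun q => q.1 ≠ q.2 ∧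
      (∀ k, Lam ζ q.1 ≤ Lam ζ k) ∧ ∀ k, k ≠ q.1 → 1 ≤ Lam ζ q.1 * Lam ζ k).card : ℝ) ≤ (n : ℝ) ^ 2 := by
    exact_mod_cast h4
  calc _ ≤ (n : ℝ) ^ 2 * (15 ^ n * 2 ^ κ) := mul_le_mul_of_nonneg_right h5 (by positivity)
    _ = _ := by ring

/-- depth -/
def Deep (M : ℕ) (ζ : I → ℤ) (i0 : I) : Prop :=
  ∀ k, k ≠ i0 → (M : ℤ) ≤ ζ i0 + ζ k ∧ (M : ℤ) ≤ ζ k - ζ i0

theorem Deep.mul {M : ℕ} {ζ : I → ℤ} {i0 : I} (h : Deep M ζ i0) (k : I) (hk : k ≠ i0) :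
    Real.sqrt (2 ^ M) ≤ Lam ζ i0 * Lam ζ k := by
  rw [Lam_mul]
  apply Real.sqrt_le_sqrt
  rw [← zpow_natCast]
  exact zpow_le_zpow_right₀ one_le_two (h k hk).1

theorem Deep.div {M : ℕ} {ζ : I → ℤ} {i0 : I} (h : Deep M ζ i0) (k : I) (hk : k ≠ i0) :
    Real.sqrt (2 ^ M) ≤ Lam ζ k / Lam ζ i0 := by
  rw [le_div_iff₀ (Lam_pos ζ i0)]
  unfold Lam
  rw [← Real.sqrt_mul (by positivity)]
  apply Real.sqrt_le_sqrt
  rw [← zpow_natCast, ← zpow_add₀ two_ne_zero]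
  exact zpow_le_zpow_right₀ one_le_two (by have := (h k hk).2; omega)

open Classical in
/-- the thin configurations -/
noncomputable def FD (M : ℕ) (ε : ℝ) (ζ : I → ℤ) : Finset (I → ℤ × ℤ) :=
  ((univ : Finset (I × I × I)).filter fun q => q.1 ≠ q.2.1 ∧ q.2.2 ≠ q.1 ∧ q.2.2 ≠ q.2.1 ∧
    (∀ k, Lam ζ q.1 ≤ Lam ζ k) ∧ Deep M ζ q.1).biUnion fun q =>
      KA (Lam ζ) ε q.1 q.2.1 q.2.2 ∪ KB (Lam ζ) ε q.1 q.2.1 q.2.2

theorem card_FD (M κ : ℕ) (ε : ℝ) (hε : 0 < ε) (hε1 : ε ≤ 1)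
    (hM : 1 ≤ ε ^ (Fintype.card I + 1) * Real.sqrt (2 ^ M)) (ζ : I → ℤ) (hζ : ζ ∈ ZZ I κ) :
    ((FD M ε ζ).card : ℝ) ≤
      ((Fintype.card I : ℝ) ^ 3 * (2 * (18 ^ Fintype.card I * ε))) * 2 ^ κ := by
  classical
  set n := Fintype.card I with hn
  have hs : 0 < Real.sqrt ((2 : ℝ) ^ M) := Real.sqrt_pos.2 (by positivity)
  have hεn : ε ^ n ≤ 1 := pow_le_one₀ hε.le hε1
  have hεn0 : 0 < ε ^ n := pow_pos hε n
  have hM1 : 1 ≤ ε * Real.sqrt (2 ^ M) := by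
    refine hM.trans (mul_le_mul_of_nonneg_right ?_ hs.le)
    rw [pow_succ]
    nlinarith
  have hM2 : 1 ≤ ε ^ n * Real.sqrt (2 ^ M) := by
    refine hM.trans (mul_le_mul_of_nonneg_right ?_ hs.le)
    rw [pow_succ]
    nlinarith
  have hM3 : 1 ≤ Real.sqrt ((2 : ℝ) ^ M) := by nlinarith
  have h1 : ∀ q ∈ ((univ : Finset (I × I × I)).filter fun q => q.1 ≠ q.2.1 ∧ q.2.2 ≠ q.1 ∧
      q.2.2 ≠ q.2.1 ∧ (∀ k, Lam ζ q.1 ≤ Lam ζ k) ∧ Deep M ζ q.1),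
      ((KA (Lam ζ) ε q.1 q.2.1 q.2.2 ∪ KB (Lam ζ) ε q.1 q.2.1 q.2.2).card : ℝ) ≤
        2 * (18 ^ n * ε * 2 ^ κ) := by
    intro q hq
    rw [mem_filter] at hq
    obtain ⟨-, q1, q2, q3, q4, q5⟩ := hq
    have h3 : ∑ i, ζ i = (κ : ℤ) := by
      rw [ZZ, mem_filter] at hζ
      exact hζ.2
    have g1 := card_KA (Lam ζ) (Lam_pos ζ) ε hε hε1 q.1 q.2.1 q.2.2 q1 q2 q3 q4 (fun k hk => by
      have := q5.mul k hk
      exact hM1.trans (mul_le_mul_of_nonneg_left this hε.le))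
    have g2 := card_KB (Lam ζ) (Lam_pos ζ) ε hε hε1 q.1 q.2.1 q.2.2 q1 q2 q3 (fun k hk => by
      have := q5.mul k hk
      linarith) (fun k hk => by
      have := q5.div k hk
      exact hM2.trans (mul_le_mul_of_nonneg_left this hεn0.le))
    rw [Lam_prod, h3, zpow_natCast] at g1 g2
    have g3 : ((KA (Lam ζ) ε q.1 q.2.1 q.2.2 ∪ KB (Lam ζ) ε q.1 q.2.1 q.2.2).card : ℝ) ≤
        ((KA (Lam ζ) ε q.1 q.2.1 q.2.2).card : ℝ) + ((KB (Lam ζ) ε q.1 q.2.1 q.2.2).card : ℝ) := by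
      exact_mod_cast card_union_le _ _
    linarith
  have h3 : ((FD M ε ζ).card : ℝ) ≤ ∑ q ∈ ((univ : Finset (I × I × I)).filter fun q => q.1 ≠ q.2.1 ∧
      q.2.2 ≠ q.1 ∧ q.2.2 ≠ q.2.1 ∧ (∀ k, Lam ζ q.1 ≤ Lam ζ k) ∧ Deep M ζ q.1),
      ((KA (Lam ζ) ε q.1 q.2.1 q.2.2 ∪ KB (Lam ζ) ε q.1 q.2.1 q.2.2).card : ℝ) := by
    unfold FD
    exact_mod_cast card_biUnion_le
  refine (h3.trans (sum_le_sum h1)).trans ?_
  rw [sum_const, nsmul_eq_mul]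
  have h4 : (((univ : Finset (I × I × I)).filter fun q => q.1 ≠ q.2.1 ∧
      q.2.2 ≠ q.1 ∧ q.2.2 ≠ q.2.1 ∧ (∀ k, Lam ζ q.1 ≤ Lam ζ k) ∧ Deep M ζ q.1).card : ℝ) ≤
      (n : ℝ) ^ 3 := by
    have e1 : ((univ : Finset (I × I × I)).filter fun q => q.1 ≠ q.2.1 ∧
      q.2.2 ≠ q.1 ∧ q.2.2 ≠ q.2.1 ∧ (∀ k, Lam ζ q.1 ≤ Lam ζ k) ∧ Deep M ζ q.1).card ≤ n ^ 3 := by
      refine (card_filter_le _ _).trans (le_of_eq ?_)
      rw [Finset.card_univ, Fintype.card_prod, Fintype.card_prod, hn]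
      ring
    exact_mod_cast e1
  calc _ ≤ (n : ℝ) ^ 3 * (2 * (18 ^ n * ε * 2 ^ κ)) := mul_le_mul_of_nonneg_right h4 (by positivity)
    _ = _ := by ring

/-- general position -/
structure Nice (o : I) (M : ℕ) (ε : ℝ) (ζ : I → ℤ) (i0 : I) (v : I → ℤ × ℤ) : Prop where
  good : Good (tht o) v
  h1 : ∀ j k, j ≠ k → ((dt (v j) (v k)).natAbs : ℝ) ≤ Lam ζ j * Lam ζ k
  h2 : ∀ k, k ≠ i0 → ε * (Lam ζ i0 * Lam ζ k) ≤ ((dt (v i0) (v k)).natAbs : ℝ)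
  h3 : ∀ j k, j ≠ k → j ≠ i0 → k ≠ i0 →
    ε ^ (Fintype.card I + 1) * (Lam ζ j * Lam ζ k) ≤ ((dt (v j) (v k)).natAbs : ℝ)
  h4 : Deep M ζ i0
  h5 : ∀ j k, j ≠ k → dt (v j) (v k) ≠ 0

/-- the exceptional set -/
noncomputable def BX {X : Type} [DecidableEq X] (g : (I → ℤ × ℤ) → X) (K M : ℕ) (ε : ℝ) : Finset X :=
  ((range (K + 1)).biUnion fun κ => (ZSp I M κ).biUnion fun ζ => (FS ζ).image g) ∪
  ((range (K + 1)).biUnion fun κ => (ZZ I κ).biUnion fun ζ => (FD M ε ζ).image g)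

theorem dichotomy {X : Type} [DecidableEq X] (U : Set X) (x : X → I → ℚ × ℚ)
    (hx : ∀ t ∈ U, ∀ i j, i ≠ j → detQ (x t i) (x t j) ≠ 0) (g : (I → ℤ × ℤ) → X)
    (hg : ∀ t ∈ U, ∀ w, Rep (x t) w → g w = t) (hcard : 5 ≤ Fintype.card I) (o : I) (M K : ℕ)
    (ε : ℝ) (hε : 0 < ε) (hε2 : ε ≤ 1 / 2)
    (hM : 1 ≤ ε ^ (Fintype.card I + 1) * Real.sqrt (2 ^ M)) (t : X) (ht : t ∈ U)
    (hT : 2 ^ Fintype.card I * hgt (fun _ => 2) (x t) < 2 ^ (K + 1)) :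
    t ∈ BX g K M ε ∨ ∃ (ζ : I → ℤ) (i0 : I) (v : I → ℤ × ℤ), Rep (x t) v ∧ Nice o M ε ζ i0 v := by
  classical
  obtain ⟨v, hrep, hco, hst⟩ := exists_stb (x t) (hx t ht) (by omega) (tht o) (fun i => by
    rw [tht_sum]
    unfold tht
    split_ifs <;> omega) (by rw [tht_sum]; omega)
  have hne := hrep.dt_ne (hx t ht)
  have : Fintype (Mon fun _ : I => 2 * 1) := Fintype.ofFinite _
  have hgcd := gcd_monZ (fun _ : I => 1) (fun S hS => by simpa using hS) (v := v)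
    (fun p hp i => hst.card_le (tht_ge o) (tht_sum o) p hp i)
  obtain ⟨ζ, h1, h2, h3⟩ := exists_dual (fun _ : I => 1) (fun _ => one_pos) (fun i => by simp; omega)
    v hne _ (fun σ => le_hgt (fun _ => 1) hrep hgcd σ)
  have hI : Nonempty I := Fintype.card_pos_iff.1 (by omega)
  obtain ⟨i0, -, hi0⟩ := exists_min_image (univ : Finset I) ζ univ_nonempty
  obtain ⟨i1, h01, h4⟩ := h2 i0
  have hpair : ∀ i k, i ≠ k → 0 ≤ ζ i + ζ k := fun i k hik => by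
    have h5 := h1 i k hik
    have h6 := wt_nonneg v i k
    omega
  have hone : ∀ k, k ≠ i0 → 1 ≤ Lam ζ i0 * Lam ζ k := by
    intro k hk
    rw [Lam_mul, Real.one_le_sqrt]
    exact one_le_zpow₀ one_le_two (hpair i0 k (Ne.symm hk))
  have hmin : ∀ k, Lam ζ i0 ≤ Lam ζ k := fun k =>
    Real.sqrt_le_sqrt (zpow_le_zpow_right₀ one_le_two (hi0 k (mem_univ k)))
  have hle : ∀ i k, i ≠ k → ((dt (v i) (v k)).natAbs : ℝ) ≤ Lam ζ i * Lam ζ k := by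
    intro i k hik
    rw [Lam_mul]
    have h5 : ((dt (v i) (v k)).natAbs : ℝ) ≤ 2 ^ wt v i k := by
      unfold wt
      rw [zpow_natCast]
      exact_mod_cast Nat.le_pow_clog one_lt_two _
    refine h5.trans ?_
    rw [← sqrt_two_zpow]
    exact Real.sqrt_le_sqrt (zpow_le_zpow_right₀ one_le_two (h1 i k hik))
  have hlt : Lam ζ i0 * Lam ζ i1 < 2 * ((dt (v i0) (v i1)).natAbs : ℝ) := by
    rw [Lam_mul, h4, sqrt_two_zpow]
    unfold wt
    rw [zpow_natCast]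
    exact_mod_cast two_pow_clog_lt _ (Int.natAbs_pos.2 (hne i0 i1 h01))
  obtain ⟨κ, hκ, hζ⟩ := mem_ZZ (by omega) ζ hpair
  have hκK : κ ≤ K := by
    have e1 : ∑ i, (((fun _ : I => 1) i : ℕ) : ℤ) * ζ i = (κ : ℤ) := by
      rw [← hκ]
      exact sum_congr rfl fun i _ => by simp
    rw [e1, zpow_natCast] at h3
    have e2 : ∑ i : I, (fun _ : I => 1) i = Fintype.card I := by simp
    rw [e2] at h3
    have e3 : (2 : ℝ) ^ κ < 2 ^ (K + 1) := lt_of_le_of_lt h3 hT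
    have e4 := (pow_lt_pow_iff_right₀ (one_lt_two (α := ℝ))).1 e3
    omega
  by_cases hdeep : Deep M ζ i0
  · by_cases hA : ∃ k, k ≠ i0 ∧ ((dt (v i0) (v k)).natAbs : ℝ) < ε * (Lam ζ i0 * Lam ζ k)
    · -- thin, first kind
      obtain ⟨k0, hk0, hk0'⟩ := hA
      have hk1 : k0 ≠ i1 := by
        rintro rfl
        have e1 : 0 < Lam ζ i0 * Lam ζ k0 := mul_pos (Lam_pos _ _) (Lam_pos _ _)
        nlinarith
      obtain ⟨w, hw, hw0, hw1, hw2, hw3⟩ := exists_normal hrep i0 i1 (hco i0) (hne i0 i1 h01)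
      left
      rw [← hg t ht w hw]
      refine mem_union_right _ (mem_biUnion.2 ⟨κ, mem_range.2 (by omega), mem_biUnion.2 ⟨ζ, hζ,
        mem_image.2 ⟨w, ?_, rfl⟩⟩⟩)
      unfold FD
      refine mem_biUnion.2 ⟨(i0, i1, k0), mem_filter.2 ⟨mem_univ _, h01, hk0, hk1, hmin, hdeep⟩,
        mem_union_left _ ?_⟩
      refine mem_KD _ _ _ _ i0 i1 w hw0 hw1 hw2 h01 ?_ ?_ ?_ ?_
      · rw [hw3]; exact hle _ _ h01
      · rw [hw3]; linarith
      · intro k hk hk'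
        rw [hw3]
        simp only
        split_ifs with h6
        · rw [h6]; exact hk0'.le
        · rw [one_mul]; exact hle _ _ hk.symm
      · intro k hk hk'
        rw [hw3, one_mul]
        exact hle _ _ hk'.symm
    · push Not at hA
      by_cases hB : ∃ j k, j ≠ k ∧ j ≠ i0 ∧ k ≠ i0 ∧
          ((dt (v j) (v k)).natAbs : ℝ) < ε ^ (Fintype.card I + 1) * (Lam ζ j * Lam ζ k)
      · -- thin, second kind
        obtain ⟨j, k0, hjk, hj, hk0, hlt'⟩ := hB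
        obtain ⟨w, hw, hw0, hw1, hw2, hw3⟩ := exists_normal hrep i0 j (hco i0) (hne i0 j hj.symm)
        left
        rw [← hg t ht w hw]
        refine mem_union_right _ (mem_biUnion.2 ⟨κ, mem_range.2 (by omega), mem_biUnion.2 ⟨ζ, hζ,
          mem_image.2 ⟨w, ?_, rfl⟩⟩⟩)
        unfold FD
        refine mem_biUnion.2 ⟨(i0, j, k0), mem_filter.2 ⟨mem_univ _, hj.symm, hk0, hjk.symm, hmin,
          hdeep⟩, mem_union_right _ ?_⟩
        refine mem_KD _ _ _ _ i0 j w hw0 hw1 hw2 hj.symm ?_ ?_ ?_ ?_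
        · rw [hw3]; exact hle _ _ hj.symm
        · rw [hw3]; exact hA j hj
        · intro k hk hk'
          rw [hw3, one_mul]
          exact hle _ _ hk.symm
        · intro k hk hk'
          rw [hw3]
          simp only
          split_ifs with h6
          · rw [h6]; exact hlt'.le
          · rw [one_mul]; exact hle _ _ hk'.symm
      · push Not at hB
        right
        exact ⟨ζ, i0, v, hrep, ⟨⟨hco, hst⟩, hle, hA, fun j k h6 h7 h8 => hB j k h6 h7 h8, hdeep, hne⟩⟩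
  · -- sparse
    unfold Deep at hdeep
    push Not at hdeep
    obtain ⟨k, hk, hk'⟩ := hdeep
    obtain ⟨w, hw, hw0, hw1, hw2, hw3⟩ := exists_normal hrep i0 i1 (hco i0) (hne i0 i1 h01)
    left
    rw [← hg t ht w hw]
    have hζ' : ζ ∈ ZSp I M κ := by
      unfold ZSp
      refine mem_biUnion.2 ⟨(i0, k), mem_filter.2 ⟨mem_univ _, hk.symm⟩, ?_⟩
      have e1 := hpair i0 k hk.symm
      have e2 := hi0 k (mem_univ k)
      by_cases h7 : (M : ℤ) ≤ ζ i0 + ζ k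
      · have h8 := hk' h7
        refine mem_union_right _ (mem_filter.2 ⟨hζ, ?_⟩)
        simp only
        omega
      · refine mem_union_left _ (mem_filter.2 ⟨hζ, ?_⟩)
        simp only
        omega
    refine mem_union_left _ (mem_biUnion.2 ⟨κ, mem_range.2 (by omega), mem_biUnion.2 ⟨ζ, hζ',
      mem_image.2 ⟨w, ?_, rfl⟩⟩⟩)
    unfold FS
    refine mem_biUnion.2 ⟨(i0, i1), mem_filter.2 ⟨mem_univ _, h01, hmin, hone⟩, ?_⟩
    refine mem_KK _ i0 i1 w hw0 hw1 hw2 h01 ?_ ?_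
    · intro i k hik
      rw [hw3]
      exact hle i k hik
    · rw [hw3]
      exact hlt

theorem card_BX {X : Type} [DecidableEq X] (g : (I → ℤ × ℤ) → X) (K M : ℕ) (ε : ℝ)
    (hcard : 5 ≤ Fintype.card I) (hε : 0 < ε) (hε1 : ε ≤ 1)
    (hM : 1 ≤ ε ^ (Fintype.card I + 1) * Real.sqrt (2 ^ M)) :
    ((BX g K M ε).card : ℝ) ≤
      4 * (Fintype.card I : ℝ) ^ 4 * 15 ^ Fintype.card I * M * (2 * K + 1) ^ (Fintype.card I - 2) *
        2 ^ K +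
      4 * (Fintype.card I : ℝ) ^ 3 * 18 ^ Fintype.card I * ε * (2 * K + 1) ^ (Fintype.card I - 1) *
        2 ^ K := by
  classical
  have hI : Nonempty I := Fintype.card_pos_iff.1 (by omega)
  set n := Fintype.card I with hn
  have h1 := card_UZ g K (n ^ 2 * (2 * (M * (2 * K + 1) ^ (n - 2)))) ((n : ℝ) ^ 2 * 15 ^ n)
    (by positivity) (ZSp I M) FS (fun κ hκ => card_ZSp M κ K hκ (by omega)) (fun κ _ ζ hζ => by
      refine card_FS κ ζ ?_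
      unfold ZSp at hζ
      rw [mem_biUnion] at hζ
      obtain ⟨q, -, hq⟩ := hζ
      rw [mem_union, mem_filter, mem_filter] at hq
      rcases hq with hq | hq
      · exact hq.1
      · exact hq.1)
  have h2 := card_UZ g K ((2 * K + 1) ^ (n - 1)) ((n : ℝ) ^ 3 * (2 * (18 ^ n * ε)))
    (by positivity) (ZZ I) (FD M ε)
    (fun κ hκ => (card_ZZ κ).trans (Nat.pow_le_pow_left (by omega) _))
    (fun κ _ ζ hζ => card_FD M κ ε hε hε1 hM ζ hζ)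
  have h3 : ((BX g K M ε).card : ℝ) ≤
      (((range (K + 1)).biUnion fun κ => (ZSp I M κ).biUnion fun ζ => (FS ζ).image g).card : ℝ) +
      (((range (K + 1)).biUnion fun κ => (ZZ I κ).biUnion fun ζ => (FD M ε ζ).image g).card : ℝ) := by
    unfold BX
    exact_mod_cast card_union_le _ _
  refine h3.trans ((add_le_add h1 h2).trans (le_of_eq ?_))
  push_cast
  ring

end

end Pool.Agent.Y714.MA
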