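import Pool.Agent.Y714.MA.Lim4
import Pool.Agent.Y714.ML.Open

set_option autoImplicit false
set_option linter.unusedSectionVars false
set_option linter.unusedSimpArgs false
set_option linter.unusedVariables false

/-! The asymptotic formula for the configurations `∞, 0, 1, t_1, ..., t_N`. -/

namespace Pool.Agent.Y714.MA

open Finset Filter Topology Pool.Agent.Y714.ML

/-- the index `j1` -/
def jj1 {N : ℕ} (i : Fin 3 ⊕ Fin N) : Fin 3 ⊕ Fin N := if i = Sum.inl 0 then Sum.inl 1 else Sum.inl 0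

/-- the index `j2` -/
def jj2 {N : ℕ} (i : Fin 3 ⊕ Fin N) : Fin 3 ⊕ Fin N := if i = Sum.inl 2 then Sum.inl 1 else Sum.inl 2

/-- the data -/
def datN (N : ℕ) (hN : 2 ≤ N) : Dat (Fin 3 ⊕ Fin N) (Fin N → ℚ) where
  U := UU N
  x := vec
  g := cr
  j1 := jj1
  j2 := jj2
  o := Sum.inl 0
  hx := fun t ht => detQ_vec t ht
  hg := fun t _ w hw => cr_rep t w hw
  hg' := fun w hw => ⟨cr_mem w hw, rep_cr w hw⟩
  h1 := by
    intro i
    unfold jj1
    split_ifs with h
    · rw [h]; simp
    · exact fun h' => h h'.symm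
  h2 := by
    intro i
    unfold jj2
    split_ifs with h
    · rw [h]; simp
    · exact fun h' => h h'.symm
  h12 := by
    intro i
    unfold jj1 jj2
    split_ifs with h h' h'
    · rw [h] at h'; simp at h'
    · simp
    · simp
    · simp
  hn := by
    rw [Fintype.card_sum, Fintype.card_fin, Fintype.card_fin]
    omega

/-- **The asymptotic formula.** -/
theorem asymptotic (N : ℕ) (hN : 2 ≤ N) : ∃ c : ℝ, 0 < c ∧
    Tendsto (fun B : ℝ => ({t ∈ UU N | hgt (fun _ => 2) (vec t) ≤ B}.ncard : ℝ) /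
      (B * Real.log B ^ (N + 2))) atTop (𝓝 c) := by
  classical
  obtain ⟨c, hc⟩ := main_lim (datN N hN)
  have hcard : Fintype.card (Fin 3 ⊕ Fin N) - 1 = N + 2 := by
    rw [Fintype.card_sum, Fintype.card_fin, Fintype.card_fin]
    omega
  have hc' : Tendsto (fun B : ℝ => ({t ∈ UU N | hgt (fun _ => 2) (vec t) ≤ B}.ncard : ℝ) /
      (B * Real.log B ^ (N + 2))) atTop (𝓝 c) := by
    refine hc.congr fun B => ?_
    unfold fB XB
    rw [hcard]
    rfl
  refine ⟨c, ?_, hc'⟩
  obtain ⟨c0, C0, B0, hc0, h⟩ := two_fin N hN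
  refine lt_of_lt_of_le hc0 (ge_of_tendsto hc' ?_)
  filter_upwards [eventually_ge_atTop B0, eventually_gt_atTop 1] with B h1 h2
  have hlog : 0 < Real.log B := Real.log_pos h2
  rw [le_div_iff₀ (by positivity)]
  have := (h B h1).1
  nlinarith

end Pool.Agent.Y714.MA
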