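import Pool.Agent.Y714.MA.Adl2
import Pool.Agent.Y714.MA.Fin

set_option autoImplicit false
set_option linter.unusedSectionVars false
set_option linter.unusedSimpArgs false
set_option linter.unusedVariables false

/-! The asymptotic formula for all adelic heights. -/

namespace Pool.Agent.Y714.MA

open Finset Filter Topology Pool.Agent.Y714.ML

/-- the data with a marked point -/
def datO (N : ℕ) (hN : 2 ≤ N) (o : Fin 3 ⊕ Fin N) : Dat (Fin 3 ⊕ Fin N) (Fin N → ℚ) :=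
  { datN N hN with o := o }

/-- the limit is positive -/
theorem twist_pos (N : ℕ) (hN : 2 ≤ N) (o : Fin 3 ⊕ Fin N) (F : (Fin N → ℚ) → ℝ)
    (h : IsTws (datO N hN o) F) : ∃ c : ℝ, 0 < c ∧
    Tendsto (fun B : ℝ => ({t ∈ UU N | hgt (fun _ => 2) (vec t) * F t ≤ B}.ncard : ℝ) /
      (B * Real.log B ^ (N + 2))) atTop (𝓝 c) := by
  classical
  obtain ⟨c, hc⟩ := mainF_lim (datO N hN o) h.tws
  have hfin : ∀ᶠ B : ℝ in atTop, {t ∈ UU N | hgt (fun _ => 2) (vec t) * F t ≤ B}.Finite :=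
    mainF_fin (datO N hN o) h.tws
  have hcard : Fintype.card (Fin 3 ⊕ Fin N) - 1 = N + 2 := by
    rw [Fintype.card_sum, Fintype.card_fin, Fintype.card_fin]
    omega
  have hc' : Tendsto (fun B : ℝ => ({t ∈ UU N | hgt (fun _ => 2) (vec t) * F t ≤ B}.ncard : ℝ) /
      (B * Real.log B ^ (N + 2))) atTop (𝓝 c) := by
    refine hc.congr fun B => ?_
    unfold fF XB
    rw [hcard]
    rfl
  refine ⟨c, ?_, hc'⟩
  obtain ⟨a, b, ha, hab, -⟩ := h
  obtain ⟨b', hb', hbb'⟩ : ∃ b' : ℝ, 1 ≤ b' ∧ b ≤ b' := ⟨max 1 b, le_max_left _ _, le_max_right _ _⟩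
  obtain ⟨c0, C0, B0, hc0, h⟩ := two_fin N hN
  have hb0 : 0 < b' := by linarith
  refine lt_of_lt_of_le (show 0 < c0 / b' * (1 / 2) ^ (N + 2) by positivity)
    (ge_of_tendsto hc' ?_)
  filter_upwards [eventually_ge_atTop (B0 * b'), eventually_gt_atTop (b' ^ 2), hfin,
    eventually_gt_atTop 1] with B h1 h2 h3 h4
  have hlog : 0 < Real.log B := Real.log_pos h4
  have hB0 : 0 < B := by linarith
  rw [le_div_iff₀ (by positivity)]
  have h5 := (h (B / b') (by rwa [le_div_iff₀ hb0])).1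
  have h6 : Real.log B / 2 ≤ Real.log (B / b') := by
    rw [Real.log_div hB0.ne' hb0.ne']
    have : Real.log (b' ^ 2) ≤ Real.log B := Real.log_le_log (by positivity) h2.le
    rw [Real.log_pow] at this
    push_cast at this
    linarith
  have h7 : {t ∈ UU N | hgt (fun _ => 2) (vec t) ≤ B / b'} ⊆
      {t ∈ UU N | hgt (fun _ => 2) (vec t) * F t ≤ B} := by
    rintro t ⟨ht1, ht2⟩
    refine ⟨ht1, ?_⟩
    rw [le_div_iff₀ hb0] at ht2
    refine le_trans (mul_le_mul_of_nonneg_left ?_ (hgt_nonneg _)) ht2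
    exact (hab t ht1).2.trans hbb'
  have h8 : (({t ∈ UU N | hgt (fun _ => 2) (vec t) ≤ B / b'}.ncard : ℕ) : ℝ) ≤
      ({t ∈ UU N | hgt (fun _ => 2) (vec t) * F t ≤ B}.ncard : ℝ) := by
    exact_mod_cast Set.ncard_le_ncard h7 h3
  refine le_trans ?_ (h5.trans h8)
  calc c0 / b' * (1 / 2) ^ (N + 2) * (B * Real.log B ^ (N + 2)) =
      c0 * (B / b') * (Real.log B / 2) ^ (N + 2) := by
        rw [div_pow, div_pow, one_pow]
        field_simp
    _ ≤ c0 * (B / b') * Real.log (B / b') ^ (N + 2) := by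
        refine mul_le_mul_of_nonneg_left ?_ (by positivity)
        exact pow_le_pow_left₀ (by positivity) h6 _

instance (p : Nat.Primes) : Fact (p : ℕ).Prime := ⟨p.2⟩

/-- **The asymptotic formula for all adelic heights.** -/
theorem asymptoticF (N : ℕ) (hN : 2 ≤ N) (o : Fin 3 ⊕ Fin N) (S : Finset Nat.Primes)
    (φ₀ : (Fin 3 ⊕ Fin N → ℝ × ℝ) → ℝ) (h₀ : IsMet (tht o) φ₀)
    (φ : ∀ p : Nat.Primes, (Fin 3 ⊕ Fin N → ℚ_[p] × ℚ_[p]) → ℝ)
    (h : ∀ p ∈ S, IsMet (tht o) (φ p)) : ∃ c : ℝ, 0 < c ∧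
    Tendsto (fun B : ℝ => ({t ∈ UU N | hgt (fun _ => 2) (vec t) *
      (φ₀ (cQ (vec t)) * ∏ p ∈ S, φ p (cQ (vec t))) ≤ B}.ncard : ℝ) /
      (B * Real.log B ^ (N + 2))) atTop (𝓝 c) := by
  refine twist_pos N hN o _ ?_
  refine IsTws.mul (dd := datO N hN o) (isTws_real (dd := datO N hN o) h₀) ?_
  exact isTws_prod S (fun p t => φ p (cQ (vec t))) fun p hp =>
    isTws_padic (dd := datO N hN o) (h p hp)

end Pool.Agent.Y714.MA
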