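import Pool.Agent.Y714.MA.Cgood

set_option autoImplicit false
set_option linter.unusedSectionVars false
set_option linter.unusedSimpArgs false
set_option linter.unusedVariables false

/-! The geometry of the cells. -/

namespace Pool.Agent.Y714.MA

open Finset Pool.Agent.Y714.ML

/-- the scale -/
def sOf (b : Bool) (σ : ℕ) : ℤ := if b then (σ : ℤ) else -((σ : ℤ) + 1)

/-- the shift of the exponents -/
def dOf (J : ℕ) (b : Bool) (σ : ℕ) : ℕ := if b then 0 else 2 * J * (σ + 1)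

section

variable {I : Type} [Fintype I] [DecidableEq I]

/-- the exponents of a cell -/
def rOf (R0 J : ℕ) (c : Bool × ℕ × (I → ℕ)) (l : I) : ℕ := R0 + dOf J c.1 c.2.1 + c.2.2 l

/-- the weight of a cell -/
def wtOf (J : ℕ) (c : Bool × ℕ × (I → ℕ)) : ℕ :=
  (if c.1 then J * (Fintype.card I - 2) * c.2.1 else J * Fintype.card I * (c.2.1 + 1)) +
    ∑ l, c.2.2 l

/-- the sizes of a cell -/
noncomputable def Xc (lam : ℝ) (R0 J : ℕ) (c : Bool × ℕ × (I → ℕ)) (l : I) : ℝ :=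
  lam ^ rOf R0 J c l

/-- the scale of a cell -/
noncomputable def Lc (c : Bool × ℕ × (I → ℕ)) : ℝ := (4 : ℝ) ^ sOf c.1 c.2.1

/-- the cell -/
noncomputable def cel (lam : ℝ) (H R0 J : ℕ) (i j1 : I) (c : Bool × ℕ × (I → ℕ)) (k : I → ℤ) :
    Finset (I → ℤ × ℤ) := cell lam H i j1 (Xc lam R0 J c) (Lc c) k

/-- the admissible directions -/
def KS (H h D : ℕ) (i j1 j2 : I) (k : I → ℤ) : Prop :=
  k i = 0 ∧ k j1 = 0 ∧ (∀ l, -(H : ℤ) ≤ k l ∧ k l < H) ∧
    (∀ a b, a ≠ i → b ≠ i → a ≠ b → (D : ℤ) ≤ |k a - k b|) ∧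
    (∃ l, ¬ (-(h : ℤ) ≤ k l ∧ k l < h)) ∧ 0 ≤ k j2

variable {lam : ℝ} {H R0 J D : ℕ} {i j1 j2 : I} {c : Bool × ℕ × (I → ℕ)} {k : I → ℤ}

theorem Lc_pos (c : Bool × ℕ × (I → ℕ)) : 0 < Lc c := zpow_pos (by norm_num) _

theorem Xc_pos (hlam : 1 < lam) (l : I) : 0 < Xc lam R0 J c l := pow_pos (by linarith) _

theorem four_eq (hJ : lam ^ J = 2) : (4 : ℝ) = lam ^ (2 * J) := by
  rw [mul_comm, pow_mul, hJ]; norm_num

theorem Xc_ge (hlam : 1 < lam) (l : I) : lam ^ R0 ≤ Xc lam R0 J c l := by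
  unfold Xc rOf
  exact pow_le_pow_right₀ hlam.le (by omega)

theorem XL_ge (hlam : 1 < lam) (hJ : lam ^ J = 2) (l : I) :
    lam ^ R0 ≤ Xc lam R0 J c l * Lc c := by
  obtain ⟨b, σ, r⟩ := c
  unfold Xc rOf Lc
  cases b
  · have e1 : (4 : ℝ) ^ sOf false σ = (lam ^ (2 * J * (σ + 1)))⁻¹ := by
      have : sOf false σ = -((σ + 1 : ℕ) : ℤ) := by simp [sOf]
      rw [this, zpow_neg, zpow_natCast, four_eq hJ, ← pow_mul]
    simp only
    rw [e1]
    have e2 : dOf J false σ = 2 * J * (σ + 1) := by simp [dOf]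
    rw [e2]
    have e3 : lam ^ (R0 + 2 * J * (σ + 1) + r l) = lam ^ (R0 + r l) * lam ^ (2 * J * (σ + 1)) := by
      rw [← pow_add]; congr 1; ring
    have e4 : lam ^ (2 * J * (σ + 1)) ≠ 0 := (pow_pos (by linarith) _).ne'
    rw [e3, mul_assoc, mul_inv_cancel₀ e4, mul_one]
    exact pow_le_pow_right₀ hlam.le (by omega)
  · have e1 : (4 : ℝ) ^ sOf true σ = 4 ^ σ := by
      have : sOf true σ = ((σ : ℕ) : ℤ) := by simp [sOf]
      rw [this, zpow_natCast]
    simp only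
    rw [e1]
    have e2 : (1 : ℝ) ≤ 4 ^ σ := one_le_pow₀ (by norm_num)
    have e3 : lam ^ R0 ≤ lam ^ (R0 + dOf J true σ + r l) := pow_le_pow_right₀ hlam.le (by omega)
    have e4 : 0 < lam ^ R0 := pow_pos (by linarith) _
    nlinarith

theorem rOf_le (hn : 3 ≤ Fintype.card I) (l : I) :
    rOf R0 J c l ≤ (Fintype.card I - 1) * R0 + wtOf J c := by
  obtain ⟨b, σ, r⟩ := c
  unfold rOf wtOf
  have h1 : r l ≤ ∑ l, r l := single_le_sum (f := r) (fun _ _ => Nat.zero_le _) (mem_univ l)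
  have h2 : R0 ≤ (Fintype.card I - 1) * R0 := Nat.le_mul_of_pos_left R0 (by omega)
  cases b
  · simp only [dOf, Bool.false_eq_true, if_false]
    have h3 : 2 * J * (σ + 1) ≤ J * Fintype.card I * (σ + 1) := by
      have : 2 * J ≤ J * Fintype.card I := by
        rw [mul_comm]
        exact Nat.mul_le_mul_left J (by omega)
      exact Nat.mul_le_mul_right _ this
    omega
  · simp only [dOf, if_true]
    omega

theorem Lc_le (hJ0 : 0 < J) (hn : 3 ≤ Fintype.card I) :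
    Lc c ≤ 4 ^ ((Fintype.card I - 1) * R0 + wtOf J c) := by
  obtain ⟨b, σ, r⟩ := c
  unfold Lc wtOf
  rw [← zpow_natCast]
  refine zpow_le_zpow_right₀ (by norm_num) ?_
  cases b
  · simp only [sOf, Bool.false_eq_true, if_false]
    push_cast
    have : (0 : ℤ) ≤ ((Fintype.card I - 1 : ℕ) : ℤ) * R0 := by positivity
    have h2 : (0 : ℤ) ≤ (J : ℤ) * Fintype.card I * (σ + 1) := by positivity
    have h3 : (0 : ℤ) ≤ ∑ l, (r l : ℤ) := sum_nonneg fun l _ => Int.natCast_nonneg _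
    omega
  · simp only [sOf, if_true]
    have h4 : σ ≤ J * (Fintype.card I - 2) * σ := by
      refine Nat.le_mul_of_pos_left σ (Nat.mul_pos hJ0 (by omega))
    have : σ ≤ (Fintype.card I - 1) * R0 + (J * (Fintype.card I - 2) * σ + ∑ l, r l) := by omega
    exact_mod_cast this

/-- the product of the sizes -/
theorem prod_Xc (hlam : 1 < lam) (hJ : lam ^ J = 2) (hn : 3 ≤ Fintype.card I) (hc : c.2.2 i = 0) :
    Lc c ^ (Fintype.card I - 2) * ∏ l ∈ univ.erase i, Xc lam R0 J c l ^ 2 =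
      lam ^ (2 * ((Fintype.card I - 1) * R0 + wtOf J c)) := by
  obtain ⟨b, σ, r⟩ := c
  simp only at hc
  have hlam0 : lam ≠ 0 := by linarith
  set n := Fintype.card I with hnn
  have e1 : ∏ l ∈ univ.erase i, Xc lam R0 J (b, σ, r) l ^ 2 =
      lam ^ (2 * ((n - 1) * (R0 + dOf J b σ) + ∑ l, r l)) := by
    have e2 : ∀ l ∈ univ.erase i, Xc lam R0 J (b, σ, r) l ^ 2 =
        lam ^ (2 * (R0 + dOf J b σ + r l)) := by
      intro l _
      unfold Xc rOf
      rw [← pow_mul]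
      congr 1
      ring
    rw [prod_congr rfl e2, prod_pow_eq_pow_sum, ← mul_sum, sum_add_distrib, sum_const,
      card_erase_of_mem (mem_univ i), Finset.card_univ, smul_eq_mul]
    have e3 : ∑ l ∈ univ.erase i, r l = ∑ l, r l := by
      rw [← add_sum_erase univ r (mem_univ i), hc, zero_add]
    rw [e3]
  have e4 : Lc (b, σ, r) ^ (n - 2) = lam ^ (2 * (J : ℤ) * sOf b σ * ((n - 2 : ℕ) : ℤ)) := by
    unfold Lc
    simp only
    rw [← zpow_natCast, ← zpow_mul, four_eq hJ, ← zpow_natCast, ← zpow_mul]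
    congr 1
    push_cast
    ring
  rw [e1, e4, ← zpow_natCast, ← zpow_natCast, ← zpow_add₀ hlam0]
  congr 1
  have hn2 : ((n - 2 : ℕ) : ℤ) = n - 2 := by omega
  have hn1 : ((n - 1 : ℕ) : ℤ) = n - 1 := by omega
  unfold wtOf
  simp only
  rw [← hnn]
  cases b
  · simp only [sOf, dOf, Bool.false_eq_true, if_false]
    push_cast
    rw [hn2, hn1]
    ring
  · simp only [sOf, dOf, if_true]
    push_cast
    rw [hn2, hn1]
    ring

/-- the volume of a cell -/
theorem prod_vv (hlam : 1 < lam) (hJ : lam ^ J = 2) (hn : 3 ≤ Fintype.card I) (hc : c.2.2 i = 0)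
    (hij : j1 ≠ i) (hH : 0 < H) :
    ∏ l, vv lam H i j1 (Xc lam R0 J c) (Lc c) l =
      (lam - 1) ^ (Fintype.card I - 1) * ((H : ℝ)⁻¹) ^ (Fintype.card I - 2) *
        lam ^ (2 * ((Fintype.card I - 1) * R0 + wtOf J c)) := by
  have hH' : (H : ℝ) ≠ 0 := by exact_mod_cast hH.ne'
  rw [← prod_Xc (c := c) hlam hJ hn hc]
  rw [← mul_prod_erase univ _ (mem_univ i), ← mul_prod_erase (univ.erase i) _
    (mem_erase.2 ⟨hij, mem_univ j1⟩), ← mul_prod_erase (univ.erase i)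
    (fun l => Xc lam R0 J c l ^ 2) (mem_erase.2 ⟨hij, mem_univ j1⟩)]
  have e1 : ∀ l ∈ (univ.erase i).erase j1, vv lam H i j1 (Xc lam R0 J c) (Lc c) l =
      ((lam - 1) * (Lc c * (H : ℝ)⁻¹)) * Xc lam R0 J c l ^ 2 := by
    intro l hl
    rw [mem_erase, mem_erase] at hl
    rw [vv, if_neg hl.2.1, if_neg hl.1, vol]
    ring
  rw [prod_congr rfl e1, prod_mul_distrib, prod_const, card_erase_of_mem
    (mem_erase.2 ⟨hij, mem_univ j1⟩), card_erase_of_mem (mem_univ i), Finset.card_univ]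
  rw [vv, if_pos rfl, vv, if_neg hij, if_pos rfl, vol]
  have e2 : Fintype.card I - 1 = (Fintype.card I - 1 - 1) + 1 := by omega
  have e3 : Fintype.card I - 1 - 1 = Fintype.card I - 2 := by omega
  rw [e3] at e2 ⊢
  rw [e2, pow_succ (lam - 1), mul_pow, mul_pow]
  ring

theorem cel_csz (hlam : 1 < lam) (hlam2 : lam ≤ 2) (hJ : lam ^ J = 2) (hij : j1 ≠ i) (hH : 0 < H)
    (hY : (H : ℝ) ≤ (lam - 1) * lam ^ R0) :
    CSz lam H i j1 (Xc lam R0 J c) (Lc c) ((lam - 1) * lam ^ R0 / H) := by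
  have hH' : (0 : ℝ) < H := by exact_mod_cast hH
  have hH1 : (1 : ℝ) ≤ H := by exact_mod_cast hH
  have hR : 0 < lam ^ R0 := pow_pos (by linarith) _
  have hl1 : 0 < lam - 1 := by linarith
  have hY1 : 1 ≤ (lam - 1) * lam ^ R0 / H := by
    rw [le_div_iff₀ hH']; linarith
  have hYle : (lam - 1) * lam ^ R0 / H ≤ (lam - 1) * lam ^ R0 := div_le_self (by positivity) hH1
  have hx : ∀ l, (lam - 1) * lam ^ R0 / H ≤ (lam - 1) * Xc lam R0 J c l := fun l =>
    hYle.trans (mul_le_mul_of_nonneg_left (Xc_ge hlam l) hl1.le)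
  refine ⟨hij, ⟨hlam, hlam2, one_pos, Xc_pos hlam _, hY1, hx _, ?_⟩, fun l hl hl' => ⟨hlam, hlam2,
    div_pos (Lc_pos c) hH', Xc_pos hlam _, hY1, hx _, ?_⟩⟩
  · have := Xc_ge (R0 := R0) (J := J) (c := c) hlam j1
    nlinarith
  · have h1 := XL_ge (R0 := R0) (c := c) hlam hJ l
    rw [← mul_div_assoc]
    refine div_le_div_of_nonneg_right ?_ hH'.le
    nlinarith

/-- positions -/
theorem ss_pos (hij : j1 ≠ i) (hk : k j1 = 0) (hlam : 1 < lam) (hH : 0 < H) {X : I → ℝ}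
    (hX : ∀ l, 0 < X l) {L : ℝ} (hL : 0 < L) {z : ℤ × ℤ} (hz : z ∈ Tz lam (X j1) 0 1) (a : I)
    (ha : a ≠ i) (u : ℤ × ℤ) (hu : u ∈ SS lam H i j1 X L k z a) :
    ∃ θ : ℝ, 0 ≤ θ ∧ θ < 1 ∧ (u.1 : ℝ) = u.2 * ((z.1 : ℝ) / z.2 + L * (k a + θ) / H) ∧
      X a ≤ u.2 ∧ u.2 < lam * X a := by
  have hH' : (0 : ℝ) < H := by exact_mod_cast hH
  by_cases ha1 : a = j1
  · subst ha1
    rw [SS, if_neg ha, if_pos rfl, mem_singleton] at hu
    subst hu
    have hz' := mem_Tz.1 hz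
    have : (0 : ℝ) < u.2 := lt_of_lt_of_le (hX _) hz'.1.1
    refine ⟨0, le_rfl, one_pos, ?_, hz'.1.1, hz'.1.2⟩
    rw [hk]
    simp
    field_simp
  · rw [SS, if_neg ha, if_neg ha1] at hu
    have hu' := mem_Tz.1 hu
    have hu2 : (0 : ℝ) < u.2 := lt_of_lt_of_le (hX _) hu'.1.1
    set x1 := (z.1 : ℝ) / z.2 with hx1
    have e1 := hu'.2.1
    have e2 := hu'.2.2
    refine ⟨((u.1 : ℝ) / u.2 - x1) * H / L - k a, ?_, ?_, ?_, hu'.1.1, hu'.1.2⟩
    · rw [sub_nonneg, le_div_iff₀ hL]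
      have e3 : x1 + L * k a / H ≤ (u.1 : ℝ) / u.2 := by
        rw [le_div_iff₀ hu2]; linarith
      have e4 : L * k a / H * H = L * k a := by field_simp
      nlinarith
    · rw [sub_lt_iff_lt_add, div_lt_iff₀ hL]
      have e3 : (u.1 : ℝ) / u.2 < x1 + L * k a / H + L / H := by
        rw [div_lt_iff₀ hu2]; linarith
      have e4 : L * k a / H * H = L * k a := by field_simp
      have e5 : L / H * H = L := by field_simp
      nlinarith
    · field_simp
      ring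

theorem dt_pos {u v : ℤ × ℤ} {x1 L θ θ' : ℝ} {ka kb : ℤ}
    (hu : (u.1 : ℝ) = u.2 * (x1 + L * (ka + θ) / H))
    (hv : (v.1 : ℝ) = v.2 * (x1 + L * (kb + θ') / H)) :
    ((dt u v : ℤ) : ℝ) = u.2 * v.2 * (L / H) * ((ka - kb : ℤ) + (θ - θ')) := by
  unfold dt
  push_cast
  rw [hu, hv]
  ring

theorem abs_bounds {x δ : ℝ} {a : ℤ} (hδ : |δ| < 1) (hD : 1 < D) (ha : (D : ℤ) ≤ |a|) :
    (1 - 1 / (D : ℝ)) * |(a : ℝ)| ≤ |(a : ℝ) + δ| ∧ |(a : ℝ) + δ| ≤ (1 + 1 / (D : ℝ)) * |(a : ℝ)| ∧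
      0 < |(a : ℝ) + δ| := by
  have hD' : (0 : ℝ) < D := by
    have : 0 < D := by omega
    exact_mod_cast this
  have h1 : (D : ℝ) ≤ |(a : ℝ)| := by
    have : ((D : ℤ) : ℝ) ≤ ((|a| : ℤ) : ℝ) := by exact_mod_cast ha
    simpa using this
  have h2 : 1 ≤ 1 / (D : ℝ) * |(a : ℝ)| := by
    rw [one_div_mul_eq_div, le_div_iff₀ hD']
    linarith
  have h3 := abs_add_le (a : ℝ) δ
  have h4 := abs_sub_abs_le_abs_sub (a : ℝ) (-δ)
  rw [abs_neg, sub_neg_eq_add] at h4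
  have h5 : (1 : ℝ) < D := by exact_mod_cast hD
  refine ⟨by nlinarith, by nlinarith, by linarith⟩

theorem cel_dtk (hlam : 1 < lam) (hlam2 : lam ≤ 2) (hij : j1 ≠ i) (hH : 0 < H) (hJ0 : 0 < J)
    (hn : 3 ≤ Fintype.card I) {h : ℕ} (hk : KS H h D i j1 j2 k) (hD : 1 < D) {W : ℕ}
    (hW : (Fintype.card I - 1) * R0 + wtOf J c ≤ W) :
    DtK lam H i j1 (Xc lam R0 J c) (Lc c) k (4 * W + 4) := by
  obtain ⟨k1, k2, k3, k4, k5, k6⟩ := hk
  have hH' : (0 : ℝ) < H := by exact_mod_cast hH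
  have hXle : ∀ l, Xc lam R0 J c l ≤ 2 ^ W := by
    intro l
    unfold Xc
    calc lam ^ rOf R0 J c l ≤ 2 ^ rOf R0 J c l := pow_le_pow_left₀ (by linarith) hlam2 _
      _ ≤ 2 ^ W := pow_le_pow_right₀ one_le_two ((rOf_le hn l).trans hW)
  have hLle : Lc c ≤ 4 ^ W := (Lc_le (R0 := R0) hJ0 hn).trans
    (pow_le_pow_right₀ (by norm_num) hW)
  have hW0 : (1 : ℝ) ≤ 2 ^ W := one_le_pow₀ one_le_two
  have e4 : (4 : ℝ) ^ W = 2 ^ W * 2 ^ W := by rw [← mul_pow]; norm_num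
  have e5 : (2 : ℝ) ^ (4 * W + 4) = 16 * ((2 ^ W * 2 ^ W) * (2 ^ W * 2 ^ W)) := by
    have : 4 * W + 4 = W + W + (W + W) + 4 := by ring
    rw [this, pow_add, pow_add, pow_add]
    norm_num
    ring
  have hbig : (2 : ℝ) * 2 ^ W ≤ 2 ^ (4 * W + 4) := by
    rw [e5]
    have : (1 : ℝ) ≤ 2 ^ W * 2 ^ W := by nlinarith
    nlinarith
  have key : ∀ u v : ℤ × ℤ, ((dt u v : ℤ) : ℝ) ≠ 0 → |((dt u v : ℤ) : ℝ)| ≤ 2 ^ (4 * W + 4) →
      dt u v ≠ 0 ∧ (dt u v).natAbs ≤ 2 ^ (4 * W + 4) := by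
    intro u v h1 h2
    refine ⟨by exact_mod_cast h1, ?_⟩
    have e1 : (((dt u v).natAbs : ℕ) : ℝ) ≤ 2 ^ (4 * W + 4) := by
      rw [Nat.cast_natAbs, Int.cast_abs]; exact h2
    exact_mod_cast e1
  constructor
  · intro l _
    have := hXle l
    have := Xc_pos (R0 := R0) (J := J) (c := c) hlam l
    nlinarith
  · intro z hz a b hab u hu v hv
    have hX := fun l => Xc_pos (R0 := R0) (J := J) (c := c) hlam l
    by_cases ha : a = i
    · have hb : b ≠ i := fun h => hab (ha.trans h.symm)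
      obtain ⟨θ, -, -, -, h1, h2⟩ := ss_pos hij k2 hlam hH hX (Lc_pos c) hz b hb v hv
      rw [SS, if_pos ha, mem_singleton] at hu
      have e1 : ((dt u v : ℤ) : ℝ) = v.2 := by rw [hu]; unfold dt; simp
      have h3 := hX b
      refine key u v ?_ ?_
      · rw [e1]; linarith
      · rw [e1, abs_of_pos (by linarith)]
        have := hXle b
        nlinarith
    · by_cases hb : b = i
      · obtain ⟨θ, -, -, -, h1, h2⟩ := ss_pos hij k2 hlam hH hX (Lc_pos c) hz a ha u hu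
        rw [SS, if_pos hb, mem_singleton] at hv
        have e1 : ((dt u v : ℤ) : ℝ) = -u.2 := by rw [hv]; unfold dt; simp
        have h3 := hX a
        refine key u v ?_ ?_
        · rw [e1]; linarith
        · rw [e1, abs_neg, abs_of_pos (by linarith)]
          have := hXle a
          nlinarith
      · obtain ⟨θ, g1, g2, g3, g4, g5⟩ := ss_pos hij k2 hlam hH hX (Lc_pos c) hz a ha u hu
        obtain ⟨θ', g1', g2', g3', g4', g5'⟩ := ss_pos hij k2 hlam hH hX (Lc_pos c) hz b hb v hv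
        have e1 := dt_pos g3 g3'
        have h1 := hX a
        have h2 := hX b
        have hu2 : (0 : ℝ) < u.2 := by linarith
        have hv2 : (0 : ℝ) < v.2 := by linarith
        have hLH : 0 < Lc c / H := div_pos (Lc_pos c) hH'
        have hδ : |θ - θ'| < 1 := by rw [abs_lt]; constructor <;> linarith
        have hab' := abs_bounds (x := 0) hδ hD (k4 a b ha hb hab)
        have hkk : |((k a - k b : ℤ) : ℝ) + (θ - θ')| ≤ 2 * H := by
          have f1 : |k a - k b| ≤ 2 * H - 1 := by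
            rw [abs_le]
            have := k3 a
            have := k3 b
            constructor <;> omega
          have f2 : |((k a - k b : ℤ) : ℝ)| ≤ 2 * H - 1 := by
            rw [← Int.cast_abs]
            exact_mod_cast f1
          have f3 := abs_add_le ((k a - k b : ℤ) : ℝ) (θ - θ')
          linarith
        refine key u v ?_ ?_
        · rw [e1]
          refine mul_ne_zero (by positivity) ?_
          exact abs_pos.1 hab'.2.2
        · rw [e1, abs_mul, abs_of_pos (by positivity)]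
          have hu3 : (u.2 : ℝ) ≤ 2 * 2 ^ W := by
            have := hXle a
            nlinarith
          have hv3 : (v.2 : ℝ) ≤ 2 * 2 ^ W := by
            have := hXle b
            nlinarith
          calc (u.2 : ℝ) * v.2 * (Lc c / H) * |((k a - k b : ℤ) : ℝ) + (θ - θ')|
              ≤ (2 * 2 ^ W) * (2 * 2 ^ W) * (Lc c / H) * (2 * H) := by gcongr
            _ = 8 * (2 ^ W * 2 ^ W) * Lc c := by field_simp; ring
            _ ≤ 8 * (2 ^ W * 2 ^ W) * (2 ^ W * 2 ^ W) := by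
                rw [← e4]; gcongr
            _ ≤ 2 ^ (4 * W + 4) := by
                rw [e5]
                have : 0 < (2 : ℝ) ^ W * 2 ^ W * (2 ^ W * 2 ^ W) := by positivity
                linarith

end

end Pool.Agent.Y714.MA
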