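import Pool.Agent.Y714.MA.Geo
import Pool.Agent.Y714.MA.Err2

set_option autoImplicit false
set_option linter.unusedSectionVars false
set_option linter.unusedSimpArgs false
set_option linter.unusedVariables false

/-! Heights in a cell; every configuration in general position lies in exactly one cell. -/

namespace Pool.Agent.Y714.MA

open Finset Pool.Agent.Y714.ML

section

variable {I : Type} [Fintype I] [DecidableEq I]

theorem prod_kappaR {d : I → ℕ} (m : Mon d) (κ : I → ℝ) :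
    ∏ q : I × I, (κ q.1 * κ q.2) ^ m.1 q = ∏ i, κ i ^ d i := by
  have h1 : ∀ i, κ i ^ d i = (∏ j, κ i ^ m.1 (i, j)) * ∏ j, κ i ^ m.1 (j, i) := by
    intro i
    rw [← m.2 i, sum_add_distrib, pow_add, prod_pow_eq_pow_sum, prod_pow_eq_pow_sum]
  rw [prod_congr rfl fun i _ => h1 i, prod_mul_distrib]
  simp only [mul_pow, prod_mul_distrib]
  rw [Fintype.prod_prod_type, Fintype.prod_prod_type]
  congr 1
  rw [prod_comm]

/-- the model brackets -/
noncomputable def gk (H : ℕ) (i : I) (k : I → ℤ) (q : I × I) : ℝ :=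
  if q.1 = i then (if q.2 = i then 0 else 1) else if q.2 = i then 1 else
    |((k q.1 - k q.2 : ℤ) : ℝ)| / H

theorem gk_nonneg (H : ℕ) (i : I) (k : I → ℤ) (q : I × I) : 0 ≤ gk H i k q := by
  unfold gk
  split_ifs <;> positivity

/-- the model height -/
noncomputable def Phk (H : ℕ) (i : I) (k : I → ℤ) : ℝ :=
  ⨆ m : Mon (fun _ : I => 2), ∏ q : I × I, gk H i k q ^ m.1 q

variable {lam : ℝ} {H R0 J D : ℕ} {i j1 j2 : I} {c : Bool × ℕ × (I → ℕ)} {k : I → ℤ} {h : ℕ}

theorem Phk_pos (hn : 3 ≤ Fintype.card I) (hH : 0 < H) (hk : KS H h D i j1 j2 k) (hD : 1 < D) :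
    0 < Phk H i k := by
  have hH' : (0 : ℝ) < H := by exact_mod_cast hH
  obtain ⟨τ, hτ⟩ := exists_perm_of_dense (fun j k : Cop (fun _ : I => 1) => ¬ k.1 = j.1)
    (fun j k h1 h2 => h1 h2.symm)
    (fun j => by
      simp only [not_not]
      rw [card_filter_Cop (fun _ : I => 1) (fun i => i = j.1), card_Cop]
      rw [Finset.filter_eq', if_pos (mem_univ j.1), sum_singleton]
      simp
      omega)
  have h1 : ∏ q : I × I, gk H i k q ^ (permMon (fun _ => 1) τ).1 q ≤ Phk H i k :=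
    Finite.le_ciSup (fun m : Mon (fun _ : I => 2 * 1) => ∏ q : I × I, gk H i k q ^ m.1 q)
      (permMon (fun _ => 1) τ)
  refine lt_of_lt_of_le ?_ h1
  refine prod_pos fun q _ => ?_
  by_cases h2 : (permMon (fun _ : I => 1) τ).1 q = 0
  · rw [h2, pow_zero]; exact one_pos
  · have h3 : ((univ : Finset (Cop (fun _ : I => 1))).filter
        fun j => j.1 = q.1 ∧ (τ j).1 = q.2).Nonempty := by
      rw [← card_pos]
      exact Nat.pos_of_ne_zero h2
    obtain ⟨j, hj⟩ := h3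
    rw [mem_filter] at hj
    have h4 : q.1 ≠ q.2 := by
      rw [← hj.2.1, ← hj.2.2]
      exact fun h => hτ j h.symm
    refine pow_pos ?_ _
    unfold gk
    split_ifs with g1 g2 g2
    · exact absurd (g1.trans g2.symm) h4
    · exact one_pos
    · exact one_pos
    · refine div_pos ?_ hH'
      have := hk.2.2.2.1 q.1 q.2 g1 g2 h4
      have h5 : (0 : ℤ) < |k q.1 - k q.2| := by omega
      rw [abs_pos] at h5 ⊢
      exact_mod_cast h5

theorem abs_monZ {d : I → ℕ} (w : I → ℤ × ℤ) (m : Mon d) : ((|monZ w m| : ℤ) : ℝ) =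
    ∏ q : I × I, |((dt (w q.1) (w q.2) : ℤ) : ℝ)| ^ m.1 q := by
  unfold monZ
  rw [abs_prod]
  push_cast
  exact prod_congr rfl fun q _ => by rw [abs_pow]

theorem mon_card (m : Mon (fun _ : I => 2)) : ∑ q : I × I, m.1 q = Fintype.card I := by
  have h1 := sum_snd m
  simp only [sum_const, Finset.card_univ, smul_eq_mul] at h1
  omega

/-- the sizes of the vectors in a cell -/
noncomputable def kap (i : I) (L : ℝ) (w : I → ℤ × ℤ) (l : I) : ℝ :=
  if l = i then (Real.sqrt L)⁻¹ else (w l).2 * Real.sqrt L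

theorem kap_prod {L : ℝ} (hL : 0 < L) (hn : 3 ≤ Fintype.card I) (w : I → ℤ × ℤ) :
    ∏ l, kap i L w l ^ 2 = L ^ (Fintype.card I - 2) * ∏ l ∈ univ.erase i, ((w l).2 : ℝ) ^ 2 := by
  rw [← mul_prod_erase univ _ (mem_univ i)]
  have e1 : ∀ l ∈ univ.erase i, kap i L w l ^ 2 = L * ((w l).2 : ℝ) ^ 2 := by
    intro l hl
    rw [kap, if_neg (ne_of_mem_erase hl), mul_pow, Real.sq_sqrt hL.le]
    ring
  rw [prod_congr rfl e1, prod_mul_distrib, prod_const, card_erase_of_mem (mem_univ i),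
    Finset.card_univ, kap, if_pos rfl, inv_pow, Real.sq_sqrt hL.le]
  have e2 : Fintype.card I - 1 = (Fintype.card I - 2) + 1 := by omega
  rw [e2, pow_succ]
  field_simp

theorem brk (hlam : 1 < lam) (hij : j1 ≠ i) (hH : 0 < H) (hk : KS H h D i j1 j2 k)
    (hD : 1 < D) {w : I → ℤ × ℤ} (hw : w ∈ cel lam H R0 J i j1 c k) (q : I × I) :
    (1 - 1 / (D : ℝ)) * ((kap i (Lc c) w q.1 * kap i (Lc c) w q.2) * gk H i k q) ≤
      |((dt (w q.1) (w q.2) : ℤ) : ℝ)| ∧
    |((dt (w q.1) (w q.2) : ℤ) : ℝ)| ≤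
      (1 + 1 / (D : ℝ)) * ((kap i (Lc c) w q.1 * kap i (Lc c) w q.2) * gk H i k q) := by
  have hH' : (0 : ℝ) < H := by exact_mod_cast hH
  have hL := Lc_pos c
  have hs : 0 < Real.sqrt (Lc c) := Real.sqrt_pos.2 hL
  have hss : Real.sqrt (Lc c) * Real.sqrt (Lc c) = Lc c := Real.mul_self_sqrt hL.le
  have hX := fun l => Xc_pos (R0 := R0) (J := J) (c := c) hlam l
  have hD' : (1 : ℝ) < D := by exact_mod_cast hD
  have hD1 : 0 < 1 / (D : ℝ) := by positivity
  have hD2 : 1 / (D : ℝ) < 1 := by rw [div_lt_one (by linarith)]; exact hD'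
  obtain ⟨w0, w1, w2⟩ := (mem_cell hij).1 hw
  have hSS : ∀ l, w l ∈ SS lam H i j1 (Xc lam R0 J c) (Lc c) k (w j1) l := by
    intro l
    unfold SS
    split_ifs with g1 g2
    · rw [g1, w0]; exact mem_singleton_self _
    · rw [g2]; exact mem_singleton_self _
    · exact w2 l g1 g2
  obtain ⟨a, b⟩ := q
  simp only
  by_cases ha : a = i
  · by_cases hb : b = i
    · rw [ha, hb]
      have e1 : dt (w i) (w i) = 0 := by unfold dt; ring
      simp [gk, e1]
    · obtain ⟨θ, -, -, -, h1, h2⟩ := ss_pos hij hk.2.1 hlam hH hX hL w1 b hb (w b) (hSS b)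
      have e1 : ((dt (w a) (w b) : ℤ) : ℝ) = (w b).2 := by rw [ha, w0]; unfold dt; simp
      have h3 := hX b
      have h4 : (0 : ℝ) < (w b).2 := by linarith
      have e2 : kap i (Lc c) w a * kap i (Lc c) w b * gk H i k (a, b) = (w b).2 := by
        simp only [gk, kap, if_pos ha, if_neg hb]
        field_simp
      rw [e1, e2, abs_of_pos h4]
      constructor <;> nlinarith
  · by_cases hb : b = i
    · obtain ⟨θ, -, -, -, h1, h2⟩ := ss_pos hij hk.2.1 hlam hH hX hL w1 a ha (w a) (hSS a)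
      have e1 : ((dt (w a) (w b) : ℤ) : ℝ) = -(w a).2 := by rw [hb, w0]; unfold dt; simp
      have h3 := hX a
      have h4 : (0 : ℝ) < (w a).2 := by linarith
      have e2 : kap i (Lc c) w a * kap i (Lc c) w b * gk H i k (a, b) = (w a).2 := by
        simp only [gk, kap, if_neg ha, if_pos hb]
        field_simp
      rw [e1, e2, abs_neg, abs_of_pos h4]
      constructor <;> nlinarith
    · obtain ⟨θ, g1, g2, g3, g4, g5⟩ := ss_pos hij hk.2.1 hlam hH hX hL w1 a ha (w a) (hSS a)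
      obtain ⟨θ', g1', g2', g3', g4', g5'⟩ := ss_pos hij hk.2.1 hlam hH hX hL w1 b hb (w b) (hSS b)
      by_cases hab : a = b
      · rw [hab]
        have e1 : dt (w b) (w b) = 0 := by unfold dt; ring
        simp [gk, e1, hb]
      · have e1 := dt_pos g3 g3'
        have h1 := hX a
        have h2 := hX b
        have hu2 : (0 : ℝ) < (w a).2 := by linarith
        have hv2 : (0 : ℝ) < (w b).2 := by linarith
        have hLH : 0 < Lc c / H := div_pos hL hH'
        have hδ : |θ - θ'| < 1 := by rw [abs_lt]; constructor <;> linarith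
        have hab' := abs_bounds (x := 0) hδ hD (hk.2.2.2.1 a b ha hb hab)
        have e2 : kap i (Lc c) w a * kap i (Lc c) w b * gk H i k (a, b) =
            ((w a).2 : ℝ) * (w b).2 * (Lc c / H) * |((k a - k b : ℤ) : ℝ)| := by
          simp only [gk, kap, if_neg ha, if_neg hb]
          calc ((w a).2 : ℝ) * Real.sqrt (Lc c) * ((w b).2 * Real.sqrt (Lc c)) *
              (|((k a - k b : ℤ) : ℝ)| / H) = ((w a).2 : ℝ) * (w b).2 *
              (Real.sqrt (Lc c) * Real.sqrt (Lc c)) * (|((k a - k b : ℤ) : ℝ)| / H) := by ring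
            _ = _ := by rw [hss]; ring
        rw [e1, e2, abs_mul, abs_of_pos (by positivity : 0 < ((w a).2 : ℝ) * (w b).2 * (Lc c / H))]
        set P : ℝ := ((w a).2 : ℝ) * (w b).2 * (Lc c / H) with hP
        have hP0 : 0 < P := by positivity
        constructor
        · calc (1 - 1 / (D : ℝ)) * (P * |((k a - k b : ℤ) : ℝ)|) =
              P * ((1 - 1 / (D : ℝ)) * |((k a - k b : ℤ) : ℝ)|) := by ring
            _ ≤ _ := mul_le_mul_of_nonneg_left hab'.1 hP0.le
        · calc P * |((k a - k b : ℤ) : ℝ) + (θ - θ')| ≤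
              P * ((1 + 1 / (D : ℝ)) * |((k a - k b : ℤ) : ℝ)|) :=
              mul_le_mul_of_nonneg_left hab'.2.1 hP0.le
            _ = _ := by ring

theorem cel_size (hlam : 1 < lam) (hij : j1 ≠ i) (hH : 0 < H) (hk : KS H h D i j1 j2 k)
    {w : I → ℤ × ℤ} (hw : w ∈ cel lam H R0 J i j1 c k) (l : I) (hl : l ≠ i) :
    Xc lam R0 J c l ≤ (w l).2 ∧ ((w l).2 : ℝ) < lam * Xc lam R0 J c l := by
  obtain ⟨w0, w1, w2⟩ := (mem_cell hij).1 hw
  by_cases hl1 : l = j1
  · rw [hl1]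
    have := mem_Tz.1 w1
    exact this.1
  · exact (mem_Tz.1 (w2 l hl hl1)).1

theorem kap_pos (hlam : 1 < lam) (hij : j1 ≠ i) (hH : 0 < H) (hk : KS H h D i j1 j2 k)
    {w : I → ℤ × ℤ} (hw : w ∈ cel lam H R0 J i j1 c k) (l : I) : 0 < kap i (Lc c) w l := by
  have hs : 0 < Real.sqrt (Lc c) := Real.sqrt_pos.2 (Lc_pos c)
  unfold kap
  split_ifs with h1
  · positivity
  · have h2 := (cel_size hlam hij hH hk hw l h1).1
    have h3 := Xc_pos (R0 := R0) (J := J) (c := c) hlam l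
    have : (0 : ℝ) < (w l).2 := by linarith
    positivity

/-- lower bound for the height in a cell -/
theorem cel_hgt_ge (hlam : 1 < lam) (hJ : lam ^ J = 2) (hij : j1 ≠ i) (hH : 0 < H)
    (hn : 3 ≤ Fintype.card I) (hc : c.2.2 i = 0) (hk : KS H h D i j1 j2 k) (hD : 1 < D)
    {w : I → ℤ × ℤ} (hw : w ∈ cel lam H R0 J i j1 c k) (B : ℝ)
    (hB : ∀ m : Mon (fun _ : I => 2), ((|monZ w m| : ℤ) : ℝ) ≤ B) :
    (1 - 1 / (D : ℝ)) ^ Fintype.card I * lam ^ (2 * ((Fintype.card I - 1) * R0 + wtOf J c)) *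
      Phk H i k ≤ B := by
  have : Nonempty (Mon fun _ : I => 2) := ⟨permMon (fun _ => 1) 1⟩
  obtain ⟨m, hm⟩ := exists_eq_ciSup_of_finite
    (f := fun m : Mon (fun _ : I => 2) => ∏ q : I × I, gk H i k q ^ m.1 q)
  refine le_trans ?_ (hB m)
  rw [abs_monZ]
  have hD' : (1 : ℝ) < D := by exact_mod_cast hD
  have hD2 : 1 / (D : ℝ) < 1 := by rw [div_lt_one (by linarith)]; exact hD'
  have hkp := fun l => kap_pos hlam hij hH hk hw l
  have h1 : ∏ q : I × I, ((1 - 1 / (D : ℝ)) *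
      ((kap i (Lc c) w q.1 * kap i (Lc c) w q.2) * gk H i k q)) ^ m.1 q ≤
      ∏ q : I × I, |((dt (w q.1) (w q.2) : ℤ) : ℝ)| ^ m.1 q := by
    refine prod_le_prod (fun q _ => ?_) fun q _ => ?_
    · have := hkp q.1
      have := hkp q.2
      have := gk_nonneg H i k q
      have : 0 ≤ 1 - 1 / (D : ℝ) := by linarith
      positivity
    · refine pow_le_pow_left₀ ?_ (brk hlam hij hH hk hD hw q).1 _
      have := hkp q.1
      have := hkp q.2
      have := gk_nonneg H i k q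
      have : 0 ≤ 1 - 1 / (D : ℝ) := by linarith
      positivity
  refine le_trans ?_ h1
  simp only [mul_pow, prod_mul_distrib]
  rw [prod_pow_eq_pow_sum, mon_card]
  have e1 : (∏ q : I × I, kap i (Lc c) w q.1 ^ m.1 q) * ∏ q : I × I, kap i (Lc c) w q.2 ^ m.1 q =
      ∏ l, kap i (Lc c) w l ^ 2 := by
    rw [← prod_kappaR m (kap i (Lc c) w), ← prod_mul_distrib]
    exact prod_congr rfl fun q _ => (mul_pow _ _ _).symm
  rw [e1, hm, kap_prod (Lc_pos c) hn]
  have e2 : ∏ l ∈ univ.erase i, Xc lam R0 J c l ^ 2 ≤ ∏ l ∈ univ.erase i, ((w l).2 : ℝ) ^ 2 := by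
    refine prod_le_prod (fun l _ => sq_nonneg _) fun l hl => ?_
    exact pow_le_pow_left₀ (Xc_pos hlam l).le (cel_size hlam hij hH hk hw l (ne_of_mem_erase hl)).1 2
  have e3 : 0 ≤ 1 - 1 / (D : ℝ) := by linarith
  have e4 := (Phk_pos hn hH hk hD).le
  have e5 : 0 ≤ Lc c ^ (Fintype.card I - 2) := (pow_pos (Lc_pos c) _).le
  have e6 : lam ^ (2 * ((Fintype.card I - 1) * R0 + wtOf J c)) ≤
      Lc c ^ (Fintype.card I - 2) * ∏ l ∈ univ.erase i, ((w l).2 : ℝ) ^ 2 := by
    rw [← prod_Xc (c := c) hlam hJ hn hc]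
    exact mul_le_mul_of_nonneg_left e2 e5
  rw [mul_assoc]
  exact mul_le_mul_of_nonneg_left (mul_le_mul_of_nonneg_right e6 e4) (pow_nonneg e3 _)

/-- upper bound for the height in a cell -/
theorem cel_hgt_le (hlam : 1 < lam) (hJ : lam ^ J = 2) (hij : j1 ≠ i) (hH : 0 < H)
    (hn : 3 ≤ Fintype.card I) (hc : c.2.2 i = 0) (hk : KS H h D i j1 j2 k) (hD : 1 < D)
    {w : I → ℤ × ℤ} (hw : w ∈ cel lam H R0 J i j1 c k) (B : ℝ)
    (hB : (1 + 1 / (D : ℝ)) ^ Fintype.card I * (lam ^ (2 * (Fintype.card I - 1)) *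
      lam ^ (2 * ((Fintype.card I - 1) * R0 + wtOf J c))) * Phk H i k ≤ B)
    (m : Mon (fun _ : I => 2)) : ((|monZ w m| : ℤ) : ℝ) ≤ B := by
  refine le_trans ?_ hB
  rw [abs_monZ]
  have hD' : (1 : ℝ) < D := by exact_mod_cast hD
  have hD2 : 0 < 1 / (D : ℝ) := by positivity
  have hkp := fun l => kap_pos hlam hij hH hk hw l
  have h1 : ∏ q : I × I, |((dt (w q.1) (w q.2) : ℤ) : ℝ)| ^ m.1 q ≤
      ∏ q : I × I, ((1 + 1 / (D : ℝ)) *
      ((kap i (Lc c) w q.1 * kap i (Lc c) w q.2) * gk H i k q)) ^ m.1 q := by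
    refine prod_le_prod (fun q _ => by positivity) fun q _ => ?_
    exact pow_le_pow_left₀ (abs_nonneg _) (brk hlam hij hH hk hD hw q).2 _
  refine h1.trans ?_
  simp only [mul_pow, prod_mul_distrib]
  rw [prod_pow_eq_pow_sum, mon_card]
  have e1 : (∏ q : I × I, kap i (Lc c) w q.1 ^ m.1 q) * ∏ q : I × I, kap i (Lc c) w q.2 ^ m.1 q =
      ∏ l, kap i (Lc c) w l ^ 2 := by
    rw [← prod_kappaR m (kap i (Lc c) w), ← prod_mul_distrib]
    exact prod_congr rfl fun q _ => (mul_pow _ _ _).symm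
  rw [e1, kap_prod (Lc_pos c) hn]
  have e2 : ∏ l ∈ univ.erase i, ((w l).2 : ℝ) ^ 2 ≤ lam ^ (2 * (Fintype.card I - 1)) *
      ∏ l ∈ univ.erase i, Xc lam R0 J c l ^ 2 := by
    have e3 : lam ^ (2 * (Fintype.card I - 1)) = ∏ l ∈ univ.erase i, lam ^ 2 := by
      rw [prod_const, card_erase_of_mem (mem_univ i), Finset.card_univ, ← pow_mul]
    rw [e3, ← prod_mul_distrib]
    refine prod_le_prod (fun l _ => sq_nonneg _) fun l hl => ?_
    have e4 := cel_size hlam hij hH hk hw l (ne_of_mem_erase hl)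
    have e5 := Xc_pos (R0 := R0) (J := J) (c := c) hlam l
    rw [← mul_pow]
    exact pow_le_pow_left₀ (by linarith) e4.2.le 2
  have e3 : ∏ q : I × I, gk H i k q ^ m.1 q ≤ Phk H i k :=
    Finite.le_ciSup (fun m : Mon (fun _ : I => 2) => ∏ q : I × I, gk H i k q ^ m.1 q) m
  have e4 := (Phk_pos hn hH hk hD).le
  have e5 : 0 ≤ Lc c ^ (Fintype.card I - 2) := (pow_pos (Lc_pos c) _).le
  have e6 : 0 ≤ ∏ q : I × I, gk H i k q ^ m.1 q :=
    prod_nonneg fun q _ => pow_nonneg (gk_nonneg H i k q) _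
  have e7 : Lc c ^ (Fintype.card I - 2) * ∏ l ∈ univ.erase i, ((w l).2 : ℝ) ^ 2 ≤
      lam ^ (2 * (Fintype.card I - 1)) *
        lam ^ (2 * ((Fintype.card I - 1) * R0 + wtOf J c)) := by
    rw [← prod_Xc (c := c) hlam hJ hn hc]
    calc _ ≤ Lc c ^ (Fintype.card I - 2) * (lam ^ (2 * (Fintype.card I - 1)) *
      ∏ l ∈ univ.erase i, Xc lam R0 J c l ^ 2) := mul_le_mul_of_nonneg_left e2 e5
      _ = _ := by ring
  have e8 : 0 ≤ lam ^ (2 * (Fintype.card I - 1)) *
        lam ^ (2 * ((Fintype.card I - 1) * R0 + wtOf J c)) := by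
    have : 0 < lam := by linarith
    positivity
  rw [mul_assoc ((1 + 1 / (D : ℝ)) ^ Fintype.card I)]
  exact mul_le_mul_of_nonneg_left (mul_le_mul e7 e3 e6 e8) (by positivity)

/-- the cell of a configuration is unique -/
theorem cel_unique (hlam : 1 < lam) (hij : j1 ≠ i) (hH : H = 4 * h) (hh : 0 < h)
    {c' : Bool × ℕ × (I → ℕ)} {k' : I → ℤ} (hc : c.2.2 i = 0) (hc' : c'.2.2 i = 0)
    (hk : KS H h D i j1 j2 k) (hk' : KS H h D i j1 j2 k') {w : I → ℤ × ℤ}
    (hw : w ∈ cel lam H R0 J i j1 c k) (hw' : w ∈ cel lam H R0 J i j1 c' k') :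
    c = c' ∧ k = k' := by
  have hH0 : 0 < H := by omega
  have hHr : (H : ℝ) = 4 * h := by rw [hH]; push_cast; ring
  have hH' : (0 : ℝ) < H := by exact_mod_cast hH0
  have hlam0 : 0 < lam := by linarith
  -- exponents
  have hr : ∀ l, l ≠ i → rOf R0 J c l = rOf R0 J c' l := by
    intro l hl
    have h1 := cel_size hlam hij hH0 hk hw l hl
    have h2 := cel_size hlam hij hH0 hk' hw' l hl
    unfold Xc at h1 h2
    rw [← pow_succ'] at h1 h2
    have h3 := (pow_lt_pow_iff_right₀ hlam).1 (lt_of_le_of_lt h1.1 h2.2)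
    have h4 := (pow_lt_pow_iff_right₀ hlam).1 (lt_of_le_of_lt h2.1 h1.2)
    omega
  -- positions
  have hX := fun (c : Bool × ℕ × (I → ℕ)) l => Xc_pos (R0 := R0) (J := J) (c := c) hlam l
  have hSS : ∀ (c : Bool × ℕ × (I → ℕ)) (k : I → ℤ), w ∈ cel lam H R0 J i j1 c k → ∀ l,
      w l ∈ SS lam H i j1 (Xc lam R0 J c) (Lc c) k (w j1) l := by
    intro c k hw l
    obtain ⟨w0, w1, w2⟩ := (mem_cell hij).1 hw
    unfold SS
    split_ifs with g1 g2
    · rw [g1, w0]; exact mem_singleton_self _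
    · rw [g2]; exact mem_singleton_self _
    · exact w2 l g1 g2
  have hpos : ∀ l, l ≠ i → ∃ θ θ' : ℝ, 0 ≤ θ ∧ θ < 1 ∧ 0 ≤ θ' ∧ θ' < 1 ∧
      Lc c * (k l + θ) = Lc c' * (k' l + θ') := by
    intro l hl
    obtain ⟨θ, g1, g2, g3, g4, g5⟩ := ss_pos hij hk.2.1 hlam hH0 (hX c) (Lc_pos c)
      ((mem_cell hij).1 hw).2.1 l hl (w l) (hSS c k hw l)
    obtain ⟨θ', g1', g2', g3', g4', g5'⟩ := ss_pos hij hk'.2.1 hlam hH0 (hX c') (Lc_pos c')
      ((mem_cell hij).1 hw').2.1 l hl (w l) (hSS c' k' hw' l)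
    refine ⟨θ, θ', g1, g2, g1', g2', ?_⟩
    have h3 := hX c l
    have h4 : ((w l).2 : ℝ) ≠ 0 := by linarith
    rw [g3] at g3'
    have h5 := mul_left_cancel₀ h4 g3'
    have h6 : Lc c * (k l + θ) / H = Lc c' * (k' l + θ') / H := by linarith
    field_simp at h6
    exact h6
  -- the scales agree
  have key : ∀ (c c' : Bool × ℕ × (I → ℕ)) (k k' : I → ℤ), KS H h D i j1 j2 k →
      KS H h D i j1 j2 k' → (∀ l, l ≠ i → ∃ θ θ' : ℝ, 0 ≤ θ ∧ θ < 1 ∧ 0 ≤ θ' ∧ θ' < 1 ∧
      Lc c * (k l + θ) = Lc c' * (k' l + θ')) → ¬ (sOf c.1 c.2.1 < sOf c'.1 c'.2.1) := by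
    intro c c' k k' hk hk' hpos hlt
    have hLL : 4 * Lc c ≤ Lc c' := by
      unfold Lc
      rw [← zpow_one_add₀ (by norm_num)]
      exact zpow_le_zpow_right₀ (by norm_num) (by omega)
    obtain ⟨l, hl⟩ := hk'.2.2.2.2.1
    have hli : l ≠ i := by
      rintro rfl
      rw [hk'.1] at hl
      exact hl (by omega)
    obtain ⟨θ, θ', g1, g2, g3, g4, g5⟩ := hpos l hli
    have hb := hk.2.2.1 l
    have hb1 : -(H : ℝ) ≤ k l := by exact_mod_cast hb.1
    have hb2 : (k l : ℝ) + 1 ≤ H := by exact_mod_cast hb.2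
    have hL := Lc_pos c
    have hL' := Lc_pos c'
    have hh' : (0 : ℝ) < h := by exact_mod_cast hh
    by_cases h1 : k' l < -(h : ℤ)
    · have h2 : (k' l : ℝ) + 1 ≤ -h := by exact_mod_cast h1
      have h3 : Lc c' * (k' l + θ') < -(Lc c * H) := by
        have e1 : Lc c' * (k' l + θ') < Lc c' * (-h) := mul_lt_mul_of_pos_left (by linarith) hL'
        have e2 : Lc c' * (-h) ≤ -(Lc c * H) := by rw [hHr]; nlinarith
        linarith
      have h4 : -(Lc c * H) ≤ Lc c * (k l + θ) := by nlinarith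
      linarith
    · have h2 : (h : ℤ) ≤ k' l := by
        by_contra h3
        exact hl ⟨by omega, by omega⟩
      have h3 : (h : ℝ) ≤ k' l := by exact_mod_cast h2
      have h4 : Lc c * H ≤ Lc c' * (k' l + θ') := by
        rw [hHr]
        nlinarith
      have h5 : Lc c * (k l + θ) < Lc c * H := mul_lt_mul_of_pos_left (by linarith) hL
      linarith
  have hs : sOf c.1 c.2.1 = sOf c'.1 c'.2.1 := by
    have h1 := key c c' k k' hk hk' hpos
    have h2 := key c' c k' k hk' hk (fun l hl => by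
      obtain ⟨θ, θ', g1, g2, g3, g4, g5⟩ := hpos l hl
      exact ⟨θ', θ, g3, g4, g1, g2, g5.symm⟩)
    omega
  have hL : Lc c = Lc c' := by unfold Lc; rw [hs]
  have hkk : k = k' := by
    funext l
    by_cases hl : l = i
    · rw [hl, hk.1, hk'.1]
    · obtain ⟨θ, θ', g1, g2, g3, g4, g5⟩ := hpos l hl
      rw [hL] at g5
      have h1 := mul_left_cancel₀ (Lc_pos c').ne' g5
      have h2 : (k l : ℝ) < k' l + 1 := by linarith
      have h3 : (k' l : ℝ) < k l + 1 := by linarith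
      have h4 : k l < k' l + 1 := by exact_mod_cast h2
      have h5 : k' l < k l + 1 := by exact_mod_cast h3
      omega
  refine ⟨?_, hkk⟩
  obtain ⟨b, σ, r⟩ := c
  obtain ⟨b', σ', r'⟩ := c'
  simp only at hs hc hc'
  have hbσ : b = b' ∧ σ = σ' := by
    cases b <;> cases b' <;> simp only [sOf, Bool.false_eq_true, if_false, if_true] at hs <;>
      first | exact ⟨rfl, by omega⟩ | (exfalso; omega)
  obtain ⟨rfl, rfl⟩ := hbσ
  have hrr : r = r' := by
    funext l
    by_cases hl : l = i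
    · rw [hl, hc, hc']
    · have := hr l hl
      unfold rOf at this
      simp only at this
      omega
  rw [hrr]

end

end Pool.Agent.Y714.MA
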