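import Pool.Agent.Y714.MA.Geo2

set_option autoImplicit false
set_option linter.unusedSectionVars false
set_option linter.unusedSimpArgs false
set_option linter.unusedVariables false

/-! Configurations in general position lie in cells. -/

namespace Pool.Agent.Y714.MA

open Finset Pool.Agent.Y714.ML

section

variable {I : Type} [Fintype I] [DecidableEq I]

/-- the scale of a non-zero vector -/
theorem exists_scale (y : I → ℝ) (S : Finset I) (l0 : I) (hl0 : l0 ∈ S) (hy : y l0 ≠ 0) :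
    ∃ s : ℤ, (∀ l ∈ S, -(4 : ℝ) ^ s ≤ y l ∧ y l < 4 ^ s) ∧
      ∃ l ∈ S, (y l < -(4 : ℝ) ^ (s - 1) ∨ (4 : ℝ) ^ (s - 1) ≤ y l) := by
  classical
  set P : ℤ → Prop := fun s => ∀ l ∈ S, -(4 : ℝ) ^ s ≤ y l ∧ y l < 4 ^ s with hP
  have hinh : ∃ s, P s := by
    obtain ⟨n, hn⟩ := pow_unbounded_of_one_lt (∑ l ∈ S, |y l|) (by norm_num : (1 : ℝ) < 4)
    refine ⟨(n : ℤ), fun l hl => ?_⟩
    rw [zpow_natCast]
    have h1 : |y l| ≤ ∑ l ∈ S, |y l| := single_le_sum (f := fun l => |y l|) (fun _ _ => abs_nonneg _) hl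
    have h2 := abs_lt.1 (lt_of_le_of_lt h1 hn)
    exact ⟨h2.1.le, h2.2⟩
  have hbdd : ∃ b, ∀ s, P s → b ≤ s := by
    obtain ⟨n, hn⟩ := pow_unbounded_of_one_lt (|y l0|⁻¹) (by norm_num : (1 : ℝ) < 4)
    refine ⟨-(n : ℤ), fun s hs => ?_⟩
    by_contra hc
    push Not at hc
    have h1 := hs l0 hl0
    have h2 : |y l0| ≤ 4 ^ s := abs_le.2 ⟨h1.1, h1.2.le⟩
    have h3 : (4 : ℝ) ^ s ≤ 4 ^ (-(n : ℤ)) := zpow_le_zpow_right₀ (by norm_num) hc.le
    rw [zpow_neg, zpow_natCast] at h3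
    have h4 : ((4 : ℝ) ^ n)⁻¹ < |y l0| := by
      rw [inv_lt_comm₀ (by positivity) (abs_pos.2 hy)]
      exact hn
    linarith
  obtain ⟨s, hs, hmin⟩ := Int.exists_least_of_bdd hbdd hinh
  refine ⟨s, hs, ?_⟩
  by_contra hc
  push Not at hc
  have : P (s - 1) := fun l hl => ⟨(hc l hl).1, (hc l hl).2⟩
  have := hmin _ this
  omega

variable {lam : ℝ} {H R0 J D : ℕ} {i j1 j2 : I} {h : ℕ}

theorem nice_cell (hlam : 1 < lam) (hJ : lam ^ J = 2) (hi1 : j1 ≠ i) (hi2 : j2 ≠ i)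
    (h12 : j1 ≠ j2) (hH : H = 4 * h) (hh : 0 < h) {o : I} {M : ℕ} {ε : ℝ} (hε : 0 < ε)
    (hε1 : ε ≤ 1) {ζ : I → ℤ} {v : I → ℤ × ℤ} (hN : Nice o M ε ζ i v)
    (hHD : 4 * ((D : ℝ) + 1) ≤ H * ε ^ (Fintype.card I + 3))
    (hMR : lam ^ (R0 + 1) ≤ ε ^ (Fintype.card I + 2) * Real.sqrt (2 ^ M)) :
    ∃ (w : I → ℤ × ℤ) (c : Bool × ℕ × (I → ℕ)) (k : I → ℤ), Eqv v w ∧ NF i j1 j2 w ∧
      c.2.2 i = 0 ∧ KS H h D i j1 j2 k ∧ w ∈ cel lam H R0 J i j1 c k := by
  classical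
  obtain ⟨w, hE, hNF⟩ := exists_nf v i j1 j2 hi1 hi2 h12 (hN.good.1 i) hN.h5
  obtain ⟨w0, w1, w2, w3, w4⟩ := hNF
  have hlam0 : 0 < lam := by linarith
  have hH0 : 0 < H := by omega
  have hH' : (0 : ℝ) < H := by exact_mod_cast hH0
  have hHr : (H : ℝ) = 4 * h := by rw [hH]; push_cast; ring
  set n := Fintype.card I with hn
  set Λ := Lam ζ with hΛ
  have hΛp : ∀ l, 0 < Λ l := fun l => Lam_pos ζ l
  have hs0 : 0 < Real.sqrt ((2 : ℝ) ^ M) := Real.sqrt_pos.2 (by positivity)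
  have hb : ∀ l, l ≠ i → (0 : ℝ) < (w l).2 := fun l hl => by exact_mod_cast w1 l hl
  have hbd : ∀ l, l ≠ i → (((dt (v i) (v l)).natAbs : ℕ) : ℝ) = (w l).2 := by
    intro l hl
    rw [← hE.natAbs_dt]
    have e1 : dt (w i) (w l) = (w l).2 := by rw [w0]; unfold dt; simp
    rw [e1, Nat.cast_natAbs, abs_of_pos (w1 l hl)]
  have B1 : ∀ l, l ≠ i → ε * (Λ i * Λ l) ≤ (w l).2 ∧ ((w l).2 : ℝ) ≤ Λ i * Λ l := by
    intro l hl
    rw [← hbd l hl]
    exact ⟨hN.h2 l hl, hN.h1 i l hl.symm⟩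
  set x : I → ℝ := fun l => ((w l).1 : ℝ) / (w l).2 with hx
  have hxx : ∀ a b, a ≠ i → b ≠ i → |x a - x b| =
      (((dt (v a) (v b)).natAbs : ℕ) : ℝ) / ((w a).2 * (w b).2) := by
    intro a b ha hb'
    rw [← hE.natAbs_dt, Nat.cast_natAbs]
    have e1 : x a - x b = ((dt (w a) (w b) : ℤ) : ℝ) / ((w a).2 * (w b).2) := by
      have := (hb a ha).ne'
      have := (hb b hb').ne'
      simp only [hx]
      unfold dt
      push_cast
      field_simp
    rw [e1, abs_div, abs_of_pos (mul_pos (hb a ha) (hb b hb')), Int.cast_abs]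
  have B2 : ∀ a b, a ≠ i → b ≠ i → a ≠ b → ε ^ (n + 1) / Λ i ^ 2 ≤ |x a - x b| ∧
      |x a - x b| ≤ 1 / (ε ^ 2 * Λ i ^ 2) := by
    intro a b ha hb' hab
    rw [hxx a b ha hb']
    have p1 := hb a ha
    have p2 := hb b hb'
    have q1 := B1 a ha
    have q2 := B1 b hb'
    have r1 := hΛp a
    have r2 := hΛp b
    have r0 := hΛp i
    constructor
    · rw [div_le_div_iff₀ (by positivity) (by positivity)]
      have e1 := hN.h3 a b hab ha hb'
      have e2 : ((w a).2 : ℝ) * (w b).2 ≤ (Λ i * Λ a) * (Λ i * Λ b) :=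
        mul_le_mul q1.2 q2.2 p2.le (by positivity)
      calc ε ^ (n + 1) * ((w a).2 * (w b).2) ≤ ε ^ (n + 1) * ((Λ i * Λ a) * (Λ i * Λ b)) := by
            gcongr
        _ = (ε ^ (n + 1) * (Λ a * Λ b)) * Λ i ^ 2 := by ring
        _ ≤ _ := mul_le_mul_of_nonneg_right e1 (by positivity)
    · rw [div_le_div_iff₀ (by positivity) (by positivity)]
      have e1 := hN.h1 a b hab
      have e2 : (ε * (Λ i * Λ a)) * (ε * (Λ i * Λ b)) ≤ ((w a).2 : ℝ) * (w b).2 :=
        mul_le_mul q1.1 q2.1 (by positivity) p1.le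
      calc _ ≤ (Λ a * Λ b) * (ε ^ 2 * Λ i ^ 2) := mul_le_mul_of_nonneg_right e1 (by positivity)
        _ = (ε * (Λ i * Λ a)) * (ε * (Λ i * Λ b)) := by ring
        _ ≤ _ := e2
        _ = _ := by ring
  set y : I → ℝ := fun l => x l - x j1 with hy
  have hyj2 : y j2 ≠ 0 := by
    have h1 := (B2 j2 j1 hi2 hi1 h12.symm).1
    have h2 : 0 < ε ^ (n + 1) / Λ i ^ 2 := by
      have := hΛp i
      positivity
    exact abs_pos.1 (lt_of_lt_of_le h2 h1)
  obtain ⟨s, hs1, l1, hl1, hl1'⟩ := exists_scale y (univ.erase i) j2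
    (mem_erase.2 ⟨hi2, mem_univ _⟩) hyj2
  rw [mem_erase] at hl1
  have hs1' : ∀ l, l ≠ i → -(4 : ℝ) ^ s ≤ y l ∧ y l < 4 ^ s := fun l hl =>
    hs1 l (mem_erase.2 ⟨hl, mem_univ _⟩)
  have hL : (0 : ℝ) < 4 ^ s := zpow_pos (by norm_num) _
  have hL1 : (4 : ℝ) ^ (s - 1) = 4 ^ s / 4 := by
    rw [zpow_sub₀ (by norm_num), zpow_one]
  have hl1j : l1 ≠ j1 := by
    rintro rfl
    have e1 : y l1 = 0 := by simp [hy]
    rw [e1, hL1] at hl1'
    rcases hl1' with h | h <;> linarith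
  -- bounds for the scale
  have S1 : (4 : ℝ) ^ s ≤ 4 / (ε ^ 2 * Λ i ^ 2) := by
    have h1 := (B2 l1 j1 hl1.1 hi1 hl1j).2
    have h2 : (4 : ℝ) ^ s / 4 ≤ |y l1| := by
      rw [hL1] at hl1'
      rcases hl1' with h | h
      · rw [abs_of_neg (by linarith)]; linarith
      · exact h.trans (le_abs_self _)
    have h3 : 4 / (ε ^ 2 * Λ i ^ 2) = 4 * (1 / (ε ^ 2 * Λ i ^ 2)) := by ring
    rw [h3]
    simp only [hy] at h2
    linarith
  have S2 : ε ^ (n + 1) / Λ i ^ 2 ≤ 4 ^ s := by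
    have h1 := (B2 j2 j1 hi2 hi1 h12.symm).1
    have h2 : |y j2| ≤ 4 ^ s := abs_le.2 ⟨(hs1' j2 hi2).1, (hs1' j2 hi2).2.le⟩
    exact h1.trans h2
  -- the direction
  set k : I → ℤ := fun l => if l = i then 0 else ⌊y l * H / 4 ^ s⌋ with hk
  have hki : k i = 0 := by simp [hk]
  have hkl : ∀ l, l ≠ i → k l = ⌊y l * H / 4 ^ s⌋ := fun l hl => by simp only [hk, if_neg hl]
  have hk1 : k j1 = 0 := by rw [hkl j1 hi1]; simp [hy]
  have hfl : ∀ l, l ≠ i → (k l : ℝ) * (4 ^ s / H) ≤ y l ∧ y l < (k l + 1) * (4 ^ s / H) := by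
    intro l hl
    rw [hkl l hl]
    have h1 := Int.floor_le (y l * H / 4 ^ s)
    have h2 := Int.lt_floor_add_one (y l * H / 4 ^ s)
    rw [le_div_iff₀ hL] at h1
    rw [div_lt_iff₀ hL] at h2
    constructor
    · rw [← mul_div_assoc, div_le_iff₀ hH']; exact h1
    · rw [← mul_div_assoc, lt_div_iff₀ hH']; exact h2
  have hLH : 0 < (4 : ℝ) ^ s / H := div_pos hL hH'
  have hKS : KS H h D i j1 j2 k := by
    refine ⟨hki, hk1, fun l => ?_, fun a b ha hb' hab => ?_, ⟨l1, ?_⟩, ?_⟩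
    · by_cases hl : l = i
      · rw [hl, hki]
        omega
      · obtain ⟨g1, g2⟩ := hs1' l hl
        obtain ⟨g3, g4⟩ := hfl l hl
        have e1 : (4 : ℝ) ^ s = H * (4 ^ s / H) := by field_simp
        constructor
        · have h3 : -(H : ℝ) < k l + 1 := by
            have : (-(H : ℝ)) * (4 ^ s / H) < (k l + 1) * (4 ^ s / H) := by linarith
            exact lt_of_mul_lt_mul_right this hLH.le
          have h4 : -(H : ℤ) < k l + 1 := by exact_mod_cast h3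
          omega
        · have h3 : (k l : ℝ) < H := by
            have : (k l : ℝ) * (4 ^ s / H) < H * (4 ^ s / H) := by linarith
            exact lt_of_mul_lt_mul_right this hLH.le
          exact_mod_cast h3
    · -- distances
      have h1 := (B2 a b ha hb' hab).1
      have h2 : ε ^ (n + 1) / Λ i ^ 2 * (4 * (4 ^ s * (ε ^ 2 * Λ i ^ 2) / 4)) ≤
          ε ^ (n + 1) / Λ i ^ 2 * (4 * 1) := by
        have r0 := hΛp i
        refine mul_le_mul_of_nonneg_left ?_ (by positivity)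
        rw [le_div_iff₀ (by positivity)] at S1
        linarith
      have h3 : ε ^ (n + 1) / Λ i ^ 2 * (4 * (4 ^ s * (ε ^ 2 * Λ i ^ 2) / 4)) =
          ε ^ (n + 3) * 4 ^ s := by
        have r0 := (hΛp i).ne'
        field_simp
        ring
      have h4 : ε ^ (n + 3) * 4 ^ s ≤ 4 * |x a - x b| := by
        rw [← h3]
        refine h2.trans ?_
        linarith
      have h5 : |x a - x b| < (|(k a : ℝ) - k b| + 1) * (4 ^ s / H) := by
        obtain ⟨g1, g2⟩ := hfl a ha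
        obtain ⟨g3, g4⟩ := hfl b hb'
        have e1 : x a - x b = y a - y b := by simp only [hy]; ring
        rw [e1, abs_lt]
        have e2 := neg_abs_le ((k a : ℝ) - k b)
        have e3 := le_abs_self ((k a : ℝ) - k b)
        constructor <;> nlinarith
      have h6 : 4 * ((D : ℝ) + 1) * (4 ^ s / H) ≤ 4 * ((|(k a : ℝ) - k b| + 1) * (4 ^ s / H)) := by
        have e1 : 4 * ((D : ℝ) + 1) * (4 ^ s / H) ≤ (H * ε ^ (n + 3)) * (4 ^ s / H) :=
          mul_le_mul_of_nonneg_right hHD hLH.le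
        have e2 : (H * ε ^ (n + 3)) * (4 ^ s / H) = ε ^ (n + 3) * 4 ^ s := by field_simp
        linarith
      have h7 : ((D : ℝ) + 1) ≤ |(k a : ℝ) - k b| + 1 := by
        have : ((D : ℝ) + 1) * (4 ^ s / H) ≤ (|(k a : ℝ) - k b| + 1) * (4 ^ s / H) := by linarith
        exact le_of_mul_le_mul_right this hLH
      have h8 : (D : ℝ) ≤ ((|k a - k b| : ℤ) : ℝ) := by
        push_cast
        linarith
      exact_mod_cast h8
    · rintro ⟨g5, g6⟩
      obtain ⟨g3, g4⟩ := hfl l1 hl1.1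
      rw [hL1] at hl1'
      have e1 : (4 : ℝ) ^ s / 4 = h * (4 ^ s / H) := by rw [hHr]; field_simp
      rcases hl1' with h1 | h1
      · have h2 : (k l1 : ℝ) * (4 ^ s / H) < -h * (4 ^ s / H) := by linarith
        have h3 := lt_of_mul_lt_mul_right h2 hLH.le
        have h4 : k l1 < -(h : ℤ) := by exact_mod_cast h3
        omega
      · have h2 : (h : ℝ) * (4 ^ s / H) < (k l1 + 1) * (4 ^ s / H) := by linarith
        have h3 := lt_of_mul_lt_mul_right h2 hLH.le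
        have h4 : (h : ℤ) < k l1 + 1 := by exact_mod_cast h3
        omega
    · rw [hkl j2 hi2]
      refine Int.floor_nonneg.2 ?_
      have e1 : y j2 = -((dt (w j1) (w j2) : ℤ) : ℝ) / ((w j1).2 * (w j2).2) := by
        have := (hb j1 hi1).ne'
        have := (hb j2 hi2).ne'
        simp only [hy, hx]
        unfold dt
        push_cast
        field_simp
        ring
      have e2 : ((dt (w j1) (w j2) : ℤ) : ℝ) < 0 := by exact_mod_cast w4
      have p1 := hb j1 hi1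
      have p2 := hb j2 hi2
      have : 0 < y j2 := by rw [e1]; exact div_pos (by linarith) (by positivity)
      positivity
  -- the exponents
  have hrr : ∀ l, ∃ r : ℕ, l ≠ i → lam ^ r ≤ (w l).2 ∧ ((w l).2 : ℝ) < lam ^ (r + 1) := by
    intro l
    by_cases hl : l = i
    · exact ⟨0, fun h => absurd hl h⟩
    · have h1 : (1 : ℝ) ≤ (w l).2 := by exact_mod_cast w1 l hl
      obtain ⟨r, hr1, hr2⟩ := exists_nat_pow_near h1 hlam
      exact ⟨r, fun _ => ⟨hr1, hr2⟩⟩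
  choose rr hrr using hrr
  have hεn : ε ^ (n + 2) ≤ ε := by
    calc ε ^ (n + 2) ≤ ε ^ 1 := pow_le_pow_of_le_one hε.le hε1 (by omega)
      _ = ε := pow_one ε
  have R1 : ∀ l, l ≠ i → R0 ≤ rr l := by
    intro l hl
    have h1 := (B1 l hl).1
    have h2 := hN.h4.mul l hl
    have h3 : lam ^ (R0 + 1) < lam ^ (rr l + 1) := by
      calc lam ^ (R0 + 1) ≤ ε ^ (n + 2) * Real.sqrt (2 ^ M) := hMR
        _ ≤ ε * Real.sqrt (2 ^ M) := mul_le_mul_of_nonneg_right hεn hs0.le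
        _ ≤ ε * (Λ i * Λ l) := mul_le_mul_of_nonneg_left h2 hε.le
        _ ≤ (w l).2 := h1
        _ < _ := (hrr l hl).2
    have := (pow_lt_pow_iff_right₀ hlam).1 h3
    omega
  have R2 : ∀ σ : ℕ, s = -((σ : ℤ) + 1) → ∀ l, l ≠ i → R0 + 2 * J * (σ + 1) ≤ rr l := by
    intro σ hσ l hl
    have h1 := (B1 l hl).1
    have h2 := hN.h4.div l hl
    have r0 := hΛp i
    have rl := hΛp l
    have e1 : (4 : ℝ) ^ s = (lam ^ (2 * J * (σ + 1)))⁻¹ := by
      have : s = -((σ + 1 : ℕ) : ℤ) := by rw [hσ]; push_cast; ring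
      rw [this, zpow_neg, zpow_natCast, four_eq hJ, ← pow_mul]
    have h3 : lam ^ (R0 + 1) * lam ^ (2 * J * (σ + 1)) < lam ^ (rr l + 1) := by
      have e2 : lam ^ (R0 + 1) ≤ (w l).2 * 4 ^ s := by
        calc lam ^ (R0 + 1) ≤ ε ^ (n + 2) * Real.sqrt (2 ^ M) := hMR
          _ ≤ ε ^ (n + 2) * (Λ l / Λ i) := mul_le_mul_of_nonneg_left h2 (by positivity)
          _ = (ε * (Λ i * Λ l)) * (ε ^ (n + 1) / Λ i ^ 2) := by
              field_simp
              ring
          _ ≤ (w l).2 * 4 ^ s := mul_le_mul h1 S2 (by positivity) (hb l hl).le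
      have e3 : 0 < lam ^ (2 * J * (σ + 1)) := pow_pos hlam0 _
      calc lam ^ (R0 + 1) * lam ^ (2 * J * (σ + 1)) ≤
            ((w l).2 * 4 ^ s) * lam ^ (2 * J * (σ + 1)) := mul_le_mul_of_nonneg_right e2 e3.le
        _ = (w l).2 := by rw [e1]; field_simp
        _ < _ := (hrr l hl).2
    rw [← pow_add] at h3
    have := (pow_lt_pow_iff_right₀ hlam).1 h3
    omega
  obtain ⟨c, hc0, hcr, hcs⟩ : ∃ c : Bool × ℕ × (I → ℕ), c.2.2 i = 0 ∧
      (∀ l, l ≠ i → rOf R0 J c l = rr l) ∧ sOf c.1 c.2.1 = s := by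
    by_cases hs : 0 ≤ s
    · refine ⟨(true, s.toNat, fun l => if l = i then 0 else rr l - R0), by simp, fun l hl => ?_, ?_⟩
      · have := R1 l hl
        simp only [rOf, dOf, if_true, if_neg hl]
        omega
      · simp only [sOf, if_true]
        omega
    · push Not at hs
      have h1 : s = -(((-s - 1).toNat : ℤ) + 1) := by omega
      refine ⟨(false, (-s - 1).toNat, fun l => if l = i then 0 else
        rr l - (R0 + 2 * J * ((-s - 1).toNat + 1))), by simp, fun l hl => ?_, ?_⟩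
      · have := R2 _ h1 l hl
        simp only [rOf, dOf, Bool.false_eq_true, if_false, if_neg hl]
        omega
      · simp only [sOf, Bool.false_eq_true, if_false]
        omega
  refine ⟨w, c, k, hE, ⟨w0, w1, w2, w3, w4⟩, hc0, hKS, ?_⟩
  have hLc : Lc c = 4 ^ s := by unfold Lc; rw [hcs]
  unfold cel
  rw [mem_cell hi1]
  refine ⟨w0, ?_, fun l hl hl' => ?_⟩
  · rw [mem_Tz]
    have h1 := hrr j1 hi1
    unfold Xc
    rw [hcr j1 hi1, ← pow_succ']
    refine ⟨⟨h1.1, h1.2⟩, ?_, ?_⟩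
    · rw [mul_zero]; exact_mod_cast w2
    · rw [zero_add, mul_one]; exact_mod_cast w3
  · rw [mem_Tz, hLc]
    have h1 := hrr l hl
    unfold Xc
    rw [hcr l hl, ← pow_succ']
    refine ⟨⟨h1.1, h1.2⟩, ?_, ?_⟩
    · have g := (hfl l hl).1
      have hbl := hb l hl
      have e1 : ((w l).1 : ℝ) = (w l).2 * x l := by simp only [hx]; field_simp
      rw [e1]
      refine mul_le_mul_of_nonneg_left ?_ hbl.le
      have e2 : x l = x j1 + y l := by simp only [hy]; ring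
      rw [e2]
      have e3 : (4 : ℝ) ^ s * k l / H = k l * (4 ^ s / H) := by ring
      rw [e3]
      have e4 : ((w j1).1 : ℝ) / (w j1).2 = x j1 := rfl
      rw [e4]
      linarith
    · have g := (hfl l hl).2
      have hbl := hb l hl
      have e1 : ((w l).1 : ℝ) = (w l).2 * x l := by simp only [hx]; field_simp
      rw [e1]
      refine mul_lt_mul_of_pos_left ?_ hbl
      have e2 : x l = x j1 + y l := by simp only [hy]; ring
      rw [e2]
      have e3 : (4 : ℝ) ^ s * k l / H + 4 ^ s / H = (k l + 1) * (4 ^ s / H) := by ring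
      have e4 : ((w j1).1 : ℝ) / (w j1).2 = x j1 := rfl
      rw [e4, add_assoc, e3]
      linarith

/-- in a cell the base point has the smallest determinants -/
theorem cel_min {k : I → ℤ} {c : Bool × ℕ × (I → ℕ)} (hlam : 1 < lam) (hJ : lam ^ J = 2)
    (hi1 : j1 ≠ i) (hH : 0 < H) (hD : 1 < D) (hk : KS H h D i j1 j2 k)
    (hR : (H : ℝ) ≤ (1 - 1 / (D : ℝ)) * lam ^ R0)
    {w : I → ℤ × ℤ} (hw : w ∈ cel lam H R0 J i j1 c k) (i' l : I) (hi' : i' ≠ i) (hl : l ≠ i)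
    (hil : i' ≠ l) : (dt (w i) (w l)).natAbs < (dt (w i') (w l)).natAbs := by
  have hH' : (0 : ℝ) < H := by exact_mod_cast hH
  have hD' : (1 : ℝ) < D := by exact_mod_cast hD
  have hL := Lc_pos c
  have hss : Real.sqrt (Lc c) * Real.sqrt (Lc c) = Lc c := Real.mul_self_sqrt hL.le
  have hw0 := ((mem_cell hi1).1 hw).1
  have h1 := (brk hlam hi1 hH hk hD hw (i', l)).1
  have s1 := cel_size hlam hi1 hH hk hw i' hi'
  have s2 := cel_size hlam hi1 hH hk hw l hl
  have x1 := Xc_pos (R0 := R0) (J := J) (c := c) hlam i'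
  have x2 := Xc_pos (R0 := R0) (J := J) (c := c) hlam l
  have p1 : (0 : ℝ) < (w i').2 := by linarith
  have p2 : (0 : ℝ) < (w l).2 := by linarith
  have hD1 : 0 ≤ 1 - 1 / (D : ℝ) := by
    have : 1 / (D : ℝ) < 1 := by rw [div_lt_one (by linarith)]; exact hD'
    linarith
  have e1 : kap i (Lc c) w i' * kap i (Lc c) w l * gk H i k (i', l) =
      ((w i').2 * Lc c) * (|((k i' - k l : ℤ) : ℝ)| / H) * (w l).2 := by
    simp only [gk, kap, if_neg hi', if_neg hl]
    calc ((w i').2 : ℝ) * Real.sqrt (Lc c) * ((w l).2 * Real.sqrt (Lc c)) *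
        (|((k i' - k l : ℤ) : ℝ)| / H) = ((w i').2 : ℝ) *
        (Real.sqrt (Lc c) * Real.sqrt (Lc c)) * (|((k i' - k l : ℤ) : ℝ)| / H) * (w l).2 := by ring
      _ = _ := by rw [hss]
  have e2 : (2 : ℝ) ≤ |((k i' - k l : ℤ) : ℝ)| := by
    have := hk.2.2.2.1 i' l hi' hl hil
    have h3 : (2 : ℤ) ≤ |k i' - k l| := by omega
    rw [← Int.cast_abs]
    exact_mod_cast h3
  have e3 : lam ^ R0 ≤ (w i').2 * Lc c := by
    have := XL_ge (R0 := R0) (c := c) hlam hJ i'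
    nlinarith
  have hRp : 0 < lam ^ R0 := pow_pos (by linarith) _
  have e4 : ((w l).2 : ℝ) < |((dt (w i') (w l) : ℤ) : ℝ)| := by
    refine lt_of_lt_of_le ?_ h1
    simp only
    rw [e1]
    have e5 : (2 : ℝ) ≤ (1 - 1 / (D : ℝ)) * (((w i').2 * Lc c) * (|((k i' - k l : ℤ) : ℝ)| / H)) := by
      have e6 : (1 - 1 / (D : ℝ)) * (lam ^ R0 * (2 / H)) ≤
          (1 - 1 / (D : ℝ)) * (((w i').2 * Lc c) * (|((k i' - k l : ℤ) : ℝ)| / H)) := by
        refine mul_le_mul_of_nonneg_left ?_ hD1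
        refine mul_le_mul e3 ?_ (by positivity) (by positivity)
        exact div_le_div_of_nonneg_right e2 hH'.le
      refine le_trans ?_ e6
      have e7 : (1 - 1 / (D : ℝ)) * (lam ^ R0 * (2 / H)) = 2 * ((1 - 1 / (D : ℝ)) * lam ^ R0) / H := by
        ring
      rw [e7, le_div_iff₀ hH']
      linarith
    nlinarith
  have e5 : (((dt (w i) (w l)).natAbs : ℕ) : ℝ) < (((dt (w i') (w l)).natAbs : ℕ) : ℝ) := by
    rw [Nat.cast_natAbs, Nat.cast_natAbs]
    have e6 : dt (w i) (w l) = (w l).2 := by rw [hw0]; unfold dt; simp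
    rw [e6, Int.cast_abs, Int.cast_abs, abs_of_pos p2]
    exact e4
  exact_mod_cast e5

end

end Pool.Agent.Y714.MA
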