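import Pool.Agent.Y714.MA.Asm
import Pool.Agent.Y714.MA.Asy

set_option autoImplicit false
set_option linter.unusedSectionVars false
set_option linter.unusedSimpArgs false
set_option linter.unusedVariables false

/-! The two asymptotic bounds. -/

namespace Pool.Agent.Y714.MA

open Finset Filter Topology Pool.Agent.Y714.ML

theorem term_up (A u X : ℝ → ℝ) (a V c : ℝ) (ha : 0 ≤ a) (hV : 0 ≤ V) (hc : 0 ≤ c)
    (hA : Tendsto A atTop (𝓝 a)) (hX : ∀ᶠ B in atTop, 0 ≤ X B) (hu0 : ∀ᶠ B in atTop, 0 ≤ u B)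
    (hu : ∀ δ : ℝ, 0 < δ → ∀ᶠ B in atTop, u B ≤ (c + δ) * X B) (δ : ℝ) (hδ : 0 < δ) :
    ∀ᶠ B in atTop, A B * V * u B ≤ (a * V * c + δ) * X B := by
  set η : ℝ := min 1 (δ / ((a + c + 1) * V + 1)) with hη
  have hden : 0 < (a + c + 1) * V + 1 := by positivity
  have hη0 : 0 < η := lt_min one_pos (div_pos hδ hden)
  have hη1 : η ≤ 1 := min_le_left _ _
  have hη2 : η * ((a + c + 1) * V + 1) ≤ δ := by
    have : η ≤ δ / ((a + c + 1) * V + 1) := min_le_right _ _
    rwa [le_div_iff₀ hden] at this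
  filter_upwards [hu η hη0, hX, hu0, hA.eventually (gt_mem_nhds (show a < a + η by linarith))]
    with B h1 h2 h3 h4
  calc A B * V * u B ≤ (a + η) * V * ((c + η) * X B) := by
        have e1 : A B * V ≤ (a + η) * V := mul_le_mul_of_nonneg_right h4.le hV
        have e2 : 0 ≤ (a + η) * V := by positivity
        calc A B * V * u B ≤ (a + η) * V * u B := mul_le_mul_of_nonneg_right e1 h3
          _ ≤ _ := mul_le_mul_of_nonneg_left h1 e2
    _ = (a * V * c + η * ((a + c + η) * V)) * X B := by ring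
    _ ≤ (a * V * c + δ) * X B := by
        refine mul_le_mul_of_nonneg_right ?_ h2
        have : η * ((a + c + η) * V) ≤ η * ((a + c + 1) * V + 1) := by
          refine mul_le_mul_of_nonneg_left ?_ hη0.le
          have : (a + c + η) * V ≤ (a + c + 1) * V := mul_le_mul_of_nonneg_right (by linarith) hV
          linarith
        linarith

theorem term_lo (A E u X : ℝ → ℝ) (a e V c1 c2 : ℝ) (ha : 0 ≤ a) (he : 0 ≤ e) (hV : 0 ≤ V)
    (hc1 : 0 ≤ c1) (hc2 : 0 ≤ c2) (hA : Tendsto A atTop (𝓝 a)) (hE : Tendsto E atTop (𝓝 e))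
    (hA0 : ∀ᶠ B in atTop, 0 ≤ A B) (hE0 : ∀ᶠ B in atTop, 0 ≤ E B)
    (hX : ∀ᶠ B in atTop, 0 ≤ X B) (hu0 : ∀ᶠ B in atTop, 0 ≤ u B)
    (hu : ∀ δ : ℝ, 0 < δ → ∀ᶠ B in atTop, (c1 - δ) * X B ≤ u B ∧ u B ≤ (c2 + δ) * X B)
    (δ : ℝ) (hδ : 0 < δ) :
    ∀ᶠ B in atTop, (a * V * c1 - e * V * c2 - δ) * X B ≤ (A B - E B) * V * u B := by
  have h1 := term_up E u X e V c2 he hV hc2 hE hX hu0
    (fun δ hδ => (hu δ hδ).mono fun B h => h.2) (δ / 2) (half_pos hδ)
  set η : ℝ := min 1 (δ / 2 / ((a + c1 + 1) * V + 1)) with hη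
  have hden : 0 < (a + c1 + 1) * V + 1 := by positivity
  have hη0 : 0 < η := lt_min one_pos (div_pos (half_pos hδ) hden)
  have hη1 : η ≤ 1 := min_le_left _ _
  have hη2 : η * ((a + c1 + 1) * V + 1) ≤ δ / 2 := by
    have : η ≤ δ / 2 / ((a + c1 + 1) * V + 1) := min_le_right _ _
    rwa [le_div_iff₀ hden] at this
  filter_upwards [h1, hu η hη0, hX, hA0, hA.eventually (gt_mem_nhds (show a < a + η by linarith)),
    hA.eventually (lt_mem_nhds (show a - η < a by linarith))] with B g1 g2 g3 g4 g5 g6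
  have e1 : (a * V * c1 - δ / 2) * X B ≤ A B * V * u B := by
    have e2 : A B * V * ((c1 - η) * X B) ≤ A B * V * u B :=
      mul_le_mul_of_nonneg_left g2.1 (by positivity)
    have e3 : (a * V * c1 - δ / 2) ≤ A B * V * (c1 - η) := by
      have f1 : (a - η) * c1 ≤ A B * c1 := mul_le_mul_of_nonneg_right g6.le hc1
      have f2 : A B * η ≤ (a + η) * η := mul_le_mul_of_nonneg_right g5.le hη0.le
      have f3 : a * c1 - η * (a + c1 + 1) ≤ A B * (c1 - η) := by nlinarith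
      have f4 : (a * c1 - η * (a + c1 + 1)) * V ≤ A B * (c1 - η) * V :=
        mul_le_mul_of_nonneg_right f3 hV
      nlinarith
    calc (a * V * c1 - δ / 2) * X B ≤ (A B * V * (c1 - η)) * X B :=
          mul_le_mul_of_nonneg_right e3 g3
      _ = A B * V * ((c1 - η) * X B) := by ring
      _ ≤ _ := e2
  have e4 : (A B - E B) * V * u B = A B * V * u B - E B * V * u B := by ring
  rw [e4]
  have e5 : (a * V * c1 - e * V * c2 - δ) * X B =
      (a * V * c1 - δ / 2) * X B - (e * V * c2 + δ / 2) * X B := by ring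
  rw [e5]
  linarith

section

variable {I : Type} [Fintype I] [DecidableEq I]

/-- parameters independent of `B` -/
noncomputable def Par.q {n : ℕ} (pp : Par n) : ℝ := pp.lam ^ 2
noncomputable def Par.V0 {n : ℕ} (pp : Par n) : ℝ :=
  (pp.lam - 1) ^ (n - 1) * ((pp.H : ℝ)⁻¹) ^ (n - 2)
noncomputable def Par.CS {n : ℕ} (pp : Par n) : ℝ :=
  c0 n pp.J * (1 - pp.q⁻¹)⁻¹ * (1 / Real.log pp.q) ^ (n - 1)
noncomputable def Par.vp {n : ℕ} (pp : Par n) (Φ : ℝ) : ℝ := (1 - 1 / (pp.D : ℝ)) ^ n * Φ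
noncomputable def Par.vm {n : ℕ} (pp : Par n) (Φ : ℝ) : ℝ :=
  (1 + 1 / (pp.D : ℝ)) ^ n * pp.lam ^ (2 * (n - 1)) * Φ
noncomputable def Par.Y {n : ℕ} (pp : Par n) (B : ℝ) : ℝ :=
  (pp.lam - 1) * pp.lam ^ R0f B / pp.H
/-- the constant in the error term of the sieve -/
noncomputable def Cn (n : ℕ) : ℝ := (n + (n : ℝ) ^ 3) * (256 * 8 ^ n)

theorem Par.q_gt {n : ℕ} (pp : Par n) : 1 < pp.q := by
  unfold Par.q
  have := pp.hlam
  nlinarith

theorem Par.H_pos {n : ℕ} (pp : Par n) : (0 : ℝ) < pp.H := by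
  have := pp.hH
  have := pp.hh
  have : 0 < pp.H := by omega
  exact_mod_cast this

theorem Par.V0_pos {n : ℕ} (pp : Par n) : 0 < pp.V0 := by
  unfold Par.V0
  have := pp.hlam
  have : 0 < pp.lam - 1 := by linarith
  have := pp.H_pos
  positivity

theorem Par.CS_nonneg {n : ℕ} (pp : Par n) : 0 ≤ pp.CS := by
  unfold Par.CS
  have h1 := pp.q_gt
  have h2 : pp.q⁻¹ < 1 := inv_lt_one_of_one_lt₀ h1
  have h3 : 0 < Real.log pp.q := Real.log_pos h1
  have h4 := c0_nonneg n pp.J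
  have h5 : 0 < (1 - pp.q⁻¹)⁻¹ := inv_pos.2 (by linarith)
  positivity

theorem Par.D_lt {n : ℕ} (pp : Par n) : 0 < 1 - 1 / (pp.D : ℝ) := by
  have h1 : (1 : ℝ) < pp.D := by exact_mod_cast pp.hD
  have : 1 / (pp.D : ℝ) < 1 := by rw [div_lt_one (by linarith)]; exact h1
  linarith

theorem Par.vp_pos {n : ℕ} (pp : Par n) {Φ : ℝ} (hΦ : 0 < Φ) : 0 < pp.vp Φ := by
  unfold Par.vp
  have := pp.D_lt
  positivity

theorem Par.vm_pos {n : ℕ} (pp : Par n) {Φ : ℝ} (hΦ : 0 < Φ) : 0 < pp.vm Φ := by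
  unfold Par.vm
  have := pp.hlam
  have : 0 < pp.lam := by linarith
  positivity

theorem Par.Y_atTop {n : ℕ} (pp : Par n) : Tendsto pp.Y atTop atTop := by
  have h1 : Tendsto (fun k : ℕ => pp.lam ^ k) atTop atTop := tendsto_pow_atTop_atTop_of_one_lt pp.hlam
  have h2 := h1.comp R0f_atTop
  have h3 : 0 < (pp.lam - 1) / pp.H := div_pos (by linarith [pp.hlam]) pp.H_pos
  have h4 := h2.const_mul_atTop h3
  refine h4.congr fun B => ?_
  unfold Par.Y
  simp only [Function.comp_apply]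
  ring

theorem Par.logY {n : ℕ} (pp : Par n) : Tendsto (fun B => Real.log B / pp.Y B) atTop (𝓝 0) := by
  have h1 : Tendsto (fun k : ℕ => ((k : ℝ) ^ 2) / pp.lam ^ k) atTop (𝓝 0) :=
    tendsto_pow_const_div_const_pow_of_one_lt 2 pp.hlam
  have h2 : Tendsto (fun k : ℕ => pp.lam * pp.H / (pp.lam - 1) *
      ((((k + 1 : ℕ) : ℝ) ^ 2) / pp.lam ^ (k + 1))) atTop (𝓝 0) := by
    have := (h1.comp (tendsto_add_atTop_nat 1)).const_mul (pp.lam * pp.H / (pp.lam - 1))
    rw [mul_zero] at this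
    exact this
  have h3 := h2.comp R0f_atTop
  refine squeeze_zero' ?_ ?_ h3
  · filter_upwards [eventually_gt_atTop 1] with B hB
    have h4 : 0 < Real.log B := Real.log_pos hB
    unfold Par.Y
    have := pp.H_pos
    have := pp.hlam
    have : 0 < pp.lam - 1 := by linarith
    have : 0 < pp.lam := by linarith
    positivity
  · filter_upwards [eventually_gt_atTop 1] with B hB
    have h4 : 0 < Real.log B := Real.log_pos hB
    have h5 : Real.log B ≤ ((R0f B + 1 : ℕ) : ℝ) ^ 2 := by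
      have e1 : Real.sqrt (Real.log B) < R0f B + 1 := Nat.lt_floor_add_one _
      have e2 : Real.log B = Real.sqrt (Real.log B) ^ 2 := (Real.sq_sqrt h4.le).symm
      rw [e2]
      push_cast
      exact pow_le_pow_left₀ (Real.sqrt_nonneg _) e1.le 2
    have hH := pp.H_pos
    have hl := pp.hlam
    have hl1 : 0 < pp.lam - 1 := by linarith
    have hl0 : 0 < pp.lam := by linarith
    have hp : 0 < pp.lam ^ R0f B := pow_pos hl0 _
    simp only [Function.comp_apply]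
    unfold Par.Y
    rw [pow_succ pp.lam (R0f B)]
    have e3 : pp.lam * pp.H / (pp.lam - 1) * (((R0f B + 1 : ℕ) : ℝ) ^ 2 /
        (pp.lam ^ R0f B * pp.lam)) = ((R0f B + 1 : ℕ) : ℝ) ^ 2 /
        ((pp.lam - 1) * pp.lam ^ R0f B / pp.H) := by
      field_simp
    rw [e3]
    exact div_le_div_of_nonneg_right h5 (by positivity)

variable {X : Type} (dd : Dat I X) (pp : Par (Fintype.card I))

/-- the number of cells of given weight -/
noncomputable def Nw (i : I) (w : ℕ) : ℝ := ((IS pp.J i w).card : ℝ)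

/-- the density of the good residues -/
noncomputable def vth (i : I) : ℝ := ((Rs (tht dd.o) pp.P0 i).card : ℝ) *
  ((1 / ((pp.P0.factorial : ℕ) : ℝ)) ^ 2) ^ (Fintype.card I - 1)

theorem vth_nonneg (i : I) : 0 ≤ vth dd pp i := by unfold vth; positivity

theorem vth_le (i : I) : vth dd pp i ≤ 1 := by
  unfold vth
  have h1 := card_Rs (tht dd.o) pp.P0 i
  have hP : (0 : ℝ) < ((pp.P0.factorial : ℕ) : ℝ) := by exact_mod_cast Nat.factorial_pos _
  calc _ ≤ ((((pp.P0.factorial : ℕ) : ℝ)) ^ 2) ^ (Fintype.card I - 1) *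
        ((1 / ((pp.P0.factorial : ℕ) : ℝ)) ^ 2) ^ (Fintype.card I - 1) :=
        mul_le_mul_of_nonneg_right h1 (by positivity)
    _ = 1 := by
        rw [← mul_pow, ← mul_pow, mul_one_div_cancel hP.ne', one_pow, one_pow]

/-- the coefficient in the upper bound -/
noncomputable def Ap (i : I) (B : ℝ) : ℝ := ((Rs (tht dd.o) pp.P0 i).card : ℝ) *
  (pp.lam * (1 / ((pp.P0.factorial : ℕ) : ℝ) + 1 / pp.Y B) ^ 2) ^ (Fintype.card I - 1)

/-- the coefficient in the lower bound -/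
noncomputable def Am (i : I) (B : ℝ) : ℝ := ((Rs (tht dd.o) pp.P0 i).card : ℝ) *
  ((1 / ((pp.P0.factorial : ℕ) : ℝ) - 1 / pp.Y B) ^ 2) ^ (Fintype.card I - 1)

/-- the error coefficient in the lower bound -/
noncomputable def Em (Φ B : ℝ) : ℝ := Cn (Fintype.card I) * (1 / pp.P0 +
  ((4 * ⌊Real.log (B / pp.vm Φ) / Real.log pp.q⌋₊ + 4 : ℕ) : ℝ) / pp.Y B)

theorem Ap_tendsto (i : I) : Tendsto (Ap dd pp i) atTop
    (𝓝 (pp.lam ^ (Fintype.card I - 1) * vth dd pp i)) := by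
  have h1 : Tendsto (fun B => 1 / pp.Y B) atTop (𝓝 0) :=
    tendsto_const_nhds.div_atTop pp.Y_atTop
  have h2 := ((((h1.const_add (1 / ((pp.P0.factorial : ℕ) : ℝ))).pow 2).const_mul pp.lam).pow
    (Fintype.card I - 1)).const_mul ((Rs (tht dd.o) pp.P0 i).card : ℝ)
  rw [add_zero] at h2
  refine (h2.congr fun B => rfl).trans_eq ?_
  congr 1
  unfold vth
  rw [mul_pow]
  ring

theorem Am_tendsto (i : I) : Tendsto (Am dd pp i) atTop (𝓝 (vth dd pp i)) := by
  have h1 : Tendsto (fun B => 1 / pp.Y B) atTop (𝓝 0) :=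
    tendsto_const_nhds.div_atTop pp.Y_atTop
  have h2 := (((h1.const_sub (1 / ((pp.P0.factorial : ℕ) : ℝ))).pow 2).pow
    (Fintype.card I - 1)).const_mul ((Rs (tht dd.o) pp.P0 i).card : ℝ)
  rw [sub_zero] at h2
  exact h2

theorem Em_tendsto {Φ : ℝ} (hΦ : 0 < Φ) : Tendsto (Em pp Φ) atTop
    (𝓝 (Cn (Fintype.card I) * (1 / pp.P0))) := by
  have h1 := floor_tendsto pp.q_gt (pp.vm_pos hΦ)
  have h2 := h1.mul pp.logY
  rw [mul_zero] at h2
  have h3 : Tendsto (fun B => 4 / pp.Y B) atTop (𝓝 0) := tendsto_const_nhds.div_atTop pp.Y_atTop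
  have h4 := ((((h2.const_mul 4).add h3).const_add (1 / (pp.P0 : ℝ)))).const_mul
    (Cn (Fintype.card I))
  rw [mul_zero, add_zero, add_zero] at h4
  refine h4.congr' ?_
  filter_upwards [eventually_gt_atTop 1] with B hB
  have h5 : Real.log B ≠ 0 := (Real.log_pos hB).ne'
  unfold Em
  push_cast
  congr 2
  field_simp

end

end Pool.Agent.Y714.MA
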