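import Pool.Agent.Y714.MA.Lim

set_option autoImplicit false
set_option linter.unusedSectionVars false
set_option linter.unusedSimpArgs false
set_option linter.unusedVariables false

/-! The asymptotic formula. -/

namespace Pool.Agent.Y714.MA

open Finset Filter Topology Pool.Agent.Y714.ML

section

variable {I : Type} [Fintype I] [DecidableEq I] {X : Type} (dd : Dat I X)
  (pp : Par (Fintype.card I))

/-- the directions -/
noncomputable def KK (i : I) : Finset (I → ℤ) := KSf pp.H pp.h pp.D i (dd.j1 i) (dd.j2 i)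

theorem Phk_pos' (i : I) (k : I → ℤ) (hk : k ∈ KK dd pp i) : 0 < Phk pp.H i k := by
  have hn := dd.hn
  have hH0 : 0 < pp.H := by have := pp.hH; have := pp.hh; omega
  exact Phk_pos (by omega) hH0 (mem_KSf.1 hk) pp.hD

theorem sum_cells (i : I) (ρ : ℝ) (R0 T : ℕ) :
    ∑ w ∈ range (T + 1), ∑ c ∈ IS pp.J i w,
      ρ * (pp.V0 * pp.lam ^ (2 * ((Fintype.card I - 1) * R0 + w))) =
    ρ * pp.V0 * (pp.q ^ ((Fintype.card I - 1) * R0) *
      ∑ w ∈ range (T + 1), Nw pp i w * pp.q ^ w) := by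
  rw [mul_sum, mul_sum]
  refine sum_congr rfl fun w _ => ?_
  rw [sum_const, nsmul_eq_mul]
  unfold Nw Par.q
  rw [← pow_mul, ← pow_mul, mul_add, pow_add]
  ring

theorem cell_vol (i : I) (c : Bool × ℕ × (I → ℕ)) (hc : c.2.2 i = 0) (R0 w : ℕ)
    (hw : wtOf pp.J c = w) :
    ∏ l, vv pp.lam pp.H i (dd.j1 i) (Xc pp.lam R0 pp.J c) (Lc c) l =
      pp.V0 * pp.lam ^ (2 * ((Fintype.card I - 1) * R0 + w)) := by
  have hn := dd.hn
  have hH0 : 0 < pp.H := by have := pp.hH; have := pp.hh; omega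
  rw [prod_vv pp.hlam pp.hJ (by omega) hc (dd.h1 i) hH0, hw]
  rfl

theorem Y_ev : ∀ᶠ B in atTop, (pp.H : ℝ) ≤ (pp.lam - 1) * pp.lam ^ R0f B ∧
    ((pp.P0.factorial : ℕ) : ℝ) ≤ pp.Y B ∧ (pp.H : ℝ) ≤ (1 - 1 / (pp.D : ℝ)) * pp.lam ^ R0f B := by
  have hl := pp.hlam
  have hl1 : 0 < pp.lam - 1 := by linarith
  have h1 : Tendsto (fun k : ℕ => pp.lam ^ k) atTop atTop := tendsto_pow_atTop_atTop_of_one_lt hl
  have h2 := h1.comp R0f_atTop
  have h3 := h2.const_mul_atTop hl1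
  have h4 := h2.const_mul_atTop pp.D_lt
  filter_upwards [h3.eventually_ge_atTop (pp.H : ℝ), h4.eventually_ge_atTop (pp.H : ℝ),
    pp.Y_atTop.eventually_ge_atTop ((pp.P0.factorial : ℕ) : ℝ)] with B e1 e2 e3
  exact ⟨e1, e3, e2⟩

open Classical in
theorem Cs_upper (B : ℝ) (hY : (pp.H : ℝ) ≤ (pp.lam - 1) * pp.lam ^ R0f B) :
    Cs dd pp (R0f B) (fun i k => Tm pp.q (pp.vp (Phk pp.H i k)) (Fintype.card I - 1) B) ≤
      ∑ i : I, ∑ k ∈ KK dd pp i, Ap dd pp i B * pp.V0 *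
        Um (Nw pp i) pp.q (pp.vp (Phk pp.H i k)) (Fintype.card I - 1) B := by
  have hn := dd.hn
  have hH0 : 0 < pp.H := by have := pp.hH; have := pp.hh; omega
  unfold Cs
  refine sum_le_sum fun i _ => sum_le_sum fun k hk => ?_
  unfold Um
  rw [← sum_cells]
  refine sum_le_sum fun w _ => sum_le_sum fun c hc => ?_
  rw [mem_IS pp.hJ0 (by omega)] at hc
  have hcs := cel_csz (R0 := R0f B) (c := c) pp.hlam pp.hlam2 pp.hJ (dd.h1 i) hH0 hY
  have h1 := hcs.good_le (k := k) (tht dd.o) pp.P0 pp.hP0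
  rw [cell_vol dd pp i c hc.2 (R0f B) w hc.1] at h1
  exact h1

open Classical in
theorem Cs_lower (B : ℝ) (hY : (pp.H : ℝ) ≤ (pp.lam - 1) * pp.lam ^ R0f B)
    (hP : ((pp.P0.factorial : ℕ) : ℝ) ≤ pp.Y B)
    (hTm : ∀ i, ∀ k ∈ KK dd pp i, (Fintype.card I - 1) * R0f B +
      Tm pp.q (pp.vm (Phk pp.H i k)) (Fintype.card I - 1) B =
        ⌊Real.log (B / pp.vm (Phk pp.H i k)) / Real.log pp.q⌋₊) :
    ∑ i : I, ∑ k ∈ KK dd pp i, (Am dd pp i B - Em pp (Phk pp.H i k) B) * pp.V0 *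
        Um (Nw pp i) pp.q (pp.vm (Phk pp.H i k)) (Fintype.card I - 1) B ≤
    Cs dd pp (R0f B) (fun i k => Tm pp.q (pp.vm (Phk pp.H i k)) (Fintype.card I - 1) B) := by
  have hn := dd.hn
  have hH0 : 0 < pp.H := by have := pp.hH; have := pp.hh; omega
  unfold Cs
  refine sum_le_sum fun i _ => sum_le_sum fun k hk => ?_
  have hk' := mem_KSf.1 hk
  unfold Um
  rw [← sum_cells]
  refine sum_le_sum fun w hw => sum_le_sum fun c hc => ?_
  rw [mem_range] at hw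
  rw [mem_IS pp.hJ0 (by omega)] at hc
  have hcs := cel_csz (R0 := R0f B) (c := c) pp.hlam pp.hlam2 pp.hJ (dd.h1 i) hH0 hY
  have hW : (Fintype.card I - 1) * R0f B + wtOf pp.J c ≤
      ⌊Real.log (B / pp.vm (Phk pp.H i k)) / Real.log pp.q⌋₊ := by
    rw [← hTm i k hk, hc.1]
    omega
  have hdtk := cel_dtk (R0 := R0f B) (J := pp.J) (c := c) pp.hlam pp.hlam2 (dd.h1 i) hH0 pp.hJ0
      (by omega) hk' pp.hD hW
  have h1 := hcs.good_ge dd.o pp.P0 _ pp.hP0 hP hdtk hn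
  rw [cell_vol dd pp i c hc.2 (R0f B) w hc.1] at h1
  refine le_trans (le_of_eq ?_) h1
  unfold Am Em Cn Par.Y
  ring

/-- the two constants -/
noncomputable def Gp : ℝ := ∑ i : I, ∑ k ∈ KK dd pp i, vth dd pp i * pp.V0 * (pp.CS / Phk pp.H i k)
noncomputable def Ep : ℝ := ∑ i : I, ∑ k ∈ KK dd pp i, pp.V0 * (pp.CS / Phk pp.H i k)
noncomputable def kap1 : ℝ := (1 + 1 / (pp.D : ℝ)) ^ Fintype.card I *
  pp.lam ^ (2 * (Fintype.card I - 1)) * pp.q
noncomputable def kap2 : ℝ := pp.lam ^ (Fintype.card I - 1) / (1 - 1 / (pp.D : ℝ)) ^ Fintype.card I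
noncomputable def C3 (n : ℕ) : ℝ := 4 * (n : ℝ) ^ 3 * 18 ^ n * 4 ^ (n - 1) * 2 ^ n

theorem Gp_nonneg : 0 ≤ Gp dd pp := by
  unfold Gp
  refine sum_nonneg fun i _ => sum_nonneg fun k hk => ?_
  have h1 := vth_nonneg dd pp i
  have h2 := pp.V0_pos
  have h3 := pp.CS_nonneg
  have h4 := Phk_pos' dd pp i k hk
  positivity

theorem Ep_nonneg : 0 ≤ Ep dd pp := by
  unfold Ep
  refine sum_nonneg fun i _ => sum_nonneg fun k hk => ?_
  have h2 := pp.V0_pos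
  have h3 := pp.CS_nonneg
  have h4 := Phk_pos' dd pp i k hk
  positivity

/-- the normalisation -/
noncomputable def XB (n : ℕ) (B : ℝ) : ℝ := B * Real.log B ^ (n - 1)

theorem XB_pos (n : ℕ) : ∀ᶠ B in atTop, 0 < XB n B := by
  filter_upwards [eventually_gt_atTop 1] with B hB
  have := Real.log_pos hB
  unfold XB
  positivity

theorem Um_nonneg (i : I) (v B : ℝ) : 0 ≤ Um (Nw pp i) pp.q v (Fintype.card I - 1) B := by
  unfold Um
  have hq := pp.q_gt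
  have hq0 : 0 < pp.q := by linarith
  refine mul_nonneg (pow_pos hq0 _).le (sum_nonneg fun w _ => mul_nonneg ?_ (pow_pos hq0 _).le)
  exact Nat.cast_nonneg _

include dd in
theorem Um_b (i : I) {v : ℝ} (hv : 0 < v) (δ : ℝ) (hδ : 0 < δ) : ∀ᶠ B in atTop,
    (pp.CS / (v * pp.q) - δ) * XB (Fintype.card I) B ≤
      Um (Nw pp i) pp.q v (Fintype.card I - 1) B ∧
    Um (Nw pp i) pp.q v (Fintype.card I - 1) B ≤ (pp.CS / v + δ) * XB (Fintype.card I) B := by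
  have hn := dd.hn
  exact Um_bounds pp.q_gt hv (Fintype.card I - 1) (Nw pp i) (c0 (Fintype.card I) pp.J)
    (fun w => Nat.cast_nonneg _) (IS_tendsto pp.J i pp.hJ0 (by omega)) δ hδ

theorem sum_ev {ι κ : Type} (s : Finset ι) (t : ι → Finset κ) (F : ι → κ → ℝ → ℝ) (a : ι → κ → ℝ)
    (X : ℝ → ℝ) (hX : ∀ᶠ B in atTop, 0 < X B)
    (h : ∀ i ∈ s, ∀ k ∈ t i, ∀ δ : ℝ, 0 < δ → ∀ᶠ B in atTop, F i k B ≤ (a i k + δ) * X B)
    (δ : ℝ) (hδ : 0 < δ) :
    ∀ᶠ B in atTop, ∑ i ∈ s, ∑ k ∈ t i, F i k B ≤ ((∑ i ∈ s, ∑ k ∈ t i, a i k) + δ) * X B := by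
  classical
  obtain ⟨Nt, hNt⟩ : ∃ Nt : ℝ, Nt = ∑ i ∈ s, ((t i).card : ℝ) := ⟨_, rfl⟩
  have hN0 : 0 ≤ Nt := by rw [hNt]; exact sum_nonneg fun i _ => Nat.cast_nonneg _
  have hη : 0 < δ / (Nt + 1) := div_pos hδ (by linarith)
  have h1 : ∀ᶠ B in atTop, ∀ i ∈ s, ∀ k ∈ t i, F i k B ≤ (a i k + δ / (Nt + 1)) * X B := by
    rw [eventually_all_finset]
    intro i hi
    rw [eventually_all_finset]
    intro k hk
    exact h i hi k hk _ hη
  filter_upwards [h1, hX] with B h2 h3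
  have h4 : ∑ i ∈ s, ∑ k ∈ t i, F i k B ≤ ∑ i ∈ s, ∑ k ∈ t i, (a i k + δ / (Nt + 1)) * X B :=
    sum_le_sum fun i hi => sum_le_sum fun k hk => h2 i hi k hk
  refine h4.trans ?_
  have h5 : ∑ i ∈ s, ∑ k ∈ t i, (a i k + δ / (Nt + 1)) * X B =
      ((∑ i ∈ s, ∑ k ∈ t i, a i k) + Nt * (δ / (Nt + 1))) * X B := by
    rw [hNt, sum_mul s (fun i => ((t i).card : ℝ)), ← sum_add_distrib, sum_mul]
    refine sum_congr rfl fun i _ => ?_
    rw [← sum_mul, sum_add_distrib, sum_const, nsmul_eq_mul]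
  rw [h5]
  refine mul_le_mul_of_nonneg_right ?_ h3.le
  have h6 : Nt * (δ / (Nt + 1)) ≤ δ := by
    rw [← mul_div_assoc, div_le_iff₀ (by positivity)]
    nlinarith
  linarith

theorem main_sum_up (δ : ℝ) (hδ : 0 < δ) : ∀ᶠ B in atTop,
    ∑ i : I, ∑ k ∈ KK dd pp i, Ap dd pp i B * pp.V0 *
        Um (Nw pp i) pp.q (pp.vp (Phk pp.H i k)) (Fintype.card I - 1) B ≤
      (kap2 (I := I) pp * Gp dd pp + δ) * XB (Fintype.card I) B := by
  have hlam0 : 0 < pp.lam := by linarith [pp.hlam]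
  have h1 := sum_ev (univ : Finset I) (KK dd pp) (fun i k B => Ap dd pp i B * pp.V0 *
        Um (Nw pp i) pp.q (pp.vp (Phk pp.H i k)) (Fintype.card I - 1) B)
    (fun i k => (pp.lam ^ (Fintype.card I - 1) * vth dd pp i) * pp.V0 *
      (pp.CS / pp.vp (Phk pp.H i k))) (XB (Fintype.card I)) (XB_pos _) (fun i _ k hk δ hδ => by
    have hv := pp.vp_pos (Phk_pos' dd pp i k hk)
    refine term_up (Ap dd pp i) _ _ _ pp.V0 (pp.CS / pp.vp (Phk pp.H i k)) ?_ pp.V0_pos.le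
      (div_nonneg pp.CS_nonneg hv.le) (Ap_tendsto dd pp i) ((XB_pos _).mono fun B h => h.le)
      (Eventually.of_forall fun B => Um_nonneg pp i _ B)
      (fun δ hδ => (Um_b dd pp i hv δ hδ).mono fun B h => h.2) δ hδ
    exact mul_nonneg (pow_pos hlam0 _).le (vth_nonneg dd pp i)) δ hδ
  refine h1.mono fun B h => h.trans (le_of_eq ?_)
  congr 2
  unfold kap2 Gp
  rw [mul_sum]
  refine sum_congr rfl fun i _ => ?_
  rw [mul_sum]
  refine sum_congr rfl fun k hk => ?_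
  unfold Par.vp
  have g1 := (Phk_pos' dd pp i k hk).ne'
  have g2 : (1 - 1 / (pp.D : ℝ)) ^ Fintype.card I ≠ 0 := (pow_pos pp.D_lt _).ne'
  field_simp

end

end Pool.Agent.Y714.MA
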