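import Pool.Agent.Y714.MA.Lim2

set_option autoImplicit false
set_option linter.unusedSectionVars false
set_option linter.unusedSimpArgs false
set_option linter.unusedVariables false

/-! The asymptotic formula. -/

namespace Pool.Agent.Y714.MA

open Finset Filter Topology Pool.Agent.Y714.ML

section

variable {I : Type} [Fintype I] [DecidableEq I] {X : Type} (dd : Dat I X)
  (pp : Par (Fintype.card I))

theorem Cn_nonneg (n : ℕ) : 0 ≤ Cn n := by unfold Cn; positivity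

theorem main_sum_lo (δ : ℝ) (hδ : 0 < δ) : ∀ᶠ B in atTop,
    (Gp dd pp / kap1 (I := I) pp - Cn (Fintype.card I) / pp.P0 * Ep dd pp - δ) *
        XB (Fintype.card I) B ≤
    ∑ i : I, ∑ k ∈ KK dd pp i, (Am dd pp i B - Em pp (Phk pp.H i k) B) * pp.V0 *
        Um (Nw pp i) pp.q (pp.vm (Phk pp.H i k)) (Fintype.card I - 1) B := by
  have hlam0 : 0 < pp.lam := by linarith [pp.hlam]
  have hP0 : (0 : ℝ) < pp.P0 := by have := pp.hP0; exact_mod_cast (by omega : 0 < pp.P0)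
  have hq0 : 0 < pp.q := by linarith [pp.q_gt]
  have h1 := sum_ev (univ : Finset I) (KK dd pp) (fun i k B =>
      -((Am dd pp i B - Em pp (Phk pp.H i k) B) * pp.V0 *
        Um (Nw pp i) pp.q (pp.vm (Phk pp.H i k)) (Fintype.card I - 1) B))
    (fun i k => -(vth dd pp i * pp.V0 * (pp.CS / (pp.vm (Phk pp.H i k) * pp.q)) -
      (Cn (Fintype.card I) * (1 / pp.P0)) * pp.V0 * (pp.CS / pp.vm (Phk pp.H i k))))
    (XB (Fintype.card I)) (XB_pos _) (fun i _ k hk δ hδ => by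
    have hv := pp.vm_pos (Phk_pos' dd pp i k hk)
    have h := term_lo (Am dd pp i) (Em pp (Phk pp.H i k))
      (Um (Nw pp i) pp.q (pp.vm (Phk pp.H i k)) (Fintype.card I - 1)) (XB (Fintype.card I))
      (vth dd pp i) (Cn (Fintype.card I) * (1 / pp.P0)) pp.V0
      (pp.CS / (pp.vm (Phk pp.H i k) * pp.q)) (pp.CS / pp.vm (Phk pp.H i k)) (vth_nonneg dd pp i)
      (mul_nonneg (Cn_nonneg _) (by positivity)) pp.V0_pos.le
      (div_nonneg pp.CS_nonneg (mul_pos hv hq0).le) (div_nonneg pp.CS_nonneg hv.le)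
      (Am_tendsto dd pp i) (Em_tendsto pp (Phk_pos' dd pp i k hk))
      (Eventually.of_forall fun B => by unfold Am; positivity)
      ((pp.Y_atTop.eventually_gt_atTop 0).mono fun B hB => by
        unfold Em
        refine mul_nonneg (Cn_nonneg _) (add_nonneg (by positivity) ?_)
        exact div_nonneg (Nat.cast_nonneg _) hB.le)
      ((XB_pos _).mono fun B h => h.le)
      (Eventually.of_forall fun B => Um_nonneg pp i _ B)
      (fun δ hδ => Um_b dd pp i hv δ hδ) δ hδ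
    refine h.mono fun B hB => ?_
    linarith) δ hδ
  have h2 : Gp dd pp / kap1 (I := I) pp - Cn (Fintype.card I) / pp.P0 * Ep dd pp ≤
      ∑ i : I, ∑ k ∈ KK dd pp i, (vth dd pp i * pp.V0 * (pp.CS / (pp.vm (Phk pp.H i k) * pp.q)) -
      (Cn (Fintype.card I) * (1 / pp.P0)) * pp.V0 * (pp.CS / pp.vm (Phk pp.H i k))) := by
    unfold Gp Ep
    rw [sum_div, mul_sum, ← sum_sub_distrib]
    refine sum_le_sum fun i _ => ?_
    rw [sum_div, mul_sum, ← sum_sub_distrib]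
    refine sum_le_sum fun k hk => ?_
    have hΦ := Phk_pos' dd pp i k hk
    have hv := pp.vm_pos hΦ
    have hD : (0 : ℝ) < pp.D := by have := pp.hD; exact_mod_cast (by omega : 0 < pp.D)
    have e1 : vth dd pp i * pp.V0 * (pp.CS / (pp.vm (Phk pp.H i k) * pp.q)) =
        vth dd pp i * pp.V0 * (pp.CS / Phk pp.H i k) / kap1 (I := I) pp := by
      unfold kap1 Par.vm
      have g1 : (1 + 1 / (pp.D : ℝ)) ^ Fintype.card I ≠ 0 := by positivity
      field_simp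
    have e2 : Phk pp.H i k ≤ pp.vm (Phk pp.H i k) := by
      unfold Par.vm
      have g1 : (1 : ℝ) ≤ (1 + 1 / (pp.D : ℝ)) ^ Fintype.card I :=
        one_le_pow₀ (by have : 0 < 1 / (pp.D : ℝ) := by positivity
                        linarith)
      have g2 : (1 : ℝ) ≤ pp.lam ^ (2 * (Fintype.card I - 1)) := one_le_pow₀ pp.hlam.le
      have g3 : (1 : ℝ) ≤ (1 + 1 / (pp.D : ℝ)) ^ Fintype.card I *
          pp.lam ^ (2 * (Fintype.card I - 1)) := one_le_mul_of_one_le_of_one_le g1 g2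
      nlinarith
    have e3 : pp.CS / pp.vm (Phk pp.H i k) ≤ pp.CS / Phk pp.H i k :=
      div_le_div_of_nonneg_left pp.CS_nonneg hΦ e2
    have e4 : (Cn (Fintype.card I) * (1 / pp.P0)) * pp.V0 * (pp.CS / pp.vm (Phk pp.H i k)) ≤
        Cn (Fintype.card I) / pp.P0 * (pp.V0 * (pp.CS / Phk pp.H i k)) := by
      have f1 : 0 ≤ Cn (Fintype.card I) / pp.P0 * pp.V0 :=
        mul_nonneg (div_nonneg (Cn_nonneg _) hP0.le) pp.V0_pos.le
      calc (Cn (Fintype.card I) * (1 / pp.P0)) * pp.V0 * (pp.CS / pp.vm (Phk pp.H i k)) =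
          Cn (Fintype.card I) / pp.P0 * pp.V0 * (pp.CS / pp.vm (Phk pp.H i k)) := by ring
        _ ≤ Cn (Fintype.card I) / pp.P0 * pp.V0 * (pp.CS / Phk pp.H i k) :=
            mul_le_mul_of_nonneg_left e3 f1
        _ = _ := by ring
    linarith
  filter_upwards [h1, XB_pos (Fintype.card I)] with B h3 h4
  simp only [sum_neg_distrib] at h3
  have h5 := mul_le_mul_of_nonneg_right h2 h4.le
  nlinarith

/-- the two parameters of the exceptional set -/
noncomputable def Kf (n : ℕ) (B : ℝ) : ℕ := ⌊Real.log (2 ^ n * B) / Real.log 2⌋₊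
noncomputable def Mf (c1 : ℕ) (B : ℝ) : ℕ := 2 * (R0f B + c1)

theorem Kf_ev (n : ℕ) : ∀ᶠ B in atTop, (2 : ℝ) ^ n * B < 2 ^ (Kf n B + 1) ∧
    (2 : ℝ) ^ Kf n B ≤ 2 ^ n * B ∧ (2 * (Kf n B : ℝ) + 1) ≤ 4 * Real.log B := by
  have hl2 : 0 < Real.log 2 := Real.log_pos (by norm_num)
  have hl2' : 0.69 < Real.log 2 := by have := Real.log_two_gt_d9; linarith
  filter_upwards [eventually_gt_atTop 1,
    Real.tendsto_log_atTop.eventually_ge_atTop ((2 * n + 1 : ℝ) + (2 * n + 1 : ℝ))] with B hB hlog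
  have hB0 : 0 < B := by linarith
  have h2B : (1 : ℝ) < 2 ^ n * B := by
    have : (1 : ℝ) ≤ 2 ^ n := one_le_pow₀ (by norm_num)
    nlinarith
  have h2B0 : (0 : ℝ) < 2 ^ n * B := by linarith
  have h1 : (Kf n B : ℝ) ≤ Real.log (2 ^ n * B) / Real.log 2 :=
    Nat.floor_le (div_nonneg (Real.log_nonneg h2B.le) hl2.le)
  have h2 : Real.log (2 ^ n * B) / Real.log 2 < Kf n B + 1 := Nat.lt_floor_add_one _
  refine ⟨?_, ?_, ?_⟩
  · rw [← Real.rpow_natCast 2 (Kf n B + 1), ← Real.logb_lt_iff_lt_rpow (by norm_num) h2B0]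
    push_cast
    exact h2
  · rw [← Real.rpow_natCast 2 (Kf n B), ← Real.le_logb_iff_rpow_le (by norm_num) h2B0]
    exact h1
  · rw [Real.log_mul (by positivity) hB0.ne', Real.log_pow, add_div,
      mul_div_assoc, div_self hl2.ne', mul_one] at h1
    have h3 : Real.log B / Real.log 2 ≤ 1.5 * Real.log B := by
      rw [div_le_iff₀ hl2]
      have : 0 < Real.log B := Real.log_pos hB
      nlinarith
    linarith

theorem sqrt_Mf (c1 : ℕ) (B : ℝ) : Real.sqrt ((2 : ℝ) ^ Mf c1 B) = 2 ^ (R0f B + c1) := by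
  unfold Mf
  rw [pow_mul', Real.sqrt_sq (by positivity)]

theorem Mf_tendsto (c1 : ℕ) : Tendsto (fun B => (Mf c1 B : ℝ) / Real.log B) atTop (𝓝 0) := by
  have h1 := R0f_tendsto.const_mul 2
  have h2 : Tendsto (fun B => (2 * (c1 : ℝ)) / Real.log B) atTop (𝓝 0) :=
    tendsto_const_nhds.div_atTop Real.tendsto_log_atTop
  have h3 := h1.add h2
  rw [mul_zero, add_zero] at h3
  refine h3.congr fun B => ?_
  unfold Mf
  push_cast
  ring

theorem BX_ev' [DecidableEq X] (g : (I → ℤ × ℤ) → X) (hn : 5 ≤ Fintype.card I) (lam ε : ℝ)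
    (hlam : 1 < lam) (hlam2 : lam ≤ 2) (hε : 0 < ε) (hε2 : ε ≤ 1 / 2) (c1 : ℕ)
    (hc1 : 2 / ε ^ (Fintype.card I + 2) ≤ 2 ^ c1) (δ : ℝ)
    (hδ : 0 < δ) : ∀ᶠ B in atTop,
    lam ^ (R0f B + 1) ≤ ε ^ (Fintype.card I + 2) * Real.sqrt (2 ^ Mf c1 B) ∧
    ((BX g (Kf (Fintype.card I) B) (Mf c1 B) ε).card : ℝ) ≤
      (C3 (Fintype.card I) * ε + δ) * XB (Fintype.card I) B := by
  have hcard := fun K M => card_BX g K M ε hn hε (by linarith)
  obtain ⟨n, hnn⟩ : ∃ n, n = Fintype.card I := ⟨_, rfl⟩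
  rw [← hnn] at hn hc1 hcard ⊢
  have hε1 : ε ≤ 1 := by linarith
  have hεp : 0 < ε ^ (n + 2) := pow_pos hε _
  have hlam0 : 0 < lam := by linarith
  obtain ⟨C4, hC4⟩ : ∃ C4 : ℝ, C4 = 4 * (n : ℝ) ^ 4 * 15 ^ n * 4 ^ (n - 2) * 2 ^ n := ⟨_, rfl⟩
  have h0 : Tendsto (fun B => C4 * ((Mf c1 B : ℝ) / Real.log B)) atTop (𝓝 0) := by
    have := (Mf_tendsto c1).const_mul C4
    rwa [mul_zero] at this
  filter_upwards [Kf_ev n, h0.eventually (gt_mem_nhds hδ), eventually_gt_atTop 1] with B h1 h2 hB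
  obtain ⟨-, h3, h4⟩ := h1
  have hlog : 0 < Real.log B := Real.log_pos hB
  have hB0 : 0 < B := by linarith
  have h5 : lam ^ (R0f B + 1) ≤ ε ^ (n + 2) * Real.sqrt (2 ^ Mf c1 B) := by
    rw [sqrt_Mf]
    have e1 : lam ^ (R0f B + 1) ≤ 2 ^ (R0f B + 1) := pow_le_pow_left₀ hlam0.le hlam2 _
    have e2 : (2 : ℝ) ≤ 2 ^ c1 * ε ^ (n + 2) := by rwa [div_le_iff₀ hεp] at hc1
    calc lam ^ (R0f B + 1) ≤ 2 ^ (R0f B + 1) := e1
      _ = 2 ^ R0f B * 2 := pow_succ _ _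
      _ ≤ 2 ^ R0f B * (2 ^ c1 * ε ^ (n + 2)) := mul_le_mul_of_nonneg_left e2 (by positivity)
      _ = _ := by rw [pow_add]; ring
  refine ⟨h5, ?_⟩
  have hM : 1 ≤ ε ^ (n + 1) * Real.sqrt (2 ^ Mf c1 B) := by
    have e1 : (1 : ℝ) ≤ lam ^ (R0f B + 1) := one_le_pow₀ hlam.le
    refine e1.trans (h5.trans (mul_le_mul_of_nonneg_right ?_ (Real.sqrt_nonneg _)))
    exact pow_le_pow_of_le_one hε.le hε1 (by omega)
  have h6 := hcard (Kf n B) (Mf c1 B) hM
  refine h6.trans ?_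
  obtain ⟨KR, hKR⟩ : ∃ KR : ℝ, KR = 2 * (Kf n B : ℝ) + 1 := ⟨_, rfl⟩
  obtain ⟨MR, hMR⟩ : ∃ MR : ℝ, MR = (Mf c1 B : ℝ) := ⟨_, rfl⟩
  obtain ⟨TK, hTK⟩ : ∃ TK : ℝ, TK = 2 ^ Kf n B := ⟨_, rfl⟩
  have hMR0 : 0 ≤ MR := by rw [hMR]; positivity
  have hTK0 : 0 ≤ TK := by rw [hTK]; positivity
  have hK0 : (0 : ℝ) ≤ KR := by rw [hKR]; positivity
  rw [← hTK] at h3
  rw [← hKR] at h4
  rw [← hMR] at h2
  rw [← hKR, ← hTK, ← hMR]
  have h7 : KR ^ (n - 2) ≤ (4 * Real.log B) ^ (n - 2) := pow_le_pow_left₀ hK0 h4 _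
  have h8 : KR ^ (n - 1) ≤ (4 * Real.log B) ^ (n - 1) := pow_le_pow_left₀ hK0 h4 _
  have h9 : 4 * (n : ℝ) ^ 4 * 15 ^ n * MR * KR ^ (n - 2) * TK ≤ δ * XB n B := by
    calc 4 * (n : ℝ) ^ 4 * 15 ^ n * MR * KR ^ (n - 2) * TK
        ≤ 4 * (n : ℝ) ^ 4 * 15 ^ n * MR * (4 * Real.log B) ^ (n - 2) * (2 ^ n * B) := by
          gcongr
      _ = C4 * (MR / Real.log B) * XB n B := by
          have e1 : Real.log B ^ (n - 1) = Real.log B ^ (n - 2) * Real.log B := by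
            rw [← pow_succ]
            congr 1
            omega
          unfold XB
          rw [hC4, e1, mul_pow]
          have := hlog.ne'
          field_simp
      _ ≤ δ * XB n B := by
          refine mul_le_mul_of_nonneg_right h2.le ?_
          unfold XB
          positivity
  have h10 : 4 * (n : ℝ) ^ 3 * 18 ^ n * ε * KR ^ (n - 1) * TK ≤ C3 n * ε * XB n B := by
    calc 4 * (n : ℝ) ^ 3 * 18 ^ n * ε * KR ^ (n - 1) * TK
        ≤ 4 * (n : ℝ) ^ 3 * 18 ^ n * ε * (4 * Real.log B) ^ (n - 1) * (2 ^ n * B) := by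
          gcongr
      _ = _ := by
          unfold XB C3
          rw [mul_pow]
          ring
  rw [add_mul]
  linarith

theorem BX_ev [DecidableEq X] (c1 : ℕ) (hc1 : 2 / pp.ε ^ (Fintype.card I + 2) ≤ 2 ^ c1) (δ : ℝ)
    (hδ : 0 < δ) : ∀ᶠ B in atTop,
    pp.lam ^ (R0f B + 1) ≤ pp.ε ^ (Fintype.card I + 2) * Real.sqrt (2 ^ Mf c1 B) ∧
    ((BX dd.g (Kf (Fintype.card I) B) (Mf c1 B) pp.ε).card : ℝ) ≤
      (C3 (Fintype.card I) * pp.ε + δ) * XB (Fintype.card I) B :=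
  BX_ev' dd.g dd.hn pp.lam pp.ε pp.hlam pp.hlam2 pp.hε pp.hε2 c1 hc1 δ hδ

theorem main_up [DecidableEq X] (δ : ℝ) (hδ : 0 < δ) : ∀ᶠ B in atTop, (NB dd B).Finite ∧
    ((NB dd B).ncard : ℝ) ≤ (kap2 (I := I) pp * Gp dd pp + C3 (Fintype.card I) * pp.ε + δ) *
      XB (Fintype.card I) B := by
  have hn := dd.hn
  obtain ⟨c1, hc1⟩ := pow_unbounded_of_one_lt (2 / pp.ε ^ (Fintype.card I + 2))
    (by norm_num : (1 : ℝ) < 2)
  have h1 := BX_ev dd pp c1 hc1.le (δ / 2) (half_pos hδ)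
  have h2 := main_sum_up dd pp (δ / 2) (half_pos hδ)
  have h3 : ∀ᶠ B in atTop, ∀ i ∈ (univ : Finset I), ∀ k ∈ KK dd pp i,
      B / pp.vp (Phk pp.H i k) < pp.q ^ ((Fintype.card I - 1) * R0f B +
        Tm pp.q (pp.vp (Phk pp.H i k)) (Fintype.card I - 1) B + 1) := by
    rw [eventually_all_finset]
    intro i hi
    rw [eventually_all_finset]
    intro k hk
    have hv := pp.vp_pos (Phk_pos' dd pp i k hk)
    exact (q_pow pp.q_gt hv (Fintype.card I - 1)).mono fun B hB => hB.2.2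
  filter_upwards [h1, h2, h3, Kf_ev (Fintype.card I), Y_ev pp] with B g1 g2 g3 g4 g5
  obtain ⟨f1, f2⟩ := count_upper dd pp B (R0f B) (Mf c1 B) (Kf (Fintype.card I) B)
    (fun i k => Tm pp.q (pp.vp (Phk pp.H i k)) (Fintype.card I - 1) B) (fun i k hk w hw => by
      have hkk : k ∈ KK dd pp i := mem_KSf.2 hk
      have hv := pp.vp_pos (Phk_pos' dd pp i k hkk)
      have e1 := g3 i (mem_univ _) k hkk
      have e2 : pp.q ^ ((Fintype.card I - 1) * R0f B + w) ≤ B / pp.vp (Phk pp.H i k) := by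
        rw [le_div_iff₀ hv]
        refine le_trans (le_of_eq ?_) hw
        unfold Par.q Par.vp
        rw [← pow_mul]
        ring
      have e3 := lt_of_le_of_lt e2 e1
      have e4 := (pow_lt_pow_iff_right₀ pp.q_gt).1 e3
      omega) g4.1 g1.1
  refine ⟨f1, f2.trans ?_⟩
  have e5 := (Cs_upper dd pp B g5.1).trans g2
  have e6 := g1.2
  have e7 : (kap2 (I := I) pp * Gp dd pp + C3 (Fintype.card I) * pp.ε + δ) * XB (Fintype.card I) B =
      (kap2 (I := I) pp * Gp dd pp + δ / 2) * XB (Fintype.card I) B +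
      (C3 (Fintype.card I) * pp.ε + δ / 2) * XB (Fintype.card I) B := by ring
  rw [e7]
  linarith

theorem main_lo [DecidableEq X] (δ : ℝ) (hδ : 0 < δ) : ∀ᶠ B in atTop,
    (Gp dd pp / kap1 (I := I) pp - Cn (Fintype.card I) / pp.P0 * Ep dd pp - δ) *
        XB (Fintype.card I) B ≤ ((NB dd B).ncard : ℝ) := by
  have hn := dd.hn
  have h1 := main_up dd pp 1 one_pos
  have h2 := main_sum_lo dd pp δ hδ
  have h3 : ∀ᶠ B in atTop, ∀ i ∈ (univ : Finset I), ∀ k ∈ KK dd pp i,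
      ((Fintype.card I - 1) * R0f B + Tm pp.q (pp.vm (Phk pp.H i k)) (Fintype.card I - 1) B =
        ⌊Real.log (B / pp.vm (Phk pp.H i k)) / Real.log pp.q⌋₊) ∧
      pp.q ^ ((Fintype.card I - 1) * R0f B +
        Tm pp.q (pp.vm (Phk pp.H i k)) (Fintype.card I - 1) B) ≤ B / pp.vm (Phk pp.H i k) := by
    rw [eventually_all_finset]
    intro i hi
    rw [eventually_all_finset]
    intro k hk
    have hv := pp.vm_pos (Phk_pos' dd pp i k hk)
    exact (q_pow pp.q_gt hv (Fintype.card I - 1)).mono fun B hB => ⟨hB.1, hB.2.1⟩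
  filter_upwards [h1, h2, h3, Y_ev pp] with B g1 g2 g3 g5
  have e1 := Cs_lower dd pp B g5.1 g5.2.1 (fun i k hk => (g3 i (mem_univ _) k hk).1)
  have e2 := count_lower dd pp B (R0f B)
    (fun i k => Tm pp.q (pp.vm (Phk pp.H i k)) (Fintype.card I - 1) B) (fun i k hk => by
      have hkk : k ∈ KK dd pp i := mem_KSf.2 hk
      have hv := pp.vm_pos (Phk_pos' dd pp i k hkk)
      have e1 := (g3 i (mem_univ _) k hkk).2
      rw [le_div_iff₀ hv] at e1
      refine le_trans (le_of_eq ?_) e1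
      unfold Par.q Par.vm
      rw [← pow_mul]
      ring) g5.2.2 g1.1
  linarith

end

end Pool.Agent.Y714.MA
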