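import Pool.Agent.Y714.MA.Lim3

set_option autoImplicit false
set_option linter.unusedSectionVars false
set_option linter.unusedSimpArgs false
set_option linter.unusedVariables false

/-! The asymptotic formula. -/

namespace Pool.Agent.Y714.MA

open Finset Filter Topology Pool.Agent.Y714.ML

/-- the step -/
noncomputable def lam0 (ν : ℕ) : ℝ := (2 : ℝ) ^ (1 / ((ν : ℝ) + 1))

theorem lam0_gt (ν : ℕ) : 1 < lam0 ν := Real.one_lt_rpow (by norm_num) (by positivity)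

theorem lam0_le (ν : ℕ) : lam0 ν ≤ 2 := by
  unfold lam0
  calc (2 : ℝ) ^ (1 / ((ν : ℝ) + 1)) ≤ (2 : ℝ) ^ (1 : ℝ) := by
        refine Real.rpow_le_rpow_of_exponent_le (by norm_num) ?_
        rw [div_le_one (by positivity)]
        have : (0 : ℝ) ≤ ν := Nat.cast_nonneg _
        linarith
    _ = 2 := Real.rpow_one 2

theorem lam0_pow (ν : ℕ) : lam0 ν ^ (ν + 1) = 2 := by
  unfold lam0
  rw [← Real.rpow_natCast, ← Real.rpow_mul (by norm_num)]
  push_cast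
  rw [one_div_mul_cancel (by positivity), Real.rpow_one]

theorem lam0_tendsto : Tendsto lam0 atTop (𝓝 1) := by
  have h1 : Tendsto (fun x : ℝ => (2 : ℝ) ^ x) (𝓝 0) (𝓝 ((2 : ℝ) ^ (0 : ℝ))) :=
    (Real.continuous_const_rpow (by norm_num : (2 : ℝ) ≠ 0)).tendsto 0
  rw [Real.rpow_zero] at h1
  exact h1.comp (tendsto_one_div_add_atTop_nhds_zero_nat (𝕜 := ℝ))

theorem D_tendsto : Tendsto (fun ν : ℕ => 1 / ((ν + 2 : ℕ) : ℝ)) atTop (𝓝 0) := by
  have h1 := (tendsto_one_div_add_atTop_nhds_zero_nat (𝕜 := ℝ)).comp (tendsto_add_atTop_nat 1)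
  refine h1.congr fun ν => ?_
  simp only [Function.comp_apply]
  push_cast
  congr 1
  ring

/-- the parameters -/
noncomputable def mkPar (n ν h P : ℕ) (ε : ℝ) (h1 : 0 < ε) (h2 : ε ≤ 1 / 2) (h3 : 0 < h)
    (h4 : 2 ≤ P) (h5 : 4 * (((ν + 2 : ℕ) : ℝ) + 1) ≤ ((4 * h : ℕ) : ℝ) * ε ^ (n + 3)) : Par n where
  lam := lam0 ν
  J := ν + 1
  H := 4 * h
  h := h
  D := ν + 2
  P0 := P
  ε := ε
  hlam := lam0_gt ν
  hlam2 := lam0_le ν
  hJ := lam0_pow ν
  hJ0 := Nat.succ_pos _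
  hH := rfl
  hh := h3
  hD := by omega
  hP0 := h4
  hε := h1
  hε2 := h2
  hHD := h5

theorem exists_h (n ν : ℕ) (ε : ℝ) (h1 : 0 < ε) : ∃ h : ℕ, 0 < h ∧
    4 * (((ν + 2 : ℕ) : ℝ) + 1) ≤ ((4 * h : ℕ) : ℝ) * ε ^ (n + 3) := by
  obtain ⟨h, hh⟩ := exists_nat_ge ((((ν + 2 : ℕ) : ℝ) + 1) / ε ^ (n + 3))
  have hp : 0 < ε ^ (n + 3) := pow_pos h1 _
  refine ⟨h + 1, Nat.succ_pos _, ?_⟩
  rw [div_le_iff₀ hp] at hh
  push_cast at hh ⊢
  nlinarith

/-- the two multiplicative errors -/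
noncomputable def kp1 (n ν : ℕ) : ℝ := (1 + 1 / ((ν + 2 : ℕ) : ℝ)) ^ n *
  lam0 ν ^ (2 * (n - 1)) * lam0 ν ^ 2
noncomputable def kp2 (n ν : ℕ) : ℝ := lam0 ν ^ (n - 1) / (1 - 1 / ((ν + 2 : ℕ) : ℝ)) ^ n

theorem kp1_tendsto (n : ℕ) : Tendsto (kp1 n) atTop (𝓝 1) := by
  have h1 := (((D_tendsto.const_add 1).pow n).mul (lam0_tendsto.pow (2 * (n - 1)))).mul
    (lam0_tendsto.pow 2)
  rw [add_zero, one_pow, one_pow, one_pow, mul_one, mul_one] at h1
  exact h1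

theorem kp2_tendsto (n : ℕ) : Tendsto (kp2 n) atTop (𝓝 1) := by
  have h0 : (1 : ℝ) ≠ 0 := one_ne_zero
  have h1 := ((D_tendsto.const_sub 1).pow n)
  rw [sub_zero, one_pow] at h1
  have h2 := (lam0_tendsto.pow (n - 1)).div h1 h0
  rw [one_pow, div_one] at h2
  exact h2

theorem kp1_pos (n ν : ℕ) : 0 < kp1 n ν := by
  have := lam0_gt ν
  have : 0 < lam0 ν := by linarith
  unfold kp1
  positivity

section

variable {I : Type} [Fintype I] [DecidableEq I] {X : Type} (dd : Dat I X)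

/-- the counting function divided by its order of magnitude -/
noncomputable def fB (B : ℝ) : ℝ := ((NB dd B).ncard : ℝ) / XB (Fintype.card I) B

theorem key [DecidableEq X] (pp : Par (Fintype.card I)) (δ : ℝ) (hδ : 0 < δ) : ∀ᶠ B in atTop,
    Gp dd pp / kap1 (I := I) pp - Cn (Fintype.card I) / pp.P0 * Ep dd pp - δ ≤ fB dd B ∧
    fB dd B ≤ kap2 (I := I) pp * Gp dd pp + C3 (Fintype.card I) * pp.ε + δ := by
  filter_upwards [main_up dd pp δ hδ, main_lo dd pp δ hδ, XB_pos (Fintype.card I)] with B h1 h2 h3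
  unfold fB
  exact ⟨(le_div_iff₀ h3).2 h2, (div_le_iff₀ h3).2 h1.2⟩

theorem main_bdd [DecidableEq X] : ∃ C : ℝ, 0 ≤ C ∧ ∀ᶠ B in atTop, fB dd B ≤ C := by
  obtain ⟨h, hh, hh'⟩ := exists_h (Fintype.card I) 0 (1 / 2) (by norm_num)
  have h1 := key dd (mkPar (Fintype.card I) 0 h 2 (1 / 2) (by norm_num) le_rfl hh le_rfl hh') 1
    one_pos
  refine ⟨max _ 0, le_max_right _ _, h1.mono fun B hB => hB.2.trans (le_max_left _ _)⟩

theorem main_fin [DecidableEq X] : ∀ᶠ B in atTop, (NB dd B).Finite := by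
  obtain ⟨h, hh, hh'⟩ := exists_h (Fintype.card I) 0 (1 / 2) (by norm_num)
  have h1 := main_up dd (mkPar (Fintype.card I) 0 h 2 (1 / 2) (by norm_num) le_rfl hh le_rfl hh') 1
    one_pos
  exact h1.mono fun B hB => hB.1

theorem main_lim [DecidableEq X] : ∃ c, Tendsto (fB dd) atTop (𝓝 c) := by
  obtain ⟨C, hC0, hC⟩ := main_bdd dd
  refine exists_lim _ fun δ0 hδ0 => ?_
  obtain ⟨n, hn⟩ : ∃ n, n = Fintype.card I := ⟨_, rfl⟩
  have hC3 : 0 ≤ C3 n := by unfold C3; positivity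
  have hCn : 0 ≤ Cn n := Cn_nonneg n
  -- the parameter `ε`
  obtain ⟨ε, hε, hε2, hε3⟩ : ∃ ε : ℝ, 0 < ε ∧ ε ≤ 1 / 2 ∧ C3 n * ε ≤ δ0 / 8 := by
    refine ⟨min (1 / 2) (δ0 / 8 / (C3 n + 1)), lt_min (by norm_num) (by positivity),
      min_le_left _ _, ?_⟩
    have h1 : min (1 / 2) (δ0 / 8 / (C3 n + 1)) ≤ δ0 / 8 / (C3 n + 1) := min_le_right _ _
    calc C3 n * min (1 / 2) (δ0 / 8 / (C3 n + 1)) ≤ C3 n * (δ0 / 8 / (C3 n + 1)) :=
          mul_le_mul_of_nonneg_left h1 hC3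
      _ ≤ (C3 n + 1) * (δ0 / 8 / (C3 n + 1)) := by
          refine mul_le_mul_of_nonneg_right (by linarith) (by positivity)
      _ = δ0 / 8 := by field_simp
  -- the parameter `ν`
  have hk1 := kp1_tendsto n
  have hk2 : Tendsto (fun ν => kp2 n ν - 1 / kp1 n ν) atTop (𝓝 0) := by
    have h1 := (kp2_tendsto n).sub (tendsto_const_nhds.div hk1 one_ne_zero :
      Tendsto (fun ν => (1 : ℝ) / kp1 n ν) atTop (𝓝 (1 / 1)))
    rw [div_one, sub_self] at h1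
    exact h1
  have hη : 0 < δ0 / 8 / (2 * (C + 2)) := by positivity
  obtain ⟨ν, hν1, hν2⟩ := ((hk1.eventually (gt_mem_nhds (by norm_num : (1 : ℝ) < 2))).and
    (hk2.eventually (gt_mem_nhds hη))).exists
  obtain ⟨h, hh, hh'⟩ := exists_h n ν ε hε
  subst hn
  -- the parameter `P`
  obtain ⟨E, hE⟩ : ∃ E, E = Ep dd (mkPar (Fintype.card I) ν h 2 ε hε hε2 hh le_rfl hh') := ⟨_, rfl⟩
  have hE0 : 0 ≤ E := by rw [hE]; exact Ep_nonneg _ _
  have hm : 0 < min 1 (δ0 / 8) := lt_min one_pos (by positivity)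
  obtain ⟨P, hP⟩ := exists_nat_ge (max 2 (Cn (Fintype.card I) * E / min 1 (δ0 / 8)))
  have hP2 : 2 ≤ P := by exact_mod_cast (le_max_left _ _).trans hP
  have hP0 : (0 : ℝ) < P := by exact_mod_cast (by omega : 0 < P)
  have hP3 : Cn (Fintype.card I) / P * E ≤ min 1 (δ0 / 8) := by
    have h1 := (le_max_right _ _).trans hP
    rw [div_le_iff₀ hm] at h1
    rw [div_mul_eq_mul_div, div_le_iff₀ hP0]
    linarith
  obtain ⟨pp, hpp⟩ : ∃ pp, pp = mkPar (Fintype.card I) ν h P ε hε hε2 hh hP2 hh' := ⟨_, rfl⟩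
  have hEp : Ep dd pp = E := by rw [hpp, hE]; rfl
  have hPP : (pp.P0 : ℝ) = P := by rw [hpp]; rfl
  have hkap1 : kap1 (I := I) pp = kp1 (Fintype.card I) ν := by rw [hpp]; rfl
  have hkap2 : kap2 (I := I) pp = kp2 (Fintype.card I) ν := by rw [hpp]; rfl
  have hεε : pp.ε = ε := by rw [hpp]; rfl
  have h1 := key dd pp (δ0 / 8) (by positivity)
  have h2 := key dd pp 1 one_pos
  rw [hEp, hPP, hkap1, hkap2, hεε] at h1 h2
  have hG0 : 0 ≤ Gp dd pp := Gp_nonneg dd pp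
  obtain ⟨G, hG⟩ : ∃ G, G = Gp dd pp := ⟨_, rfl⟩
  rw [← hG] at h1 h2 hG0
  have hk0 := kp1_pos (Fintype.card I) ν
  have hG2 : G ≤ 2 * (C + 2) := by
    obtain ⟨B, hB1, hB2⟩ := (h2.and hC).exists
    have h3 := hB1.1.trans hB2
    have h4 : Cn (Fintype.card I) / P * E ≤ 1 := hP3.trans (min_le_left _ _)
    have h5 : G / kp1 (Fintype.card I) ν ≤ C + 2 := by linarith
    rw [div_le_iff₀ hk0] at h5
    have h6 : (C + 2) * kp1 (Fintype.card I) ν ≤ (C + 2) * 2 :=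
      mul_le_mul_of_nonneg_left hν1.le (by linarith)
    linarith
  refine ⟨_, _, ?_, h1⟩
  have h7 : G * (kp2 (Fintype.card I) ν - 1 / kp1 (Fintype.card I) ν) ≤ δ0 / 8 := by
    by_cases hneg : kp2 (Fintype.card I) ν - 1 / kp1 (Fintype.card I) ν ≤ 0
    · have := mul_nonpos_of_nonneg_of_nonpos hG0 hneg
      have : 0 < δ0 / 8 := by positivity
      linarith
    · push Not at hneg
      calc G * (kp2 (Fintype.card I) ν - 1 / kp1 (Fintype.card I) ν) ≤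
          (2 * (C + 2)) * (δ0 / 8 / (2 * (C + 2))) :=
            mul_le_mul hG2 hν2.le hneg.le (by linarith)
        _ = δ0 / 8 := by field_simp
  have h8 : Cn (Fintype.card I) / P * E ≤ δ0 / 8 := hP3.trans (min_le_right _ _)
  have h9 : G * (kp2 (Fintype.card I) ν - 1 / kp1 (Fintype.card I) ν) =
      kp2 (Fintype.card I) ν * G - G / kp1 (Fintype.card I) ν := by
    rw [mul_sub, mul_one_div]
    ring
  linarith

end

end Pool.Agent.Y714.MA
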