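import Pool.Agent.Y714.MA.AsmF
import Pool.Agent.Y714.MA.Lim4

set_option autoImplicit false
set_option linter.unusedSectionVars false
set_option linter.unusedSimpArgs false
set_option linter.unusedVariables false

/-! The asymptotic bounds for twisted heights. -/

namespace Pool.Agent.Y714.MA

open Finset Filter Topology Pool.Agent.Y714.ML

theorem Tm_anti {q v v' B : ℝ} (hq : 1 < q) (hv : 0 < v) (hvv : v ≤ v') (hB : 0 < B) (m : ℕ) :
    Tm q v' m B ≤ Tm q v m B := by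
  unfold Tm
  refine Nat.sub_le_sub_right (Nat.floor_le_floor ?_) _
  refine div_le_div_of_nonneg_right ?_ (Real.log_pos hq).le
  refine Real.log_le_log (div_pos hB (lt_of_lt_of_le hv hvv)) ?_
  exact div_le_div_of_nonneg_left hB.le hv hvv

section

variable {I : Type} [Fintype I] [DecidableEq I] {X : Type} (dd : Dat I X)
  (pp : Par (Fintype.card I)) (T : Tws dd) (η : ℝ) (Fb : I → (I → ℤ) → (I → ℤ × ℤ) → ℝ)

/-- the local height constants -/
noncomputable def Ph (i : I) (κ : (I → ℤ) × (I → ℤ × ℤ)) : ℝ := Phk pp.H i κ.1 * Fb i κ.1 κ.2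

/-- the coefficients -/
noncomputable def vl (n P : ℕ) : ℝ := ((1 / ((P.factorial : ℕ) : ℝ)) ^ 2) ^ (n - 1)
noncomputable def A1 (B : ℝ) : ℝ :=
  (pp.lam * (1 / ((pp.P0.factorial : ℕ) : ℝ) + 1 / pp.Y B) ^ 2) ^ (Fintype.card I - 1)
noncomputable def A2 (B : ℝ) : ℝ :=
  ((1 / ((pp.P0.factorial : ℕ) : ℝ) - 1 / pp.Y B) ^ 2) ^ (Fintype.card I - 1)

theorem A1_tendsto : Tendsto (A1 (I := I) pp) atTop
    (𝓝 (pp.lam ^ (Fintype.card I - 1) * vl (Fintype.card I) pp.P0)) := by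
  have h1 : Tendsto (fun B => 1 / pp.Y B) atTop (𝓝 0) :=
    tendsto_const_nhds.div_atTop pp.Y_atTop
  have h2 := (((h1.const_add (1 / ((pp.P0.factorial : ℕ) : ℝ))).pow 2).const_mul pp.lam).pow
    (Fintype.card I - 1)
  rw [add_zero] at h2
  refine (h2.congr fun B => rfl).trans_eq ?_
  congr 1
  unfold vl
  rw [mul_pow]

theorem A2_tendsto : Tendsto (A2 (I := I) pp) atTop (𝓝 (vl (Fintype.card I) pp.P0)) := by
  have h1 : Tendsto (fun B => 1 / pp.Y B) atTop (𝓝 0) :=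
    tendsto_const_nhds.div_atTop pp.Y_atTop
  have h2 := ((h1.const_sub (1 / ((pp.P0.factorial : ℕ) : ℝ))).pow 2).pow (Fintype.card I - 1)
  rw [sub_zero] at h2
  exact h2

theorem A1_nonneg (B : ℝ) : 0 ≤ A1 (I := I) pp B := by
  unfold A1
  have := pp.hlam
  have : 0 < pp.lam := by linarith
  positivity

theorem A2_nonneg (B : ℝ) : 0 ≤ A2 (I := I) pp B := by
  unfold A2
  positivity

theorem vl_nonneg (n P : ℕ) : 0 ≤ vl n P := by unfold vl; positivity

open Classical in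
theorem Cr_upper (B : ℝ) (hY : (pp.H : ℝ) ≤ (pp.lam - 1) * pp.lam ^ R0f B) :
    Cr dd pp (R0f B) (fun i κ => Tm pp.q (pp.vp (Ph pp Fb i κ / (1 + η))) (Fintype.card I - 1) B) ≤
      ∑ i : I, ∑ κ ∈ KR dd pp i, A1 (I := I) pp B * pp.V0 *
        Um (Nw pp i) pp.q (pp.vp (Ph pp Fb i κ / (1 + η))) (Fintype.card I - 1) B := by
  have hn := dd.hn
  have hH0 : 0 < pp.H := by have := pp.hH; have := pp.hh; omega
  unfold Cr
  refine sum_le_sum fun i _ => sum_le_sum fun κ hκ => ?_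
  unfold Um
  rw [← sum_cells]
  refine sum_le_sum fun w _ => sum_le_sum fun c hc => ?_
  rw [mem_IS pp.hJ0 (by omega)] at hc
  have hcs := cel_csz (R0 := R0f B) (c := c) pp.hlam pp.hlam2 pp.hJ (dd.h1 i) hH0 hY
  have h1 := hcs.gr_le (k := κ.1) (tht dd.o) pp.P0 κ.2
  rw [cell_vol dd pp i c hc.2 (R0f B) w hc.1] at h1
  exact h1

open Classical in
theorem Cr_lower (hη : 0 < η) (hFb : FbP pp T η Fb) (B : ℝ) (hB : 0 < B)
    (hY : (pp.H : ℝ) ≤ (pp.lam - 1) * pp.lam ^ R0f B)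
    (hP : ((pp.P0.factorial : ℕ) : ℝ) ≤ pp.Y B)
    (hTm : ∀ i, ∀ k ∈ KK dd pp i, (Fintype.card I - 1) * R0f B +
      Tm pp.q (pp.vm (Phk pp.H i k * T.a)) (Fintype.card I - 1) B =
        ⌊Real.log (B / pp.vm (Phk pp.H i k * T.a)) / Real.log pp.q⌋₊) :
    ∑ i : I, ∑ κ ∈ KR dd pp i, A2 (I := I) pp B * pp.V0 *
        Um (Nw pp i) pp.q (pp.vm (Ph pp Fb i κ * (1 + η))) (Fintype.card I - 1) B -
      ∑ i : I, ∑ k ∈ KK dd pp i, Em pp (Phk pp.H i k * T.a) B * pp.V0 *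
        Um (Nw pp i) pp.q (pp.vm (Phk pp.H i k * T.a)) (Fintype.card I - 1) B ≤
    Cr dd pp (R0f B) (fun i κ => Tm pp.q (pp.vm (Ph pp Fb i κ * (1 + η)))
      (Fintype.card I - 1) B) := by
  have hn := dd.hn
  have hH0 : 0 < pp.H := by have := pp.hH; have := pp.hh; omega
  have hta := T.ha
  unfold Cr
  rw [← sum_sub_distrib]
  refine sum_le_sum fun i _ => ?_
  -- the bad elements
  set bad : (Bool × ℕ × (I → ℕ)) → (I → ℤ) → (I → ℤ × ℤ) → ℝ := fun c k ρ =>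
    (((cel pp.lam pp.H (R0f B) pp.J i (dd.j1 i) c k).filter fun w => (Gd (tht dd.o) pp.P0 w ∧
      ¬ Good (tht dd.o) w) ∧ Cg pp.P0.factorial w ρ).card : ℝ) with hbad
  have hbad0 : ∀ c k ρ, 0 ≤ bad c k ρ := fun c k ρ => Nat.cast_nonneg _
  have h1 : ∀ κ ∈ KR dd pp i, A2 (I := I) pp B * pp.V0 *
        Um (Nw pp i) pp.q (pp.vm (Ph pp Fb i κ * (1 + η))) (Fintype.card I - 1) B ≤
      ∑ w ∈ range (Tm pp.q (pp.vm (Ph pp Fb i κ * (1 + η))) (Fintype.card I - 1) B + 1),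
        ∑ c ∈ IS pp.J i w, ((Gr dd pp (R0f B) i c κ).card : ℝ) +
      ∑ w ∈ range (Tm pp.q (pp.vm (Ph pp Fb i κ * (1 + η))) (Fintype.card I - 1) B + 1),
        ∑ c ∈ IS pp.J i w, bad c κ.1 κ.2 := by
    intro κ hκ
    unfold Um
    rw [← sum_cells, ← sum_add_distrib]
    refine sum_le_sum fun w _ => ?_
    rw [← sum_add_distrib]
    refine sum_le_sum fun c hc => ?_
    rw [mem_IS pp.hJ0 (by omega)] at hc
    have hcs := cel_csz (R0 := R0f B) (c := c) pp.hlam pp.hlam2 pp.hJ (dd.h1 i) hH0 hY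
    have h1 := hcs.gr_ge (k := κ.1) (tht dd.o) pp.P0 pp.hP0 hP (mem_product.1 hκ).2
    rw [cell_vol dd pp i c hc.2 (R0f B) w hc.1] at h1
    exact h1
  have h2 : ∑ κ ∈ KR dd pp i,
      ∑ w ∈ range (Tm pp.q (pp.vm (Ph pp Fb i κ * (1 + η))) (Fintype.card I - 1) B + 1),
        ∑ c ∈ IS pp.J i w, bad c κ.1 κ.2 ≤
      ∑ k ∈ KK dd pp i, Em pp (Phk pp.H i k * T.a) B * pp.V0 *
        Um (Nw pp i) pp.q (pp.vm (Phk pp.H i k * T.a)) (Fintype.card I - 1) B := by
    calc ∑ κ ∈ KR dd pp i,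
        ∑ w ∈ range (Tm pp.q (pp.vm (Ph pp Fb i κ * (1 + η))) (Fintype.card I - 1) B + 1),
          ∑ c ∈ IS pp.J i w, bad c κ.1 κ.2 ≤ ∑ κ ∈ KR dd pp i,
        ∑ w ∈ range (Tm pp.q (pp.vm (Phk pp.H i κ.1 * T.a)) (Fintype.card I - 1) B + 1),
          ∑ c ∈ IS pp.J i w, bad c κ.1 κ.2 := by
          refine sum_le_sum fun κ hκ => ?_
          refine sum_le_sum_of_subset_of_nonneg ?_ fun w _ _ => sum_nonneg fun c _ => hbad0 _ _ _
          refine range_subset_range.2 (Nat.add_le_add_right ?_ 1)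
          have hΦ : 0 < Phk pp.H i κ.1 := Phk_pos' dd pp i κ.1 (mem_product.1 hκ).1
          refine Tm_anti pp.q_gt (pp.vm_pos (mul_pos hΦ hta)) ?_ hB _
          have e1 : Phk pp.H i κ.1 * T.a ≤ Ph pp Fb i κ * (1 + η) := by
            unfold Ph
            have e2 := hFb.1 i κ.1 κ.2
            have e3 : T.a ≤ Fb i κ.1 κ.2 * (1 + η) := by nlinarith
            calc Phk pp.H i κ.1 * T.a ≤ Phk pp.H i κ.1 * (Fb i κ.1 κ.2 * (1 + η)) :=
                  mul_le_mul_of_nonneg_left e3 hΦ.le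
              _ = _ := by ring
          unfold Par.vm
          refine mul_le_mul_of_nonneg_left e1 ?_
          have := pp.hlam
          have : 0 < pp.lam := by linarith
          positivity
      _ = ∑ k ∈ KK dd pp i,
        ∑ w ∈ range (Tm pp.q (pp.vm (Phk pp.H i k * T.a)) (Fintype.card I - 1) B + 1),
          ∑ c ∈ IS pp.J i w, ∑ ρ ∈ Rs (tht dd.o) pp.P0 i, bad c k ρ := by
          unfold KR KK
          rw [sum_product]
          refine sum_congr rfl fun k _ => ?_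
          dsimp only
          rw [sum_comm]
          refine sum_congr rfl fun w _ => ?_
          rw [sum_comm]
      _ ≤ _ := by
          refine sum_le_sum fun k hk => ?_
          have hk' := mem_KSf.1 hk
          unfold Um
          rw [← sum_cells]
          refine sum_le_sum fun w hw => sum_le_sum fun c hc => ?_
          rw [mem_range] at hw
          rw [mem_IS pp.hJ0 (by omega)] at hc
          have hcs := cel_csz (R0 := R0f B) (c := c) pp.hlam pp.hlam2 pp.hJ (dd.h1 i) hH0 hY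
          have hW : (Fintype.card I - 1) * R0f B + wtOf pp.J c ≤
              ⌊Real.log (B / pp.vm (Phk pp.H i k * T.a)) / Real.log pp.q⌋₊ := by
            rw [← hTm i k hk, hc.1]
            omega
          have hdtk := cel_dtk (R0 := R0f B) (J := pp.J) (c := c) pp.hlam pp.hlam2 (dd.h1 i) hH0
            pp.hJ0 (by omega) hk' pp.hD hW
          have h1 := hcs.sum_bad_le dd.o pp.P0 _ pp.hP0 hdtk hn
          rw [cell_vol dd pp i c hc.2 (R0f B) w hc.1] at h1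
          refine h1.trans (le_of_eq ?_)
          unfold Em Cn Par.Y
          ring
  have h3 := sum_le_sum h1
  rw [sum_add_distrib] at h3
  linarith

/-- the main constant -/
noncomputable def GF : ℝ := ∑ i : I, ∑ κ ∈ KR dd pp i,
  vl (Fintype.card I) pp.P0 * pp.V0 * (pp.CS / Ph pp Fb i κ)

variable {Fb} {T}

theorem Ph_pos (hFb : FbP pp T η Fb) {i : I} {κ : (I → ℤ) × (I → ℤ × ℤ)}
    (hκ : κ ∈ KR dd pp i) : 0 < Ph pp Fb i κ :=
  mul_pos (Phk_pos' dd pp i κ.1 (mem_product.1 hκ).1) (lt_of_lt_of_le T.ha (hFb.1 i κ.1 κ.2))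

theorem GF_nonneg (hFb : FbP pp T η Fb) : 0 ≤ GF dd pp Fb := by
  unfold GF
  refine sum_nonneg fun i _ => sum_nonneg fun κ hκ => ?_
  have h1 := vl_nonneg (Fintype.card I) pp.P0
  have h2 := pp.V0_pos
  have h3 := pp.CS_nonneg
  have h4 := Ph_pos dd pp η hFb hκ
  positivity

theorem sumF_up (hη : 0 < η) (hFb : FbP pp T η Fb) (δ : ℝ) (hδ : 0 < δ) : ∀ᶠ B in atTop,
    ∑ i : I, ∑ κ ∈ KR dd pp i, A1 (I := I) pp B * pp.V0 *
        Um (Nw pp i) pp.q (pp.vp (Ph pp Fb i κ / (1 + η))) (Fintype.card I - 1) B ≤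
      (kap2 (I := I) pp * (1 + η) * GF dd pp Fb + δ) * XB (Fintype.card I) B := by
  have hlam0 : 0 < pp.lam := by linarith [pp.hlam]
  have hη1 : 0 < 1 + η := by linarith
  have h1 := sum_ev (univ : Finset I) (KR dd pp) (fun i κ B => A1 (I := I) pp B * pp.V0 *
        Um (Nw pp i) pp.q (pp.vp (Ph pp Fb i κ / (1 + η))) (Fintype.card I - 1) B)
    (fun i κ => (pp.lam ^ (Fintype.card I - 1) * vl (Fintype.card I) pp.P0) * pp.V0 *
      (pp.CS / pp.vp (Ph pp Fb i κ / (1 + η)))) (XB (Fintype.card I)) (XB_pos _)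
      (fun i _ κ hκ δ hδ => by
    have hv := pp.vp_pos (div_pos (Ph_pos dd pp η hFb hκ) hη1)
    refine term_up (A1 (I := I) pp) _ _ _ pp.V0 (pp.CS / pp.vp (Ph pp Fb i κ / (1 + η))) ?_
      pp.V0_pos.le
      (div_nonneg pp.CS_nonneg hv.le) (A1_tendsto pp) ((XB_pos _).mono fun B h => h.le)
      (Eventually.of_forall fun B => Um_nonneg pp i _ B)
      (fun δ hδ => (Um_b dd pp i hv δ hδ).mono fun B h => h.2) δ hδ
    exact mul_nonneg (pow_pos hlam0 _).le (vl_nonneg _ _)) δ hδ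
  refine h1.mono fun B h => h.trans (le_of_eq ?_)
  congr 2
  unfold kap2 GF
  rw [mul_sum]
  refine sum_congr rfl fun i _ => ?_
  rw [mul_sum]
  refine sum_congr rfl fun κ hκ => ?_
  unfold Par.vp
  have g1 := (Ph_pos dd pp η hFb hκ).ne'
  have g2 : (1 - 1 / (pp.D : ℝ)) ^ Fintype.card I ≠ 0 := (pow_pos pp.D_lt _).ne'
  field_simp

theorem vm_ge {Φ : ℝ} (hΦ : 0 < Φ) : Φ ≤ pp.vm Φ := by
  have hD : (0 : ℝ) < pp.D := by have := pp.hD; exact_mod_cast (by omega : 0 < pp.D)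
  unfold Par.vm
  have g1 : (1 : ℝ) ≤ (1 + 1 / (pp.D : ℝ)) ^ Fintype.card I :=
    one_le_pow₀ (by have : 0 < 1 / (pp.D : ℝ) := by positivity
                    linarith)
  have g2 : (1 : ℝ) ≤ pp.lam ^ (2 * (Fintype.card I - 1)) := one_le_pow₀ pp.hlam.le
  have g3 : (1 : ℝ) ≤ (1 + 1 / (pp.D : ℝ)) ^ Fintype.card I *
      pp.lam ^ (2 * (Fintype.card I - 1)) := one_le_mul_of_one_le_of_one_le g1 g2
  nlinarith

theorem sumF_lo (hη : 0 < η) (hFb : FbP pp T η Fb) (δ : ℝ) (hδ : 0 < δ) : ∀ᶠ B in atTop,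
    (GF dd pp Fb / (kap1 (I := I) pp * (1 + η)) - δ) * XB (Fintype.card I) B ≤
    ∑ i : I, ∑ κ ∈ KR dd pp i, A2 (I := I) pp B * pp.V0 *
        Um (Nw pp i) pp.q (pp.vm (Ph pp Fb i κ * (1 + η))) (Fintype.card I - 1) B := by
  have hlam0 : 0 < pp.lam := by linarith [pp.hlam]
  have hη1 : 0 < 1 + η := by linarith
  have hq0 : 0 < pp.q := by linarith [pp.q_gt]
  have hD : (0 : ℝ) < pp.D := by have := pp.hD; exact_mod_cast (by omega : 0 < pp.D)
  have h1 := sum_ev (univ : Finset I) (KR dd pp) (fun i κ B =>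
      -(A2 (I := I) pp B * pp.V0 *
        Um (Nw pp i) pp.q (pp.vm (Ph pp Fb i κ * (1 + η))) (Fintype.card I - 1) B))
    (fun i κ => -(vl (Fintype.card I) pp.P0 * pp.V0 *
      (pp.CS / (pp.vm (Ph pp Fb i κ * (1 + η)) * pp.q))))
    (XB (Fintype.card I)) (XB_pos _) (fun i _ κ hκ δ hδ => by
    have hv := pp.vm_pos (mul_pos (Ph_pos dd pp η hFb hκ) hη1)
    have h := term_lo (A2 (I := I) pp) (fun _ => 0)
      (Um (Nw pp i) pp.q (pp.vm (Ph pp Fb i κ * (1 + η))) (Fintype.card I - 1))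
      (XB (Fintype.card I))
      (vl (Fintype.card I) pp.P0) 0 pp.V0
      (pp.CS / (pp.vm (Ph pp Fb i κ * (1 + η)) * pp.q)) (pp.CS / pp.vm (Ph pp Fb i κ * (1 + η)))
      (vl_nonneg _ _)
      le_rfl pp.V0_pos.le
      (div_nonneg pp.CS_nonneg (mul_pos hv hq0).le) (div_nonneg pp.CS_nonneg hv.le)
      (A2_tendsto pp) tendsto_const_nhds
      (Eventually.of_forall fun B => A2_nonneg pp B)
      (Eventually.of_forall fun B => le_rfl)
      ((XB_pos _).mono fun B h => h.le)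
      (Eventually.of_forall fun B => Um_nonneg pp i _ B)
      (fun δ hδ => Um_b dd pp i hv δ hδ) δ hδ
    refine h.mono fun B hB => ?_
    rw [sub_zero, zero_mul, zero_mul, sub_zero] at hB
    linarith) δ hδ
  have h2 : GF dd pp Fb / (kap1 (I := I) pp * (1 + η)) =
      ∑ i : I, ∑ κ ∈ KR dd pp i, (vl (Fintype.card I) pp.P0 * pp.V0 *
      (pp.CS / (pp.vm (Ph pp Fb i κ * (1 + η)) * pp.q))) := by
    unfold GF
    rw [sum_div]
    refine sum_congr rfl fun i _ => ?_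
    rw [sum_div]
    refine sum_congr rfl fun κ hκ => ?_
    have g0 := (Ph_pos dd pp η hFb hκ).ne'
    unfold kap1 Par.vm
    have g1 : (1 + 1 / (pp.D : ℝ)) ^ Fintype.card I ≠ 0 := by positivity
    field_simp
  filter_upwards [h1] with B h3
  simp only [sum_neg_distrib] at h3
  rw [h2]
  nlinarith

theorem sumE_up (δ : ℝ) (hδ : 0 < δ) : ∀ᶠ B in atTop,
    ∑ i : I, ∑ k ∈ KK dd pp i, Em pp (Phk pp.H i k * T.a) B * pp.V0 *
        Um (Nw pp i) pp.q (pp.vm (Phk pp.H i k * T.a)) (Fintype.card I - 1) B ≤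
      (Cn (Fintype.card I) / pp.P0 * (Ep dd pp / T.a) + δ) * XB (Fintype.card I) B := by
  have hP0 : (0 : ℝ) < pp.P0 := by have := pp.hP0; exact_mod_cast (by omega : 0 < pp.P0)
  have hta := T.ha
  have h1 := sum_ev (univ : Finset I) (KK dd pp) (fun i k B =>
      Em pp (Phk pp.H i k * T.a) B * pp.V0 *
        Um (Nw pp i) pp.q (pp.vm (Phk pp.H i k * T.a)) (Fintype.card I - 1) B)
    (fun i k => (Cn (Fintype.card I) * (1 / pp.P0)) * pp.V0 *
      (pp.CS / pp.vm (Phk pp.H i k * T.a))) (XB (Fintype.card I)) (XB_pos _)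
      (fun i _ k hk δ hδ => by
    have hΦ := mul_pos (Phk_pos' dd pp i k hk) hta
    have hv := pp.vm_pos hΦ
    exact term_up (Em pp (Phk pp.H i k * T.a)) _ _ (Cn (Fintype.card I) * (1 / pp.P0)) pp.V0
      (pp.CS / pp.vm (Phk pp.H i k * T.a)) (mul_nonneg (Cn_nonneg _) (by positivity))
      pp.V0_pos.le
      (div_nonneg pp.CS_nonneg hv.le) (Em_tendsto pp hΦ) ((XB_pos _).mono fun B h => h.le)
      (Eventually.of_forall fun B => Um_nonneg pp i _ B)
      (fun δ hδ => (Um_b dd pp i hv δ hδ).mono fun B h => h.2) δ hδ) δ hδ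
  have h0 : ∑ i : I, ∑ k ∈ KK dd pp i, (Cn (Fintype.card I) * (1 / pp.P0)) * pp.V0 *
      (pp.CS / pp.vm (Phk pp.H i k * T.a)) ≤ Cn (Fintype.card I) / pp.P0 * (Ep dd pp / T.a) := by
    unfold Ep
    rw [sum_div, mul_sum]
    refine sum_le_sum fun i _ => ?_
    rw [sum_div, mul_sum]
    refine sum_le_sum fun k hk => ?_
    have hΦ := Phk_pos' dd pp i k hk
    have hΦa := mul_pos hΦ hta
    have e3 : pp.CS / pp.vm (Phk pp.H i k * T.a) ≤ pp.CS / (Phk pp.H i k * T.a) :=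
      div_le_div_of_nonneg_left pp.CS_nonneg hΦa (vm_ge pp hΦa)
    have f1 : 0 ≤ Cn (Fintype.card I) / pp.P0 * pp.V0 :=
      mul_nonneg (div_nonneg (Cn_nonneg _) hP0.le) pp.V0_pos.le
    calc (Cn (Fintype.card I) * (1 / pp.P0)) * pp.V0 * (pp.CS / pp.vm (Phk pp.H i k * T.a)) =
        Cn (Fintype.card I) / pp.P0 * pp.V0 * (pp.CS / pp.vm (Phk pp.H i k * T.a)) := by ring
      _ ≤ Cn (Fintype.card I) / pp.P0 * pp.V0 * (pp.CS / (Phk pp.H i k * T.a)) :=
          mul_le_mul_of_nonneg_left e3 f1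
      _ = _ := by
          field_simp
  filter_upwards [h1, XB_pos (Fintype.card I)] with B h2 h3
  exact h2.trans (mul_le_mul_of_nonneg_right (by linarith) h3.le)

end

end Pool.Agent.Y714.MA
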