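import Pool.Agent.Y714.MA.LimF

set_option autoImplicit false
set_option linter.unusedSectionVars false
set_option linter.unusedSimpArgs false
set_option linter.unusedVariables false

/-! The asymptotic formula for twisted heights. -/

namespace Pool.Agent.Y714.MA

open Finset Filter Topology Pool.Agent.Y714.ML

theorem KfA_ev (n : ℕ) (a : ℝ) (ha : 0 < a) : ∀ᶠ B in atTop,
    (2 : ℝ) ^ n * (B / a) < 2 ^ (Kf n (B / a) + 1) ∧
    (2 : ℝ) ^ Kf n (B / a) ≤ 2 ^ n * (B / a) ∧ (2 * (Kf n (B / a) : ℝ) + 1) ≤ 4 * Real.log B := by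
  have hl2 : 0 < Real.log 2 := Real.log_pos (by norm_num)
  have hl2' : 0.69 < Real.log 2 := by have := Real.log_two_gt_d9; linarith
  filter_upwards [eventually_gt_atTop 1, eventually_gt_atTop a,
    Real.tendsto_log_atTop.eventually_ge_atTop ((2 * n + 1 : ℝ) + 3 * |Real.log a|)]
    with B hB hBa hlog
  have hB0 : 0 < B := by linarith
  have hBa1 : 1 < B / a := by rw [lt_div_iff₀ ha]; linarith
  have h2B : (1 : ℝ) < 2 ^ n * (B / a) := by
    have : (1 : ℝ) ≤ 2 ^ n := one_le_pow₀ (by norm_num)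
    nlinarith
  have h2B0 : (0 : ℝ) < 2 ^ n * (B / a) := by linarith
  have h1 : (Kf n (B / a) : ℝ) ≤ Real.log (2 ^ n * (B / a)) / Real.log 2 :=
    Nat.floor_le (div_nonneg (Real.log_nonneg h2B.le) hl2.le)
  have h2 : Real.log (2 ^ n * (B / a)) / Real.log 2 < Kf n (B / a) + 1 := Nat.lt_floor_add_one _
  refine ⟨?_, ?_, ?_⟩
  · rw [← Real.rpow_natCast 2 (Kf n (B / a) + 1), ← Real.logb_lt_iff_lt_rpow (by norm_num) h2B0]
    push_cast
    exact h2
  · rw [← Real.rpow_natCast 2 (Kf n (B / a)), ← Real.le_logb_iff_rpow_le (by norm_num) h2B0]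
    exact h1
  · rw [Real.log_mul (by positivity) (by positivity), Real.log_pow, add_div,
      mul_div_assoc, div_self hl2.ne', mul_one, Real.log_div hB0.ne' ha.ne'] at h1
    have habs := neg_abs_le (Real.log a)
    have h3 : (Real.log B - Real.log a) / Real.log 2 ≤ 1.5 * (Real.log B + |Real.log a|) := by
      rw [div_le_iff₀ hl2]
      have : 0 < Real.log B := Real.log_pos hB
      have := abs_nonneg (Real.log a)
      nlinarith
    linarith

section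

variable {I : Type} [Fintype I] [DecidableEq I] {X : Type} (dd : Dat I X)
  (pp : Par (Fintype.card I)) (T : Tws dd) (η : ℝ)

theorem BXA_ev [DecidableEq X] (g : (I → ℤ × ℤ) → X) (hn : 5 ≤ Fintype.card I) (lam ε a : ℝ)
    (ha : 0 < a)
    (hlam : 1 < lam) (hlam2 : lam ≤ 2) (hε : 0 < ε) (hε2 : ε ≤ 1 / 2) (c1 : ℕ)
    (hc1 : 2 / ε ^ (Fintype.card I + 2) ≤ 2 ^ c1) (δ : ℝ)
    (hδ : 0 < δ) : ∀ᶠ B in atTop,
    lam ^ (R0f B + 1) ≤ ε ^ (Fintype.card I + 2) * Real.sqrt (2 ^ Mf c1 B) ∧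
    ((BX g (Kf (Fintype.card I) (B / a)) (Mf c1 B) ε).card : ℝ) ≤
      (C3 (Fintype.card I) * ε / a + δ) * XB (Fintype.card I) B := by
  have hcard := fun K M => card_BX g K M ε hn hε (by linarith)
  obtain ⟨n, hnn⟩ : ∃ n, n = Fintype.card I := ⟨_, rfl⟩
  rw [← hnn] at hn hc1 hcard ⊢
  have hε1 : ε ≤ 1 := by linarith
  have hεp : 0 < ε ^ (n + 2) := pow_pos hε _
  have hlam0 : 0 < lam := by linarith
  obtain ⟨C4, hC4⟩ : ∃ C4 : ℝ, C4 = 4 * (n : ℝ) ^ 4 * 15 ^ n * 4 ^ (n - 2) * 2 ^ n / a := ⟨_, rfl⟩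
  have h0 : Tendsto (fun B => C4 * ((Mf c1 B : ℝ) / Real.log B)) atTop (𝓝 0) := by
    have := (Mf_tendsto c1).const_mul C4
    rwa [mul_zero] at this
  filter_upwards [KfA_ev n a ha, h0.eventually (gt_mem_nhds hδ), eventually_gt_atTop 1]
    with B h1 h2 hB
  obtain ⟨-, h3, h4⟩ := h1
  have hlog : 0 < Real.log B := Real.log_pos hB
  have hB0 : 0 < B := by linarith
  have h5 : lam ^ (R0f B + 1) ≤ ε ^ (n + 2) * Real.sqrt (2 ^ Mf c1 B) := by
    rw [sqrt_Mf]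
    have e1 : lam ^ (R0f B + 1) ≤ 2 ^ (R0f B + 1) := pow_le_pow_left₀ hlam0.le hlam2 _
    have e2 : (2 : ℝ) ≤ 2 ^ c1 * ε ^ (n + 2) := by rwa [div_le_iff₀ hεp] at hc1
    calc lam ^ (R0f B + 1) ≤ 2 ^ (R0f B + 1) := e1
      _ = 2 ^ R0f B * 2 := pow_succ _ _
      _ ≤ 2 ^ R0f B * (2 ^ c1 * ε ^ (n + 2)) := mul_le_mul_of_nonneg_left e2 (by positivity)
      _ = _ := by rw [pow_add]; ring
  refine ⟨h5, ?_⟩
  have hM : 1 ≤ ε ^ (n + 1) * Real.sqrt (2 ^ Mf c1 B) := by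
    have e1 : (1 : ℝ) ≤ lam ^ (R0f B + 1) := one_le_pow₀ hlam.le
    refine e1.trans (h5.trans (mul_le_mul_of_nonneg_right ?_ (Real.sqrt_nonneg _)))
    exact pow_le_pow_of_le_one hε.le hε1 (by omega)
  have h6 := hcard (Kf n (B / a)) (Mf c1 B) hM
  refine h6.trans ?_
  obtain ⟨KR, hKR⟩ : ∃ KR : ℝ, KR = 2 * (Kf n (B / a) : ℝ) + 1 := ⟨_, rfl⟩
  obtain ⟨MR, hMR⟩ : ∃ MR : ℝ, MR = (Mf c1 B : ℝ) := ⟨_, rfl⟩
  obtain ⟨TK, hTK⟩ : ∃ TK : ℝ, TK = 2 ^ Kf n (B / a) := ⟨_, rfl⟩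
  have hMR0 : 0 ≤ MR := by rw [hMR]; positivity
  have hTK0 : 0 ≤ TK := by rw [hTK]; positivity
  have hK0 : (0 : ℝ) ≤ KR := by rw [hKR]; positivity
  rw [← hTK] at h3
  rw [← hKR] at h4
  rw [← hMR] at h2
  rw [← hKR, ← hTK, ← hMR]
  have h7 : KR ^ (n - 2) ≤ (4 * Real.log B) ^ (n - 2) := pow_le_pow_left₀ hK0 h4 _
  have h8 : KR ^ (n - 1) ≤ (4 * Real.log B) ^ (n - 1) := pow_le_pow_left₀ hK0 h4 _
  have h9 : 4 * (n : ℝ) ^ 4 * 15 ^ n * MR * KR ^ (n - 2) * TK ≤ δ * XB n B := by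
    calc 4 * (n : ℝ) ^ 4 * 15 ^ n * MR * KR ^ (n - 2) * TK
        ≤ 4 * (n : ℝ) ^ 4 * 15 ^ n * MR * (4 * Real.log B) ^ (n - 2) * (2 ^ n * (B / a)) := by
          gcongr
      _ = C4 * (MR / Real.log B) * XB n B := by
          have e1 : Real.log B ^ (n - 1) = Real.log B ^ (n - 2) * Real.log B := by
            rw [← pow_succ]
            congr 1
            omega
          unfold XB
          rw [hC4, e1, mul_pow]
          have := hlog.ne'
          field_simp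
      _ ≤ δ * XB n B := by
          refine mul_le_mul_of_nonneg_right h2.le ?_
          unfold XB
          positivity
  have h10 : 4 * (n : ℝ) ^ 3 * 18 ^ n * ε * KR ^ (n - 1) * TK ≤ C3 n * ε / a * XB n B := by
    calc 4 * (n : ℝ) ^ 3 * 18 ^ n * ε * KR ^ (n - 1) * TK
        ≤ 4 * (n : ℝ) ^ 3 * 18 ^ n * ε * (4 * Real.log B) ^ (n - 1) * (2 ^ n * (B / a)) := by
          gcongr
      _ = _ := by
          unfold XB C3
          rw [mul_pow]
          ring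
  rw [add_mul]
  linarith

variable {Fb : I → (I → ℤ) → (I → ℤ × ℤ) → ℝ} {η} {T}

theorem mainF_up [DecidableEq X] (hη : 0 < η) (hFb : FbP pp T η Fb) (δ : ℝ) (hδ : 0 < δ) :
    ∀ᶠ B in atTop, (NF2 T B).Finite ∧
    ((NF2 T B).ncard : ℝ) ≤ (kap2 (I := I) pp * (1 + η) * GF dd pp Fb +
      C3 (Fintype.card I) * pp.ε / T.a + δ) * XB (Fintype.card I) B := by
  have hn := dd.hn
  have hη1 : 0 < 1 + η := by linarith
  obtain ⟨c1, hc1⟩ := pow_unbounded_of_one_lt (2 / pp.ε ^ (Fintype.card I + 2))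
    (by norm_num : (1 : ℝ) < 2)
  have h1 := BXA_ev dd.g dd.hn pp.lam pp.ε T.a T.ha pp.hlam pp.hlam2 pp.hε pp.hε2 c1 hc1.le
    (δ / 2) (half_pos hδ)
  have h2 := sumF_up dd pp η hη hFb (δ / 2) (half_pos hδ)
  have h3 : ∀ᶠ B in atTop, ∀ i ∈ (univ : Finset I), ∀ κ ∈ KR dd pp i,
      B / pp.vp (Ph pp Fb i κ / (1 + η)) < pp.q ^ ((Fintype.card I - 1) * R0f B +
        Tm pp.q (pp.vp (Ph pp Fb i κ / (1 + η))) (Fintype.card I - 1) B + 1) := by
    rw [eventually_all_finset]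
    intro i hi
    rw [eventually_all_finset]
    intro κ hκ
    have hv := pp.vp_pos (div_pos (Ph_pos dd pp η hFb hκ) hη1)
    exact (q_pow pp.q_gt hv (Fintype.card I - 1)).mono fun B hB => hB.2.2
  filter_upwards [h1, h2, h3, KfA_ev (Fintype.card I) T.a T.ha, Y_ev pp] with B g1 g2 g3 g4 g5
  obtain ⟨f1, f2⟩ := countF_upper pp T hη hFb B (R0f B) (Mf c1 B)
    (Kf (Fintype.card I) (B / T.a))
    (fun i κ => Tm pp.q (pp.vp (Ph pp Fb i κ / (1 + η))) (Fintype.card I - 1) B)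
    (fun i κ hk w hw hκ => by
      have hv := pp.vp_pos (div_pos (Ph_pos dd pp η hFb hκ) hη1)
      have e1 := g3 i (mem_univ _) κ hκ
      have e2 : pp.q ^ ((Fintype.card I - 1) * R0f B + w) ≤
          B / pp.vp (Ph pp Fb i κ / (1 + η)) := by
        rw [le_div_iff₀ hv]
        have e3 : pp.q ^ ((Fintype.card I - 1) * R0f B + w) * pp.vp (Ph pp Fb i κ / (1 + η)) =
            ((1 - 1 / (pp.D : ℝ)) ^ Fintype.card I *
              pp.lam ^ (2 * ((Fintype.card I - 1) * R0f B + w)) *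
              Phk pp.H i κ.1 * Fb i κ.1 κ.2) / (1 + η) := by
          unfold Par.q Par.vp Ph
          rw [← pow_mul]
          ring
        rw [e3, div_le_iff₀ hη1]
        linarith
      have e3 := lt_of_le_of_lt e2 e1
      have e4 := (pow_lt_pow_iff_right₀ pp.q_gt).1 e3
      omega) g4.1 g1.1
  refine ⟨f1, f2.trans ?_⟩
  have e5 := (Cr_upper dd pp η Fb B g5.1).trans g2
  have e6 := g1.2
  have e7 : (kap2 (I := I) pp * (1 + η) * GF dd pp Fb + C3 (Fintype.card I) * pp.ε / T.a + δ) *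
      XB (Fintype.card I) B =
      (kap2 (I := I) pp * (1 + η) * GF dd pp Fb + δ / 2) * XB (Fintype.card I) B +
      (C3 (Fintype.card I) * pp.ε / T.a + δ / 2) * XB (Fintype.card I) B := by ring
  rw [e7]
  linarith

theorem mainF_lo [DecidableEq X] (hη : 0 < η) (hFb : FbP pp T η Fb) (δ : ℝ) (hδ : 0 < δ) :
    ∀ᶠ B in atTop,
    (GF dd pp Fb / (kap1 (I := I) pp * (1 + η)) -
      Cn (Fintype.card I) / pp.P0 * (Ep dd pp / T.a) - δ) *
        XB (Fintype.card I) B ≤ ((NF2 T B).ncard : ℝ) := by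
  have hn := dd.hn
  have hη1 : 0 < 1 + η := by linarith
  have h1 := mainF_up dd pp hη hFb 1 one_pos
  have h2 := sumF_lo dd pp η hη hFb (δ / 2) (half_pos hδ)
  have h2' := sumE_up dd pp (T := T) (δ / 2) (half_pos hδ)
  have h3 : ∀ᶠ B in atTop, ∀ i ∈ (univ : Finset I), ∀ κ ∈ KR dd pp i,
      pp.q ^ ((Fintype.card I - 1) * R0f B +
        Tm pp.q (pp.vm (Ph pp Fb i κ * (1 + η))) (Fintype.card I - 1) B) ≤
        B / pp.vm (Ph pp Fb i κ * (1 + η)) := by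
    rw [eventually_all_finset]
    intro i hi
    rw [eventually_all_finset]
    intro κ hκ
    have hv := pp.vm_pos (mul_pos (Ph_pos dd pp η hFb hκ) hη1)
    exact (q_pow pp.q_gt hv (Fintype.card I - 1)).mono fun B hB => hB.2.1
  have h4 : ∀ᶠ B in atTop, ∀ i ∈ (univ : Finset I), ∀ k ∈ KK dd pp i,
      ((Fintype.card I - 1) * R0f B + Tm pp.q (pp.vm (Phk pp.H i k * T.a))
        (Fintype.card I - 1) B =
        ⌊Real.log (B / pp.vm (Phk pp.H i k * T.a)) / Real.log pp.q⌋₊) := by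
    rw [eventually_all_finset]
    intro i hi
    rw [eventually_all_finset]
    intro k hk
    have hv := pp.vm_pos (mul_pos (Phk_pos' dd pp i k hk) T.ha)
    exact (q_pow pp.q_gt hv (Fintype.card I - 1)).mono fun B hB => hB.1
  filter_upwards [h1, h2, h2', h3, h4, Y_ev pp, eventually_gt_atTop 0]
    with B g1 g2 g2' g3 g4 g5 hB
  have e1 := Cr_lower dd pp T η Fb hη hFb B hB g5.1 g5.2.1
    (fun i k hk => g4 i (mem_univ _) k hk)
  have e2 := countF_lower pp T hη hFb B (R0f B)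
    (fun i κ => Tm pp.q (pp.vm (Ph pp Fb i κ * (1 + η))) (Fintype.card I - 1) B)
    (fun i κ hκ => by
      have hv := pp.vm_pos (mul_pos (Ph_pos dd pp η hFb hκ) hη1)
      have e1 := g3 i (mem_univ _) κ hκ
      rw [le_div_iff₀ hv] at e1
      refine le_trans (le_of_eq ?_) e1
      unfold Par.q Par.vm Ph
      rw [← pow_mul]
      ring) g5.2.2 g1.1
  have e3 : (GF dd pp Fb / (kap1 (I := I) pp * (1 + η)) -
      Cn (Fintype.card I) / pp.P0 * (Ep dd pp / T.a) - δ) * XB (Fintype.card I) B =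
      (GF dd pp Fb / (kap1 (I := I) pp * (1 + η)) - δ / 2) * XB (Fintype.card I) B -
      (Cn (Fintype.card I) / pp.P0 * (Ep dd pp / T.a) + δ / 2) * XB (Fintype.card I) B := by ring
  rw [e3]
  linarith

/-- the counting function divided by its order of magnitude -/
noncomputable def fF (T : Tws dd) (B : ℝ) : ℝ := ((NF2 T B).ncard : ℝ) / XB (Fintype.card I) B

theorem keyF [DecidableEq X] (hη : 0 < η) (hFb : FbP pp T η Fb) (δ : ℝ) (hδ : 0 < δ) :
    ∀ᶠ B in atTop,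
    GF dd pp Fb / (kap1 (I := I) pp * (1 + η)) -
      Cn (Fintype.card I) / pp.P0 * (Ep dd pp / T.a) - δ ≤ fF dd T B ∧
    fF dd T B ≤ kap2 (I := I) pp * (1 + η) * GF dd pp Fb +
      C3 (Fintype.card I) * pp.ε / T.a + δ := by
  filter_upwards [mainF_up dd pp hη hFb δ hδ, mainF_lo dd pp hη hFb δ hδ,
    XB_pos (Fintype.card I)] with B h1 h2 h3
  unfold fF
  exact ⟨(le_div_iff₀ h3).2 h2, (div_le_iff₀ h3).2 h1.2⟩

end

end Pool.Agent.Y714.MA
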