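import Pool.Agent.Y714.MA.LimF2

set_option autoImplicit false
set_option linter.unusedSectionVars false
set_option linter.unusedSimpArgs false
set_option linter.unusedVariables false

/-! The asymptotic formula for twisted heights: existence of the limit. -/

namespace Pool.Agent.Y714.MA

open Finset Filter Topology Pool.Agent.Y714.ML

theorem exists_h' (n ν : ℕ) (ε : ℝ) (h1 : 0 < ε) (h2 : ε ≤ 1 / 2) : ∃ h : ℕ, 0 < h ∧
    4 * (((ν + 2 : ℕ) : ℝ) + 1) ≤ ((4 * h : ℕ) : ℝ) * ε ^ (n + 3) ∧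
    ε ^ (n + 3) / 16 * ((4 * h : ℕ) : ℝ) ≤ ((ν + 2 : ℕ) : ℝ) - 1 ∧ ν ≤ h := by
  have hp : 0 < ε ^ (n + 3) := pow_pos h1 _
  have hp1 : ε ^ (n + 3) ≤ 1 := pow_le_one₀ h1.le (by linarith)
  have hν : (0 : ℝ) ≤ ν := Nat.cast_nonneg _
  obtain ⟨x, hx⟩ : ∃ x : ℝ, x = ((ν : ℝ) + 3) / ε ^ (n + 3) := ⟨_, rfl⟩
  have hx0 : 0 ≤ x := by rw [hx]; positivity
  have e1 : (⌊x⌋₊ : ℝ) ≤ x := Nat.floor_le hx0
  have e2 : x < ⌊x⌋₊ + 1 := Nat.lt_floor_add_one x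
  have hxe : x * ε ^ (n + 3) = (ν : ℝ) + 3 := by rw [hx]; field_simp
  refine ⟨⌊x⌋₊ + 1, Nat.succ_pos _, ?_, ?_, ?_⟩
  · push_cast
    nlinarith
  · push_cast
    have e3 : ε ^ (n + 3) * (⌊x⌋₊ : ℝ) ≤ (ν : ℝ) + 3 := by
      rw [← hxe, mul_comm]
      exact mul_le_mul_of_nonneg_right e1 hp.le
    nlinarith
  · have e3 : (ν : ℝ) ≤ x := by
      rw [hx, le_div_iff₀ hp]
      nlinarith
    have e4 : ν ≤ ⌊x⌋₊ := Nat.le_floor e3
    omega

section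

variable {I : Type} [Fintype I] [DecidableEq I] {X : Type} (dd : Dat I X) (T : Tws dd)

/-- the two multiplicative errors -/
theorem kp_tendsto (n : ℕ) (η : ℝ) (hη : 0 < η) :
    Tendsto (fun ν => kp2 n ν * (1 + η) - 1 / (kp1 n ν * (1 + η))) atTop
      (𝓝 ((1 + η) - 1 / (1 + η))) := by
  have h1 := (kp2_tendsto n).mul_const (1 + η)
  have h2 := (kp1_tendsto n).mul_const (1 + η)
  rw [one_mul] at h1 h2
  have hη1 : (1 + η) ≠ 0 := by positivity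
  exact h1.sub (tendsto_const_nhds.div h2 hη1)

theorem choose_par (ε η : ℝ) (hε : 0 < ε) (hε2 : ε ≤ 1 / 2) (hη : 0 < η) : ∃ P1 H1 : ℕ,
    ∀ ν, H1 ≤ ν → ∃ (h : ℕ) (hh : 0 < h)
      (hh' : 4 * (((ν + 2 : ℕ) : ℝ) + 1) ≤ ((4 * h : ℕ) : ℝ) * ε ^ (Fintype.card I + 3)),
      ∀ P, P1 ≤ P → ∀ hP : 2 ≤ P, ∃ Fb,
        FbP (mkPar (Fintype.card I) ν h P ε hε hε2 hh hP hh') T η Fb := by
  have hr : 0 < ε ^ (Fintype.card I + 3) / 16 := by positivity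
  obtain ⟨P1, H1, hc⟩ := T.cont η hη _ hr
  refine ⟨P1, H1, fun ν hν => ?_⟩
  obtain ⟨h, hh, hh', hh2, hh3⟩ := exists_h' (Fintype.card I) ν ε hε hε2
  refine ⟨h, hh, hh', fun P hP1 hP => ?_⟩
  refine exists_Fb (mkPar (Fintype.card I) ν h P ε hε hε2 hh hP hh') T hη hr hc hP1 ?_ hh2
  show H1 ≤ 4 * h
  omega

theorem mainF_bdd [DecidableEq X] : ∃ C : ℝ, 0 ≤ C ∧ ∀ᶠ B in atTop, fF dd T B ≤ C := by
  obtain ⟨P1, H1, hc⟩ := choose_par dd T (1 / 2) 1 (by norm_num) le_rfl one_pos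
  obtain ⟨h, hh, hh', hc⟩ := hc H1 le_rfl
  obtain ⟨Fb, hFb⟩ := hc (max P1 2) (le_max_left _ _) (le_max_right _ _)
  have h1 := keyF dd _ one_pos hFb 1 one_pos
  exact ⟨max _ 0, le_max_right _ _, h1.mono fun B hB => hB.2.trans (le_max_left _ _)⟩

theorem mainF_fin [DecidableEq X] : ∀ᶠ B in atTop, (NF2 T B).Finite := by
  obtain ⟨P1, H1, hc⟩ := choose_par dd T (1 / 2) 1 (by norm_num) le_rfl one_pos
  obtain ⟨h, hh, hh', hc⟩ := hc H1 le_rfl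
  obtain ⟨Fb, hFb⟩ := hc (max P1 2) (le_max_left _ _) (le_max_right _ _)
  exact (mainF_up dd _ one_pos hFb 1 one_pos).mono fun B hB => hB.1

theorem mainF_lim [DecidableEq X] : ∃ c, Tendsto (fF dd T) atTop (𝓝 c) := by
  obtain ⟨C, hC0, hC⟩ := mainF_bdd dd T
  have hta := T.ha
  refine exists_lim _ fun δ0 hδ0 => ?_
  obtain ⟨n, hn⟩ : ∃ n, n = Fintype.card I := ⟨_, rfl⟩
  have hC3 : 0 ≤ C3 n := by unfold C3; positivity
  have hCn : 0 ≤ Cn n := Cn_nonneg n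
  -- the parameter `ε`
  obtain ⟨ε, hε, hε2, hε3⟩ : ∃ ε : ℝ, 0 < ε ∧ ε ≤ 1 / 2 ∧ C3 n * ε / T.a ≤ δ0 / 8 := by
    refine ⟨min (1 / 2) (δ0 / 8 * T.a / (C3 n + 1)), lt_min (by norm_num) (by positivity),
      min_le_left _ _, ?_⟩
    have h1 : min (1 / 2) (δ0 / 8 * T.a / (C3 n + 1)) ≤ δ0 / 8 * T.a / (C3 n + 1) :=
      min_le_right _ _
    rw [div_le_iff₀ hta]
    calc C3 n * min (1 / 2) (δ0 / 8 * T.a / (C3 n + 1)) ≤ C3 n * (δ0 / 8 * T.a / (C3 n + 1)) :=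
          mul_le_mul_of_nonneg_left h1 hC3
      _ ≤ (C3 n + 1) * (δ0 / 8 * T.a / (C3 n + 1)) := by
          refine mul_le_mul_of_nonneg_right (by linarith) (by positivity)
      _ = δ0 / 8 * T.a := by field_simp
  -- the parameter `η`
  obtain ⟨ϖ, hϖ⟩ : ∃ ϖ, ϖ = δ0 / 8 / (4 * (C + 2)) := ⟨_, rfl⟩
  have hϖ0 : 0 < ϖ := by rw [hϖ]; positivity
  obtain ⟨η, hη, hη1, hη2⟩ : ∃ η : ℝ, 0 < η ∧ η ≤ 1 / 2 ∧ 2 * η < ϖ := by
    refine ⟨min (1 / 2) (ϖ / 4), lt_min (by norm_num) (by positivity), min_le_left _ _, ?_⟩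
    have : min (1 / 2) (ϖ / 4) ≤ ϖ / 4 := min_le_right _ _
    linarith
  have hlim : (1 + η) - 1 / (1 + η) < ϖ := by
    have h1 : (1 + η) - 1 / (1 + η) ≤ 2 * η := by
      rw [sub_le_iff_le_add, ← sub_le_iff_le_add', le_div_iff₀ (by linarith)]
      nlinarith
    linarith
  -- the parameter `ν`
  obtain ⟨P1, H1, hc⟩ := choose_par dd T ε η hε hε2 hη
  obtain ⟨ν, ⟨hν1, hν2⟩, hν3⟩ := (((((kp1_tendsto n).eventually
    (gt_mem_nhds (by norm_num : (1 : ℝ) < 4 / 3))).and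
    ((kp_tendsto n η hη).eventually (gt_mem_nhds hlim))).and
    (eventually_ge_atTop H1))).exists
  obtain ⟨h, hh, hh', hc⟩ := hc ν hν3
  subst hn
  -- the parameter `P`
  obtain ⟨E, hE⟩ : ∃ E, E = Ep dd (mkPar (Fintype.card I) ν h 2 ε hε hε2 hh le_rfl hh') / T.a :=
    ⟨_, rfl⟩
  have hE0 : 0 ≤ E := by rw [hE]; exact div_nonneg (Ep_nonneg _ _) hta.le
  have hm : 0 < min 1 (δ0 / 8) := lt_min one_pos (by positivity)
  obtain ⟨P, hP⟩ := exists_nat_ge (max (max 2 (P1 : ℝ)) (Cn (Fintype.card I) * E / min 1 (δ0 / 8)))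
  have hP2 : 2 ≤ P := by exact_mod_cast ((le_max_left _ _).trans (le_max_left _ _)).trans hP
  have hPP1 : P1 ≤ P := by exact_mod_cast ((le_max_right _ _).trans (le_max_left _ _)).trans hP
  have hP0 : (0 : ℝ) < P := by exact_mod_cast (by omega : 0 < P)
  have hP3 : Cn (Fintype.card I) / P * E ≤ min 1 (δ0 / 8) := by
    have h1 := (le_max_right _ _).trans hP
    rw [div_le_iff₀ hm] at h1
    rw [div_mul_eq_mul_div, div_le_iff₀ hP0]
    linarith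
  obtain ⟨Fb, hFb⟩ := hc P hPP1 hP2
  obtain ⟨pp, hpp⟩ : ∃ pp, pp = mkPar (Fintype.card I) ν h P ε hε hε2 hh hP2 hh' := ⟨_, rfl⟩
  rw [← hpp] at hFb
  have hEp : Ep dd pp / T.a = E := by rw [hpp, hE]; rfl
  have hPP : (pp.P0 : ℝ) = P := by rw [hpp]; rfl
  have hkap1 : kap1 (I := I) pp = kp1 (Fintype.card I) ν := by rw [hpp]; rfl
  have hkap2 : kap2 (I := I) pp = kp2 (Fintype.card I) ν := by rw [hpp]; rfl
  have hεε : pp.ε = ε := by rw [hpp]; rfl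
  have h1 := keyF dd pp hη hFb (δ0 / 8) (by positivity)
  have h2 := keyF dd pp hη hFb 1 one_pos
  rw [hEp, hPP, hkap1, hkap2, hεε] at h1 h2
  have hG0 : 0 ≤ GF dd pp Fb := GF_nonneg dd pp η hFb
  obtain ⟨G, hG⟩ : ∃ G, G = GF dd pp Fb := ⟨_, rfl⟩
  rw [← hG] at h1 h2 hG0
  have hk0 := kp1_pos (Fintype.card I) ν
  have hη3 : 0 < 1 + η := by linarith
  have hk1 : kp1 (Fintype.card I) ν * (1 + η) ≤ 2 := by nlinarith
  have hk2 : 0 < kp1 (Fintype.card I) ν * (1 + η) := mul_pos hk0 hη3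
  have hG2 : G ≤ 4 * (C + 2) := by
    obtain ⟨B, hB1, hB2⟩ := (h2.and hC).exists
    have h3 := hB1.1.trans hB2
    have h4 : Cn (Fintype.card I) / P * E ≤ 1 := hP3.trans (min_le_left _ _)
    have h5 : G / (kp1 (Fintype.card I) ν * (1 + η)) ≤ C + 2 := by linarith
    rw [div_le_iff₀ hk2] at h5
    have h6 : (C + 2) * (kp1 (Fintype.card I) ν * (1 + η)) ≤ (C + 2) * 2 :=
      mul_le_mul_of_nonneg_left hk1 (by linarith)
    linarith
  refine ⟨_, _, ?_, h1⟩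
  have h7 : G * (kp2 (Fintype.card I) ν * (1 + η) - 1 / (kp1 (Fintype.card I) ν * (1 + η))) ≤
      δ0 / 8 := by
    by_cases hneg : kp2 (Fintype.card I) ν * (1 + η) - 1 / (kp1 (Fintype.card I) ν * (1 + η)) ≤ 0
    · have := mul_nonpos_of_nonneg_of_nonpos hG0 hneg
      have : 0 < δ0 / 8 := by positivity
      linarith
    · push Not at hneg
      calc G * (kp2 (Fintype.card I) ν * (1 + η) - 1 / (kp1 (Fintype.card I) ν * (1 + η))) ≤
          (4 * (C + 2)) * ϖ := mul_le_mul hG2 hν2.le hneg.le (by linarith)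
        _ = δ0 / 8 := by rw [hϖ]; field_simp
  have h8 : Cn (Fintype.card I) / P * E ≤ δ0 / 8 := hP3.trans (min_le_right _ _)
  have h9 : G * (kp2 (Fintype.card I) ν * (1 + η) - 1 / (kp1 (Fintype.card I) ν * (1 + η))) =
      kp2 (Fintype.card I) ν * (1 + η) * G - G / (kp1 (Fintype.card I) ν * (1 + η)) := by
    rw [mul_sub, mul_one_div]
    ring
  linarith

end

end Pool.Agent.Y714.MA
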