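import Pool.Agent.Y714.MA.Stab

set_option autoImplicit false
set_option linter.unusedSectionVars false
set_option linter.unusedSimpArgs false

/-! Normal forms of stable configurations. -/

namespace Pool.Agent.Y714.MA

open Finset Pool.Agent.Y714.ML

section

variable {I : Type} [Fintype I] [DecidableEq I]

/-- equivalence under `GL_2(ℤ)` and signs -/
def Eqv (v w : I → ℤ × ℤ) : Prop :=
  ∃ a b c d : ℤ, (a * d - b * c = 1 ∨ a * d - b * c = -1) ∧ ∃ ε : I → ℤ,
      (∀ i, ε i = 1 ∨ ε i = -1) ∧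
      ∀ i, w i = (ε i * (a * (v i).1 + b * (v i).2), ε i * (c * (v i).1 + d * (v i).2))

theorem Eqv.coprime {v w : I → ℤ × ℤ} (h : Eqv v w) (i : I) (hv : IsCoprime (v i).1 (v i).2) :
    IsCoprime (w i).1 (w i).2 := by
  obtain ⟨a, b, c, d, hd, ε, hε, h1⟩ := h
  obtain ⟨r, s, hrs⟩ := hv
  rw [h1 i]
  refine ⟨(a * d - b * c) * ε i * (r * d - s * c), (a * d - b * c) * ε i * (s * a - r * b), ?_⟩
  have e1 : ε i * ε i = 1 := by rcases hε i with h | h <;> rw [h] <;> norm_num
  have e2 : (a * d - b * c) * (a * d - b * c) = 1 := by rcases hd with h | h <;> rw [h] <;> norm_num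
  simp only
  calc (a * d - b * c) * ε i * (r * d - s * c) * (ε i * (a * (v i).1 + b * (v i).2)) +
        (a * d - b * c) * ε i * (s * a - r * b) * (ε i * (c * (v i).1 + d * (v i).2)) =
        (ε i * ε i) * ((a * d - b * c) * (a * d - b * c)) * (r * (v i).1 + s * (v i).2) := by ring
    _ = 1 := by rw [e1, e2, hrs]; norm_num

theorem Eqv.natAbs_dt {v w : I → ℤ × ℤ} (h : Eqv v w) (i j : I) :
    (dt (w i) (w j)).natAbs = (dt (v i) (v j)).natAbs := by
  obtain ⟨a, b, c, d, hd, ε, hε, h1⟩ := h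
  have e : dt (w i) (w j) = ε i * (ε j * ((a * d - b * c) * dt (v i) (v j))) := by
    rw [h1 i, h1 j, dt_mk]
    unfold dt
    ring
  rw [e, Int.natAbs_mul, Int.natAbs_mul, Int.natAbs_mul]
  have e1 : (ε i).natAbs = 1 := Int.natAbs_eq_iff.2 (hε i)
  have e2 : (ε j).natAbs = 1 := Int.natAbs_eq_iff.2 (hε j)
  have e3 : (a * d - b * c).natAbs = 1 := Int.natAbs_eq_iff.2 hd
  rw [e1, e2, e3]
  norm_num

theorem Eqv.rep {x : I → ℚ × ℚ} {v w : I → ℤ × ℤ} (h : Eqv v w) (hv : Rep x v) : Rep x w := by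
  obtain ⟨a, b, c, d, hd, ε, hε, h1⟩ := h
  refine hv.trans ⟨a, b, c, d, ?_, fun i => ε i, ?_, ?_⟩
  · have : ((a * d - b * c : ℤ) : ℚ) ≠ 0 := by
      rcases hd with h | h <;> rw [h] <;> norm_num
    push_cast at this
    exact this
  · intro i
    simp only
    rcases hε i with h | h <;> rw [h] <;> norm_num
  · intro i
    rw [h1 i]
    simp only
    push_cast
    exact ⟨rfl, rfl⟩

theorem stb_of_natAbs {θ : I → ℕ} {v w : I → ℤ × ℤ}
    (h : ∀ i j, (dt (w i) (w j)).natAbs = (dt (v i) (v j)).natAbs) (hv : Stb θ v) : Stb θ w := by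
  intro p hp i
  have h1 := hv p hp i
  have h2 : (univ.filter fun j => (p : ℤ) ∣ dt (w i) (w j)) =
      univ.filter fun j => (p : ℤ) ∣ dt (v i) (v j) := by
    refine filter_congr fun j _ => ?_
    rw [Int.natCast_dvd, Int.natCast_dvd, h i j]
  rw [h2]
  exact h1

/-- normal forms -/
def NF (i j1 j2 : I) (w : I → ℤ × ℤ) : Prop :=
  w i = (1, 0) ∧ (∀ k, k ≠ i → 0 < (w k).2) ∧ 0 ≤ (w j1).1 ∧ (w j1).1 < (w j1).2 ∧
    dt (w j1) (w j2) < 0

theorem exists_nf (v : I → ℤ × ℤ) (i j1 j2 : I) (hi1 : j1 ≠ i) (hi2 : j2 ≠ i) (h12 : j1 ≠ j2)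
    (hco : IsCoprime (v i).1 (v i).2) (hne : ∀ j k, j ≠ k → dt (v j) (v k) ≠ 0) :
    ∃ w, Eqv v w ∧ NF i j1 j2 w := by
  obtain ⟨a, b, hab⟩ := hco
  -- signs
  set e : I → ℤ := fun k => (dt (v i) (v k)).sign with he
  have he1 : ∀ k, k ≠ i → (e k = 1 ∨ e k = -1) := by
    intro k hk
    rcases lt_or_gt_of_ne (hne i k (Ne.symm hk)) with h | h
    · right; simp only [he]; exact Int.sign_eq_neg_one_of_neg h
    · left; simp only [he]; exact Int.sign_eq_one_of_pos h
  have hed : ∀ k, e k * dt (v i) (v k) = |dt (v i) (v k)| := fun k => Int.sign_mul_self_eq_abs _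
  set τ : ℤ := -(e j1 * e j2 * dt (v j1) (v j2)).sign with hτ
  have hne12 : e j1 * e j2 * dt (v j1) (v j2) ≠ 0 := by
    refine mul_ne_zero (mul_ne_zero ?_ ?_) (hne _ _ h12)
    · rcases he1 j1 hi1 with h | h <;> rw [h] <;> norm_num
    · rcases he1 j2 hi2 with h | h <;> rw [h] <;> norm_num
  have hτ1 : τ = 1 ∨ τ = -1 := by
    rcases lt_or_gt_of_ne hne12 with h | h
    · left; rw [hτ, Int.sign_eq_neg_one_of_neg h]; norm_num
    · right; rw [hτ, Int.sign_eq_one_of_pos h]
  have hττ : τ * (e j1 * e j2 * dt (v j1) (v j2)) = -|e j1 * e j2 * dt (v j1) (v j2)| := by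
    rw [hτ, neg_mul, Int.sign_mul_self_eq_abs]
  have hpos : 0 < |dt (v i) (v j1)| := abs_pos.2 (hne _ _ (Ne.symm hi1))
  set m : ℤ := (τ * e j1 * (a * (v j1).1 + b * (v j1).2)) / |dt (v i) (v j1)| with hm
  set ε : I → ℤ := fun k => if k = i then τ else e k with hε
  have hε1 : ∀ k, ε k = 1 ∨ ε k = -1 := by
    intro k
    by_cases hk : k = i
    · simp only [hε, if_pos hk]; exact hτ1
    · simp only [hε, if_neg hk]; exact he1 k hk
  set w : I → ℤ × ℤ := fun k =>
    (ε k * ((τ * a + m * (v i).2) * (v k).1 + (τ * b - m * (v i).1) * (v k).2),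
      ε k * (-(v i).2 * (v k).1 + (v i).1 * (v k).2)) with hw
  have hdet : (τ * a + m * (v i).2) * (v i).1 - (τ * b - m * (v i).1) * (-(v i).2) = τ := by
    calc (τ * a + m * (v i).2) * (v i).1 - (τ * b - m * (v i).1) * (-(v i).2) =
        τ * (a * (v i).1 + b * (v i).2) := by ring
      _ = τ := by rw [hab, mul_one]
  have hwi : w i = (1, 0) := by
    simp only [hw, hε, if_true]
    have e1 : τ * ((τ * a + m * (v i).2) * (v i).1 + (τ * b - m * (v i).1) * (v i).2) = 1 := by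
      calc τ * ((τ * a + m * (v i).2) * (v i).1 + (τ * b - m * (v i).1) * (v i).2) =
          τ * τ * (a * (v i).1 + b * (v i).2) := by ring
        _ = 1 := by rw [hab]; rcases hτ1 with h | h <;> rw [h] <;> norm_num
    have e2 : τ * (-(v i).2 * (v i).1 + (v i).1 * (v i).2) = 0 := by ring
    rw [e1, e2]
  have hw2 : ∀ k, k ≠ i → (w k).2 = |dt (v i) (v k)| := by
    intro k hk
    rw [← hed k]
    simp only [hw, hε, if_neg hk]
    unfold dt
    ring
  have hw1 : ∀ k, k ≠ i → (w k).1 = τ * e k * (a * (v k).1 + b * (v k).2) -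
      |dt (v i) (v k)| * m := by
    intro k hk
    rw [← hed k]
    simp only [hw, hε, if_neg hk]
    unfold dt
    ring
  refine ⟨w, ⟨τ * a + m * (v i).2, τ * b - m * (v i).1, -(v i).2, (v i).1, ?_, ε, hε1,
    fun k => rfl⟩, hwi, ?_, ?_, ?_, ?_⟩
  · rw [hdet]; exact hτ1
  · intro k hk
    rw [hw2 k hk]
    exact abs_pos.2 (hne _ _ (Ne.symm hk))
  · rw [hw1 j1 hi1]
    have := Int.emod_nonneg (τ * e j1 * (a * (v j1).1 + b * (v j1).2)) hpos.ne'
    rw [Int.emod_def] at this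
    exact this
  · rw [hw1 j1 hi1, hw2 j1 hi1]
    have := Int.emod_lt_of_pos (τ * e j1 * (a * (v j1).1 + b * (v j1).2)) hpos
    rw [Int.emod_def] at this
    exact this
  · have e1 : dt (w j1) (w j2) = τ * (e j1 * e j2 * dt (v j1) (v j2)) := by
      have e2 : dt (w j1) (w j2) = e j1 * e j2 * (((τ * a + m * (v i).2) * (v i).1 -
          (τ * b - m * (v i).1) * (-(v i).2)) * dt (v j1) (v j2)) := by
        simp only [hw, hε, if_neg hi1, if_neg hi2, dt_mk]
        unfold dt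
        ring
      rw [e2, hdet]
      ring
    rw [e1, hττ]
    have := abs_pos.2 hne12
    omega

/-- normal forms are unique -/
theorem nf_unique {θ : I → ℕ} {x : I → ℚ × ℚ} {v w : I → ℤ × ℤ} (i j1 j2 : I) (hi1 : j1 ≠ i)
    (hi2 : j2 ≠ i) (hv : Rep x v) (hw : Rep x w)
    (hcv : ∀ i, IsCoprime (v i).1 (v i).2) (hcw : ∀ i, IsCoprime (w i).1 (w i).2)
    (hsv : Stb θ v) (hsw : Stb θ w) (hI : 0 < ∑ i, θ i) (nv : NF i j1 j2 v) (nw : NF i j1 j2 w) :
    v = w := by
  obtain ⟨a, b, c, d, hd, ε, hε, h1⟩ := unique_model_wt hv hw hcv hcw hsv hsw hI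
  obtain ⟨v0, v1, v2, v3, v4⟩ := nv
  obtain ⟨w0, w1, w2, w3, w4⟩ := nw
  have hi := h1 i
  rw [v0, w0] at hi
  simp only [mul_one, mul_zero, add_zero, Prod.mk.injEq] at hi
  obtain ⟨ha, hc⟩ := hi
  have hc0 : c = 0 := by
    rcases hε i with h | h <;> rw [h] at hc <;> omega
  subst hc0
  simp only [mul_zero, sub_zero, zero_mul, zero_add] at hd h1
  have ha1 : a = 1 ∨ a = -1 := by
    rcases hε i with h | h <;> rw [h] at ha <;> omega
  have hd1 : d = 1 ∨ d = -1 := by
    rcases ha1 with h | h <;> rw [h] at hd <;> omega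
  have hk : ∀ k, k ≠ i → ε k * d = 1 ∧ (w k).2 = (v k).2 := by
    intro k hk
    have e1 := h1 k
    have e2 : (w k).2 = ε k * d * (v k).2 := by rw [e1]; simp only; ring
    have e3 := v1 k hk
    have e4 := w1 k hk
    have e5 : ε k * d = 1 ∨ ε k * d = -1 := by
      rcases hε k with h | h <;> rcases hd1 with h' | h' <;> rw [h, h'] <;> norm_num
    rcases e5 with h | h
    · exact ⟨h, by rw [e2, h, one_mul]⟩
    · rw [e2, h] at e4; omega
  have hek : ∀ k, k ≠ i → ε k = d := by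
    intro k hki
    have e1 := (hk k hki).1
    rcases hd1 with h | h <;> rw [h] at e1 ⊢ <;> omega
  -- orientation
  have had : a * d = 1 := by
    have e1 : dt (w j1) (w j2) = (ε j1 * d) * (ε j2 * d) * (a * d) * dt (v j1) (v j2) := by
      rw [h1 j1, h1 j2, dt_mk]
      rw [hek j1 hi1, hek j2 hi2]
      unfold dt
      have : d * d = 1 := by rcases hd1 with h | h <;> rw [h] <;> norm_num
      have e9 : d * (a * (v j1).1 + b * (v j1).2) * (d * (d * (v j2).2)) -
          d * (d * (v j1).2) * (d * (a * (v j2).1 + b * (v j2).2)) =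
          (d * d) * (a * d) * ((v j1).1 * (v j2).2 - (v j1).2 * (v j2).1) := by ring
      rw [e9, this]
      ring
    rw [(hk j1 hi1).1, (hk j2 hi2).1] at e1
    rcases hd with h | h
    · exact h
    · rw [h] at e1; omega
  have hb : d * b = 0 := by
    have e1 : (w j1).1 = (v j1).1 + d * b * (v j1).2 := by
      rw [h1 j1, hek j1 hi1]
      simp only
      calc d * (a * (v j1).1 + b * (v j1).2) = (a * d) * (v j1).1 + d * b * (v j1).2 := by ring
        _ = _ := by rw [had, one_mul]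
    have e2 : (w j1).2 = (v j1).2 := (hk j1 hi1).2
    have e3 := v1 j1 hi1
    rw [e2] at w3
    rw [e1] at w2 w3
    by_contra hne
    rcases lt_or_gt_of_ne hne with h | h
    · nlinarith
    · nlinarith
  funext k
  by_cases hki : k = i
  · rw [hki, v0, w0]
  · have e1 : (w k).1 = (v k).1 := by
      rw [h1 k, hek k hki]
      simp only
      calc d * (a * (v k).1 + b * (v k).2) = (a * d) * (v k).1 + d * b * (v k).2 := by ring
        _ = _ := by rw [had, hb]; ring
    exact (Prod.ext e1 (hk k hki).2).symm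

end

end Pool.Agent.Y714.MA
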