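import Pool.Agent.Y714.ML.Gcd
import Pool.Agent.Y714.ML.Cfg

set_option autoImplicit false
set_option linter.unusedSectionVars false
set_option linter.unusedSimpArgs false

/-! Weighted stability: every configuration has exactly one stable model. -/

namespace Pool.Agent.Y714.MA

open Finset Pool.Agent.Y714.ML

section

variable {I : Type} [Fintype I] [DecidableEq I]

/-- weighted stability at all primes -/
def Stb (θ : I → ℕ) (v : I → ℤ × ℤ) : Prop := ∀ p : ℕ, p.Prime → ∀ i,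
  2 * ∑ j ∈ univ.filter (fun j => (p : ℤ) ∣ dt (v i) (v j)), θ j < ∑ j, θ j

theorem unique_model_wt {x : I → ℚ × ℚ} {v w : I → ℤ × ℤ} (hv : Rep x v) (hw : Rep x w)
    (hcv : ∀ i, IsCoprime (v i).1 (v i).2) (hcw : ∀ i, IsCoprime (w i).1 (w i).2)
    {θ : I → ℕ} (hsv : Stb θ v) (hsw : Stb θ w) (hI : 0 < ∑ i, θ i) :
    ∃ a b c d : ℤ, (a * d - b * c = 1 ∨ a * d - b * c = -1) ∧ ∃ ε : I → ℤ,
      (∀ i, ε i = 1 ∨ ε i = -1) ∧
      ∀ i, w i = (ε i * (a * (v i).1 + b * (v i).2), ε i * (c * (v i).1 + d * (v i).2)) := by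
  classical
  obtain ⟨a1, b1, c1, d1, hD1, κ1, hκ1, h1⟩ := hv
  obtain ⟨a2, b2, c2, d2, hD2, κ2, hκ2, h2⟩ := hw
  -- the rational matrix `B adj(A)`
  obtain ⟨l, a, b, c, d, hl, ha, hb, hc, hd, hprim⟩ := exists_primitive4
    (a2 * d1 - b2 * c1) (b2 * a1 - a2 * b1) (c2 * d1 - d2 * c1) (d2 * a1 - c2 * b1) (by
      have : (a2 * d1 - b2 * c1) * (d2 * a1 - c2 * b1) - (b2 * a1 - a2 * b1) * (c2 * d1 - d2 * c1) =
        (a2 * d2 - b2 * c2) * (a1 * d1 - b1 * c1) := by ring
      rw [this]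
      exact mul_ne_zero hD2 hD1)
  set u : I → ℤ × ℤ := fun i => (a * (v i).1 + b * (v i).2, c * (v i).1 + d * (v i).2) with hu
  -- `u i` is a rational multiple of `w i`
  have hmul : ∀ i, ∃ q : ℚ, q ≠ 0 ∧ ((u i).1 : ℚ) = q * (w i).1 ∧ ((u i).2 : ℚ) = q * (w i).2 := by
    intro i
    refine ⟨l * κ1 i * (a1 * d1 - b1 * c1) / κ2 i,
      div_ne_zero (mul_ne_zero (mul_ne_zero hl (hκ1 i)) hD1) (hκ2 i), ?_, ?_⟩
    · simp only [hu]
      push_cast
      rw [ha, hb, (h1 i).1, (h1 i).2, (h2 i).1]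
      have := hκ2 i
      field_simp
      ring
    · simp only [hu]
      push_cast
      rw [hc, hd, (h1 i).1, (h1 i).2, (h2 i).2]
      have := hκ2 i
      field_simp
      ring
  have hci : ∀ i, ∃ q : ℤ, q ≠ 0 ∧ (u i).1 = q * (w i).1 ∧ (u i).2 = q * (w i).2 := by
    intro i
    obtain ⟨q, hq, h3, h4⟩ := hmul i
    obtain ⟨r, s, hrs⟩ := hcw i
    have h5 : ((r * (u i).1 + s * (u i).2 : ℤ) : ℚ) = q := by
      push_cast
      rw [h3, h4]
      have h6 : (r : ℚ) * (w i).1 + s * (w i).2 = 1 := by exact_mod_cast hrs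
      calc (r : ℚ) * (q * (w i).1) + s * (q * (w i).2) = q * (r * (w i).1 + s * (w i).2) := by ring
        _ = q := by rw [h6, mul_one]
    refine ⟨r * (u i).1 + s * (u i).2, ?_, ?_, ?_⟩
    · intro h0
      rw [h0, Int.cast_zero] at h5
      exact hq h5.symm
    · rw [← h5] at h3
      exact_mod_cast h3
    · rw [← h5] at h4
      exact_mod_cast h4
  choose q hq hq1 hq2 using hci
  -- determinants
  have hdtu : ∀ i j, q i * q j * dt (w i) (w j) = (a * d - b * c) * dt (v i) (v j) := by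
    intro i j
    have e1 : q i * q j * dt (w i) (w j) = dt (u i) (u j) := by
      have e2 : dt (u i) (u j) = (u i).1 * (u j).2 - (u i).2 * (u j).1 := rfl
      rw [e2, hq1, hq2, hq1, hq2]
      unfold dt
      ring
    rw [e1]
    simp only [hu, dt_mk]
    unfold dt
    ring
  have hdet : (a * d - b * c).natAbs = 1 := by
    by_contra hne
    obtain ⟨p, hp, hpd⟩ := Nat.exists_prime_and_dvd hne
    have hpd' : (p : ℤ) ∣ a * d - b * c := by
      rw [← Int.natAbs_dvd_natAbs]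
      simpa using hpd
    have hpi : Prime (p : ℤ) := Nat.prime_iff_prime_int.1 hp
    set S : Finset I := univ.filter fun i => (p : ℤ) ∣ q i with hS
    have hin : ∀ i ∈ S, ∀ j ∈ S, (p : ℤ) ∣ dt (v i) (v j) := by
      intro i hi j hj
      rw [hS, mem_filter] at hi hj
      have ui1 : (p : ℤ) ∣ (u i).1 := by rw [hq1]; exact hi.2.mul_right _
      have ui2 : (p : ℤ) ∣ (u i).2 := by rw [hq2]; exact hi.2.mul_right _
      have uj1 : (p : ℤ) ∣ (u j).1 := by rw [hq1]; exact hj.2.mul_right _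
      have uj2 : (p : ℤ) ∣ (u j).2 := by rw [hq2]; exact hj.2.mul_right _
      have fa : (p : ℤ) ∣ a * dt (v i) (v j) := by
        have : a * dt (v i) (v j) = (u i).1 * (v j).2 - (u j).1 * (v i).2 := by
          simp only [hu]; unfold dt; ring
        rw [this]; exact dvd_sub (ui1.mul_right _) (uj1.mul_right _)
      have fb : (p : ℤ) ∣ b * dt (v i) (v j) := by
        have : b * dt (v i) (v j) = (u j).1 * (v i).1 - (u i).1 * (v j).1 := by
          simp only [hu]; unfold dt; ring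
        rw [this]; exact dvd_sub (uj1.mul_right _) (ui1.mul_right _)
      have fc : (p : ℤ) ∣ c * dt (v i) (v j) := by
        have : c * dt (v i) (v j) = (u i).2 * (v j).2 - (u j).2 * (v i).2 := by
          simp only [hu]; unfold dt; ring
        rw [this]; exact dvd_sub (ui2.mul_right _) (uj2.mul_right _)
      have fd : (p : ℤ) ∣ d * dt (v i) (v j) := by
        have : d * dt (v i) (v j) = (u j).2 * (v i).1 - (u i).2 * (v j).1 := by
          simp only [hu]; unfold dt; ring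
        rw [this]; exact dvd_sub (uj2.mul_right _) (ui2.mul_right _)
      by_contra hnd
      exact hprim p hp ⟨(hpi.dvd_or_dvd fa).resolve_right hnd,
        (hpi.dvd_or_dvd fb).resolve_right hnd, (hpi.dvd_or_dvd fc).resolve_right hnd,
        (hpi.dvd_or_dvd fd).resolve_right hnd⟩
    have hout : ∀ i ∈ Sᶜ, ∀ j ∈ Sᶜ, (p : ℤ) ∣ dt (w i) (w j) := by
      intro i hi j hj
      rw [mem_compl, hS, mem_filter] at hi hj
      push Not at hi hj
      have h3 : (p : ℤ) ∣ q i * q j * dt (w i) (w j) := by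
        rw [hdtu]; exact hpd'.mul_right _
      rcases hpi.dvd_or_dvd h3 with h4 | h4
      · rcases hpi.dvd_or_dvd h4 with h5 | h5
        · exact absurd h5 (hi (mem_univ _))
        · exact absurd h5 (hj (mem_univ _))
      · exact h4
    have hcS : 2 * ∑ j ∈ S, θ j < ∑ j, θ j := by
      rcases S.eq_empty_or_nonempty with h | ⟨i0, hi0⟩
      · rw [h]; simpa using hI
      · refine lt_of_le_of_lt ?_ (hsv p hp i0)
        have : ∑ j ∈ S, θ j ≤ ∑ j ∈ univ.filter (fun j => (p : ℤ) ∣ dt (v i0) (v j)), θ j :=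
          sum_le_sum_of_subset fun j hj => mem_filter.2 ⟨mem_univ _, hin i0 hi0 j hj⟩
        omega
    have hcT : 2 * ∑ j ∈ Sᶜ, θ j < ∑ j, θ j := by
      rcases (Sᶜ).eq_empty_or_nonempty with h | ⟨i0, hi0⟩
      · rw [h]; simpa using hI
      · refine lt_of_le_of_lt ?_ (hsw p hp i0)
        have : ∑ j ∈ Sᶜ, θ j ≤ ∑ j ∈ univ.filter (fun j => (p : ℤ) ∣ dt (w i0) (w j)), θ j :=
          sum_le_sum_of_subset fun j hj => mem_filter.2 ⟨mem_univ _, hout i0 hi0 j hj⟩
        omega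
    have h5 := sum_add_sum_compl S θ
    omega
  have hdet' : a * d - b * c = 1 ∨ a * d - b * c = -1 := Int.natAbs_eq_iff.1 hdet |>.imp id id
  refine ⟨a, b, c, d, hdet', q, ?_, ?_⟩
  · intro i
    -- q i divides both coordinates of v i
    obtain ⟨r, s, hrs⟩ := hcv i
    have f1 : q i ∣ (a * d - b * c) * (v i).1 := by
      have : (a * d - b * c) * (v i).1 = d * (u i).1 - b * (u i).2 := by simp only [hu]; ring
      rw [this, hq1, hq2]
      exact dvd_sub ((Dvd.intro _ rfl).mul_left _) ((Dvd.intro _ rfl).mul_left _)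
    have f2 : q i ∣ (a * d - b * c) * (v i).2 := by
      have : (a * d - b * c) * (v i).2 = a * (u i).2 - c * (u i).1 := by simp only [hu]; ring
      rw [this, hq1, hq2]
      exact dvd_sub ((Dvd.intro _ rfl).mul_left _) ((Dvd.intro _ rfl).mul_left _)
    have f3 : q i ∣ (a * d - b * c) := by
      have : (a * d - b * c) = r * ((a * d - b * c) * (v i).1) + s * ((a * d - b * c) * (v i).2) := by
        calc (a * d - b * c) = (a * d - b * c) * (r * (v i).1 + s * (v i).2) := by rw [hrs, mul_one]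
          _ = _ := by ring
      rw [this]
      exact dvd_add (f1.mul_left _) (f2.mul_left _)
    have f4 : IsUnit (q i) := isUnit_of_dvd_unit f3 (Int.isUnit_iff_natAbs_eq.2 hdet)
    exact Int.isUnit_iff.1 f4
  · intro i
    have hqq : q i * q i = 1 := by
      have : q i = 1 ∨ q i = -1 := by
        obtain ⟨r, s, hrs⟩ := hcv i
        have f1 : q i ∣ (a * d - b * c) * (v i).1 := by
          have : (a * d - b * c) * (v i).1 = d * (u i).1 - b * (u i).2 := by simp only [hu]; ring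
          rw [this, hq1, hq2]
          exact dvd_sub ((Dvd.intro _ rfl).mul_left _) ((Dvd.intro _ rfl).mul_left _)
        have f2 : q i ∣ (a * d - b * c) * (v i).2 := by
          have : (a * d - b * c) * (v i).2 = a * (u i).2 - c * (u i).1 := by simp only [hu]; ring
          rw [this, hq1, hq2]
          exact dvd_sub ((Dvd.intro _ rfl).mul_left _) ((Dvd.intro _ rfl).mul_left _)
        have f3 : q i ∣ (a * d - b * c) := by
          have : (a * d - b * c) =
              r * ((a * d - b * c) * (v i).1) + s * ((a * d - b * c) * (v i).2) := by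
            calc (a * d - b * c) = (a * d - b * c) * (r * (v i).1 + s * (v i).2) := by
                  rw [hrs, mul_one]
              _ = _ := by ring
          rw [this]
          exact dvd_add (f1.mul_left _) (f2.mul_left _)
        exact Int.isUnit_iff.1 (isUnit_of_dvd_unit f3 (Int.isUnit_iff_natAbs_eq.2 hdet))
      rcases this with h | h <;> rw [h] <;> norm_num
    have g1 : q i * (u i).1 = (w i).1 := by rw [hq1, ← mul_assoc, hqq, one_mul]
    have g2 : q i * (u i).2 = (w i).2 := by rw [hq2, ← mul_assoc, hqq, one_mul]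
    exact Prod.ext g1.symm g2.symm


/-- existence of the stable model -/
theorem exists_stb (x : I → ℚ × ℚ) (hx : ∀ i j, i ≠ j → detQ (x i) (x j) ≠ 0)
    (hcard : 2 ≤ Fintype.card I) (θ : I → ℕ) (h2e : ∀ i, 2 * θ i ≤ ∑ j, θ j)
    (hodd : ¬ 2 ∣ ∑ j, θ j) :
    ∃ v : I → ℤ × ℤ, Rep x v ∧ (∀ i, IsCoprime (v i).1 (v i).2) ∧ Stb θ v := by
  classical
  have : Fintype (Mon fun i => 2 * θ i) := Fintype.ofFinite _
  obtain ⟨v, hrep, hco, hgcd⟩ := exists_gcd_one x hx hcard θ h2e
  refine ⟨v, hrep, hco, fun p hp i => ?_⟩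
  by_contra hcon
  push Not at hcon
  set S := univ.filter (fun j => (p : ℤ) ∣ dt (v i) (v j)) with hS
  have hlt : ∑ j, θ j < 2 * ∑ j ∈ S, θ j := by
    rcases Nat.lt_or_ge (∑ j, θ j) (2 * ∑ j ∈ S, θ j) with h | h
    · exact h
    · exact absurd ⟨_, le_antisymm hcon h⟩ hodd
  have hdvd : ∀ m : Mon (fun i => 2 * θ i), (p : ℤ) ∣ monZ v m := by
    intro m
    have h4 := degree_split S m
    have h5 := sum_snd m
    simp only [← mul_sum] at h4 h5
    have h6 : 0 < ∑ q : I × I, (if q.1 ∈ S ∧ q.2 ∈ S then m.1 q else 0) := by omega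
    obtain ⟨q, -, hq⟩ := exists_ne_zero_of_sum_ne_zero h6.ne'
    have hq' : (q.1 ∈ S ∧ q.2 ∈ S) ∧ m.1 q ≠ 0 := by
      by_cases h7 : q.1 ∈ S ∧ q.2 ∈ S
      · rw [if_pos h7] at hq; exact ⟨h7, hq⟩
      · rw [if_neg h7] at hq; exact absurd rfl hq
    obtain ⟨⟨h7, h8⟩, h9⟩ := hq'
    rw [hS, mem_filter] at h7 h8
    have h10 := dvd_dt_trans (hco i) p h7.2 h8.2
    refine dvd_trans ?_ (dvd_prod_of_mem _ (mem_univ q))
    exact dvd_pow h10 h9
  have h11 : (p : ℤ) ∣ Finset.univ.gcd (fun m : Mon (fun i => 2 * θ i) => monZ v m) :=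
    Finset.dvd_gcd fun m _ => hdvd m
  rw [hgcd] at h11
  exact (Nat.prime_iff_prime_int.1 hp).not_unit (isUnit_of_dvd_one h11)

theorem Stb.card_le {θ : I → ℕ} (hθ : ∀ i, 2 ≤ θ i) (hsum : ∑ i, θ i = 2 * Fintype.card I + 1)
    {v : I → ℤ × ℤ} (h : Stb θ v) (p : ℕ) (hp : p.Prime) (i : I) :
    2 * (univ.filter fun j => (p : ℤ) ∣ dt (v i) (v j)).card ≤ Fintype.card I := by
  have h1 := h p hp i
  have h2 : (univ.filter fun j => (p : ℤ) ∣ dt (v i) (v j)).card * 2 ≤
      ∑ j ∈ univ.filter (fun j => (p : ℤ) ∣ dt (v i) (v j)), θ j := by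
    rw [← smul_eq_mul]
    exact card_nsmul_le_sum _ _ _ fun j _ => hθ j
  omega

/-- the height is the maximum of the monomials -/
theorem hgt_le_iff {θ : I → ℕ} (hθ : ∀ i, 2 ≤ θ i) (hsum : ∑ i, θ i = 2 * Fintype.card I + 1)
    {x : I → ℚ × ℚ} {v : I → ℤ × ℤ} (hrep : Rep x v) (h : Stb θ v) (B : ℝ) :
    hgt (fun _ => 2) x ≤ B ↔ ∀ m : Mon (fun _ : I => 2), ((|monZ v m| : ℤ) : ℝ) ≤ B := by
  classical
  have : Fintype (Mon fun _ : I => 2 * 1) := Fintype.ofFinite _
  have : Nonempty (Mon fun _ : I => 2 * 1) := ⟨permMon (fun _ => 1) 1⟩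
  have hg := gcd_monZ (fun _ : I => 1) (fun S hS => by simpa using hS) (v := v)
    (fun p hp i => h.card_le hθ hsum p hp i)
  have e1 : hgt (fun _ : I => 2 * 1) x = ((⨆ m : Mon (fun _ : I => 2 * 1), |monZ v m| : ℤ) : ℝ) := by
    rw [hgt_rep _ hrep, Rat.mulHeight_eq_max_abs_of_gcd_eq_one hg]
  have e2 : hgt (fun _ : I => 2) x = ((⨆ m : Mon (fun _ : I => 2 * 1), |monZ v m| : ℤ) : ℝ) := e1
  rw [e2]
  constructor
  · intro h1 m
    refine le_trans ?_ h1
    have h2 : |monZ v m| ≤ ⨆ m : Mon (fun _ : I => 2 * 1), |monZ v m| :=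
      Finite.le_ciSup (fun m : Mon (fun _ : I => 2 * 1) => |monZ v m|) m
    exact_mod_cast h2
  · intro h1
    obtain ⟨m, hm⟩ := exists_eq_ciSup_of_finite (f := fun m : Mon (fun _ : I => 2 * 1) => |monZ v m|)
    rw [← hm]
    exact h1 m

end

end Pool.Agent.Y714.MA
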