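import Pool.Agent.Y714.MA.Nf

set_option autoImplicit false
set_option linter.unusedSectionVars false
set_option linter.unusedSimpArgs false

/-! Lattice points in trapezoids, and an averaging lemma for large primes. -/

namespace Pool.Agent.Y714.MA

open Finset Pool.Agent.Y714.ML

/-- integers in `[u, v)` -/
noncomputable def Iv (u v : ℝ) : Finset ℤ := Ico ⌈u⌉ ⌈v⌉

theorem mem_Iv {u v : ℝ} {a : ℤ} : a ∈ Iv u v ↔ u ≤ a ∧ a < v := by
  rw [Iv, mem_Ico, Int.ceil_le, Int.lt_ceil]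

theorem card_Iv (u v : ℝ) (huv : u ≤ v) :
    v - u - 1 ≤ ((Iv u v).card : ℝ) ∧ ((Iv u v).card : ℝ) ≤ v - u + 1 := by
  have h0 : ⌈u⌉ ≤ ⌈v⌉ := Int.ceil_mono huv
  have h1 : ((Iv u v).card : ℝ) = ⌈v⌉ - ⌈u⌉ := by
    rw [Iv, Int.card_Ico]
    have h2 : (((⌈v⌉ - ⌈u⌉).toNat : ℤ) : ℝ) = ((⌈v⌉ - ⌈u⌉ : ℤ) : ℝ) := by
      rw [Int.toNat_of_nonneg (by omega)]
    push_cast at h2
    rw [← h2]
  rw [h1]
  have a1 := Int.ceil_lt_add_one u
  have a2 := Int.le_ceil u
  have a3 := Int.ceil_lt_add_one v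
  have a4 := Int.le_ceil v
  constructor <;> linarith

theorem card_Iv_mod (u v : ℝ) (huv : u ≤ v) (q : ℕ) (hq : 0 < q) (α : ℤ) :
    (v - u) / q - 1 ≤ (((Iv u v).filter fun a => (q : ℤ) ∣ a - α).card : ℝ) ∧
    (((Iv u v).filter fun a => (q : ℤ) ∣ a - α).card : ℝ) ≤ (v - u) / q + 1 := by
  have hq' : (0 : ℝ) < q := by exact_mod_cast hq
  have h1 : (Iv u v).filter (fun a => (q : ℤ) ∣ a - α) =
      (Iv ((u - α) / q) ((v - α) / q)).image fun t => α + q * t := by
    ext a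
    rw [mem_filter, mem_Iv, mem_image]
    constructor
    · rintro ⟨⟨h2, h3⟩, t, ht⟩
      have ht' : (a : ℝ) - α = q * t := by
        have := congrArg (fun z : ℤ => (z : ℝ)) ht
        push_cast at this
        exact this
      refine ⟨t, ?_, by rw [← ht]; ring⟩
      rw [mem_Iv, div_le_iff₀ hq', lt_div_iff₀ hq']
      constructor <;> nlinarith
    · rintro ⟨t, ht, rfl⟩
      rw [mem_Iv, div_le_iff₀ hq', lt_div_iff₀ hq'] at ht
      push_cast
      exact ⟨⟨by linarith [ht.1], by linarith [ht.2]⟩, ⟨t, by ring⟩⟩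
  have h2 : ((Iv u v).filter (fun a => (q : ℤ) ∣ a - α)).card =
      (Iv ((u - α) / q) ((v - α) / q)).card := by
    rw [h1, card_image_of_injective]
    intro s t hst
    have : (q : ℤ) * s = q * t := by simpa using hst
    exact mul_left_cancel₀ (by exact_mod_cast hq.ne') this
  rw [h2]
  have h3 := card_Iv ((u - α) / q) ((v - α) / q) (by gcongr)
  have h4 : (v - α) / q - (u - α) / q = (v - u) / q := by ring
  rw [h4] at h3
  exact h3

/-- solutions of a linear congruence in an interval -/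
theorem card_Iv_lin (u v : ℝ) (huv : u ≤ v) (p : ℕ) (hp : p.Prime) (β γ : ℤ)
    (hβ : ¬ (p : ℤ) ∣ β) :
    (((Iv u v).filter fun a => (p : ℤ) ∣ γ - β * a).card : ℝ) ≤ (v - u) / p + 1 := by
  rcases ((Iv u v).filter fun a => (p : ℤ) ∣ γ - β * a).eq_empty_or_nonempty with h | ⟨a0, ha0⟩
  · rw [h, card_empty, Nat.cast_zero]
    have : (0 : ℝ) ≤ (v - u) / p := div_nonneg (by linarith) (Nat.cast_nonneg _)
    linarith
  · rw [mem_filter] at ha0
    refine le_trans ?_ (card_Iv_mod u v huv p hp.pos a0).2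
    have : ((Iv u v).filter fun a => (p : ℤ) ∣ γ - β * a) ⊆
        (Iv u v).filter fun a => (p : ℤ) ∣ a - a0 := by
      intro a ha
      rw [mem_filter] at ha ⊢
      refine ⟨ha.1, ?_⟩
      have h1 : (p : ℤ) ∣ β * (a - a0) := by
        have h2 := dvd_sub ha0.2 ha.2
        have e : γ - β * a0 - (γ - β * a) = β * (a - a0) := by ring
        rwa [e] at h2
      exact ((Nat.prime_iff_prime_int.1 hp).dvd_or_dvd h1).resolve_left hβ
    exact_mod_cast card_le_card this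

/-- the lattice points of a trapezoid -/
noncomputable def Tz (lam X u l : ℝ) : Finset (ℤ × ℤ) :=
  (Iv X (lam * X)).biUnion fun b => (Iv (b * u) (b * (u + l))).image fun a => (a, b)

theorem mem_Tz {lam X u l : ℝ} {z : ℤ × ℤ} :
    z ∈ Tz lam X u l ↔ (X ≤ z.2 ∧ z.2 < lam * X) ∧ (z.2 * u ≤ z.1 ∧ z.1 < z.2 * (u + l)) := by
  rw [Tz, mem_biUnion]
  constructor
  · rintro ⟨b, hb, hz⟩
    rw [mem_image] at hz
    obtain ⟨a, ha, rfl⟩ := hz
    exact ⟨mem_Iv.1 hb, mem_Iv.1 ha⟩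
  · rintro ⟨h1, h2⟩
    exact ⟨z.2, mem_Iv.2 h1, mem_image.2 ⟨z.1, mem_Iv.2 h2, rfl⟩⟩

theorem card_Tz_filter (lam X u l : ℝ) (Q : ℤ × ℤ → Prop) [DecidablePred Q] :
    ((Tz lam X u l).filter Q).card =
      ∑ b ∈ Iv X (lam * X), ((Iv (b * u) (b * (u + l))).filter fun a => Q (a, b)).card := by
  classical
  have h1 : (Tz lam X u l).filter Q = (Iv X (lam * X)).biUnion fun b =>
      ((Iv (b * u) (b * (u + l))).filter fun a => Q (a, b)).image fun a => (a, b) := by
    ext z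
    rw [mem_filter, mem_Tz, mem_biUnion]
    constructor
    · rintro ⟨⟨h1, h2⟩, h3⟩
      exact ⟨z.2, mem_Iv.2 h1, mem_image.2 ⟨z.1, mem_filter.2 ⟨mem_Iv.2 h2, h3⟩, rfl⟩⟩
    · rintro ⟨b, hb, hz⟩
      rw [mem_image] at hz
      obtain ⟨a, ha, rfl⟩ := hz
      rw [mem_filter] at ha
      exact ⟨⟨mem_Iv.1 hb, mem_Iv.1 ha.1⟩, ha.2⟩
  rw [h1, card_biUnion]
  · refine sum_congr rfl fun b _ => ?_
    rw [card_image_of_injective]
    intro a a' h
    exact (Prod.mk.inj h).1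
  · intro b _ b' _ hbb
    rw [Function.onFun, disjoint_left]
    intro z hz hz'
    rw [mem_image] at hz hz'
    obtain ⟨a, -, rfl⟩ := hz
    obtain ⟨a', -, h'⟩ := hz'
    exact hbb (Prod.mk.inj h').2.symm

section

variable {lam X u l Y : ℝ}

/-- the size conditions -/
structure Sz (lam X l Y : ℝ) : Prop where
  h1 : 1 < lam
  h2 : lam ≤ 2
  hl : 0 < l
  hX : 0 < X
  hY : 1 ≤ Y
  hYX : Y ≤ (lam - 1) * X
  hYl : Y ≤ X * l

/-- the volume -/
noncomputable def vol (lam X l : ℝ) : ℝ := (lam - 1) * X * (X * l)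

theorem Sz.vol_pos (h : Sz lam X l Y) : 0 < vol lam X l := by
  have := h.hX
  have := h.hl
  have : 0 < lam - 1 := by linarith [h.h1]
  unfold vol
  positivity

/-- rows -/
theorem Sz.row_le (h : Sz lam X l Y) (q : ℕ) (hq : 0 < q) (β : ℤ) :
    (((Iv X (lam * X)).filter fun b => (q : ℤ) ∣ b - β).card : ℝ) ≤
      (lam - 1) * X * (1 / q + 1 / Y) := by
  have h1 := (card_Iv_mod X (lam * X) (by nlinarith [h.h1, h.hX]) q hq β).2
  refine h1.trans ?_
  have hY : 0 < Y := by linarith [h.hY]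
  have h3 : 1 ≤ (lam - 1) * X * (1 / Y) := by
    rw [mul_one_div, le_div_iff₀ hY]
    linarith [h.hYX]
  have e : (lam * X - X) / q = (lam - 1) * X * (1 / q) := by ring
  rw [e]
  linarith

theorem Sz.row_ge (h : Sz lam X l Y) (q : ℕ) (hq : 0 < q) (β : ℤ) :
    (lam - 1) * X * (1 / q - 1 / Y) ≤
    (((Iv X (lam * X)).filter fun b => (q : ℤ) ∣ b - β).card : ℝ) := by
  have h1 := (card_Iv_mod X (lam * X) (by nlinarith [h.h1, h.hX]) q hq β).1
  refine le_trans ?_ h1
  have hY : 0 < Y := by linarith [h.hY]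
  have h3 : 1 ≤ (lam - 1) * X * (1 / Y) := by
    rw [mul_one_div, le_div_iff₀ hY]
    linarith [h.hYX]
  have e : (lam * X - X) / q = (lam - 1) * X * (1 / q) := by ring
  rw [e]
  linarith

theorem Sz.bpos (h : Sz lam X l Y) {b : ℤ} (hb : b ∈ Iv X (lam * X)) :
    0 < (b : ℝ) ∧ X ≤ b ∧ b ≤ lam * X := by
  rw [mem_Iv] at hb
  exact ⟨by linarith [hb.1, h.hX], hb.1, hb.2.le⟩

theorem Sz.col_le (h : Sz lam X l Y) (u : ℝ) {b : ℤ} (hb : b ∈ Iv X (lam * X)) (q : ℕ)
    (hq : 0 < q) (α : ℤ) :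
    (((Iv (b * u) (b * (u + l))).filter fun a => (q : ℤ) ∣ a - α).card : ℝ) ≤
      lam * (X * l) * (1 / q + 1 / Y) := by
  obtain ⟨h0, h1, h2⟩ := h.bpos hb
  have hl := h.hl
  have h3 := (card_Iv_mod (b * u) (b * (u + l)) (by nlinarith) q hq α).2
  refine h3.trans ?_
  have hY : 0 < Y := by linarith [h.hY]
  have hq' : (0 : ℝ) < q := by exact_mod_cast hq
  have h4 : 1 ≤ lam * (X * l) * (1 / Y) := by
    rw [mul_one_div, le_div_iff₀ hY]
    nlinarith [h.hYl, h.h1]
  have e : (b * (u + l) - b * u) / q = b * l * (1 / q) := by ring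
  rw [e, mul_add]
  have h5 : b * l * (1 / q) ≤ lam * (X * l) * (1 / q) := by
    have : b * l ≤ lam * (X * l) := by nlinarith
    exact mul_le_mul_of_nonneg_right this (by positivity)
  linarith

theorem Sz.col_ge (h : Sz lam X l Y) (u : ℝ) {b : ℤ} (hb : b ∈ Iv X (lam * X)) (q : ℕ)
    (hq : 0 < q) (α : ℤ) : X * l * (1 / q - 1 / Y) ≤
    (((Iv (b * u) (b * (u + l))).filter fun a => (q : ℤ) ∣ a - α).card : ℝ) := by
  obtain ⟨h0, h1, h2⟩ := h.bpos hb
  have hl := h.hl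
  have h3 := (card_Iv_mod (b * u) (b * (u + l)) (by nlinarith) q hq α).1
  refine le_trans ?_ h3
  have hY : 0 < Y := by linarith [h.hY]
  have hq' : (0 : ℝ) < q := by exact_mod_cast hq
  have h4 : 1 ≤ X * l * (1 / Y) := by
    rw [mul_one_div, le_div_iff₀ hY]
    linarith [h.hYl]
  have e : (b * (u + l) - b * u) / q = b * l * (1 / q) := by ring
  rw [e, mul_sub]
  have h5 : X * l * (1 / q) ≤ b * l * (1 / q) := by
    have : X * l ≤ b * l := by nlinarith
    exact mul_le_mul_of_nonneg_right this (by positivity)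
  linarith

theorem Sz.col_lin (h : Sz lam X l Y) (u : ℝ) {b : ℤ} (hb : b ∈ Iv X (lam * X)) (p : ℕ)
    (hp : p.Prime) (β γ : ℤ) (hβ : ¬ (p : ℤ) ∣ β) :
    (((Iv (b * u) (b * (u + l))).filter fun a => (p : ℤ) ∣ γ - β * a).card : ℝ) ≤
      lam * (X * l) * (1 / p + 1 / Y) := by
  obtain ⟨h0, h1, h2⟩ := h.bpos hb
  have hl := h.hl
  have h3 := card_Iv_lin (b * u) (b * (u + l)) (by nlinarith) p hp β γ hβ
  refine h3.trans ?_
  have hY : 0 < Y := by linarith [h.hY]
  have hq' : (0 : ℝ) < p := by exact_mod_cast hp.pos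
  have h4 : 1 ≤ lam * (X * l) * (1 / Y) := by
    rw [mul_one_div, le_div_iff₀ hY]
    nlinarith [h.hYl, h.h1]
  have e : (b * (u + l) - b * u) / p = b * l * (1 / p) := by ring
  rw [e, mul_add]
  have h5 : b * l * (1 / p) ≤ lam * (X * l) * (1 / p) := by
    have : b * l ≤ lam * (X * l) := by nlinarith
    exact mul_le_mul_of_nonneg_right this (by positivity)
  linarith

/-- all rows -/
theorem Sz.row_all (h : Sz lam X l Y) :
    ((Iv X (lam * X)).card : ℝ) ≤ (lam - 1) * X * 2 := by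
  have h1 := h.row_le 1 one_pos 0
  have h2 : ((Iv X (lam * X)).filter fun b => ((1 : ℕ) : ℤ) ∣ b - 0) = Iv X (lam * X) :=
    filter_true_of_mem fun b _ => by simp
  rw [h2] at h1
  refine h1.trans ?_
  have h3 : (lam - 1) * X * (1 / ((1 : ℕ) : ℝ) + 1 / Y) ≤ (lam - 1) * X * 2 := by
    have h4 : 0 ≤ (lam - 1) * X := by
      have := h.hY
      linarith [h.hYX]
    have h5 : 1 / Y ≤ 1 := (div_le_one (by linarith [h.hY])).2 h.hY
    refine mul_le_mul_of_nonneg_left ?_ h4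
    rw [Nat.cast_one]
    linarith
  exact h3

theorem Sz.col_all (h : Sz lam X l Y) (u : ℝ) {b : ℤ} (hb : b ∈ Iv X (lam * X)) :
    ((Iv (b * u) (b * (u + l))).card : ℝ) ≤ X * l * 4 := by
  have h1 := h.col_le u hb 1 one_pos 0
  have h2 : ((Iv (b * u) (b * (u + l))).filter fun b => ((1 : ℕ) : ℤ) ∣ b - 0) =
      Iv (b * u) (b * (u + l)) := filter_true_of_mem fun b _ => by simp
  rw [h2] at h1
  refine h1.trans ?_
  have hXl : 0 < X * l := mul_pos h.hX h.hl
  have h5 : 1 / Y ≤ 1 := (div_le_one (by linarith [h.hY])).2 h.hY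
  rw [Nat.cast_one, one_div_one]
  have h6 : 0 < 1 / Y := one_div_pos.2 (by linarith [h.hY])
  have h7 : lam * (1 + 1 / Y) ≤ 4 := by
    have := h.h2
    have := h.h1
    nlinarith
  calc lam * (X * l) * (1 + 1 / Y) = X * l * (lam * (1 + 1 / Y)) := by ring
    _ ≤ X * l * 4 := mul_le_mul_of_nonneg_left h7 hXl.le

theorem Sz.card_le (h : Sz lam X l Y) (u : ℝ) : ((Tz lam X u l).card : ℝ) ≤ 8 * vol lam X l := by
  have h1 := card_Tz_filter lam X u l (fun _ => True)
  simp only [filter_true] at h1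
  rw [h1]
  push_cast
  have h2 : ∑ b ∈ Iv X (lam * X), ((Iv (b * u) (b * (u + l))).card : ℝ) ≤
      ∑ b ∈ Iv X (lam * X), X * l * 4 := sum_le_sum fun b hb => h.col_all u hb
  refine h2.trans ?_
  rw [sum_const, nsmul_eq_mul]
  have h3 := h.row_all
  have hXl : 0 < X * l := mul_pos h.hX h.hl
  unfold vol
  nlinarith

/-- residue classes, upper bound -/
theorem Sz.res_le (h : Sz lam X l Y) (u : ℝ) (q : ℕ) (hq : 0 < q) (α β : ℤ) :
    (((Tz lam X u l).filter fun z => (q : ℤ) ∣ z.1 - α ∧ (q : ℤ) ∣ z.2 - β).card : ℝ) ≤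
      lam * vol lam X l * (1 / q + 1 / Y) ^ 2 := by
  rw [card_Tz_filter]
  push_cast
  have h0 : ∀ b ∈ Iv X (lam * X), (((Iv (b * u) (b * (u + l))).filter
      fun a => (q : ℤ) ∣ a - α ∧ (q : ℤ) ∣ b - β).card : ℝ) ≤
      if (q : ℤ) ∣ b - β then lam * (X * l) * (1 / q + 1 / Y) else 0 := by
    intro b hb
    split_ifs with h1
    · simp only [h1, and_true]
      exact h.col_le u hb q hq α
    · simp [h1]
  refine (sum_le_sum h0).trans ?_
  rw [← sum_filter, sum_const, nsmul_eq_mul]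
  have h1 := h.row_le q hq β
  have hq' : (0 : ℝ) < q := by exact_mod_cast hq
  have hY : 0 < Y := by linarith [h.hY]
  have h2 : 0 ≤ lam * (X * l) * (1 / q + 1 / Y) := by
    have := h.h1
    have := h.hX
    have := h.hl
    positivity
  calc _ ≤ ((lam - 1) * X * (1 / q + 1 / Y)) * (lam * (X * l) * (1 / q + 1 / Y)) :=
        mul_le_mul_of_nonneg_right h1 h2
    _ = _ := by unfold vol; ring

/-- residue classes, lower bound -/
theorem Sz.res_ge (h : Sz lam X l Y) (u : ℝ) (q : ℕ) (hq : 0 < q) (hqY : q ≤ Y) (α β : ℤ) :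
    vol lam X l * (1 / q - 1 / Y) ^ 2 ≤
    (((Tz lam X u l).filter fun z => (q : ℤ) ∣ z.1 - α ∧ (q : ℤ) ∣ z.2 - β).card : ℝ) := by
  rw [card_Tz_filter]
  push_cast
  have hq' : (0 : ℝ) < q := by exact_mod_cast hq
  have hY : 0 < Y := by linarith [h.hY]
  have h9 : 0 ≤ 1 / (q : ℝ) - 1 / Y := by
    have := one_div_le_one_div_of_le hq' hqY
    linarith
  have h0 : ∀ b ∈ Iv X (lam * X), (if (q : ℤ) ∣ b - β then (X * l) * (1 / q - 1 / Y) else 0) ≤
      (((Iv (b * u) (b * (u + l))).filter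
      fun a => (q : ℤ) ∣ a - α ∧ (q : ℤ) ∣ b - β).card : ℝ) := by
    intro b hb
    split_ifs with h1
    · simp only [h1, and_true]
      exact h.col_ge u hb q hq α
    · simp [h1]
  refine le_trans ?_ (sum_le_sum h0)
  rw [← sum_filter, sum_const, nsmul_eq_mul]
  have h1 := h.row_ge q hq β
  have h2 : 0 ≤ (X * l) * (1 / q - 1 / Y) := by
    have := h.hX
    have := h.hl
    positivity
  calc _ = ((lam - 1) * X * (1 / q - 1 / Y)) * ((X * l) * (1 / q - 1 / Y)) := by unfold vol; ring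
    _ ≤ _ := mul_le_mul_of_nonneg_right h1 h2

/-- divisibility of a determinant by a prime -/
theorem Sz.dt_le (h : Sz lam X l Y) (u : ℝ) (p : ℕ) (hp : p.Prime) (z : ℤ × ℤ)
    (hz : ¬ ((p : ℤ) ∣ z.1 ∧ (p : ℤ) ∣ z.2)) :
    (((Tz lam X u l).filter fun w => (p : ℤ) ∣ dt z w).card : ℝ) ≤
      8 * (1 / p + 1 / Y) * vol lam X l := by
  rw [card_Tz_filter]
  push_cast
  have hp' : (0 : ℝ) < p := by exact_mod_cast hp.pos
  have hp1 : (1 : ℝ) ≤ p := by exact_mod_cast hp.one_lt.le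
  have hY : 0 < Y := by linarith [h.hY]
  have hXl : 0 < X * l := mul_pos h.hX h.hl
  have hlX : 0 < (lam - 1) * X := by
    have := h.hYX
    linarith
  have hs : 0 < 1 / (p : ℝ) + 1 / Y := by positivity
  have h2 := h.h2
  by_cases hz2 : (p : ℤ) ∣ z.2
  · have hz1 : ¬ (p : ℤ) ∣ z.1 := fun h' => hz ⟨h', hz2⟩
    have h0 : ∀ b ∈ Iv X (lam * X), (((Iv (b * u) (b * (u + l))).filter
        fun a => (p : ℤ) ∣ dt z (a, b)).card : ℝ) ≤
        if (p : ℤ) ∣ b - 0 then X * l * 4 else 0 := by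
      intro b hb
      split_ifs with h1
      · refine le_trans ?_ (h.col_all u hb)
        exact_mod_cast card_filter_le _ _
      · rw [filter_false_of_mem]
        · simp
        · intro a _ ha
          unfold dt at ha
          simp only at ha
          have h3 : (p : ℤ) ∣ z.1 * b := by
            have := dvd_add ha (hz2.mul_right a)
            simpa using this
          rcases (Nat.prime_iff_prime_int.1 hp).dvd_or_dvd h3 with h4 | h4
          · exact hz1 h4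
          · exact h1 (by simpa using h4)
    refine (sum_le_sum h0).trans ?_
    rw [← sum_filter, sum_const, nsmul_eq_mul]
    have h1 := h.row_le p hp.pos 0
    calc _ ≤ ((lam - 1) * X * (1 / p + 1 / Y)) * (X * l * 4) :=
          mul_le_mul_of_nonneg_right h1 (by positivity)
      _ = 4 * ((1 / p + 1 / Y) * vol lam X l) := by unfold vol; ring
      _ ≤ 8 * ((1 / p + 1 / Y) * vol lam X l) := by
          have := mul_pos hs h.vol_pos
          linarith
      _ = _ := by ring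
  · have h0 : ∀ b ∈ Iv X (lam * X), (((Iv (b * u) (b * (u + l))).filter
        fun a => (p : ℤ) ∣ dt z (a, b)).card : ℝ) ≤ lam * (X * l) * (1 / p + 1 / Y) := by
      intro b hb
      exact h.col_lin u hb p hp z.2 (z.1 * b) hz2
    refine (sum_le_sum h0).trans ?_
    rw [sum_const, nsmul_eq_mul]
    have h1 := h.row_all
    have h3 : 0 ≤ lam * (X * l) * (1 / p + 1 / Y) := by
      have := h.h1
      positivity
    calc _ ≤ ((lam - 1) * X * 2) * (lam * (X * l) * (1 / p + 1 / Y)) :=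
          mul_le_mul_of_nonneg_right h1 h3
      _ = lam * (2 * ((1 / p + 1 / Y) * vol lam X l)) := by unfold vol; ring
      _ ≤ 2 * (2 * ((1 / p + 1 / Y) * vol lam X l)) := by
          have := mul_pos hs h.vol_pos
          nlinarith
      _ ≤ _ := by
          have := mul_pos hs h.vol_pos
          linarith

end

/-- the averaging lemma -/
theorem tp {α β : Type} [DecidableEq α] [DecidableEq β] (S : Finset α) (T : α → Finset β)
    (X : α → ℤ) (E : ℕ → α → β → Prop) (P0 K : ℕ) (Y vS vT c : ℝ) (hP0 : 0 < P0) (hY : 1 ≤ Y)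
    (hc : 0 ≤ c) (hvS : 0 ≤ vS) (hvT : 0 ≤ vT)
    (hX : ∀ z ∈ S, X z ≠ 0 ∧ (X z).natAbs ≤ 2 ^ K)
    (h1 : ∀ p : ℕ, p.Prime → P0 < p →
      ((S.filter fun z => (p : ℤ) ∣ X z).card : ℝ) ≤ c * (1 / p + 1 / Y) * vS)
    (h0 : (S.card : ℝ) ≤ c * vS) [∀ p z, DecidablePred (E p z)]
    [∀ z, DecidablePred fun t => ∃ p : ℕ, p.Prime ∧ P0 < p ∧ (p : ℤ) ∣ X z ∧ E p z t]
    (h2 : ∀ z ∈ S, ∀ p : ℕ, p.Prime → P0 < p → (p : ℤ) ∣ X z →
      (((T z).filter fun t => E p z t).card : ℝ) ≤ c * (1 / p + 1 / Y) * vT) :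
    ∑ z ∈ S, (((T z).filter fun t => ∃ p : ℕ, p.Prime ∧ P0 < p ∧ (p : ℤ) ∣ X z ∧ E p z t).card : ℝ) ≤
      4 * c ^ 2 * (1 / P0 + K / Y) * (vS * vT) := by
  classical
  have hY0 : 0 < Y := by linarith
  set M := ⌊Y⌋₊ with hM
  have hstep : ∀ z ∈ S, (((T z).filter fun t => ∃ p : ℕ, p.Prime ∧ P0 < p ∧ (p : ℤ) ∣ X z ∧
      E p z t).card : ℝ) ≤ (∑ p ∈ Ioc P0 M, (if p.Prime ∧ (p : ℤ) ∣ X z then 2 / (p : ℝ) else 0)) *
        (c * vT) + K * (2 / Y) * (c * vT) := by
    intro z hz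
    have hXz := (hX z hz).1
    set F := (X z).natAbs.primeFactors.filter (fun p => P0 < p) with hF
    have hFp : ∀ p ∈ F, p.Prime ∧ P0 < p ∧ (p : ℤ) ∣ X z := by
      intro p hp
      rw [hF, mem_filter, Nat.mem_primeFactors] at hp
      exact ⟨hp.1.1, hp.2, Int.natCast_dvd.2 hp.1.2.1⟩
    have hsub : (T z).filter (fun t => ∃ p : ℕ, p.Prime ∧ P0 < p ∧ (p : ℤ) ∣ X z ∧ E p z t) ⊆
        F.biUnion fun p => (T z).filter fun t => E p z t := by
      intro t ht
      rw [mem_filter] at ht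
      obtain ⟨ht1, p, hp, hpP, hpX, hE⟩ := ht
      rw [mem_biUnion]
      refine ⟨p, ?_, mem_filter.2 ⟨ht1, hE⟩⟩
      rw [hF, mem_filter, Nat.mem_primeFactors]
      exact ⟨⟨hp, Int.natCast_dvd.1 hpX, Int.natAbs_ne_zero.2 hXz⟩, hpP⟩
    have e1 : (((T z).filter fun t => ∃ p : ℕ, p.Prime ∧ P0 < p ∧ (p : ℤ) ∣ X z ∧
        E p z t).card : ℝ) ≤ ∑ p ∈ F, c * (1 / p + 1 / Y) * vT := by
      have e2 := (card_le_card hsub).trans card_biUnion_le
      have e3 : (((T z).filter fun t => ∃ p : ℕ, p.Prime ∧ P0 < p ∧ (p : ℤ) ∣ X z ∧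
        E p z t).card : ℝ) ≤ ∑ p ∈ F, (((T z).filter fun t => E p z t).card : ℝ) := by
        exact_mod_cast e2
      refine e3.trans (sum_le_sum fun p hp => ?_)
      obtain ⟨g1, g2, g3⟩ := hFp p hp
      exact h2 z hz p g1 g2 g3
    have e4 : ∀ p ∈ F, c * (1 / (p : ℝ) + 1 / Y) * vT ≤
        ((if p ≤ M then 2 / (p : ℝ) else 0) + 2 / Y) * (c * vT) := by
      intro p hp
      obtain ⟨g1, g2, g3⟩ := hFp p hp
      have hp0 : (0 : ℝ) < p := by exact_mod_cast g1.pos
      have e5 : 1 / (p : ℝ) + 1 / Y ≤ (if p ≤ M then 2 / (p : ℝ) else 0) + 2 / Y := by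
        have e7 : (0 : ℝ) < 1 / Y := by positivity
        have e8 : (2 : ℝ) / Y = 1 / Y + 1 / Y := by ring
        have e9 : (2 : ℝ) / p = 1 / p + 1 / p := by ring
        have e10 : (0 : ℝ) < 1 / p := by positivity
        split_ifs with hpM
        · linarith
        · have hpY : Y ≤ p := by
            have : M + 1 ≤ p := by omega
            have h3 := Nat.lt_floor_add_one Y
            have h4 : ((M + 1 : ℕ) : ℝ) ≤ p := by exact_mod_cast this
            push_cast at h4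
            linarith
          have := one_div_le_one_div_of_le hY0 hpY
          linarith
      calc c * (1 / (p : ℝ) + 1 / Y) * vT = (1 / (p : ℝ) + 1 / Y) * (c * vT) := by ring
        _ ≤ _ := mul_le_mul_of_nonneg_right e5 (mul_nonneg hc hvT)
    have e5 : (F.card : ℝ) ≤ K := by
      have g1 : F.card ≤ (X z).natAbs.primeFactors.card := card_filter_le _ _
      have g2 : 2 ^ (X z).natAbs.primeFactors.card ≤ (X z).natAbs := by
        calc 2 ^ (X z).natAbs.primeFactors.card ≤ ∏ p ∈ (X z).natAbs.primeFactors, p := by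
              refine Finset.pow_card_le_prod _ _ _ fun p hp => ?_
              exact (Nat.prime_of_mem_primeFactors hp).two_le
          _ ≤ (X z).natAbs := Nat.le_of_dvd (Int.natAbs_pos.2 hXz) (Nat.prod_primeFactors_dvd _)
      have g3 : 2 ^ (X z).natAbs.primeFactors.card ≤ 2 ^ K := g2.trans (hX z hz).2
      have g4 := (Nat.pow_le_pow_iff_right one_lt_two).1 g3
      exact_mod_cast g1.trans g4
    refine e1.trans ((sum_le_sum e4).trans ?_)
    rw [← sum_mul, sum_add_distrib, sum_const, nsmul_eq_mul]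
    have e6 : ∑ p ∈ F, (if p ≤ M then 2 / (p : ℝ) else 0) ≤
        ∑ p ∈ Ioc P0 M, (if p.Prime ∧ (p : ℤ) ∣ X z then 2 / (p : ℝ) else 0) := by
      rw [← sum_filter, ← sum_filter]
      refine sum_le_sum_of_subset_of_nonneg ?_ fun p _ _ => by positivity
      intro p hp
      rw [mem_filter] at hp
      obtain ⟨g1, g2, g3⟩ := hFp p hp.1
      rw [mem_filter, mem_Ioc]
      exact ⟨⟨g2, hp.2⟩, g1, g3⟩
    have e7 : 0 ≤ c * vT := mul_nonneg hc hvT
    have e8 : (F.card : ℝ) * (2 / Y) ≤ K * (2 / Y) := mul_le_mul_of_nonneg_right e5 (by positivity)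
    nlinarith
  refine (sum_le_sum hstep).trans ?_
  rw [sum_add_distrib, ← sum_mul, sum_comm, sum_const, nsmul_eq_mul]
  have f1 : ∑ p ∈ Ioc P0 M, ∑ z ∈ S, (if p.Prime ∧ (p : ℤ) ∣ X z then 2 / (p : ℝ) else 0) ≤
      4 * c * vS * (1 / P0) := by
    have f2 : ∀ p ∈ Ioc P0 M, ∑ z ∈ S, (if p.Prime ∧ (p : ℤ) ∣ X z then 2 / (p : ℝ) else 0) ≤
        4 * c * vS * (1 / (p : ℝ) ^ 2) := by
      intro p hp
      rw [mem_Ioc] at hp
      have hp0 : (0 : ℝ) < p := by
        have : 0 < p := by omega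
        exact_mod_cast this
      by_cases hpp : p.Prime
      · simp only [hpp, true_and]
        rw [← sum_filter, sum_const, nsmul_eq_mul]
        have f3 := h1 p hpp hp.1
        have f4 : 1 / Y ≤ 1 / (p : ℝ) := by
          refine one_div_le_one_div_of_le hp0 ?_
          have : (p : ℝ) ≤ M := by exact_mod_cast hp.2
          exact this.trans (Nat.floor_le hY0.le)
        have f5 : c * (1 / (p : ℝ) + 1 / Y) * vS ≤ c * (2 / (p : ℝ)) * vS := by
          have : 1 / (p : ℝ) + 1 / Y ≤ 2 / p := by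
            have : (2 : ℝ) / p = 1 / p + 1 / p := by ring
            linarith
          gcongr
        calc _ ≤ c * (2 / (p : ℝ)) * vS * (2 / p) :=
              mul_le_mul_of_nonneg_right (f3.trans f5) (by positivity)
          _ = _ := by field_simp; ring
      · simp only [hpp, false_and, if_false, sum_const_zero]
        positivity
    refine (sum_le_sum f2).trans ?_
    rw [← mul_sum]
    exact mul_le_mul_of_nonneg_left (sum_inv_sq P0 M hP0) (by positivity)
  have f6 : (S.card : ℝ) * (K * (2 / Y) * (c * vT)) ≤ c * vS * (K * (2 / Y) * (c * vT)) :=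
    mul_le_mul_of_nonneg_right h0 (by positivity)
  have f7 : (∑ p ∈ Ioc P0 M, ∑ z ∈ S, (if p.Prime ∧ (p : ℤ) ∣ X z then 2 / (p : ℝ) else 0)) *
      (c * vT) ≤ 4 * c * vS * (1 / P0) * (c * vT) :=
    mul_le_mul_of_nonneg_right f1 (mul_nonneg hc hvT)
  have f8 : c * vS * (K * (2 / Y) * (c * vT)) = 2 * c ^ 2 * (K / Y) * (vS * vT) := by ring
  have f9 : 4 * c * vS * (1 / P0) * (c * vT) = 4 * c ^ 2 * (1 / P0) * (vS * vT) := by ring
  have f10 : 0 ≤ 2 * c ^ 2 * (K / Y) * (vS * vT) := by positivity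
  have f11 : 4 * c ^ 2 * (1 / P0 + K / Y) * (vS * vT) =
      4 * c ^ 2 * (1 / P0) * (vS * vT) + 2 * (2 * c ^ 2 * (K / Y) * (vS * vT)) := by ring
  rw [f11]
  linarith

end Pool.Agent.Y714.MA
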